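import Pool.Agent.Helper39.CX.OMG
import Pool.Agent.Helper39.C75.LineC

/-!
Row CER: regions at the frontier of `Ω` give `ZF p q r x0`.
-/

set_option autoImplicit false
noncomputable section
namespace Pool.Agent.Helper6.MONO

open Polynomial Filter Topology
open Pool.Agent.Helper39.C75

/-! ### words -/

theorem cer_dw_append (t : Fin 3 × Fin 3 × Fin 3) (ms ms' : List ℕ) :
    dw t (ms ++ ms') = dw t ms ++ dw (sD t ms) ms' := by
  induction ms generalizing t with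
  | nil => obtain ⟨n, a, b⟩ := t; simp [dw, sD]
  | cons m ms ih =>
    obtain ⟨n, a, b⟩ := t
    simp [dw, sD, ih, List.append_assoc]

theorem cer_sD_append (t : Fin 3 × Fin 3 × Fin 3) (ms ms' : List ℕ) :
    sD t (ms ++ ms') = sD (sD t ms) ms' := by
  induction ms generalizing t with
  | nil => obtain ⟨n, a, b⟩ := t; simp [sD]
  | cons m ms ih =>
    obtain ⟨n, a, b⟩ := t
    simp [sD, ih]

theorem cer_gact_append (G : Fin 3 → Fin 3 → ℂ) (u v : List (Fin 3)) (x : Fin 3 → ℂ) :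
    gact G (u ++ v) x = gact G v (gact G u x) := by
  simp [gact, List.foldl_append]

/-! ### paths of the automaton -/

/-- a path of blocks -/
inductive BPath {S B : Type} (src tgt : B → S) : S → List B → S → Prop
  | nil (s : S) : BPath src tgt s [] s
  | cons (b : B) {bs : List B} {s' : S} (h : BPath src tgt (tgt b) bs s') :
      BPath src tgt (src b) (b :: bs) s'

theorem bpath_sD {S B : Type} {src tgt : B → S} (st : S → Fin 3 × Fin 3 × Fin 3)
    (runs : B → List ℕ) (hst : ∀ b, st (tgt b) = sD (st (src b)) (runs b)) {s s' : S}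
    {bs : List B} (h : BPath src tgt s bs s') :
    st s' = sD (st s) (bs.map runs).flatten := by
  induction h with
  | nil s =>
    generalize st s = t
    obtain ⟨n, a, b⟩ := t
    simp [sD]
  | cons b h ih =>
    rw [List.map_cons, List.flatten_cons, cer_sD_append, ← hst, ih]

/-- the data which link the chart to the window coordinates -/
structure Link (p q r : ℕ) (x0 : ℝ) {S B : Type} (src tgt : B → S)
    (M : B → ℂ → Matrix (Fin 3) (Fin 3) ℂ) (T : S → ℂ → Matrix (Fin 3) (Fin 3) ℂ)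
    (st : S → Fin 3 × Fin 3 × Fin 3) (runs : B → List ℕ) : Prop where
  hst : ∀ b, st (tgt b) = sD (st (src b)) (runs b)
  lnk : ∀ b z, InX x0 z → ∃ f : ℂ, f ≠ 0 ∧ ∀ X : V3,
    (M b (zw z)).mulVec ((T (src b) (zw z)).mulVec X) =
      f • (T (tgt b) (zw z)).mulVec (gact (wG (cw p q r) z) (dw (st (src b)) (runs b)) X)
  first : ∀ s z, InX x0 z → ∃ f : ℂ, f ≠ 0 ∧ ∀ X : V3,
    (T s (zw z)).mulVec X 0 = f * X (st s).2.2
  bound : ∃ K : ℝ, ∀ s z, ‖z‖ = 1 → x0 < 2 * z.re → ∀ X : V3,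
    ‖X‖ ≤ K * ‖(T s (zw z)).mulVec X‖ ∧ ‖(T s (zw z)).mulVec X 0‖ ≤ K * ‖X (st s).2.2‖

theorem cer_path_chain {p q r : ℕ} {x0 : ℝ} {S B : Type} {src tgt : B → S}
    {M : B → ℂ → Matrix (Fin 3) (Fin 3) ℂ} {T : S → ℂ → Matrix (Fin 3) (Fin 3) ℂ}
    {st : S → Fin 3 × Fin 3 × Fin 3} {runs : B → List ℕ}
    (L : Link p q r x0 src tgt M T st runs) (Start : S → (ℂ → Fin 3 → ℂ) → Prop)
    {s s' : S} {bs : List B} (h : BPath src tgt s bs s') :
    ∀ (v : ℂ → Fin 3 → ℂ) (X : ℂ → V3), Chain src tgt M Start s v →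
      (∀ z, InX x0 z → ∃ f : ℂ, f ≠ 0 ∧ v (zw z) = f • (T s (zw z)).mulVec (X z)) →
      ∃ v', Chain src tgt M Start s' v' ∧ ∀ z, InX x0 z → ∃ f : ℂ, f ≠ 0 ∧
        v' (zw z) = f • (T s' (zw z)).mulVec
          (gact (wG (cw p q r) z) (dw (st s) (bs.map runs).flatten) (X z)) := by
  induction h with
  | nil s =>
    intro v X hv hX
    refine ⟨v, hv, fun z hz => ?_⟩
    obtain ⟨f, hf, hfv⟩ := hX z hz
    refine ⟨f, hf, ?_⟩
    have h1 : dw (st s) ([] : List ℕ) = [] := by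
      generalize st s = t
      obtain ⟨n, a, b⟩ := t
      simp [dw]
    rw [List.map_nil, List.flatten_nil, h1]
    exact hfv
  | cons b h ih =>
    intro v X hv hX
    obtain ⟨v', hv', hX'⟩ := ih (fun w => (M b w).mulVec (v w))
      (fun z => gact (wG (cw p q r) z) (dw (st (src b)) (runs b)) (X z)) (Chain.step b hv) (by
        intro z hz
        obtain ⟨f, hf, hfv⟩ := hX z hz
        obtain ⟨g, hg, hgl⟩ := L.lnk b z hz
        refine ⟨f * g, mul_ne_zero hf hg, ?_⟩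
        show (M b (zw z)).mulVec (v (zw z)) = _
        rw [hfv, Matrix.mulVec_smul, hgl, smul_smul])
    refine ⟨v', hv', fun z hz => ?_⟩
    obtain ⟨f, hf, hfv⟩ := hX' z hz
    refine ⟨f, hf, ?_⟩
    rw [hfv, List.map_cons, List.flatten_cons, cer_dw_append, cer_gact_append, ← L.hst]

theorem inX_of_norm {x0 : ℝ} {z : ℂ} (h1 : ‖z‖ = 1) (h2 : x0 < 2 * z.re) : InX x0 z := by
  have hz : z ≠ 0 := by
    rintro rfl
    simp at h1
  refine ⟨hz, ?_⟩
  have h3 : z⁻¹ = star z := by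
    rw [Complex.inv_def, Complex.normSq_eq_norm_sq, h1]
    simp
  rw [h3, Complex.add_re]
  have h4 : (star z).re = z.re := rfl
  rw [h4]
  linarith

/-- ROW CER. -/
theorem zf_of_regions {p q r : ℕ} {x0 : ℝ} {S B : Type} {src tgt : B → S}
    {M : B → ℂ → Matrix (Fin 3) (Fin 3) ℂ} {T : S → ℂ → Matrix (Fin 3) (Fin 3) ℂ}
    {st : S → Fin 3 × Fin 3 × Fin 3} {runs : B → List ℕ}
    (L : Link p q r x0 src tgt M T st runs) (Start : S → (ℂ → Fin 3 → ℂ) → Prop)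
    {Ω : Set ℂ} (hΩ : IsOpen Ω) (hb : Bornology.IsBounded Ω)
    (hsub : ∀ z, InX x0 z → zw z ∈ Ω)
    (hM : ∀ b i j, ContinuousOn (fun w => M b w i j) (closure Ω) ∧
      DifferentiableOn ℂ (fun w => M b w i j) Ω)
    (hstart : ∀ s v, Start s v → Reg Ω v ∧ ∀ w ∈ closure Ω, v w 0 ≠ 0)
    (rk : B → ℕ) (htreat : ∀ b, RTreat src tgt M Start Ω rk b)
    (C : ℝ) (hC : ∀ s j, ∀ w ∈ frontier Ω, ∃ R, RCert src tgt M Start w R ∧
      ∀ v ∈ R s, ‖v j‖ ≤ C * ‖v 0‖)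
    (s0 : (Fin 3 × Fin 3 × Fin 3) → S) (hs0 : ∀ t, st (s0 t) = t)
    (F : (Fin 3 × Fin 3 × Fin 3) → Fin 3 → Fin 3 → ℝ[X])
    (hLI : ∀ (n a b : Fin 3), Dist n a b → ∀ z : ℂ, ‖z‖ = 1 → x0 ≤ 2 * z.re →
      LinearIndependent ℂ (fun i => evv (F (n, a, b) i) z))
    (hF : ∀ (n a b : Fin 3), Dist n a b → ∀ i : Fin 3, ∃ v, Start (s0 (n, a, b)) v ∧
      ∀ z, InX x0 z → ∃ f : ℂ, f ≠ 0 ∧
        v (zw z) = f • (T (s0 (n, a, b)) (zw z)).mulVec (evv (F (n, a, b) i) z))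
    (parse : ∀ (n a b : Fin 3), Dist n a b → ∀ ms : List ℕ, okD p q r false (n, a, b) ms →
      ∃ (bs : List B) (s' : S), BPath src tgt (s0 (n, a, b)) bs s' ∧
        (bs.map runs).flatten = ms) : ZF p q r x0 := by
  obtain ⟨K, hK⟩ := L.bound
  refine ⟨F, |K| * (|C| + 1) * |K|, hLI, fun n a b hd ms hms i => ?_⟩
  obtain ⟨bs, s', hp, hbs⟩ := parse n a b hd ms hms
  obtain ⟨v, hv, hvz⟩ := hF n a b hd i
  obtain ⟨v', hv', hX'⟩ := cer_path_chain L Start hp v (fun z => evv (F (n, a, b) i) z)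
    (Chain.start hv) hvz
  have hst' : (sD (n, a, b) ms) = st s' := by
    rw [bpath_sD st runs L.hst hp, hs0, hbs]
  rw [hs0, hbs] at hX'
  have hzf := zeroFree_of_regions src tgt M Start hΩ hb hM hstart rk htreat s' v' hv'
  refine ⟨fun z hz h0 => ?_, fun z hz1 hz2 => ?_⟩
  · obtain ⟨f, hf, hfv⟩ := hX' z hz
    obtain ⟨g, hg, hgT⟩ := L.first s' z hz
    apply hzf (zw z) (subset_closure (hsub z hz))
    rw [hfv, Pi.smul_apply, smul_eq_mul, hgT, ← hst', h0, mul_zero, mul_zero]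
  · have hz := inX_of_norm hz1 hz2
    obtain ⟨f, hf, hfv⟩ := hX' z hz
    set Y : V3 := gact (wG (cw p q r) z) (dw (n, a, b) ms) (evv (F (n, a, b) i) z) with hY
    obtain ⟨hK1, hK2⟩ := hK s' z hz1 hz2 Y
    have hbd : ∀ j, ‖v' (zw z) j‖ ≤ C * ‖v' (zw z) 0‖ := fun j =>
      bound_of_regions src tgt M Start hΩ hb hM hstart rk htreat s' C j (hC s' j) v' hv' (zw z)
        (subset_closure (hsub z hz))
    have hfp : 0 < ‖f‖ := norm_pos_iff.2 hf
    have hTY : ‖(T s' (zw z)).mulVec Y‖ ≤ (|C| + 1) * ‖(T s' (zw z)).mulVec Y 0‖ := by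
      rw [pi_norm_le_iff_of_nonneg (by positivity)]
      intro j
      have h1 := hbd j
      rw [hfv, Pi.smul_apply, Pi.smul_apply, smul_eq_mul, smul_eq_mul, norm_mul, norm_mul] at h1
      have h2 : ‖f‖ * ‖(T s' (zw z)).mulVec Y j‖ ≤ ‖f‖ * (C * ‖(T s' (zw z)).mulVec Y 0‖) := by
        calc ‖f‖ * ‖(T s' (zw z)).mulVec Y j‖ ≤ C * (‖f‖ * ‖(T s' (zw z)).mulVec Y 0‖) := h1
          _ = ‖f‖ * (C * ‖(T s' (zw z)).mulVec Y 0‖) := by ring
      have h3 := le_of_mul_le_mul_left h2 hfp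
      refine h3.trans ?_
      have h4 : C ≤ |C| + 1 := by linarith [le_abs_self C]
      exact mul_le_mul_of_nonneg_right h4 (norm_nonneg _)
    rw [hst']
    have hK0 : K ≤ |K| := le_abs_self K
    calc ‖Y‖ ≤ K * ‖(T s' (zw z)).mulVec Y‖ := hK1
      _ ≤ |K| * ‖(T s' (zw z)).mulVec Y‖ := mul_le_mul_of_nonneg_right hK0 (norm_nonneg _)
      _ ≤ |K| * ((|C| + 1) * ‖(T s' (zw z)).mulVec Y 0‖) :=
        mul_le_mul_of_nonneg_left hTY (abs_nonneg _)
      _ ≤ |K| * ((|C| + 1) * (|K| * ‖Y (st s').2.2‖)) := by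
        refine mul_le_mul_of_nonneg_left (mul_le_mul_of_nonneg_left ?_ (by positivity))
          (abs_nonneg _)
        exact hK2.trans (mul_le_mul_of_nonneg_right hK0 (norm_nonneg _))
      _ = |K| * (|C| + 1) * |K| * ‖Y (st s').2.2‖ := by ring

end Pool.Agent.Helper6.MONO
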