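import Pool.Agent.Helper39.CX.SWI

/-!
Types of the last run, and the block certificate of the global scheme from tests for these types.
-/

set_option autoImplicit false
noncomputable section
namespace Pool.Agent.Helper39.SLT

open Pool.Agent.Helper6.MONO (nxD sD okD mm LNI_mm)
open Pool.Agent.Helper21.SUP
open Pool.Agent.Helper21.MIR
open Pool.Agent.Helper39.C75

/-- the type of the last run: two letters, three letters, `4 ≤ m < M`, full with `m = M ≥ 4` -/
inductive T4 : Type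
  | two
  | three
  | oth
  | full
  deriving DecidableEq

/-- the types which occur when the star just left has order `M'` -/
def T4.ok (M' : ℕ) : T4 → Prop
  | T4.two => True
  | T4.three => True
  | T4.oth => 5 ≤ M'
  | T4.full => 4 ≤ M'

/-- the least length of the next run -/
def T4.low (M' : ℕ) : T4 → ℕ
  | T4.two => 2
  | T4.three => if M' = 3 then 3 else 2
  | T4.oth => 2
  | T4.full => 3

/-- the type after a run of `m` letters in a star of order `M` -/
def T4.next (M m : ℕ) : T4 :=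
  if m = 2 then T4.two else if m = 3 then T4.three else if m = M then T4.full else T4.oth

/-- the order of the star just left -/
def ML (p q r : ℕ) (s : GS) : ℕ := mm p q r s.1 s.2.2

/-- the regions of the automaton states -/
def reg (p q r : ℕ) (R : GS → T4 → Set (Fin 3 → ℂ)) : SSt Ty → Set (Fin 3 → ℂ)
  | (s, f, some Ty.B) => {v | f = false ∧ v ∈ R s T4.two}
  | (s, f, some Ty.A) => {v | f = decide (3 = ML p q r s) ∧ v ∈ R s T4.three}
  | (s, f, some Ty.o) => {v | (f = true ∧ 4 ≤ ML p q r s ∧ v ∈ R s T4.full) ∨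
      (f = false ∧ 5 ≤ ML p q r s ∧ v ∈ R s T4.oth)}
  | (s, f, none) => {v | f = false ∧ 4 ≤ ML p q r s ∧ v ∈ R s T4.two ∧ v ∈ R s T4.three}
  | (_, _, some (Ty.P _)) => ∅
  | (_, _, some (Ty.Q _)) => ∅

theorem isRegion_empty : IsRegion (∅ : Set (Fin 3 → ℂ)) :=
  ⟨fun _ h => h.elim, fun _ _ _ h => h.elim, fun _ _ _ _ h => h.elim⟩

theorem isRegion_and {P : Prop} {R : Set (Fin 3 → ℂ)} (h : IsRegion R) :
    IsRegion {v | P ∧ v ∈ R} :=
  ⟨fun v hv => h.ne0 v hv.2, fun c v hc hv => ⟨hv.1, h.smul c v hc hv.2⟩,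
    fun s v v' hs hv hv' h1 h1' => ⟨hv.1, h.comb s v v' hs hv.2 hv'.2 h1 h1'⟩⟩

variable {p q r : ℕ} {R : GS → T4 → Set (Fin 3 → ℂ)}

theorem isRegion_reg (h : ∀ s T, IsRegion (R s T)) (σ : SSt Ty) : IsRegion (reg p q r R σ) := by
  obtain ⟨s, f, o⟩ := σ
  match o with
  | some Ty.B => exact isRegion_and (h s T4.two)
  | some Ty.A => exact isRegion_and (h s T4.three)
  | some (Ty.P _) => exact isRegion_empty
  | some (Ty.Q _) => exact isRegion_empty
  | none =>
    have h2 := h s T4.two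
    have h3 := h s T4.three
    exact ⟨fun v hv => h2.ne0 v hv.2.2.1,
      fun c v hc hv => ⟨hv.1, hv.2.1, h2.smul c v hc hv.2.2.1, h3.smul c v hc hv.2.2.2⟩,
      fun s v v' hs hv hv' h1 h1' => ⟨hv.1, hv.2.1, h2.comb s v v' hs hv.2.2.1 hv'.2.2.1 h1 h1',
        h3.comb s v v' hs hv.2.2.2 hv'.2.2.2 h1 h1'⟩⟩
  | some Ty.o =>
    have h2 := h s T4.full
    have h3 := h s T4.oth
    refine ⟨fun v hv => ?_, fun c v hc hv => ?_, fun t v v' ht hv hv' h1 h1' => ?_⟩
    · rcases hv with ⟨-, -, h4⟩ | ⟨-, -, h4⟩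
      · exact h2.ne0 v h4
      · exact h3.ne0 v h4
    · rcases hv with ⟨h4, h5, h6⟩ | ⟨h4, h5, h6⟩
      · exact Or.inl ⟨h4, h5, h2.smul c v hc h6⟩
      · exact Or.inr ⟨h4, h5, h3.smul c v hc h6⟩
    · rcases hv with ⟨h4, h5, h6⟩ | ⟨h4, h5, h6⟩
      · rcases hv' with ⟨-, -, h7⟩ | ⟨h7, -, -⟩
        · exact Or.inl ⟨h4, h5, h2.comb t v v' ht h6 h7 h1 h1'⟩
        · rw [h4] at h7; cases h7
      · rcases hv' with ⟨h7, -, -⟩ | ⟨-, -, h7⟩
        · rw [h4] at h7; cases h7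
        · exact Or.inr ⟨h4, h5, h3.comb t v v' ht h6 h7 h1 h1'⟩

theorem mem_any {s : GS} {f : Bool} {o : Option Ty} {v : Fin 3 → ℂ}
    (hv : v ∈ reg p q r R (s, f, o)) : ∃ T : T4, T.ok (ML p q r s) ∧ v ∈ R s T := by
  match o, hv with
  | some Ty.B, hv => exact ⟨T4.two, trivial, hv.2⟩
  | some Ty.A, hv => exact ⟨T4.three, trivial, hv.2⟩
  | some (Ty.P _), hv => exact hv.elim
  | some (Ty.Q _), hv => exact hv.elim
  | none, hv => exact ⟨T4.two, trivial, hv.2.2.1⟩
  | some Ty.o, hv =>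
    rcases hv with ⟨-, h5, h6⟩ | ⟨-, h5, h6⟩
    · exact ⟨T4.full, h5, h6⟩
    · exact ⟨T4.oth, h5, h6⟩

theorem mem_notA {s : GS} {f : Bool} {o : Option Ty} {v : Fin 3 → ℂ}
    (hv : v ∈ reg p q r R (s, f, o)) (ho : o ≠ some Ty.A) :
    ∃ T : T4, T.ok (ML p q r s) ∧ T ≠ T4.three ∧ v ∈ R s T := by
  match o, hv, ho with
  | some Ty.B, hv, _ => exact ⟨T4.two, trivial, by decide, hv.2⟩
  | some Ty.A, _, ho => exact absurd rfl ho
  | some (Ty.P _), hv, _ => exact hv.elim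
  | some (Ty.Q _), hv, _ => exact hv.elim
  | none, hv, _ => exact ⟨T4.two, trivial, by decide, hv.2.2.1⟩
  | some Ty.o, hv, _ =>
    rcases hv with ⟨-, h5, h6⟩ | ⟨-, h5, h6⟩
    · exact ⟨T4.full, h5, by decide, h6⟩
    · exact ⟨T4.oth, h5, by decide, h6⟩

theorem mem_low {s : GS} {o : Option Ty} {v : Fin 3 → ℂ}
    (hv : v ∈ reg p q r R (s, false, o)) :
    ∃ T : T4, T.ok (ML p q r s) ∧ T.low (ML p q r s) ≤ 2 ∧ (o ≠ some Ty.B → T ≠ T4.two) ∧
      v ∈ R s T := by
  match o, hv with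
  | some Ty.B, hv => exact ⟨T4.two, trivial, le_rfl, fun h => absurd rfl h, hv.2⟩
  | some Ty.A, hv =>
    have h1 : ¬ (ML p q r s = 3) := by
      intro h
      have h2 := hv.1
      rw [h] at h2
      exact absurd h2 (by decide)
    refine ⟨T4.three, trivial, ?_, fun _ => by decide, hv.2⟩
    show (if ML p q r s = 3 then 3 else 2) ≤ 2
    rw [if_neg h1]
  | some (Ty.P _), hv => exact hv.elim
  | some (Ty.Q _), hv => exact hv.elim
  | none, hv =>
    have h1 : ¬ (ML p q r s = 3) := by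
      have := hv.2.1
      omega
    refine ⟨T4.three, trivial, ?_, fun _ => by decide, hv.2.2.2⟩
    show (if ML p q r s = 3 then 3 else 2) ≤ 2
    rw [if_neg h1]
  | some Ty.o, hv =>
    rcases hv with ⟨h4, -, -⟩ | ⟨-, h5, h6⟩
    · cases h4
    · exact ⟨T4.oth, h5, le_rfl, fun _ => by decide, h6⟩

theorem mm_symm' (p q r : ℕ) (i j : Fin 3) : mm p q r i j = mm p q r j i := by
  fin_cases i <;> fin_cases j <;> simp [mm]

theorem ML_nx (p q r : ℕ) (s : GS) (m : ℕ) : ML p q r (nx s m) = mm p q r s.1 s.2.1 := by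
  rcases Nat.mod_two_eq_zero_or_one m with h | h
  · rw [nx_even s m h]
    exact mm_symm' p q r s.2.1 s.1
  · rw [nx_odd s m h]
    rfl

theorem fD_rep (p q r : ℕ) (f : Bool) (s : GS) (x k : ℕ) :
    fD p q r f s (List.replicate (k + 1) x) =
      decide (x = ML p q r (sD s (List.replicate (k + 1) x))) := by
  rw [List.replicate_succ', fD_append, sD_append, sD_cons, sD_nil, ML_nx]
  rfl

theorem ML_ge (hp : 3 ≤ p) (hq : 3 ≤ q) (hr : 3 ≤ r) {s : GS} (hs : DG s) : 3 ≤ ML p q r s :=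
  LNI_mm hp hq hr _ _ hs.2.2.symm

/-- THE BLOCK CERTIFICATE from tests for the types of the last run -/
theorem typ_cert (hp : 3 ≤ p) (hq : 3 ≤ q) (hr : 3 ≤ r) {Y : Modes}
    (hA : ∀ s, Y.A s = true) (hB : ∀ s, Y.B s = true) (hC : ∀ s m, Y.C s m = false)
    {ga gb : Bool} {RM : GS → ℕ → ℂ → Matrix (Fin 3) (Fin 3) ℂ} {w : ℂ}
    (hS : ∀ s, DG s → ∀ T : T4, T.ok (ML p q r s) → ∀ m, 4 ≤ m → m ≤ mm p q r s.1 s.2.1 →
      ∀ v ∈ R s T, (RM s m w).mulVec v ∈ R (nx s m) (T4.next (mm p q r s.1 s.2.1) m))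
    (hA0 : ga = false → ∀ s, DG s → ∀ T : T4, T.ok (ML p q r s) →
      ∀ v ∈ R s T, (RM s 3 w).mulVec v ∈ R (nx s 3) T4.three)
    (hA1 : ga = true → ∀ s, DG s → ∀ T : T4, T.ok (ML p q r s) → T ≠ T4.three → ∀ k : ℕ,
      ∀ v ∈ R s T, (gM RM s (List.replicate (k + 1) 3) w).mulVec v ∈
        R (sD s (List.replicate (k + 1) 3)) T4.three)
    (hB0 : gb = false → ∀ s, DG s → ∀ T : T4, T.ok (ML p q r s) → T.low (ML p q r s) ≤ 2 →
      ∀ v ∈ R s T, (RM s 2 w).mulVec v ∈ R (nx s 2) T4.two)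
    (hB1 : gb = true → ∀ s, DG s → ∀ T : T4, T.ok (ML p q r s) → T.low (ML p q r s) ≤ 2 →
      T ≠ T4.two → ∀ k : ℕ,
      ∀ v ∈ R s T, (gM RM s (List.replicate (k + 1) 2) w).mulVec v ∈
        R (sD s (List.replicate (k + 1) 2)) T4.two) :
    BlkCert (std Y) p q r RM w (reg p q r R) := by
  refine BlkCert.sub (glue_sub hA hB ga gb) (glue_cert hA hB hC ?_ ?_ ?_ ?_ ?_)
  · intro s f o m hD hok h2 h3 v hv
    obtain ⟨T, hT, hv'⟩ := mem_any hv
    have h4 : 4 ≤ m := by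
      have := hok.1
      omega
    have h5 := hS s hD T hT m h4 hok.2.1 v hv'
    have e1 : gM RM s [m] w = RM s m w := by simp only [gM, one_mul]
    have e2 : sD s [m] = nx s m := by rw [sD_cons, sD_nil]
    rw [e1, e2]
    show _ ∈ reg p q r R (nx s m, decide (m = mm p q r s.1 s.2.1), some Ty.o)
    by_cases hm : m = mm p q r s.1 s.2.1
    · left
      refine ⟨by simp [hm], by rw [ML_nx]; omega, ?_⟩
      rw [T4.next, if_neg h2, if_neg h3, if_pos hm] at h5
      exact h5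
    · right
      have := hok.2.1
      refine ⟨by simp [hm], by rw [ML_nx]; omega, ?_⟩
      rw [T4.next, if_neg h2, if_neg h3, if_neg hm] at h5
      exact h5
  · intro h s f o hD hok v hv
    obtain ⟨T, hT, hv'⟩ := mem_any hv
    have h5 := hA0 h s hD T hT v hv'
    have e1 : gM RM s [3] w = RM s 3 w := by simp only [gM, one_mul]
    have e2 : sD s [3] = nx s 3 := by rw [sD_cons, sD_nil]
    rw [e1, e2]
    refine ⟨?_, h5⟩
    rw [ML_nx]
    rfl
  · intro h s f o k hD hok ho v hv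
    obtain ⟨T, hT, hT', hv'⟩ := mem_notA hv ho
    have h5 := hA1 h s hD T hT hT' k v hv'
    rw [alL_rep]
    exact ⟨fD_rep p q r f s 3 k, h5⟩
  · intro h s f o hD hok v hv
    have hf : f = false := by
      cases hff : f with
      | false => rfl
      | true =>
        have := hok.2.2 hff
        omega
    subst hf
    obtain ⟨T, hT, hl, -, hv'⟩ := mem_low hv
    have h5 := hB0 h s hD T hT hl v hv'
    have e1 : gM RM s [2] w = RM s 2 w := by simp only [gM, one_mul]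
    have e2 : sD s [2] = nx s 2 := by rw [sD_cons, sD_nil]
    rw [e1, e2]
    refine ⟨?_, h5⟩
    show decide (2 = mm p q r s.1 s.2.1) = false
    have := LNI_mm hp hq hr _ _ hD.1
    rw [decide_eq_false_iff_not]
    omega
  · intro h s f o k hD hok ho v hv
    have hf : f = false := by
      cases hff : f with
      | false => rfl
      | true =>
        have := hok.2.2 hff
        omega
    subst hf
    obtain ⟨T, hT, hl, hne, hv'⟩ := mem_low hv
    have h5 := hB1 h s hD T hT hl (hne ho) k v hv'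
    rw [alL_rep]
    refine ⟨?_, h5⟩
    rw [fD_rep]
    have := ML_ge hp hq hr (DG_sD' (List.replicate (k + 1) 2) s hD)
    rw [decide_eq_false_iff_not]
    omega

/-- bounds and slit conditions pass to the automaton states -/
theorem reg_all {P : GS → (Fin 3 → ℂ) → Prop}
    (h : ∀ s (T : T4), T.ok (ML p q r s) → ∀ v ∈ R s T, P s v) (σ : SSt Ty) :
    ∀ v ∈ reg p q r R σ, P σ.1 v := by
  obtain ⟨s, f, o⟩ := σ
  intro v hv
  obtain ⟨T, hT, hv'⟩ := mem_any hv
  exact h s T hT v hv'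

/-- a vector in all regions of a state is in the regions of the automaton states which can be
reached -/
theorem reg_mem {s : GS} {v : Fin 3 → ℂ} (h : ∀ T : T4, T.ok (ML p q r s) → v ∈ R s T)
    {f : Bool} {o : Option Ty}
    (hr : o = some Ty.B ∧ f = false ∨ o = some Ty.A ∧ f = decide (3 = ML p q r s) ∨
      o = some Ty.o ∧ (f = true ∧ 4 ≤ ML p q r s ∨ f = false ∧ 5 ≤ ML p q r s) ∨
      o = none ∧ f = false ∧ 4 ≤ ML p q r s) : v ∈ reg p q r R (s, f, o) := by
  rcases hr with ⟨rfl, hf⟩ | ⟨rfl, hf⟩ | ⟨rfl, hf⟩ | ⟨rfl, hf, h4⟩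
  · exact ⟨hf, h T4.two trivial⟩
  · exact ⟨hf, h T4.three trivial⟩
  · rcases hf with ⟨h1, h2⟩ | ⟨h1, h2⟩
    · exact Or.inl ⟨h1, h2, h T4.full h2⟩
    · exact Or.inr ⟨h1, h2, h T4.oth h2⟩
  · exact ⟨hf, h4, h T4.two trivial, h T4.three trivial⟩

end Pool.Agent.Helper39.SLT
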