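import Pool.Agent.Helper39.CX.TYP

/-!
The sandwich for superblocks of one kind, for regions indexed by the type of the last run.
-/

set_option autoImplicit false
noncomputable section
namespace Pool.Agent.Helper39.SLT

open Pool.Agent.Helper6.MONO (nxD sD okD mm RMb omS kk TA tauA kapA)
open Pool.Agent.Helper21.SUP
open Pool.Agent.Helper21.MIR
open Pool.Agent.Helper39.C75

variable {p q r : ℕ} {RM : GS → ℕ → ℂ → Matrix (Fin 3) (Fin 3) ℂ} {w : ℂ}

/-- THE SANDWICH, typed form: from the set `A0` at the state `s`, `b` runs to the base state `s0`,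
all powers of the period of `P` runs from `E` to `X`, then `j < P` runs to the target sets. -/
theorem set_sw {x P b : ℕ} {s0 s : GS} (hP0 : 0 < P) (hP : sD s0 (List.replicate P x) = s0)
    (hb : sD s (List.replicate b x) = s0) {A0 E X : Set (Fin 3 → ℂ)}
    {T : GS → Set (Fin 3 → ℂ)}
    (hfam : ∀ n : ℕ, ∀ v ∈ E, (gM RM s0 (List.replicate P x) w ^ (n + 1)).mulVec v ∈ X)
    (hent : ∀ v ∈ A0, (gM RM s (List.replicate b x) w).mulVec v ∈ E)
    (hex : ∀ j < P, ∀ v ∈ X, (gM RM s0 (List.replicate j x) w).mulVec v ∈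
      T (sD s0 (List.replicate j x)))
    (hdir : ∀ k, 0 < k → k < b + P → ∀ v ∈ A0,
      (gM RM s (List.replicate k x) w).mulVec v ∈ T (sD s (List.replicate k x)))
    (k : ℕ) : ∀ v ∈ A0,
      (gM RM s (List.replicate (k + 1) x) w).mulVec v ∈ T (sD s (List.replicate (k + 1) x)) := by
  by_cases hk : k + 1 < b + P
  · exact hdir (k + 1) (Nat.succ_pos k) hk
  · push Not at hk
    obtain ⟨n, j, hj, hkn⟩ : ∃ n j, j < P ∧ k + 1 = b + (P * (n + 1) + j) := by
      refine ⟨(k + 1 - b) / P - 1, (k + 1 - b) % P, Nat.mod_lt _ hP0, ?_⟩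
      have h1 : 1 ≤ (k + 1 - b) / P := by
        rw [Nat.le_div_iff_mul_le hP0]
        omega
      have h2 : (k + 1 - b) / P - 1 + 1 = (k + 1 - b) / P := by omega
      rw [h2]
      have h3 := Nat.div_add_mod (k + 1 - b) P
      omega
    intro v hv
    have h1 := hex j hj _ (hfam n _ (hent v hv))
    rw [hkn, List.replicate_add, gM_append, hb, List.replicate_add, gM_append, sD_per hP,
      gM_per hP, sD_append, hb, sD_append, sD_per hP, ← Matrix.mulVec_mulVec,
      ← Matrix.mulVec_mulVec]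
    exact h1

/-- type A: base state `s0`, source at the base state -/
theorem swA_base {s0 : GS} {A0 E X : Set (Fin 3 → ℂ)} {T : GS → Set (Fin 3 → ℂ)}
    (hfam : ∀ n : ℕ, ∀ v ∈ E, (gM RM s0 (List.replicate 2 3) w ^ (n + 1)).mulVec v ∈ X)
    (hent : ∀ v ∈ A0, v ∈ E)
    (hex0 : ∀ v ∈ X, v ∈ T s0)
    (hex1 : ∀ v ∈ X, (RM s0 3 w).mulVec v ∈ T (nx s0 3))
    (hdir : ∀ v ∈ A0, (RM s0 3 w).mulVec v ∈ T (nx s0 3)) (k : ℕ) :
    ∀ v ∈ A0, (gM RM s0 (List.replicate (k + 1) 3) w).mulVec v ∈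
      T (sD s0 (List.replicate (k + 1) 3)) := by
  have e1 : gM RM s0 (List.replicate 1 3) w = RM s0 3 w := by
    show gM RM s0 [3] w = _
    simp only [gM, one_mul]
  have e2 : sD s0 (List.replicate 1 3) = nx s0 3 := by
    show sD s0 [3] = _
    rw [sD_cons, sD_nil]
  refine set_sw (b := 0) (by norm_num) (sD_33 s0) (sD_nil s0) hfam ?_ ?_ ?_ k
  · intro v hv
    show (gM RM s0 [] w).mulVec v ∈ E
    simp only [gM, Matrix.one_mulVec]
    exact hent v hv
  · intro j hj v hv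
    obtain rfl | rfl : j = 0 ∨ j = 1 := by omega
    · show (gM RM s0 [] w).mulVec v ∈ T (sD s0 [])
      rw [sD_nil]
      simp only [gM, Matrix.one_mulVec]
      exact hex0 v hv
    · rw [e1, e2]
      exact hex1 v hv
  · intro k h0 h1 v hv
    obtain rfl : k = 1 := by omega
    rw [e1, e2]
    exact hdir v hv

/-- type A: source one run before the base state `nx s 3` -/
theorem swA_one {s : GS} {A0 E X : Set (Fin 3 → ℂ)} {T : GS → Set (Fin 3 → ℂ)}
    (hfam : ∀ n : ℕ, ∀ v ∈ E, (gM RM (nx s 3) (List.replicate 2 3) w ^ (n + 1)).mulVec v ∈ X)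
    (hent : ∀ v ∈ A0, (RM s 3 w).mulVec v ∈ E)
    (hex0 : ∀ v ∈ X, v ∈ T (nx s 3))
    (hex1 : ∀ v ∈ X, (RM (nx s 3) 3 w).mulVec v ∈ T s)
    (hd1 : ∀ v ∈ A0, (RM s 3 w).mulVec v ∈ T (nx s 3))
    (hd2 : ∀ v ∈ A0, (RM (nx s 3) 3 w).mulVec ((RM s 3 w).mulVec v) ∈ T s) (k : ℕ) :
    ∀ v ∈ A0, (gM RM s (List.replicate (k + 1) 3) w).mulVec v ∈
      T (sD s (List.replicate (k + 1) 3)) := by
  have e00 : nx (nx s 3) 3 = s := nx_odd_odd s 3 3 rfl rfl
  have e1 : ∀ s, gM RM s (List.replicate 1 3) w = RM s 3 w := by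
    intro s
    show gM RM s [3] w = _
    simp only [gM, one_mul]
  have e2 : ∀ s, sD s (List.replicate 1 3) = nx s 3 := by
    intro s
    show sD s [3] = _
    rw [sD_cons, sD_nil]
  refine set_sw (b := 1) (s0 := nx s 3) (by norm_num) (sD_33 _) (e2 s) hfam ?_ ?_ ?_ k
  · intro v hv
    rw [e1]
    exact hent v hv
  · intro j hj v hv
    obtain rfl | rfl : j = 0 ∨ j = 1 := by omega
    · show (gM RM (nx s 3) [] w).mulVec v ∈ T (sD (nx s 3) [])
      rw [sD_nil]
      simp only [gM, Matrix.one_mulVec]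
      exact hex0 v hv
    · rw [e1, e2, e00]
      exact hex1 v hv
  · intro k h0 h1 v hv
    obtain rfl | rfl : k = 1 ∨ k = 2 := by omega
    · rw [e1, e2]
      exact hd1 v hv
    · have e3 : gM RM s (List.replicate 2 3) w = RM (nx s 3) 3 w * RM s 3 w := by
        show gM RM s [3, 3] w = _
        simp only [gM, one_mul]
      rw [e3, sD_33, ← Matrix.mulVec_mulVec]
      exact hd2 v hv

/-- type A, source one run before the base state, second run from the entry set -/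
theorem swA_one' {s : GS} {A0 E X : Set (Fin 3 → ℂ)} {T : GS → Set (Fin 3 → ℂ)}
    (hfam : ∀ n : ℕ, ∀ v ∈ E, (gM RM (nx s 3) (List.replicate 2 3) w ^ (n + 1)).mulVec v ∈ X)
    (hent : ∀ v ∈ A0, (RM s 3 w).mulVec v ∈ E)
    (hex0 : ∀ v ∈ X, v ∈ T (nx s 3))
    (hex1 : ∀ v ∈ X, (RM (nx s 3) 3 w).mulVec v ∈ T s)
    (hd1 : ∀ v ∈ A0, (RM s 3 w).mulVec v ∈ T (nx s 3))
    (hE : ∀ v ∈ E, (RM (nx s 3) 3 w).mulVec v ∈ T s) (k : ℕ) :
    ∀ v ∈ A0, (gM RM s (List.replicate (k + 1) 3) w).mulVec v ∈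
      T (sD s (List.replicate (k + 1) 3)) :=
  swA_one hfam hent hex0 hex1 hd1 (fun v hv => hE _ (hent v hv)) k

end Pool.Agent.Helper39.SLT
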