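import Pool.Agent.Helper39.CX.KNH6
import Pool.Agent.Helper12.CX.THR

/-!
Row KNF, version 2, soundness, part 7: the three walls of a cell of an exact class.
-/

set_option autoImplicit false
noncomputable section
namespace Pool.Agent.Helper39.KNF

open Pool.Agent.Helper86.C75 (Z)
open Pool.Agent.Helper86.CX
open Pool.Agent.Helper90.C75
open Pool.Agent.Helper90.KMO
open Pool.Agent.Helper17.PAK
open Pool.Agent.Helper6.MONO (Kp kk mm omS RMb lamS oriZ)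
open Pool.Agent.Helper6.MONO (xA thr_Kp2 xA_eq xA_swap)
open Pool.Agent.Helper21.SUP (GS gM DG)
open Pool.Agent.Helper21.SUP renaming nx → nxs
open Pool.Agent.Helper42.CH (powA)
open Complex ComplexConjugate Finset

variable {t : ℝ}

/-- base states -/
def bs : Fin 3 → GS := ![(0, 1, 2), (1, 2, 0), (2, 0, 1)]

theorem bs_DG (n : Fin 3) : DG (bs n) := by
  fin_cases n
  · exact ⟨by decide, by decide, by decide⟩
  · exact ⟨by decide, by decide, by decide⟩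
  · exact ⟨by decide, by decide, by decide⟩

theorem wallC_of {a b c : ℕ} (ha : 3 ≤ a) (hb : 3 ≤ b) (hc : 3 ≤ c) {x0 : ℝ}
    (h : xA a b c ≤ x0) : WallC (Kp a) (Kp b) (Kp c) x0 := by
  obtain ⟨a1, a2⟩ := thr_Kp2 a ha
  obtain ⟨b1, b2⟩ := thr_Kp2 b hb
  obtain ⟨c1, c2⟩ := thr_Kp2 c hc
  refine ⟨by linarith, by linarith, by linarith, ?_⟩
  rw [xA_eq, div_le_iff₀ (by positivity)] at h
  linarith

/-- the value of `om` at a base state and after an odd run -/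
theorem bs_om {p q r : ℕ} {w : ℂ} (h1 : 1 + w ≠ 0) (h2 : 1 - w ≠ 0) (n : Fin 3) :
    (omS p q r (bs n) w)⁻¹ = 2 * (1 + ((lamS p q r (bs n) : ℝ) : ℂ) * ((1 + w) / (1 - w))⁻¹) ∧
    (omS p q r (nxs (bs n) 3) w)⁻¹ =
      2 * (1 + ((lamS p q r (bs n) : ℝ) : ℂ) * ((1 + w) / (1 - w))) := by
  have e1 := omS_z p q r (bs n) h1 h2
  have e2 := omS_z p q r (nxs (bs n) 3) h1 h2
  have o1 : oriZ (bs n) = false := by fin_cases n <;> decide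
  have o2 : oriZ (nxs (bs n) 3) = true := by fin_cases n <;> decide
  have o3 : lamS p q r (nxs (bs n) 3) = lamS p q r (bs n) := by
    fin_cases n
    · show 2 * kk p q r 2 1 / (kk p q r 0 2 * kk p q r 0 1) =
        2 * kk p q r 1 2 / (kk p q r 0 1 * kk p q r 0 2)
      rw [mul_comm (kk p q r 0 2)]
      rfl
    · show 2 * kk p q r 0 2 / (kk p q r 1 0 * kk p q r 1 2) =
        2 * kk p q r 2 0 / (kk p q r 1 2 * kk p q r 1 0)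
      rw [mul_comm (kk p q r 1 0)]
      rfl
    · show 2 * kk p q r 1 0 / (kk p q r 2 1 * kk p q r 2 0) =
        2 * kk p q r 0 1 / (kk p q r 2 0 * kk p q r 2 1)
      rw [mul_comm (kk p q r 2 1)]
      rfl
  rw [o1] at e1
  rw [o2, o3] at e2
  rw [e1, e2, inv_inv, inv_inv]
  exact ⟨rfl, rfl⟩

/-- one wall -/
theorem wall_one {p q r : ℕ} (hp : 3 ≤ p) (hq : 3 ≤ q) (hr : 3 ≤ r) {w : ℂ} (h1w : 1 + w ≠ 0)
    (h2w : 1 - w ≠ 0) (hom : ∀ s, DG s → omS p q r s w ≠ 0) {x z : ℂ}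
    (hzw : z = (1 + w) / (1 - w)) (hz : z ≠ 0) (hzx : z + z⁻¹ = x) {x0 : ℝ} (hre : x.re = x0)
    (him : 0 ≤ x.im) {w1 : Fin 1 → ℝ} (hw : Wts w1) (h0 : 0 ≤ t) (h1 : t ≤ 1) {n : Fin 3}
    {k k' c : ℝ} (ek : kk p q r (bs n).1 (bs n).2.1 = k) (ek' : kk p q r (bs n).1 (bs n).2.2 = k')
    (el : lamS p q r (bs n) = 2 * c / (k * k'))
    (hc : WallC k k' c x0) {K K' L U Zm : Mo}
    (hK : MOK 1 w1 t (k : ℂ) K) (hK' : MOK 1 w1 t (k' : ℂ) K')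
    (hL : MOK 1 w1 t ((2 * c / (k * k') : ℝ) : ℂ) L)
    (hU : MOK 1 w1 t z⁻¹ U) (hZ : MOK 1 w1 t z Zm) {KTs : List K2} (hT : KTs.length = 1)
    {D : FD} (h : famW KTs D L K K' U Zm = true) {A : AD} (hA : famC D A = true) :
    ∀ m : ℕ, ∀ v, 0 < ev (Pool.Agent.Helper21.KCE.KP 1 w1 t (kfs KTs D.ke)) v →
      0 < ev (Pool.Agent.Helper21.KCE.KP 1 w1 t (kfs KTs D.kx))
        ((gM (RMb p q r) (bs n) (List.replicate 2 3) w ^ (m + 1)).mulVec v) := by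
  obtain ⟨g1, g2⟩ := bs_om (p := p) (q := q) (r := r) h1w h2w n
  rw [← hzw, el] at g1 g2
  have o1 := hom _ (bs_DG n)
  have o2 := hom _ (Pool.Agent.Helper21.SUP.DG_nx (bs n) 3 (bs_DG n))
  exact famA_state hp hq hr (bs_DG n) ek ek' hc hz hzx hre him g1 g2 o1 o2
    (famW_sound hw h0 h1 hc hz hzx hre him hK hK' hL hU hZ hT h hA g1 g2 o1 o2)

/-- SOUNDNESS OF THE THREE WALLS -/
theorem fam3_sound {p q r : ℕ} (hp : 3 ≤ p) (hq : 3 ≤ q) (hr : 3 ≤ r) {w : ℂ} (h1w : 1 + w ≠ 0)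
    (h2w : 1 - w ≠ 0) (hom : ∀ s, DG s → omS p q r s w ≠ 0) {x z : ℂ}
    (hzw : z = (1 + w) / (1 - w)) (hz : z ≠ 0) (hzx : z + z⁻¹ = x) {x0 : ℝ} (hre : x.re = x0)
    (him : 0 ≤ x.im) (A1 : xA p q r ≤ x0) (A2 : xA q r p ≤ x0) (A3 : xA r p q ≤ x0)
    {w1 : Fin 1 → ℝ} (hw : Wts w1) (h0 : 0 ≤ t) (h1 : t ≤ 1) {k0 k1 k2 : Mo}
    (a0 : MOK 1 w1 t (Kp p : ℂ) k0) (a1 : MOK 1 w1 t (Kp q : ℂ) k1)
    (a2 : MOK 1 w1 t (Kp r : ℂ) k2) {κ : Fin 3 → ℂ} (e0 : κ 0 = Kp p) (e1 : κ 1 = Kp q)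
    (e2 : κ 2 = Kp r) {C : Cls} (hC : CLK 1 w1 t κ C) {U Zm : Mo}
    (hU : MOK 1 w1 t z⁻¹ U) (hZ : MOK 1 w1 t z Zm) {KTs : List K2} (hT : KTs.length = 1)
    {D0 D1 D2 : FD} (h : fam3 k0 k1 k2 C KTs D0 D1 D2 U Zm = true) {T0 T1 T2 : AD}
    (b0 : famC D0 T0 = true) (b1 : famC D1 T1 = true) (b2 : famC D2 T2 = true) :
    (∀ m : ℕ, ∀ v, 0 < ev (Pool.Agent.Helper21.KCE.KP 1 w1 t (kfs KTs D0.ke)) v →
      0 < ev (Pool.Agent.Helper21.KCE.KP 1 w1 t (kfs KTs D0.kx))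
        ((gM (RMb p q r) (0, 1, 2) (List.replicate 2 3) w ^ (m + 1)).mulVec v)) ∧
    (∀ m : ℕ, ∀ v, 0 < ev (Pool.Agent.Helper21.KCE.KP 1 w1 t (kfs KTs D1.ke)) v →
      0 < ev (Pool.Agent.Helper21.KCE.KP 1 w1 t (kfs KTs D1.kx))
        ((gM (RMb p q r) (1, 2, 0) (List.replicate 2 3) w ^ (m + 1)).mulVec v)) ∧
    (∀ m : ℕ, ∀ v, 0 < ev (Pool.Agent.Helper21.KCE.KP 1 w1 t (kfs KTs D2.ke)) v →
      0 < ev (Pool.Agent.Helper21.KCE.KP 1 w1 t (kfs KTs D2.kx))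
        ((gM (RMb p q r) (2, 0, 1) (List.replicate 2 3) w ^ (m + 1)).mulVec v)) := by
  obtain ⟨c0, h⟩ := andB_t h
  obtain ⟨c1, c2⟩ := andB_t h
  have l0 := hC.l0
  have l1 := hC.l1
  have l2 := hC.l2
  rw [e0, e1, e2] at l0 l1 l2
  have f : ∀ a b c : ℝ, (2 * (c : ℂ) / ((a : ℂ) * (b : ℂ))) = ((2 * c / (a * b) : ℝ) : ℂ) := by
    intro a b c
    push_cast
    rfl
  rw [f] at l0 l1 l2
  refine ⟨?_, ?_, ?_⟩
  · exact wall_one hp hq hr h1w h2w hom hzw hz hzx hre him hw h0 h1 (n := 0) rfl rfl rfl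
      (wallC_of hp hr hq (by rw [xA_swap]; exact A3)) a0 a2 l0 hU hZ hT c0 b0
  · exact wall_one hp hq hr h1w h2w hom hzw hz hzx hre him hw h0 h1 (n := 1) rfl rfl rfl
      (wallC_of hq hp hr (by rw [xA_swap]; exact A1)) a1 a0 l1 hU hZ hT c1 b1
  · exact wall_one hp hq hr h1w h2w hom hzw hz hzx hre him hw h0 h1 (n := 2) rfl rfl rfl
      (wallC_of hr hq hp (by rw [xA_swap]; exact A2)) a2 a1 l2 hU hZ hT c2 b2

/-- SOUNDNESS OF `famCell` -/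
theorem famCell_sound {p q r : ℕ} (hp : 3 ≤ p) (hq : 3 ≤ q) (hr : 3 ≤ r) {w : ℂ}
    (h1w : 1 + w ≠ 0) (h2w : 1 - w ≠ 0) (hom : ∀ s, DG s → omS p q r s w ≠ 0) {x z : ℂ}
    (hzw : z = (1 + w) / (1 - w)) (hz : z ≠ 0) (hzx : z + z⁻¹ = x) (hi : (z⁻¹).im ≤ 0)
    {x0 : ℝ} (hre : x.re = x0)
    (him : 0 ≤ x.im) (A1 : xA p q r ≤ x0) (A2 : xA q r p ≤ x0) (A3 : xA r p q ≤ x0)
    {w1 : Fin 1 → ℝ} (hw : Wts w1) (h0 : 0 ≤ t) (h1 : t ≤ 1) {k0 k1 k2 : Mo}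
    (a0 : MOK 1 w1 t (Kp p : ℂ) k0) (a1 : MOK 1 w1 t (Kp q : ℂ) k1)
    (a2 : MOK 1 w1 t (Kp r : ℂ) k2) {κ : Fin 3 → ℂ} (e0 : κ 0 = Kp p) (e1 : κ 1 = Kp q)
    (e2 : κ 2 = Kp r) {C : Cls} (hC : CLK 1 w1 t κ C) {xs us : List C3} {rx : ℕ}
    (hxl : xs.length = 1) (hul : us.length = 1)
    (hxm : Pool.Agent.Helper90.C75.Mod (wq w1 t) (UU * x) (Fv 1 xs) rx)
    (hxi : (avg (wq w1 t) (Fv 1 xs)).im = UU * x.im) (hx0 : ∀ v, 0 ≤ (Fv 1 xs v).im)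
    {m : ℕ} (hm : 0 < m) {KTs : List K2} (hT : KTs.length = 1)
    {D0 D1 D2 : FD} (h : famCell k0 k1 k2 C D0 D1 D2 xs rx m us KTs = true) {T0 T1 T2 : AD}
    (b0 : famC D0 T0 = true) (b1 : famC D1 T1 = true) (b2 : famC D2 T2 = true) :
    (∀ m : ℕ, ∀ v, 0 < ev (Pool.Agent.Helper21.KCE.KP 1 w1 t (kfs KTs D0.ke)) v →
      0 < ev (Pool.Agent.Helper21.KCE.KP 1 w1 t (kfs KTs D0.kx))
        ((gM (RMb p q r) (0, 1, 2) (List.replicate 2 3) w ^ (m + 1)).mulVec v)) ∧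
    (∀ m : ℕ, ∀ v, 0 < ev (Pool.Agent.Helper21.KCE.KP 1 w1 t (kfs KTs D1.ke)) v →
      0 < ev (Pool.Agent.Helper21.KCE.KP 1 w1 t (kfs KTs D1.kx))
        ((gM (RMb p q r) (1, 2, 0) (List.replicate 2 3) w ^ (m + 1)).mulVec v)) ∧
    (∀ m : ℕ, ∀ v, 0 < ev (Pool.Agent.Helper21.KCE.KP 1 w1 t (kfs KTs D2.ke)) v →
      0 < ev (Pool.Agent.Helper21.KCE.KP 1 w1 t (kfs KTs D2.kx))
        ((gM (RMb p q r) (2, 0, 1) (List.replicate 2 3) w ^ (m + 1)).mulVec v)) := by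
  obtain ⟨g0, h⟩ := andB_t h
  obtain ⟨u1, u2⟩ := MOK.z one_pos hw h0 h1 hz hzx hi rx hxl hul hxm hxi hx0 hm g0
  exact fam3_sound hp hq hr h1w h2w hom hzw hz hzx hre him A1 A2 A3 hw h0 h1 a0 a1 a2 e0 e1 e2 hC
    u1 u2 hT h b0 b1 b2

end Pool.Agent.Helper39.KNF
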