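import Pool.Agent.Helper6.CX.MID
import Pool.Agent.Helper17.CX.KNJ

/-!
Row NCELL: from the results of the tests of a NEAR cell at one point to the certificate of the
point. A wall (bond star) has a family of type A or single runs of length three; the runs of
length two are single or come from the families of type B.
-/

set_option autoImplicit false
noncomputable section
namespace Pool.Agent.Helper39.NCL

open Pool.Agent.Helper86.CX hiding gM
open Pool.Agent.Helper6.MONO (V3 RV2 TCert kk mm Kp Rb Bm Cm RMb omS omW oriZ lamS zw DYm DLm DTH sD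
  LNI_kk LNI_kk_symm LNI_mm VV)
open Pool.Agent.Helper6.MONO.QTR (V0 e0)
open Pool.Agent.Helper21.SUP (GS DG gM sD_cons sD_nil gM_append)
open Pool.Agent.Helper21.SUP renaming nx → nxs
open Pool.Agent.Helper39.SLT (T4 ML typ_cert swA_base swA_one')
open Pool.Agent.Helper6.PRG
open Pool.Agent.Helper6.MTC
open Pool.Agent.Helper6.MID
open Pool.Agent.Helper17.KNI (IE chkI)
open Complex ComplexConjugate

variable {p q r : ℕ}

/-! ### one run -/

/-- the block of a run of the program gives the inclusion of the forms -/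
theorem run_of (hp : 3 ≤ p) (hq : 3 ≤ q) (hr : 3 ≤ r)
    (h9 : ∀ i j : Fin 3, i ≠ j → mm p q r i j ≤ 9) {z : ℂ} (hz : z ≠ 0) (hz1 : z + 1 ≠ 0)
    {K : ℕ → Hm ℝ} {G : Prog} (hK : KRes K (kap3 p q r) z G) {s : GS} (h : DG s) {m : ℕ}
    (hm2 : 2 ≤ m) (hm : m ≤ mm p q r s.1 s.2.1) {k k' : ℕ}
    (hb : hasB (if m % 2 = 1 then eL G (giS (nxs s m)) else oL G (giS (nxs s m))) k
      (VV (mm p q r s.1 s.2.1) (m - 1)) k' = true) (v : Fin 3 → ℂ) (hv : 0 < ev (K k') v) :
    0 < ev (K k) ((RMb p q r s m (zw z)).mulVec v) := by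
  have hom := fun s hs => oZ_omS (p := p) (q := q) (r := r) hz hz1 s hs
  have hM3 := LNI_mm hp hq hr _ _ h.1
  obtain ⟨x, hx, hk, y, hy, hV, u, hu, hku⟩ := hasB_iff hb
  rw [← hku] at hv
  have hsn : DG (nxs s m) := Pool.Agent.Helper21.SUP.DG_nx s m h
  rw [← hk]
  have hcomp : ∀ A B : Matrix (Fin 3) (Fin 3) ℂ, (A * B).mulVec v = A.mulVec (B.mulVec v) :=
    fun A B => (Matrix.mulVec_mulVec v A B).symm
  unfold RMb
  rw [hcomp]
  by_cases hodd : m % 2 = 1
  · rw [if_pos hodd] at hx
    obtain ⟨e1, e2⟩ := src_odd hodd s h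
    have h5 := hK.e _ e2 x hx y hy u hu _ _ hM3 (h9 _ _ h.1) (by omega) (by omega) hV v hv
    rw [← ev_CK, e1, ← hom s h, ← hom _ hsn] at h5
    have e3 : Cm (decide (m % 2 = 1)) (kk p q r s.1 s.2.1) (omS p q r s (zw z))
        (omS p q r (nxs s m) (zw z)) = CM 0 (omS p q r (nxs s m) (zw z))
          (omS p q r s (zw z) * omS p q r (nxs s m) (zw z)) := by
      unfold Cm CM
      rw [if_pos (by rw [hodd]; rfl)]
    rw [e3]
    exact h5
  · rw [if_neg hodd] at hx
    have hev : m % 2 = 0 := by omega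
    obtain ⟨e1, e2, e4⟩ := src_even (p := p) (q := q) (r := r) hev s h
    have h5 := hK.o _ e2 x hx y hy u hu _ _ hM3 (h9 _ _ h.1) (by omega) (by omega) hV v hv
    rw [← ev_CK, e1, e4, ← hom s h, ← hom _ hsn] at h5
    have e3 : Cm (decide (m % 2 = 1)) (kk p q r s.1 s.2.1) (omS p q r s (zw z))
        (omS p q r (nxs s m) (zw z)) = CM ((kk p q r s.1 s.2.1 : ℂ) * omS p q r s (zw z) / 2 -
          (kk p q r s.1 s.2.1 : ℂ) ^ 2 / (4 * (2 + (kk p q r s.1 s.2.1 : ℂ))))
          (omS p q r (nxs s m) (zw z)) (omS p q r (nxs s m) (zw z) *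
            ((kk p q r s.1 s.2.1 : ℂ) / 2) * (1 / 2 - omS p q r s (zw z))) := by
      unfold Cm CM
      rw [if_neg (by rw [hev]; decide)]
    rw [e3]
    exact h5

/-! ### the lists of a near cell -/

/-- a wall: family of type A or not; numbers of the entry form and of the exit form -/
structure WN where
  f : Bool
  e : ℕ
  x : ℕ

/-- the wall of the state number `i` -/
def wS (W0 W1 W2 : WN) : ℕ → WN
  | 0 => W0
  | 1 => W1
  | 2 => W2
  | 3 => W0
  | 4 => W1
  | _ => W2

/-- the run `m` from the form `k'` at the state number `i` into the form `k` is in the program -/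
def hasR (p q r : ℕ) (G : Prog) (i m k k' : ℕ) : Bool :=
  hasB (if m % 2 = 1 then eL G (giS (nxs (gsF i) m)) else oL G (giS (nxs (gsF i) m))) k
    (VV (mm p q r (gsF i).1 (gsF i).2.1) (m - 1)) k'

/-- the identity block from `k'` into `k` is in the list -/
def hasI (l : List IE) (k k' : ℕ) : Bool :=
  l.any fun x => x.k == k && x.s.any fun y => y.k == k'

/-- the runs of at least four letters -/
def cov4 (p q r : ℕ) (G : Prog) (i : ℕ) : Bool :=
  (List.range (mm p q r (gsF i).1 (gsF i).2.1 + 1)).all fun m =>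
    if 4 ≤ m then (tys (ML p q r (gsF i))).all fun T =>
      hasR p q r G i m
        (kidx p q r (nxs (gsF i) m) (T4.next (mm p q r (gsF i).1 (gsF i).2.1) m))
        (kidx p q r (gsF i) T) else true

/-- the runs of two letters, single -/
def cov2 (p q r : ℕ) (G : Prog) (i : ℕ) : Bool :=
  (tys (ML p q r (gsF i))).all fun T =>
    if T.low (ML p q r (gsF i)) ≤ 2 then
      hasR p q r G i 2 (kidx p q r (nxs (gsF i) 2) T4.two) (kidx p q r (gsF i) T) else true

/-- the runs of three letters, single -/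
def cov3 (p q r : ℕ) (G : Prog) (i : ℕ) : Bool :=
  (tys (ML p q r (gsF i))).all fun T =>
    hasR p q r G i 3 (kidx p q r (nxs (gsF i) 3) T4.three) (kidx p q r (gsF i) T)

/-- the runs of three letters with a family, types other than `three` -/
def cov3A (p q r : ℕ) (G : Prog) (il : List IE) (W : WN) (i : ℕ) : Bool :=
  (tys (ML p q r (gsF i))).all fun T =>
    if T = T4.three then true else
      if i < 3 then hasI il W.e (kidx p q r (gsF i) T) else
        hasR p q r G i 3 (kidx p q r (nxs (gsF i) 3) T4.three) (kidx p q r (gsF i) T) &&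
          hasR p q r G i 3 W.e (kidx p q r (gsF i) T)

/-- the exit tests of a family at its base state -/
def covX (p q r : ℕ) (G : Prog) (il : List IE) (W : WN) (i : ℕ) : Bool :=
  hasI il (kidx p q r (gsF i) T4.three) W.x &&
    (hasR p q r G i 3 (kidx p q r (nxs (gsF i) 3) T4.three) W.x &&
      hasR p q r G i 3 (kidx p q r (nxs (gsF i) 3) T4.three) W.e)

/-- the runs of three letters -/
def covA (p q r : ℕ) (G : Prog) (il : List IE) (W : WN) (i : ℕ) : Bool :=
  if W.f = true then cov3A p q r G il W i && (if i < 3 then covX p q r G il W i else true)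
  else cov3 p q r G i

/-- THE PROGRAM OF A NEAR CELL COVERS EVERYTHING; `gb`: the runs of two letters are covered by
families -/
def coverN (p q r : ℕ) (gb : Bool) (W0 W1 W2 : WN) (G : Prog) (il : List IE) : Bool :=
  (List.range 6).all fun i => (gb || cov2 p q r G i) && (covA p q r G il (wS W0 W1 W2 i) i &&
    (cov4 p q r G i && covR p q r G i))

theorem hasI_iff {l : List IE} {k k' : ℕ} (h : hasI l k k' = true) :
    ∃ x ∈ l, x.k = k ∧ ∃ y ∈ x.s, y.k = k' := by
  unfold hasI at h
  rw [List.any_eq_true] at h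
  obtain ⟨x, hx, h⟩ := h
  rw [Bool.and_eq_true, beq_iff_eq, List.any_eq_true] at h
  obtain ⟨h1, y, hy, h2⟩ := h
  exact ⟨x, hx, h1, y, hy, by simpa using h2⟩

/-- the parts of `coverN` at a state -/
theorem coverN_at {gb : Bool} {W0 W1 W2 : WN} {G : Prog} {il : List IE}
    (h : coverN p q r gb W0 W1 W2 G il = true) {s : GS} (hs : DG s) :
    (gb = true ∨ cov2 p q r G (giS s) = true) ∧
      covA p q r G il (wS W0 W1 W2 (giS s)) (giS s) = true ∧
      cov4 p q r G (giS s) = true ∧ covR p q r G (giS s) = true := by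
  obtain ⟨-, hi⟩ := gsF_giS s hs
  unfold coverN at h
  rw [List.all_eq_true] at h
  have h3 := h (giS s) (List.mem_range.2 hi)
  simp only [Bool.and_eq_true, Bool.or_eq_true] at h3
  exact ⟨h3.1, h3.2.1, h3.2.2.1, h3.2.2.2⟩

/-- base states of the walls and their numbers -/
theorem base_cases {P : GS → Prop} (h0 : ∀ s, DG s → giS s < 3 → P s)
    (h1 : ∀ s, DG s → ¬ giS s < 3 → P s) : ∀ s, DG s → P s := by
  intro s hs
  by_cases h : giS s < 3
  · exact h0 s hs h
  · exact h1 s hs h

theorem next_base : ∀ s, DG s → ¬ giS s < 3 → giS (nxs s 3) < 3 ∧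
    giS s = giS (nxs s 3) + 3 := by
  refine DG_cases ?_ ?_ ?_ ?_ ?_ ?_ <;> decide

theorem nx_nx3 (s : GS) : nxs (nxs s 3) 3 = s :=
  Pool.Agent.Helper21.SUP.nx_odd_odd s 3 3 rfl rfl

theorem wS_next {W0 W1 W2 : WN} : ∀ s, DG s → wS W0 W1 W2 (giS (nxs s 3)) =
    wS W0 W1 W2 (giS s) := by
  refine DG_cases ?_ ?_ ?_ ?_ ?_ ?_ <;> rfl

theorem gM_one (RM : GS → ℕ → ℂ → Matrix (Fin 3) (Fin 3) ℂ) (s : GS) (m : ℕ) (w : ℂ) :
    gM RM s [m] w = RM s m w := by
  simp only [gM, one_mul]

/-- single runs give all sequences of runs -/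
theorem single_all {RM : GS → ℕ → ℂ → Matrix (Fin 3) (Fin 3) ℂ} {w : ℂ} {x : ℕ}
    {T : GS → Set (Fin 3 → ℂ)} {S : Set GS} (hS : ∀ s ∈ S, nxs s x ∈ S)
    (h : ∀ s ∈ S, ∀ v ∈ T s, (RM s x w).mulVec v ∈ T (nxs s x)) (k : ℕ) : ∀ s ∈ S, ∀ v ∈ T s,
    (gM RM s (List.replicate k x) w).mulVec v ∈ T (sD s (List.replicate k x)) := by
  induction k with
  | zero =>
    intro s _ v hv
    show (gM RM s [] w).mulVec v ∈ T (sD s [])
    rw [sD_nil]
    simp only [gM, Matrix.one_mulVec]
    exact hv
  | succ k ih =>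
    intro s hs v hv
    have h1 := ih (nxs s x) (hS s hs) _ (h s hs v hv)
    rw [List.replicate_succ]
    have e : x :: List.replicate k x = [x] ++ List.replicate k x := rfl
    rw [e, gM_append, ← Matrix.mulVec_mulVec, gM_one, sD_cons, ← sD_cons s x []]
    rw [sD_cons, sD_nil]
    exact h1

/-! ### the certificate of a point -/

/-- FROM THE TESTS OF A NEAR CELL TO THE CERTIFICATE OF A POINT -/
theorem tcert_near (hp : 3 ≤ p) (hq : 3 ≤ q) (hr : 3 ≤ r)
    (h9 : ∀ i j : Fin 3, i ≠ j → mm p q r i j ≤ 9) {z : ℂ} (hz : z ≠ 0) (hz1 : z + 1 ≠ 0)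
    {K : ℕ → Hm ℝ} {G : Prog} (hK : KRes K (kap3 p q r) z G) {gb : Bool} {W0 W1 W2 : WN}
    {il : List IE} (hc : coverN p q r gb W0 W1 W2 G il = true)
    (hI : ∀ x ∈ il, ∀ y ∈ x.s, ∀ v, 0 < ev (K y.k) v → 0 < ev (K x.k) v)
    (hfam : ∀ s, DG s → giS s < 3 → (wS W0 W1 W2 (giS s)).f = true → ∀ m : ℕ, ∀ v,
      0 < ev (K (wS W0 W1 W2 (giS s)).e) v → 0 < ev (K (wS W0 W1 W2 (giS s)).x)
        ((gM (RMb p q r) s (List.replicate 2 3) (zw z) ^ (m + 1)).mulVec v))
    (hB : gb = true → ∀ s, DG s → ∀ T : T4, T.ok (ML p q r s) → T.low (ML p q r s) ≤ 2 →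
      T ≠ T4.two → ∀ k : ℕ, ∀ v, 0 < ev (K (kidx p q r s T)) v →
        0 < ev (K (kidx p q r (sD s (List.replicate (k + 1) 2)) T4.two))
          ((gM (RMb p q r) s (List.replicate (k + 1) 2) (zw z)).mulVec v))
    {κ M : ℝ} (hκ : 0 < κ) {sl : List ℕ} (hs : covT p q r sl = true)
    (neg : ∀ k ∈ sl, NegD κ (K k))
    (bd : ∀ k, |(K k).a| ≤ M ∧ ‖(K k).x‖ ≤ M ∧ ‖(K k).y‖ ≤ M)
    (hLP : LPos p q r K z) {le : List Pool.Agent.Helper86.CX.LE} (hL : covL p q r le = true)
    (slit : ∀ x ∈ le, ∀ N, 3 ≤ N → N ≤ 9 → x.t = tN N →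
      ∃ γ : ℂ, 0 ≤ γ.re ∧ ∀ v : Fin 3 → ℂ, ev (K x.k) v ≤ (γ * (conj (v 0) * DTH (Kp N) v)).re) :
    TCert V0 e0 p q r (5 * M / κ + 1) (zw z) (RK fun s T => K (kidx p q r s T)) := by
  have hom := fun s hs => oZ_omS (p := p) (q := q) (r := r) hz hz1 s hs
  have hF : FCert V0 e0 p q r κ M (zw z) (fun s T => K (kidx p q r s T)) := by
    refine ⟨fun s h T hT => neg _ (cover_st hs h hT), fun s h T hT => (bd _).1,
      fun s h T hT => (bd _).2.1, fun s h T hT => (bd _).2.2, ?_, ?_, ?_, ?_, ?_⟩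
    · intro s h T hT hT2
      obtain ⟨x, hx, hk⟩ := covR_at h (coverN_at hc h).2.2.2 hT (Or.inl hT2)
      rw [V0_vpq, DYm_CM, ev_CK, hom s h, ← hk]
      exact hK.r _ (gsF_giS s h).2 x hx _ (Or.inl rfl)
    · intro s h h3
      exact hLP s h h3
    · intro s h h4 i
      have key : ∀ T : T4, T.ok (ML p q r s) → 0 < ev (K (kidx p q r s T))
          ((DYm (omS p q r s (zw z))).mulVec (Pool.Agent.Helper6.MONO.SV.UY V0.al V0.be e0 i)) := by
        intro T hT
        obtain ⟨x, hx, hk⟩ := covR_at h (coverN_at hc h).2.2.2 hT (Or.inr h4)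
        rw [DYm_CM, ev_CK, hom s h, ← hk]
        exact hK.r _ (gsF_giS s h).2 x hx _ (UY_vpq i)
      exact ⟨key T4.two trivial, key T4.three trivial⟩
    · intro s h
      obtain ⟨-, x, hx, hk, ht⟩ := covL_iff hL h
      have h3 := LNI_mm hp hq hr _ _ h.1
      obtain ⟨γ, g1, g2⟩ := slit x hx _ h3 (h9 _ _ h.1) ht
      rw [hk] at g2
      exact ⟨γ, g1, g2⟩
    · intro s h
      obtain ⟨⟨x, hx, hk, ht⟩, -⟩ := covL_iff hL h
      have h3 := LNI_mm hp hq hr _ _ h.1
      obtain ⟨γ, g1, g2⟩ := slit x hx _ h3 (h9 _ _ h.1) ht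
      rw [hk] at g2
      exact ⟨γ, g1, g2⟩
  -- runs and identity blocks
  have hR : ∀ {s : GS}, DG s → ∀ {m : ℕ}, 2 ≤ m → m ≤ mm p q r s.1 s.2.1 → ∀ {k k' : ℕ},
      hasR p q r G (giS s) m k k' = true → ∀ v : Fin 3 → ℂ, 0 < ev (K k') v →
        0 < ev (K k) ((RMb p q r s m (zw z)).mulVec v) := by
    intro s h m h2 hm k k' hb v hv
    unfold hasR at hb
    rw [(gsF_giS s h).1] at hb
    exact run_of hp hq hr h9 hz hz1 hK h h2 hm hb v hv
  have hId : ∀ {k k' : ℕ}, hasI il k k' = true → ∀ v : Fin 3 → ℂ, 0 < ev (K k') v →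
      0 < ev (K k) v := by
    intro k k' hb v hv
    obtain ⟨x, hx, hk, y, hy, hk'⟩ := hasI_iff hb
    rw [← hk]
    rw [← hk'] at hv
    exact hI x hx y hy v hv
  have h3m : ∀ s, DG s → 3 ≤ mm p q r s.1 s.2.1 := fun s h => LNI_mm hp hq hr _ _ h.1
  refine hF.tcert hκ (typ_cert hp hq hr (fun _ => rfl) (fun _ => rfl) (fun _ _ => rfl)
    (ga := true) (gb := gb) ?_ ?_ ?_ ?_ ?_)
  · intro s h T hT m h4 hm v hv
    have h1 := (coverN_at hc h).2.2.1
    unfold cov4 at h1
    rw [List.all_eq_true, (gsF_giS s h).1] at h1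
    have h5 := h1 m (List.mem_range.2 (by omega))
    rw [if_pos h4, List.all_eq_true] at h5
    exact hR h (by omega) hm (h5 T (mem_tys hT)) v hv
  · intro h0
    exact absurd h0 (by decide)
  · intro _ s h T hT hT3 k v hv
    have key : ∀ s, DG s → ∀ T : T4, T.ok (ML p q r s) → T ≠ T4.three → ∀ k : ℕ,
        ∀ v ∈ {v : Fin 3 → ℂ | 0 < ev (K (kidx p q r s T)) v},
        (gM (RMb p q r) s (List.replicate (k + 1) 3) (zw z)).mulVec v ∈
          (fun s => {v : Fin 3 → ℂ | 0 < ev (K (kidx p q r s T4.three)) v})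
            (sD s (List.replicate (k + 1) 3)) := by
      intro s h T hT hT3 k
      have h1 := (coverN_at hc h).2.1
      unfold covA at h1
      by_cases hf : (wS W0 W1 W2 (giS s)).f = true
      · -- a wall with a family
        rw [if_pos hf, Bool.and_eq_true] at h1
        obtain ⟨h1, h2⟩ := h1
        unfold cov3A at h1
        rw [(gsF_giS s h).1, List.all_eq_true] at h1
        have h4 := h1 T (mem_tys hT)
        rw [if_neg hT3] at h4
        by_cases hi : giS s < 3
        · rw [if_pos hi] at h2 h4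
          unfold covX at h2
          simp only [Bool.and_eq_true] at h2
          rw [(gsF_giS s h).1] at h2
          exact swA_base (E := {v | 0 < ev (K (wS W0 W1 W2 (giS s)).e) v})
            (X := {v | 0 < ev (K (wS W0 W1 W2 (giS s)).x) v})
            (T := fun s => {v : Fin 3 → ℂ | 0 < ev (K (kidx p q r s T4.three)) v})
            (fun n v hv => hfam s h hi hf n v hv) (fun v hv => hId h4 v hv)
            (fun v hv => hId h2.1 v hv) (fun v hv => hR h (by norm_num) (h3m s h) h2.2.1 v hv)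
            (fun v hv => hR h (by norm_num) (h3m s h) h2.2.2 v (hId h4 v hv)) k
        · rw [if_neg hi, Bool.and_eq_true] at h4
          have hn := Pool.Agent.Helper21.SUP.DG_nx s 3 h
          obtain ⟨hb1, -⟩ := next_base s h hi
          have hf' : (wS W0 W1 W2 (giS (nxs s 3))).f = true := by rw [wS_next s h]; exact hf
          have h5 := (coverN_at hc hn).2.1
          unfold covA at h5
          rw [if_pos hf', Bool.and_eq_true, if_pos hb1] at h5
          have h6 := h5.2
          unfold covX at h6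
          simp only [Bool.and_eq_true] at h6
          rw [(gsF_giS _ hn).1, nx_nx3, wS_next s h] at h6
          exact swA_one' (E := {v | 0 < ev (K (wS W0 W1 W2 (giS s)).e) v})
            (X := {v | 0 < ev (K (wS W0 W1 W2 (giS s)).x) v})
            (T := fun s => {v : Fin 3 → ℂ | 0 < ev (K (kidx p q r s T4.three)) v})
            (fun n v hv => by
              have h7 := hfam (nxs s 3) hn hb1 hf' n v
              rw [wS_next s h] at h7
              exact h7 hv) (fun v hv => hR h (by norm_num) (h3m s h) h4.2 v hv)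
            (fun v hv => hId h6.1 v hv)
            (fun v hv => by
              have h7 := hR hn (by norm_num) (h3m _ hn) h6.2.1 v hv
              exact h7)
            (fun v hv => hR h (by norm_num) (h3m s h) h4.1 v hv)
            (fun v hv => hR hn (by norm_num) (h3m _ hn) h6.2.2 v hv) k
      · -- single runs
        rw [if_neg hf] at h1
        have hsn : ∀ u ∈ ({s, nxs s 3} : Set GS), nxs u 3 ∈ ({s, nxs s 3} : Set GS) := by
          intro u hu
          rcases hu with rfl | hu
          · exact Or.inr rfl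
          · rw [Set.mem_singleton_iff.1 hu, nx_nx3]
            exact Or.inl rfl
        have hall : ∀ u ∈ ({s, nxs s 3} : Set GS), DG u ∧
            ∀ T : T4, T.ok (ML p q r u) → ∀ v, 0 < ev (K (kidx p q r u T)) v →
              0 < ev (K (kidx p q r (nxs u 3) T4.three)) ((RMb p q r u 3 (zw z)).mulVec v) := by
          have aux : ∀ u, DG u → (wS W0 W1 W2 (giS u)).f ≠ true →
              ∀ T : T4, T.ok (ML p q r u) → ∀ v, 0 < ev (K (kidx p q r u T)) v →
              0 < ev (K (kidx p q r (nxs u 3) T4.three)) ((RMb p q r u 3 (zw z)).mulVec v) := by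
            intro u hu hfu T hT v hv
            have h2 := (coverN_at hc hu).2.1
            unfold covA at h2
            rw [if_neg hfu] at h2
            unfold cov3 at h2
            rw [(gsF_giS u hu).1, List.all_eq_true] at h2
            exact hR hu (by norm_num) (h3m u hu) (h2 T (mem_tys hT)) v hv
          intro u hu
          rcases hu with rfl | hu
          · exact ⟨h, aux u h hf⟩
          · rw [Set.mem_singleton_iff.1 hu]
            have hn := Pool.Agent.Helper21.SUP.DG_nx s 3 h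
            exact ⟨hn, aux _ hn (by rw [wS_next s h]; exact hf)⟩
        intro v hv
        have h2 := (hall s (Or.inl rfl)).2 T hT v hv
        have h3 := single_all (RM := RMb p q r) (w := zw z) (x := 3)
          (T := fun s => {v : Fin 3 → ℂ | 0 < ev (K (kidx p q r s T4.three)) v})
          (S := {s, nxs s 3}) hsn
          (fun u hu v hv => (hall u hu).2 T4.three trivial v hv) k (nxs s 3) (Or.inr rfl) _ h2
        rw [List.replicate_succ]
        have e : (3 :: List.replicate k 3 : List ℕ) = [3] ++ List.replicate k 3 := rfl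
        rw [sD_cons, e, gM_append, ← Matrix.mulVec_mulVec, gM_one]
        have e2 : sD s [3] = nxs s 3 := by rw [sD_cons, sD_nil]
        rw [e2]
        exact h3
    exact key s h T hT hT3 k v hv
  · intro hgb s h T hT hl v hv
    have h1 := (coverN_at hc h).1
    have h2 : cov2 p q r G (giS s) = true := by
      rcases h1 with h1 | h1
      · rw [hgb] at h1
        exact absurd h1 (by decide)
      · exact h1
    unfold cov2 at h2
    rw [(gsF_giS s h).1, List.all_eq_true] at h2
    have h3 := h2 T (mem_tys hT)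
    rw [if_pos hl] at h3
    have := h3m s h
    exact hR h le_rfl (by omega) h3 v hv
  · intro hgb s h T hT hl hT2 k v hv
    exact hB hgb s h T hT hl hT2 k v hv

end Pool.Agent.Helper39.NCL
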