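import Pool.Agent.Helper39.CX.NCK
import Pool.Agent.Helper39.CX.NCL
import Pool.Agent.Helper39.CX.KNH7
import Pool.Agent.Helper6.CX.PIE

/-!
Row NCELL: near cells of exact classes, from the kernel tests to the cells of the quarter.
-/

set_option autoImplicit false
noncomputable section
namespace Pool.Agent.Helper39.NCL

open Pool.Agent.Helper86.C75 (Z)
open Pool.Agent.Helper86.CX hiding gM
open Pool.Agent.Helper90.C75 (Wts wq avg bt)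
open Pool.Agent.Helper90.KMO
open Pool.Agent.Helper21.KCE (KP andB_tt)
open Pool.Agent.Helper6.MONO (V3 RV2 TCert kk mm Kp RMb omS lamS zw DTH sD xA xA_gt xA_swap xA_le2
  xA_max kb kap_enc SbP tauA)
open Pool.Agent.Helper6.MONO.QTR (V0 e0 TCell tcell_of_z)
open Pool.Agent.Helper21.SUP (GS DG gM)
open Pool.Agent.Helper21.SUP renaming nx → nxs
open Pool.Agent.Helper39.SLT (T4 ML)
open Pool.Agent.Helper6.MTC (RK)
open Pool.Agent.Helper6.MID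
open Pool.Agent.Helper6.KRL
open Pool.Agent.Helper6.PRG
open Pool.Agent.Helper6.CEL
open Pool.Agent.Helper6.KPF
open Pool.Agent.Helper6.PIE
open Pool.Agent.Helper17.KNI (IE chkI chkI_point)
open Pool.Agent.Helper42.CH (powA)
open Pool.Agent.Helper39.KNF (FD AD famC WallC FamI KIh bs bs_om bs_DG famA_state famW famW_sound
  wallC_of)
open Complex ComplexConjugate

variable {n : ℕ} {wc : Fin n → ℝ} {t : ℝ}

/-- SOUNDNESS of the test of the family of a wall -/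
def FamOK (F : FT) : Prop :=
  ∀ {t : ℝ}, 0 ≤ t → t ≤ 1 → ∀ {k k' c x0 : ℝ}, WallC k k' c x0 → ∀ {x z : ℂ}, z ≠ 0 →
    z + z⁻¹ = x → x.re = x0 → 0 ≤ x.im → ∀ {K K' L U Zm : Mo}, MOK 1 w1 t (k : ℂ) K →
    MOK 1 w1 t (k' : ℂ) K' → MOK 1 w1 t ((2 * c / (k * k') : ℝ) : ℂ) L →
    MOK 1 w1 t z⁻¹ U → MOK 1 w1 t z Zm → ∀ {KT : K2} {D : FD},
    F [KT] D L K K' U Zm = true → ∀ {A : AD}, famC D A = true → ∀ {o o' : ℂ},
    o⁻¹ = 2 * (1 + ((2 * c / (k * k') : ℝ) : ℂ) * z⁻¹) →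
    o'⁻¹ = 2 * (1 + ((2 * c / (k * k') : ℝ) : ℂ) * z) → o ≠ 0 → o' ≠ 0 → ∀ i : ℕ,
    FamI (KIh 1 w1 t (kfs [KT] D.kx)) (KIh 1 w1 t (kfs [KT] D.ke)) (SbP k) (SbP k') o⁻¹ o'⁻¹ o
      (powA (tauA k k' o o') i)

/-- the unpacked test -/
theorem famOK_famW : FamOK famW := by
  intro t h0 h1 k k' c x0 hc x z hz hzx hre him K K' L U Zm hK hK' hL hU hZ KT D h A hA o o' hg
    hg' ho ho' i
  exact famW_sound w1_wts h0 h1 hc hz hzx hre him hK hK' hL hU hZ rfl h hA hg hg' ho ho' i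

theorem imB_iff {f b : Bool} (h : imB f b = true) (hf : f = true) : b = true := by
  subst hf
  exact h

/-! ### the values `om` do not vanish -/

theorem oZ_ne (hn : 0 < n) (hw : Wts wc) (h0 : 0 ≤ t) (h1 : t ≤ 1) {κ : Fin 3 → ℂ} {C : Cls}
    (hC : CLK n wc t κ C) {z : ℂ} {U Zm : Mo} (hU : MOK n wc t z⁻¹ U) (hZ : MOK n wc t z Zm)
    (b0 : invOK n (Pool.Agent.Helper86.CX.gM n C.l0 U) = true)
    (b1 : invOK n (Pool.Agent.Helper86.CX.gM n C.l1 U) = true)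
    (b2 : invOK n (Pool.Agent.Helper86.CX.gM n C.l2 U) = true)
    (b3 : invOK n (Pool.Agent.Helper86.CX.gM n C.l0 Zm) = true)
    (b4 : invOK n (Pool.Agent.Helper86.CX.gM n C.l1 Zm) = true)
    (b5 : invOK n (Pool.Agent.Helper86.CX.gM n C.l2 Zm) = true) (i : ℕ) : oZ κ z i ≠ 0 := by
  have g0 := ((MOK.gM hn hw h0 h1 hC.l0 hU).invM hn hw h0 h1 b0).2
  have g1 := ((MOK.gM hn hw h0 h1 hC.l1 hU).invM hn hw h0 h1 b1).2
  have g2 := ((MOK.gM hn hw h0 h1 hC.l2 hU).invM hn hw h0 h1 b2).2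
  have g3 := ((MOK.gM hn hw h0 h1 hC.l0 hZ).invM hn hw h0 h1 b3).2
  have g4 := ((MOK.gM hn hw h0 h1 hC.l1 hZ).invM hn hw h0 h1 b4).2
  have g5 := ((MOK.gM hn hw h0 h1 hC.l2 hZ).invM hn hw h0 h1 b5).2
  match i with
  | 0 => exact inv_ne_zero g0
  | 1 => exact inv_ne_zero g1
  | 2 => exact inv_ne_zero g2
  | 3 => exact inv_ne_zero g3
  | 4 => exact inv_ne_zero g4
  | (_ + 5) => exact inv_ne_zero g5

/-- everything which a near cell needs at a point from the tests of the runs -/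
structure PtR (p q r : ℕ) (t : ℝ) (z : ℂ) (X : Z) (G : Prog) (c : CellD) : Prop where
  K : KRes (fun k => KP 1 w1 t (kfs [c.K] k)) (kap3 p q r) z G
  ne : ∀ i, oZ (kap3 p q r) z i ≠ 0
  u : MOK 1 w1 t z⁻¹ (uM c.m (mk (nat_lit 1) (xsC X c.ya c.yb) (nat_lit 32))
    (mk (nat_lit 1) [c.u] (nat_lit 0))
    (mk (nat_lit 1) (zipL sub3 (xsC X c.ya c.yb) [c.u]) (nat_lit 0)))
  z : MOK 1 w1 t z (zM (mk (nat_lit 1) (xsC X c.ya c.yb) (nat_lit 32))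
    (uM c.m (mk (nat_lit 1) (xsC X c.ya c.yb) (nat_lit 32)) (mk (nat_lit 1) [c.u] (nat_lit 0))
      (mk (nat_lit 1) (zipL sub3 (xsC X c.ya c.yb) [c.u]) (nat_lit 0)))
    (mk (nat_lit 1) (zipL sub3 (xsC X c.ya c.yb) [c.u]) (nat_lit 0)))

variable {a b c : ℕ} {x0 : ℝ} {X : Z} {G : Prog} {sl : List ℕ} {le : List LE}

theorem ptR_of (ha : 3 ≤ a ∧ a ≤ 9) (hb : 3 ≤ b ∧ b ≤ 9) (hc : 3 ≤ c ∧ c ≤ 9)
    (hok : clsEok a b c = true) (h0 : 0 ≤ t) (h1 : t ≤ 1) {z : ℂ} {y : ℝ} (hz : z ≠ 0)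
    (hzx : z + z⁻¹ = (x0 : ℂ) + (y : ℂ) * I) (hi : (z⁻¹).im ≤ 0) {d : CellD}
    (hX : |x0 - (zv X : ℝ) / 2 ^ 48| ≤ 32 / 2 ^ 48) (ev : evC d.ya d.yb = true)
    (hy : y * 2 ^ 48 = (1 - t) * d.ya + t * d.yb) (hm : 0 < d.m)
    (H : chkCell (nat_lit 1) (clsE a b c) G (xsC X d.ya d.yb) (nat_lit 32) d.m [d.u] [d.K] d.L
      = true) : PtR a b c t z X G d := by
  have hC := clk_E ha hb hc hok h0 h1
  have hK := kres_of_cell one_pos w1_wts h0 h1 hC hz hzx hi (xs := xsC X d.ya d.yb) (us := [d.u])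
    rfl rfl (mod_x ev t hX hy) (im_x ev hy) xs_nonneg hm (KTs := [d.K]) rfl H
  obtain ⟨g, H⟩ := andB_tt H
  obtain ⟨hu, hzm⟩ := MOK.z one_pos w1_wts h0 h1 hz hzx hi (nat_lit 32) (xs := xsC X d.ya d.yb)
    (us := [d.u]) rfl rfl (mod_x ev t hX hy) (im_x ev hy) xs_nonneg hm g
  obtain ⟨b0, H⟩ := andB_tt H
  obtain ⟨b1, H⟩ := andB_tt H
  obtain ⟨b2, H⟩ := andB_tt H
  obtain ⟨b3, H⟩ := andB_tt H
  obtain ⟨b4, H⟩ := andB_tt H
  obtain ⟨b5, H⟩ := andB_tt H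
  exact ⟨hK, oZ_ne one_pos w1_wts h0 h1 hC hu hzm b0 b1 b2 b3 b4 b5, hu, hzm⟩

theorem ptR_of3 (ha : 3 ≤ a ∧ a ≤ 9) (hb : 3 ≤ b ∧ b ≤ 9) (hc : 3 ≤ c ∧ c ≤ 9)
    (hok : clsEok a b c = true) (h0 : 0 ≤ t) (h1 : t ≤ 1) {z : ℂ} {y : ℝ} (hz : z ≠ 0)
    (hzx : z + z⁻¹ = (x0 : ℂ) + (y : ℂ) * I) (hi : (z⁻¹).im ≤ 0) {d : CellD}
    (hX : |x0 - (zv X : ℝ) / 2 ^ 48| ≤ 32 / 2 ^ 48) (ev : evC d.ya d.yb = true)
    (hy : y * 2 ^ 48 = (1 - t) * d.ya + t * d.yb) (hm : 0 < d.m)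
    (H : chkCell3 (nat_lit 1) (clsE a b c) G (xsC X d.ya d.yb) (nat_lit 32) d.m [d.u] [d.K] d.L
      = true) : PtR a b c t z X G d ∧
        KResL (fun k => KP 1 w1 t (kfs [d.K] k)) (kap3 a b c) z G := by
  have hC := clk_E ha hb hc hok h0 h1
  have hK := kres_of_cell3 one_pos w1_wts h0 h1 hC hz hzx hi (xs := xsC X d.ya d.yb)
    (us := [d.u]) rfl rfl (mod_x ev t hX hy) (im_x ev hy) xs_nonneg hm (KTs := [d.K]) rfl H
  obtain ⟨g, H⟩ := andB_tt H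
  obtain ⟨hu, hzm⟩ := MOK.z one_pos w1_wts h0 h1 hz hzx hi (nat_lit 32) (xs := xsC X d.ya d.yb)
    (us := [d.u]) rfl rfl (mod_x ev t hX hy) (im_x ev hy) xs_nonneg hm g
  obtain ⟨b0, H⟩ := andB_tt H
  obtain ⟨b1, H⟩ := andB_tt H
  obtain ⟨b2, H⟩ := andB_tt H
  obtain ⟨b3, H⟩ := andB_tt H
  obtain ⟨b4, H⟩ := andB_tt H
  obtain ⟨b5, H⟩ := andB_tt H
  exact ⟨⟨hK.1, oZ_ne one_pos w1_wts h0 h1 hC hu hzm b0 b1 b2 b3 b4 b5, hu, hzm⟩, hK.2⟩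

/-! ### families at a point -/

/-- one wall -/
theorem wall_F {F : FT} (hF : FamOK F) {p q r : ℕ} (hp : 3 ≤ p) (hq : 3 ≤ q) (hr : 3 ≤ r)
    {w : ℂ} (h1w : 1 + w ≠ 0)
    (h2w : 1 - w ≠ 0) (hom : ∀ s, DG s → omS p q r s w ≠ 0) {x z : ℂ}
    (hzw : z = (1 + w) / (1 - w)) (hz : z ≠ 0) (hzx : z + z⁻¹ = x) {x0 : ℝ} (hre : x.re = x0)
    (him : 0 ≤ x.im) (h0 : 0 ≤ t) (h1 : t ≤ 1) {n : Fin 3}
    {k k' c : ℝ} (ek : kk p q r (bs n).1 (bs n).2.1 = k) (ek' : kk p q r (bs n).1 (bs n).2.2 = k')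
    (el : lamS p q r (bs n) = 2 * c / (k * k'))
    (hc : WallC k k' c x0) {K K' L U Zm : Mo}
    (hK : MOK 1 w1 t (k : ℂ) K) (hK' : MOK 1 w1 t (k' : ℂ) K')
    (hL : MOK 1 w1 t ((2 * c / (k * k') : ℝ) : ℂ) L)
    (hU : MOK 1 w1 t z⁻¹ U) (hZ : MOK 1 w1 t z Zm) {KT : K2}
    {D : FD} (h : F [KT] D L K K' U Zm = true) {A : AD} (hA : famC D A = true) :
    ∀ m : ℕ, ∀ v, 0 < ev (KP 1 w1 t (kfs [KT] D.ke)) v →
      0 < ev (KP 1 w1 t (kfs [KT] D.kx))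
        ((gM (RMb p q r) (bs n) (List.replicate 2 3) w ^ (m + 1)).mulVec v) := by
  obtain ⟨g1, g2⟩ := bs_om (p := p) (q := q) (r := r) h1w h2w n
  rw [← hzw, el] at g1 g2
  have o1 := hom _ (bs_DG n)
  have o2 := hom _ (Pool.Agent.Helper21.SUP.DG_nx (bs n) 3 (bs_DG n))
  exact famA_state hp hq hr (bs_DG n) ek ek' hc hz hzx hre him g1 g2 o1 o2
    (hF h0 h1 hc hz hzx hre him hK hK' hL hU hZ h hA g1 g2 o1 o2)

/-- data of the checks of the powers -/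
structure NA where
  A0 : AD
  A1 : AD
  A2 : AD

/-- side conditions of a wall -/
def sideW (W : WN) (D : FD) (A : AD) : Bool :=
  !W.f || (D.ke == W.e && (D.kx == W.x && famC D A))

theorem sideW_iff {W : WN} {D : FD} {A : AD} (h : sideW W D A = true) (hf : W.f = true) :
    D.ke = W.e ∧ D.kx = W.x ∧ famC D A = true := by
  unfold sideW at h
  rw [hf, Bool.not_true, Bool.false_or, Bool.and_eq_true, Bool.and_eq_true, beq_iff_eq,
    beq_iff_eq] at h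
  exact h

/-- side conditions of a near cell -/
def sideN (W0 W1 W2 : WN) (le : List LE) (d : ND) (A : NA) : Bool :=
  sideC le d.c && (sideW W0 d.D0 A.A0 && (sideW W1 d.D1 A.A1 && sideW W2 d.D2 A.A2))

/-- everything which does not depend on the cell -/
structure FixN (a b c : ℕ) (x0 : ℝ) (X : Z) (gb : Bool) (W0 W1 W2 : WN) (G : Prog)
    (il : List IE) (sl : List ℕ) (le : List LE) : Prop where
  ha : 3 ≤ a ∧ a ≤ 9
  hb : 3 ≤ b ∧ b ≤ 9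
  hc : 3 ≤ c ∧ c ≤ 9
  x1 : -2 < x0
  x2 : x0 ≤ 2
  t1 : xA a b c ≤ x0
  t2 : xA b c a ≤ x0
  t3 : xA c a b ≤ x0
  xX : |x0 - (zv X : ℝ) / 2 ^ 48| ≤ 32 / 2 ^ 48
  cls : clsEok a b c = true
  cov : coverN a b c gb W0 W1 W2 G il = true
  covT : covT a b c sl = true
  covL : covL a b c le = true

theorem zw_ne {z : ℂ} (hz : z ≠ 0) (hz1 : z + 1 ≠ 0) : 1 + zw z ≠ 0 ∧ 1 - zw z ≠ 0 ∧
    z = (1 + zw z) / (1 - zw z) := by
  have e1 : 1 + zw z = 2 * z / (z + 1) := by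
    unfold zw
    field_simp
    ring
  have e2 : 1 - zw z = 2 / (z + 1) := by
    unfold zw
    field_simp
    ring
  rw [e1, e2]
  refine ⟨div_ne_zero (mul_ne_zero two_ne_zero hz) hz1, div_ne_zero two_ne_zero hz1, ?_⟩
  field_simp

/-- the model of a weight -/
theorem key_E {M : ℕ} (hM : 3 ≤ M ∧ M ≤ 9) (h0 : 0 ≤ t) (h1 : t ≤ 1) :
    MOK 1 w1 t (Kp M : ℂ) (cstM (nat_lit 1) (kb M) (nat_lit 1)) := by
  refine MOK.kap one_pos w1_wts h0 h1 (kb M) 1 ?_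
  rw [UU_pow]
  have := kap_enc M hM.1 (by omega)
  push_cast
  exact this

theorem nrm_pos_of {K : Hm ℝ} {v : Fin 3 → ℂ} (h : 0 < ev K v) :
    0 < Pool.Agent.Helper17.PAK.nrm v := by
  by_contra hn
  push Not at hn
  have h0 := normSq_nonneg (v 0)
  have h1 := normSq_nonneg (v 1)
  have h2 := normSq_nonneg (v 2)
  have e : Pool.Agent.Helper17.PAK.nrm v = normSq (v 0) + normSq (v 1) + normSq (v 2) := rfl
  rw [e] at hn
  have z0 : v 0 = 0 := normSq_eq_zero.1 (by linarith)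
  have z1 : v 1 = 0 := normSq_eq_zero.1 (by linarith)
  have z2 : v 2 = 0 := normSq_eq_zero.1 (by linarith)
  have : ev K v = 0 := by
    simp only [ev, z0, z1, z2, map_zero, mul_zero, zero_mul, Complex.zero_re, add_zero]
  linarith

/-- the families of the three walls at a point -/
theorem fam_pt {F : FT} (hF : FamOK F) {gb : Bool} {W0 W1 W2 : WN} {il : List IE}
    (hX : FixN a b c x0 X gb W0 W1 W2 G il sl le) (h0 : 0 ≤ t) (h1 : t ≤ 1)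
    {z : ℂ} {y : ℝ} (hy0 : 0 ≤ y) (hz : z ≠ 0) (hzx : z + z⁻¹ = (x0 : ℂ) + (y : ℂ) * I)
    {d : ND} {A : NA} (hP : PtR a b c t z X G d.c) (hs : sideN W0 W1 W2 le d A = true)
    (H : famCN F W0.f W1.f W2.f (cstM (nat_lit 1) (kb a) (nat_lit 1))
      (cstM (nat_lit 1) (kb b) (nat_lit 1)) (cstM (nat_lit 1) (kb c) (nat_lit 1)) (clsE a b c)
      d.D0 d.D1 d.D2 (xsC X d.c.ya d.c.yb) (nat_lit 32) d.c.m [d.c.u] [d.c.K] = true) :
    ∀ s, DG s → giS s < 3 → (wS W0 W1 W2 (giS s)).f = true → ∀ m : ℕ, ∀ v,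
      0 < ev (KP 1 w1 t (kfs [d.c.K] (wS W0 W1 W2 (giS s)).e)) v →
        0 < ev (KP 1 w1 t (kfs [d.c.K] (wS W0 W1 W2 (giS s)).x))
        ((gM (RMb a b c) s (List.replicate 2 3) (zw z) ^ (m + 1)).mulVec v) := by
  have hz1 := z_ne hX.x1 hzx
  obtain ⟨hw1, hw2, hzw⟩ := zw_ne hz hz1
  have hom : ∀ s, DG s → omS a b c s (zw z) ≠ 0 := by
    intro s h
    rw [oZ_omS hz hz1 s h]
    exact hP.ne _
  have hre : ((x0 : ℂ) + (y : ℂ) * I).re = x0 := by simp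
  have him : 0 ≤ ((x0 : ℂ) + (y : ℂ) * I).im := by simpa using hy0
  have a0 := key_E (t := t) hX.ha h0 h1
  have a1 := key_E (t := t) hX.hb h0 h1
  have a2 := key_E (t := t) hX.hc h0 h1
  have hC := clk_E hX.ha hX.hb hX.hc hX.cls h0 h1
  have f : ∀ a b c : ℝ, (2 * (c : ℂ) / ((a : ℂ) * (b : ℂ))) = ((2 * c / (a * b) : ℝ) : ℂ) := by
    intro a b c
    push_cast
    rfl
  have e0 : kap3 a b c 0 = Kp a := rfl
  have e1 : kap3 a b c 1 = Kp b := rfl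
  have e2 : kap3 a b c 2 = Kp c := rfl
  have l0 := hC.l0
  have l1 := hC.l1
  have l2 := hC.l2
  rw [e0, e1, e2, f] at l0 l1 l2
  obtain ⟨c0, H⟩ := andB_tt H
  obtain ⟨c1, c2⟩ := andB_tt H
  unfold sideN at hs
  simp only [Bool.and_eq_true] at hs
  obtain ⟨-, s0, s1, s2⟩ := hs
  refine DG_cases ?_ ?_ ?_ ?_ ?_ ?_
  · intro _ hf
    have hf' : W0.f = true := hf
    obtain ⟨n1, n2, n3⟩ := sideW_iff s0 hf'
    have h := wall_F hF hX.ha.1 hX.hb.1 hX.hc.1 hw1 hw2 hom hzw hz hzx hre him h0 h1 (n := 0) rfl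
      rfl rfl (wallC_of hX.ha.1 hX.hc.1 hX.hb.1 (by rw [xA_swap]; exact hX.t3)) a0 a2 l0 hP.u hP.z
      (imB_iff c0 hf') n3
    rw [n1, n2] at h
    exact h
  · intro _ hf
    have hf' : W1.f = true := hf
    obtain ⟨n1, n2, n3⟩ := sideW_iff s1 hf'
    have h := wall_F hF hX.ha.1 hX.hb.1 hX.hc.1 hw1 hw2 hom hzw hz hzx hre him h0 h1 (n := 1) rfl
      rfl rfl (wallC_of hX.hb.1 hX.ha.1 hX.hc.1 (by rw [xA_swap]; exact hX.t1)) a1 a0 l1 hP.u hP.z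
      (imB_iff c1 hf') n3
    rw [n1, n2] at h
    exact h
  · intro _ hf
    have hf' : W2.f = true := hf
    obtain ⟨n1, n2, n3⟩ := sideW_iff s2 hf'
    have h := wall_F hF hX.ha.1 hX.hb.1 hX.hc.1 hw1 hw2 hom hzw hz hzx hre him h0 h1 (n := 2) rfl
      rfl rfl (wallC_of hX.hc.1 hX.hb.1 hX.ha.1 (by rw [xA_swap]; exact hX.t2)) a2 a1 l2 hP.u hP.z
      (imB_iff c2 hf') n3
    rw [n1, n2] at h
    exact h
  · intro h3
    exact absurd h3 (by decide)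
  · intro h3
    exact absurd h3 (by decide)
  · intro h3
    exact absurd h3 (by decide)

/-! ### the certificate of a point -/

/-- the statement about the families of type B at a point of a cell -/
def BPt (a b c : ℕ) (t : ℝ) (z : ℂ) (KT : K2) : Prop :=
  ∀ s, DG s → ∀ T : T4, T.ok (ML a b c s) → T.low (ML a b c s) ≤ 2 → T ≠ T4.two → ∀ k : ℕ, ∀ v,
    0 < ev (KP 1 w1 t (kfs [KT] (kidx a b c s T))) v →
      0 < ev (KP 1 w1 t (kfs [KT] (kidx a b c (sD s (List.replicate (k + 1) 2)) T4.two)))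
        ((gM (RMb a b c) s (List.replicate (k + 1) 2) (zw z)).mulVec v)

/-- the families of type B of a cell -/
def BCell (a b c : ℕ) (x0 : ℝ) (X : Z) (G : Prog) (d : CellD) : Prop :=
  ∀ {t : ℝ}, 0 ≤ t → t ≤ 1 → ∀ {z : ℂ} {y : ℝ}, 0 ≤ y → z ≠ 0 → (z⁻¹).im ≤ 0 →
    z + z⁻¹ = (x0 : ℂ) + (y : ℂ) * I → y * 2 ^ 48 = (1 - t) * d.ya + t * d.yb →
    PtR a b c t z X G d → BPt a b c t z d.K

theorem chkI_pos (h0 : 0 ≤ t) (h1 : t ≤ 1) {KT : K2} {LT : ℕ} {l : List IE}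
    (h : chkI [KT] LT l = true) : ∀ x ∈ l, ∀ y ∈ x.s, ∀ v,
      0 < ev (KP 1 w1 t (kfs [KT] y.k)) v → 0 < ev (KP 1 w1 t (kfs [KT] x.k)) v := by
  intro x hx y hy v hv
  have h2 := chkI_point (n := 1) w1_wts h0 h1 (KTs := [KT]) rfl h hx hy v
  have h3 := nrm_pos_of hv
  have h4 : 0 ≤ (1 - t) * ((u32 LT (64 * y.l) : ℕ) / 2 ^ 24 : ℝ) +
      t * ((u32 LT (64 * y.l + 32) : ℕ) / 2 ^ 24 : ℝ) := by
    have a1 : 0 ≤ ((u32 LT (64 * y.l) : ℕ) / 2 ^ 24 : ℝ) := by positivity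
    have a2 : 0 ≤ ((u32 LT (64 * y.l + 32) : ℕ) / 2 ^ 24 : ℝ) := by positivity
    have := mul_nonneg (sub_nonneg.2 h1) a1
    have := mul_nonneg h0 a2
    linarith
  have h5 := mul_nonneg h4 hv.le
  have h6 : 0 < (1 / 2 ^ 10 : ℝ) * Pool.Agent.Helper17.PAK.nrm v := by positivity
  linarith

variable {gb : Bool} {W0 W1 W2 : WN} {il : List IE}

/-- the certificate at a point of a near cell -/
theorem FixN.tcert (hX : FixN a b c x0 X gb W0 W1 W2 G il sl le) (h0 : 0 ≤ t) (h1 : t ≤ 1)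
    {z : ℂ} {y : ℝ} (hz : z ≠ 0) (hzx : z + z⁻¹ = (x0 : ℂ) + (y : ℂ) * I) {d : ND}
    (hK : KRes (fun k => KP 1 w1 t (kfs [d.c.K] k)) (kap3 a b c) z G)
    (hLP : LPos a b c (fun k => KP 1 w1 t (kfs [d.c.K] k)) z) (hst : chkSt [d.c.K] sl = true)
    (hsl : chkSl [d.c.K] d.c.S le = true) (hso : sOKl d.c.S le = true)
    (hI : chkI [d.c.K] d.c.L il = true)
    (hfam : ∀ s, DG s → giS s < 3 → (wS W0 W1 W2 (giS s)).f = true → ∀ m : ℕ, ∀ v,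
      0 < ev (KP 1 w1 t (kfs [d.c.K] (wS W0 W1 W2 (giS s)).e)) v →
        0 < ev (KP 1 w1 t (kfs [d.c.K] (wS W0 W1 W2 (giS s)).x))
        ((gM (RMb a b c) s (List.replicate 2 3) (zw z) ^ (m + 1)).mulVec v))
    (hB : gb = true → BPt a b c t z d.c.K) :
    TCert V0 e0 a b c CB (zw z) (RK fun s T => KP 1 w1 t (kfs [d.c.K] (kidx a b c s T))) := by
  have hz1 := z_ne hX.x1 hzx
  exact tcert_near hX.ha.1 hX.hb.1 hX.hc.1 (mm_le hX.ha.2 hX.hb.2 hX.hc.2) hz hz1 hK hX.cov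
    (chkI_pos h0 h1 hI) hfam (fun hg s h T hT hl h2 k v hv => hB hg s h T hT hl h2 k v hv)
    (κ := 2 ^ 10) (M := 2 ^ 32) (by positivity) hX.covT
    (fun k hk => negD_KP w1_wts h0 h1 rfl hst hk)
    (fun k => KP_bd w1_wts h0 h1 _) hLP hX.covL
    (fun x hx N h3 h9 ht => slit_KP w1_wts h0 h1 rfl hsl hx h3 h9 ht
      (sOKl_iff hso hx).1 (sOKl_iff hso hx).2)

variable {F : FT}

/-- A NEAR CELL OF A CLASS WITHOUT LABEL `3` -/
theorem FixN.cell (hF : FamOK F) (hX : FixN a b c x0 X gb W0 W1 W2 G il sl le)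
    (h4 : 4 ≤ a ∧ 4 ≤ b ∧ 4 ≤ c) {d : ND} {A : NA} (hs : sideN W0 W1 W2 le d A = true)
    (hB : gb = true → BCell a b c x0 X G d.c)
    (H : chkN F W0.f W1.f W2.f (cstM (nat_lit 1) (kb a) (nat_lit 1))
      (cstM (nat_lit 1) (kb b) (nat_lit 1)) (cstM (nat_lit 1) (kb c) (nat_lit 1)) (clsE a b c)
      G X sl le il d = true) :
    TCell a b c x0 ((d.c.ya : ℝ) / 2 ^ 48) ((d.c.yb : ℝ) / 2 ^ 48) := by
  obtain ⟨H, HI⟩ := andB_tt H
  obtain ⟨HI, HF⟩ := andB_tt HI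
  obtain ⟨e1, H⟩ := andB_tt H
  obtain ⟨e2, H⟩ := andB_tt H
  obtain ⟨e3, e4⟩ := andB_tt H
  have hs' := hs
  unfold sideN sideC at hs'
  simp only [Bool.and_eq_true, decide_eq_true_eq] at hs'
  refine tcell_of_z hX.x1 hX.x2 CB ?_
  intro z y hy0 hya hyb hz _ _ hui hzx
  obtain ⟨t, h0, h1, ht⟩ := exists_t hya hyb
  have hP := ptR_of hX.ha hX.hb hX.hc hX.cls h0 h1 hz hzx hui hX.xX e1 ht hs'.1.1 e2
  exact ⟨_, hX.tcert h0 h1 hz hzx hP.K (lpos_of_four (mm_ge h4.1 h4.2.1 h4.2.2) _ _) e3 e4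
    hs'.1.2 HI (fam_pt hF hX h0 h1 hy0 hz hzx hP hs HF)
    (fun hg => hB hg h0 h1 hy0 hz hui hzx ht hP)⟩

/-- A NEAR CELL OF A CLASS WITH A LABEL `3` -/
theorem FixN.cell3 (hF : FamOK F) (hX : FixN a b c x0 X gb W0 W1 W2 G il sl le)
    (hcL : coverL a b c G = true) {d : ND} {A : NA} (hs : sideN W0 W1 W2 le d A = true)
    (hB : gb = true → BCell a b c x0 X G d.c)
    (H : chkN3 F W0.f W1.f W2.f (cstM (nat_lit 1) (kb a) (nat_lit 1))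
      (cstM (nat_lit 1) (kb b) (nat_lit 1)) (cstM (nat_lit 1) (kb c) (nat_lit 1)) (clsE a b c)
      G X sl le il d = true) :
    TCell a b c x0 ((d.c.ya : ℝ) / 2 ^ 48) ((d.c.yb : ℝ) / 2 ^ 48) := by
  obtain ⟨H, HI⟩ := andB_tt H
  obtain ⟨HI, HF⟩ := andB_tt HI
  obtain ⟨e1, H⟩ := andB_tt H
  obtain ⟨e2, H⟩ := andB_tt H
  obtain ⟨e3, e4⟩ := andB_tt H
  have hs' := hs
  unfold sideN sideC at hs'
  simp only [Bool.and_eq_true, decide_eq_true_eq] at hs'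
  refine tcell_of_z hX.x1 hX.x2 CB ?_
  intro z y hy0 hya hyb hz _ _ hui hzx
  obtain ⟨t, h0, h1, ht⟩ := exists_t hya hyb
  obtain ⟨hP, hPL⟩ := ptR_of3 hX.ha hX.hb hX.hc hX.cls h0 h1 hz hzx hui hX.xX e1 ht hs'.1.1 e2
  exact ⟨_, hX.tcert h0 h1 hz hzx hP.K (lpos_of hz (z_ne hX.x1 hzx) hcL hPL) e3 e4
    hs'.1.2 HI (fam_pt hF hX h0 h1 hy0 hz hzx hP hs HF)
    (fun hg => hB hg h0 h1 hy0 hz hui hzx ht hP)⟩

/-! ### chains of cells -/

/-- two lists of the same length, side conditions -/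
def sideL (f : ND → NA → Bool) : List ND → List NA → Bool
  | [], [] => true
  | d :: l, A :: m => f d A && sideL f l m
  | _, _ => false

theorem pcN_tcell {f : ND → Bool} {g : ND → NA → Bool} {a b c : ℕ} {x0 : ℝ} {e : ℕ} :
    ∀ (l : List ND) (d : ND) (As : List NA) (y : ℕ), pcN f e (d :: l) y = true →
      sideL g (d :: l) As = true →
      (∀ u ∈ d :: l, ∀ A, g u A = true → f u = true →
        TCell a b c x0 ((u.c.ya : ℝ) / 2 ^ 48) ((u.c.yb : ℝ) / 2 ^ 48)) →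
      TCell a b c x0 ((y : ℝ) / 2 ^ 48) ((e : ℝ) / 2 ^ 48) := by
  intro l
  induction l with
  | nil =>
    intro d As y H hA hf
    obtain ⟨h1, H⟩ := andB_tt H
    obtain ⟨-, H⟩ := andB_tt H
    obtain ⟨h3, h4⟩ := andB_tt H
    have e1 : y = d.c.ya := Nat.eq_of_beq_eq_true h1
    have e2 : d.c.yb = e := Nat.eq_of_beq_eq_true h4
    rcases As with _ | ⟨A, As⟩
    · cases hA
    · have hA' : (g d A && sideL g [] As) = true := hA
      rw [Bool.and_eq_true] at hA'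
      rw [e1, ← e2]
      exact hf d List.mem_cons_self A hA'.1 h3
  | cons d' l ih =>
    intro d As y H hA hf
    obtain ⟨h1, H⟩ := andB_tt H
    obtain ⟨-, H⟩ := andB_tt H
    obtain ⟨h3, h4⟩ := andB_tt H
    have e1 : y = d.c.ya := Nat.eq_of_beq_eq_true h1
    rcases As with _ | ⟨A, As⟩
    · cases hA
    · have hA' : (g d A && sideL g (d' :: l) As) = true := hA
      rw [Bool.and_eq_true] at hA'
      rw [e1]
      exact (hf d List.mem_cons_self A hA'.1 h3).join (ih d' As d.c.yb h4 hA'.2 fun u hu =>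
        hf u (List.mem_cons_of_mem _ hu))

/-- THE LIST OF NEAR CELLS, class without label `3` -/
theorem FixN.pc (hF : FamOK F) (hX : FixN a b c x0 X gb W0 W1 W2 G il sl le)
    (h4 : 4 ≤ a ∧ 4 ≤ b ∧ 4 ≤ c) {l : List ND} (hl : l ≠ []) {As : List NA}
    (hs : sideL (sideN W0 W1 W2 le) l As = true)
    (hB : gb = true → ∀ d ∈ l, BCell a b c x0 X G d.c) {y e : ℕ}
    (H : chkPN F W0.f W1.f W2.f (cstM (nat_lit 1) (kb a) (nat_lit 1))
      (cstM (nat_lit 1) (kb b) (nat_lit 1)) (cstM (nat_lit 1) (kb c) (nat_lit 1)) (clsE a b c)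
      G X sl le il e l y = true) :
    TCell a b c x0 ((y : ℝ) / 2 ^ 48) ((e : ℝ) / 2 ^ 48) := by
  obtain ⟨d, l, rfl⟩ := List.exists_cons_of_ne_nil hl
  exact pcN_tcell l d As y H hs fun u hu A hA hc =>
    hX.cell hF h4 hA (fun hg => hB hg u hu) hc

/-- THE LIST OF NEAR CELLS, class with a label `3` -/
theorem FixN.pc3 (hF : FamOK F) (hX : FixN a b c x0 X gb W0 W1 W2 G il sl le)
    (hcL : coverL a b c G = true) {l : List ND} (hl : l ≠ []) {As : List NA}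
    (hs : sideL (sideN W0 W1 W2 le) l As = true)
    (hB : gb = true → ∀ d ∈ l, BCell a b c x0 X G d.c) {y e : ℕ}
    (H : chkPN3 F W0.f W1.f W2.f (cstM (nat_lit 1) (kb a) (nat_lit 1))
      (cstM (nat_lit 1) (kb b) (nat_lit 1)) (cstM (nat_lit 1) (kb c) (nat_lit 1)) (clsE a b c)
      G X sl le il e l y = true) :
    TCell a b c x0 ((y : ℝ) / 2 ^ 48) ((e : ℝ) / 2 ^ 48) := by
  obtain ⟨d, l, rfl⟩ := List.exists_cons_of_ne_nil hl
  exact pcN_tcell l d As y H hs fun u hu A hA hc =>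
    hX.cell3 hF hcL hA (fun hg => hB hg u hu) hc

/-! ### modules -/

/-- the data of a module of near cells -/
def modN (a b c : ℕ) (gb : Bool) (W0 W1 W2 : WN) (G : Prog) (il : List IE) (sl : List ℕ)
    (le : List LE) : Bool :=
  clsEok a b c && (coverN a b c gb W0 W1 W2 G il && (covT a b c sl && covL a b c le))

theorem modN_fix {a b c : ℕ} (h3 : 3 ≤ a ∧ 3 ≤ b ∧ a ≤ c ∧ b ≤ c ∧ c ≤ 9)
    (hne : ¬ (a = 3 ∧ b = 3 ∧ c = 3)) {X : Z}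
    (hX : zv X = Pool.Agent.Helper6.MONO.XTH.XA (min a b) (max a b) c) {gb : Bool}
    {W0 W1 W2 : WN} {G : Prog} {il : List IE} {sl : List ℕ} {le : List LE}
    (h : modN a b c gb W0 W1 W2 G il sl le = true) :
    FixN a b c (xA a b c) X gb W0 W1 W2 G il sl le := by
  obtain ⟨h1, h2, h3, h4, h5⟩ := h3
  unfold modN at h
  simp only [Bool.and_eq_true] at h
  refine ⟨⟨h1, by omega⟩, ⟨h2, by omega⟩, ⟨by omega, h5⟩, xA_gt h1 h2 h4,
    xA_le2 h1 h2 (by omega), le_rfl, ?_, xA_max h1 h2 h4, xX_A h1 h2 h3 h4 h5 hne hX, h.1, h.2.1,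
    h.2.2.1, h.2.2.2⟩
  rw [xA_swap c b a, xA_swap b a c]
  exact xA_max h2 h1 h3

/-- A MODULE OF NEAR CELLS of a class of type A without label `3` -/
theorem near_A {a b c : ℕ} (hh : 4 ≤ a ∧ 4 ≤ b ∧ a ≤ c ∧ b ≤ c ∧ c ≤ 9) {X : Z}
    (hX : zv X = Pool.Agent.Helper6.MONO.XTH.XA (min a b) (max a b) c) {F : FT} (hF : FamOK F)
    {gb : Bool} {W0 W1 W2 : WN} {G : Prog} {il : List IE} {sl : List ℕ} {le : List LE}
    (hm : modN a b c gb W0 W1 W2 G il sl le = true) {f0 f1 f2 : Bool} (g0 : f0 = W0.f)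
    (g1 : f1 = W1.f) (g2 : f2 = W2.f) {k0 k1 k2 : Mo}
    (e0 : k0 = cstM (nat_lit 1) (kb a) (nat_lit 1)) (e1 : k1 = cstM (nat_lit 1) (kb b) (nat_lit 1))
    (e2 : k2 = cstM (nat_lit 1) (kb c) (nat_lit 1)) {l : List ND} (hl : l ≠ []) {As : List NA}
    (hs : sideL (sideN W0 W1 W2 le) l As = true)
    (hB : gb = true → ∀ d ∈ l, BCell a b c (xA a b c) X G d.c) {y e : ℕ}
    (H : chkPN F f0 f1 f2 k0 k1 k2 (mkCls (nat_lit 1) k0 k1 k2) G X sl le il e l y = true) :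
    TCell a b c (xA a b c) ((y : ℝ) / 2 ^ 48) ((e : ℝ) / 2 ^ 48) := by
  rw [g0, g1, g2, e0, e1, e2] at H
  obtain ⟨h1, h2, h3, h4, h5⟩ := hh
  exact (modN_fix ⟨by omega, by omega, h3, h4, h5⟩ (by omega) hX hm).pc hF ⟨h1, h2, by omega⟩ hl
    hs hB H

/-- A MODULE OF NEAR CELLS of a class of type A with a label `3` -/
theorem near_A3 {a b c : ℕ} (hh : 3 ≤ a ∧ 3 ≤ b ∧ a ≤ c ∧ b ≤ c ∧ c ≤ 9)
    (hne : ¬ (a = 3 ∧ b = 3 ∧ c = 3)) {X : Z}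
    (hX : zv X = Pool.Agent.Helper6.MONO.XTH.XA (min a b) (max a b) c) {F : FT} (hF : FamOK F)
    {gb : Bool} {W0 W1 W2 : WN} {G : Prog} {il : List IE} {sl : List ℕ} {le : List LE}
    (hm : modN a b c gb W0 W1 W2 G il sl le = true) (hcL : coverL a b c G = true)
    {f0 f1 f2 : Bool} (g0 : f0 = W0.f) (g1 : f1 = W1.f) (g2 : f2 = W2.f) {k0 k1 k2 : Mo}
    (e0 : k0 = cstM (nat_lit 1) (kb a) (nat_lit 1)) (e1 : k1 = cstM (nat_lit 1) (kb b) (nat_lit 1))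
    (e2 : k2 = cstM (nat_lit 1) (kb c) (nat_lit 1)) {l : List ND} (hl : l ≠ []) {As : List NA}
    (hs : sideL (sideN W0 W1 W2 le) l As = true)
    (hB : gb = true → ∀ d ∈ l, BCell a b c (xA a b c) X G d.c) {y e : ℕ}
    (H : chkPN3 F f0 f1 f2 k0 k1 k2 (mkCls (nat_lit 1) k0 k1 k2) G X sl le il e l y = true) :
    TCell a b c (xA a b c) ((y : ℝ) / 2 ^ 48) ((e : ℝ) / 2 ^ 48) := by
  rw [g0, g1, g2, e0, e1, e2] at H
  exact (modN_fix hh hne hX hm).pc3 hF hcL hl hs hB H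

end Pool.Agent.Helper39.NCL
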