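import Pool.Agent.Helper39.CX.KNH5
import Pool.Agent.Helper39.CX.TSW
import Pool.Agent.Helper17.CX.KNJ
import Pool.Agent.Helper90.C75.Blk

/-!
Row KNF, version 2, soundness, part 6: `famW`, and the powers of the cycle at a point of the cell.
-/

set_option autoImplicit false
noncomputable section
namespace Pool.Agent.Helper39.KNF

open Pool.Agent.Helper86.C75 (Z)
open Pool.Agent.Helper86.CX
open Pool.Agent.Helper90.C75
open Pool.Agent.Helper90.KMO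
open Pool.Agent.Helper17
open Pool.Agent.Helper17.PAK
open Pool.Agent.Helper6.MONO (FNm SbP kapA tauA nuA nfm_kap nfm_tau nfm_TA TA)
open Pool.Agent.Helper42.CH (powA tau_cond)
open Pool.Agent.Helper32.C75 (pt InHull Near cell3 cell3_sound PK HP Tr powA_im)
open Complex ComplexConjugate Finset

variable {t : ℝ}

/-- data of the check of the powers `A_i`, `i ≥` number of tests -/
structure AD where
  ax : Bool
  K : List PK
  H : List HP
  x0 : ℕ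
  x1 : ℕ
  y0 : ℕ
  y1 : ℕ
  T : Tr

/-- the check of the powers (helper32) -/
def famC (D : FD) (A : AD) : Bool :=
  cell3 A.ax D.Vs A.K [D.Ta, D.Tc, D.Tb] D.rho A.H (lenL D.L) A.x0 A.x1 A.y0 A.y1 A.T
where
  lenL (L : List QT) : ℕ := List.rec (motive := fun _ => ℕ) 0 (fun _ _ ih => ih + 1) L

theorem lenL_eq (L : List QT) : famC.lenL L = L.length := by
  induction L with
  | nil => rfl
  | cons x L ih =>
    show famC.lenL L + 1 = _
    rw [ih]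
    rfl

theorem kfs_len (KTs : List K2) (k : ℕ) : (kfs KTs k).length = KTs.length := by
  induction KTs with
  | nil => rfl
  | cons x l ih =>
    show (kfs l k).length + 1 = _
    rw [ih]
    rfl

/-- SOUNDNESS OF `famW`: all powers of `tau` -/
theorem famW_sound {w1 : Fin 1 → ℝ} (hw : Wts w1) (h0 : 0 ≤ t) (h1 : t ≤ 1)
    {k k' c x0 : ℝ} (hc : WallC k k' c x0) {x z : ℂ} (hz : z ≠ 0) (hzx : z + z⁻¹ = x)
    (hre : x.re = x0) (him : 0 ≤ x.im) {K K' L U Zm : Mo}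
    (hK : MOK 1 w1 t (k : ℂ) K) (hK' : MOK 1 w1 t (k' : ℂ) K')
    (hL : MOK 1 w1 t ((2 * c / (k * k') : ℝ) : ℂ) L)
    (hU : MOK 1 w1 t z⁻¹ U) (hZ : MOK 1 w1 t z Zm) {KTs : List K2} (hT : KTs.length = 1)
    {D : FD} (h : famW KTs D L K K' U Zm = true) {A : AD} (hA : famC D A = true) {o o' : ℂ}
    (hg : o⁻¹ = 2 * (1 + ((2 * c / (k * k') : ℝ) : ℂ) * z⁻¹))
    (hg' : o'⁻¹ = 2 * (1 + ((2 * c / (k * k') : ℝ) : ℂ) * z)) (ho : o ≠ 0) (ho' : o' ≠ 0)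
    (i : ℕ) :
    FamI (KIh 1 w1 t (kfs KTs D.kx)) (KIh 1 w1 t (kfs KTs D.ke)) (SbP k) (SbP k') o⁻¹ o'⁻¹ o
      (powA (tauA k k' o o') i) := by
  have hn : 0 < 1 := one_pos
  have p1 := MOK.one (n := 1) hn hw h0 h1
  have p2 := MOK.two (n := 1) hn hw h0 h1
  obtain ⟨b1, h⟩ := andB_t h
  obtain ⟨b2, h⟩ := andB_t h
  have hS := MOK.sMo hn hw h0 h1 hc.hk.ne' hK b1
  have hS' := MOK.sMo hn hw h0 h1 hc.hk'.ne' hK' b2
  have hG := MOK.gM hn hw h0 h1 hL hU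
  have hG' := MOK.gM hn hw h0 h1 hL hZ
  rw [← hg] at hG
  rw [← hg'] at hG'
  obtain ⟨b3, h⟩ := andB_t h
  obtain ⟨b4, h⟩ := andB_t h
  have hO := (hG.invM hn hw h0 h1 b3).1
  rw [inv_inv] at hO
  have hE := (hG.add p2).mul hn hw h0 h1 (hG'.add p2)
  obtain ⟨b5, h⟩ := andB_t h
  obtain ⟨hEi, hEne⟩ := hE.invM hn hw h0 h1 b5
  have hC := FCK.mk' hn hw h0 h1 hS hS' hG hG' hO
  have hD2 := MOK.dbl ((p1.add hS).mul hn hw h0 h1 (p1.add hS'))
  have hH := HCK.mkHA hn hw h0 h1 hC hD2 (X := kfs KTs D.kx) (E := kfs KTs D.ke)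
    (by rw [kfs_len, hT]) (by rw [kfs_len, hT]) D.B
  have hcc := (MOK.qd ((p1.add hS).mul hn hw h0 h1 (p1.add hS'))).mul hn hw h0 h1 hEi
  have hs0 : (1 + (SbP k : ℂ)) ≠ 0 := by
    rw [one_SbP hc.hk.ne']
    have := hc.hk
    exact Complex.ofReal_ne_zero.2 (by positivity)
  have hs0' : (1 + (SbP k' : ℂ)) ≠ 0 := by
    rw [one_SbP hc.hk'.ne']
    have := hc.hk'
    exact Complex.ofReal_ne_zero.2 (by positivity)
  have hτ := nfm_tau ho ho' hs0 hs0' (left_ne_zero_of_mul hEne) (right_ne_zero_of_mul hEne)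
  rw [div_eq_mul_inv] at hτ
  obtain ⟨k1, k2⟩ := wall_kap hc hz hzx hre him ho ho' hg hg'
  obtain ⟨t1, t2, t3⟩ := tau_re_im k1 k2
  have t4 := tau_cond k1
  rw [← tauA_eq] at t1 t2 t3 t4
  obtain ⟨b6, h⟩ := andB_t h
  obtain ⟨b7, b8⟩ := andB_t h
  have hN := near_seg hw h0 h1 hcc b6
  rw [← hτ] at hN
  have hq := tnQ_sound hn hw h0 h1 hC.h hD2 b4 hH hcc D.L 0 (KNF.one 1) p1 b7
  rw [← hτ] at hq
  rcases lt_or_ge i D.L.length with hi | hi
  · have := hq.1 i hi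
    rwa [zero_add] at this
  · unfold famC at hA
    rw [lenL_eq] at hA
    obtain ⟨V, hV, hV2⟩ := cell3_sound hA hN t2 (by linarith [div_nonneg t2 (by norm_num : (0 : ℝ) ≤ 100), neg_div 100 (tauA k k' o o').im])
      (fun _ i => powA_im t2 t3 t4 i) i hi
    obtain ⟨q, hq2⟩ := tnVs_at b8 V hV
    exact tnV_sound hw h0 h1 hC.h hD2 b4 hH hq2 hV2

/-! ### the cycle at a state -/

theorem ev_smul_c (K : Hm ℝ) (c : ℂ) (v : Fin 3 → ℂ) :
    ev K (c • v) = Complex.normSq c * ev K v := by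
  have h1 : ∀ x : ℂ, normSq (c * x) = normSq c * normSq x := fun x => Complex.normSq_mul c x
  have h2 : ∀ x u y : ℂ, (conj (c * x) * u * (c * y)).re = normSq c * (conj x * u * y).re := by
    intro x u y
    have : conj (c * x) * u * (c * y) = ((normSq c : ℝ) : ℂ) * (conj x * u * y) := by
      rw [map_mul, ← Complex.mul_conj]
      ring
    rw [this, Complex.re_ofReal_mul]
  simp only [ev, Pi.smul_apply, smul_eq_mul, h1, h2]
  ring

theorem ev_KP_KIh {n : ℕ} {wc : Fin n → ℝ} (L : List K2) (v : Fin 3 → ℂ) :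
    ev (Pool.Agent.Helper21.KCE.KP n wc t L) v = 2 ^ 20 * ev (KIh n wc t L) v := by
  rw [Pool.Agent.Helper17.KNI.ev_KP, ev_KIh]
  have e : (2 : ℝ) ^ 20 * (EIv n wc t L v / 2 ^ 20) = EIv n wc t L v := by ring
  rw [e]
  rfl

theorem famI_pos {n : ℕ} {wc : Fin n → ℝ} {LX LE : List K2} {k k' : ℝ} {o o' A : ℂ}
    (ho : o ≠ 0) (ho' : o' ≠ 0) (hs0 : (1 + (SbP k : ℂ)) ≠ 0) (hs0' : (1 + (SbP k' : ℂ)) ≠ 0)
    (h : FamI (KIh n wc t LX) (KIh n wc t LE) (SbP k) (SbP k') o⁻¹ o'⁻¹ o A)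
    {v : Fin 3 → ℂ} (hv : 0 < ev (Pool.Agent.Helper21.KCE.KP n wc t LE) v) :
    0 < ev (Pool.Agent.Helper21.KCE.KP n wc t LX) ((TA k k' o o' A).mulVec v) := by
  obtain ⟨l, hl, h2⟩ := h
  have h3 := h2 v
  rw [ev_KP_KIh] at hv ⊢
  have hv' : 0 < ev (KIh n wc t LE) v := by
    by_contra h0
    push Not at h0
    nlinarith
  rw [← nfm_TA ho ho' hs0 hs0', Matrix.smul_mulVec, ev_smul_c] at h3
  have h4 : 0 < Complex.normSq (2 * ((1 + (SbP k : ℂ)) * (1 + (SbP k' : ℂ)))) *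
      ev (KIh n wc t LX) ((TA k k' o o' A).mulVec v) := lt_of_lt_of_le (mul_pos hl hv') h3
  have h5 := Complex.normSq_nonneg (2 * ((1 + (SbP k : ℂ)) * (1 + (SbP k' : ℂ))))
  have h6 : 0 < ev (KIh n wc t LX) ((TA k k' o o' A).mulVec v) := by
    by_contra h0
    push Not at h0
    nlinarith [mul_nonneg h5 (neg_nonneg.2 h0)]
  positivity

open Pool.Agent.Helper6.MONO (RMb omS kk)
open Pool.Agent.Helper21.SUP (GS gM DG)
open Pool.Agent.Helper21.SUP renaming nx → nxs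
open Pool.Agent.Helper39.SLT (fam_A)

/-- ALL POWERS OF THE A CYCLE AT A STATE, from the family tests -/
theorem famA_state {p q r : ℕ} (hp : 3 ≤ p) (hq : 3 ≤ q) (hr : 3 ≤ r) {s : GS} (hs : DG s) {w : ℂ}
    {w1 : Fin 1 → ℝ} {k k' c x0 : ℝ} (ek : kk p q r s.1 s.2.1 = k)
    (ek' : kk p q r s.1 s.2.2 = k') (hc : WallC k k' c x0) {x z : ℂ} (hz : z ≠ 0)
    (hzx : z + z⁻¹ = x) (hre : x.re = x0) (him : 0 ≤ x.im)
    (hg : (omS p q r s w)⁻¹ = 2 * (1 + ((2 * c / (k * k') : ℝ) : ℂ) * z⁻¹))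
    (hg' : (omS p q r (nxs s 3) w)⁻¹ = 2 * (1 + ((2 * c / (k * k') : ℝ) : ℂ) * z))
    (ho : omS p q r s w ≠ 0) (ho' : omS p q r (nxs s 3) w ≠ 0) {LX LE : List K2}
    (hF : ∀ i, FamI (KIh 1 w1 t LX) (KIh 1 w1 t LE) (SbP k) (SbP k') (omS p q r s w)⁻¹
      (omS p q r (nxs s 3) w)⁻¹ (omS p q r s w)
      (powA (tauA k k' (omS p q r s w) (omS p q r (nxs s 3) w)) i)) :
    ∀ n : ℕ, ∀ v, 0 < ev (Pool.Agent.Helper21.KCE.KP 1 w1 t LE) v →
      0 < ev (Pool.Agent.Helper21.KCE.KP 1 w1 t LX)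
        ((gM (RMb p q r) s (List.replicate 2 3) w ^ (n + 1)).mulVec v) := by
  subst ek
  subst ek'
  obtain ⟨k1, k2⟩ := wall_kap hc hz hzx hre him ho ho' hg hg'
  have hs0 : (1 + (SbP (kk p q r s.1 s.2.1) : ℂ)) ≠ 0 := by
    rw [one_SbP hc.hk.ne']
    have := hc.hk
    exact Complex.ofReal_ne_zero.2 (by positivity)
  have hs0' : (1 + (SbP (kk p q r s.1 s.2.2) : ℂ)) ≠ 0 := by
    rw [one_SbP hc.hk'.ne']
    have := hc.hk'
    exact Complex.ofReal_ne_zero.2 (by positivity)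
  refine fam_A hp hq hr hs ho ho' k1 (J := 0)
    (fun _ => {A | FamI (KIh 1 w1 t LX) (KIh 1 w1 t LE) (SbP (kk p q r s.1 s.2.1))
      (SbP (kk p q r s.1 s.2.2)) (omS p q r s w)⁻¹
      (omS p q r (nxs s 3) w)⁻¹ (omS p q r s w) A}) (fun m => hF m)
    (E := {v | 0 < ev (Pool.Agent.Helper21.KCE.KP 1 w1 t LE) v})
    (X := {v | 0 < ev (Pool.Agent.Helper21.KCE.KP 1 w1 t LX) v}) ?_ ?_
  · intro c v hc0 hv
    show 0 < ev _ _
    rw [ev_smul_c]
    exact mul_pos (Complex.normSq_pos.2 hc0) hv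
  · intro i _ A hA v hv
    exact famI_pos ho ho' hs0 hs0' hA hv

end Pool.Agent.Helper39.KNF
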