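import Pool.Agent.Helper39.CX.KNH1

/-!
Row KNF, version 2, soundness, part 2: the test.
-/

set_option autoImplicit false
noncomputable section
namespace Pool.Agent.Helper39.KNF

open Pool.Agent.Helper86.C75 (Z)
open Pool.Agent.Helper86.CX
open Pool.Agent.Helper90.C75
open Pool.Agent.Helper90.KMO
open Pool.Agent.Helper17
open Pool.Agent.Helper17.PAK
open Complex ComplexConjugate Finset

variable {n : ℕ} {wc : Fin n → ℝ} {t : ℝ}

/-! ### the multiplier -/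

theorem repC_eq (n : ℕ) (x : C3) : repC n x = List.replicate n x := by
  induction n with
  | zero => rfl
  | succ n ih => rw [List.replicate_succ, ← ih]; rfl

theorem len_repC (n : ℕ) (x : C3) : (repC n x).length = n := by
  rw [repC_eq, List.length_replicate]

theorem gv_repC {n i : ℕ} (x : C3) (h : i < n) : gv (repC n x) i = x := by
  unfold gv
  have h2 : i < (List.replicate n x).length := by rw [List.length_replicate]; exact h
  rw [repC_eq, List.getD_eq_getElem _ _ h2, List.getElem_replicate]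

theorem Fv_repC (x : C3) (v : Fin n × Fin 3) : Fv n (repC n x) v = ct x v.2 := by
  obtain ⟨i, j⟩ := v
  show ct (gv (repC n x) i) j = _
  rw [gv_repC x i.2]

/-- value of the multiplier -/
def lv (t : ℝ) (q : QT) : ℝ := ((1 - t) * q.s + t * q.t) / 2 ^ 24

theorem MOK.lM (hn : 0 < n) (hw : Wts wc) (q : QT) :
    MOK n wc t ((lv t q : ℝ) : ℂ) (lM n q.s q.t) := by
  refine ⟨vok_mk hn (len_repC _ _) _, ?_⟩
  have e : avg (wq wc t) (Fv n (repC n (l3 q.s q.t))) =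
      2 * ∑ i, (wc i : ℂ) * ((1 - t) * (8388608 * (q.s : ℂ)) + t * (8388608 * (q.t : ℂ))) := by
    refine avg_three (fun i => ?_) (fun i => ?_) (fun i => ?_)
    · rw [Fv_repC]
      apply Complex.ext
      · show ((zv (Z.p (Nat.mul (nat_lit 16777216) q.s)) : ℤ) : ℝ) = _
        rw [zv_p]
        simp
        ring
      · show ((zv z0 : ℤ) : ℝ) = _
        rw [z0_v]
        simp
    · rw [Fv_repC]
      apply Complex.ext
      · show ((zv (Z.p (Nat.mul (nat_lit 8388608) (Nat.add q.s q.t))) : ℤ) : ℝ) = _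
        rw [zv_p]
        simp
        ring
      · show ((zv z0 : ℤ) : ℝ) = _
        rw [z0_v]
        simp
    · rw [Fv_repC]
      apply Complex.ext
      · show ((zv (Z.p (Nat.mul (nat_lit 16777216) q.t)) : ℤ) : ℝ) = _
        rw [zv_p]
        simp
        ring
      · show ((zv z0 : ℤ) : ℝ) = _
        rw [z0_v]
        simp
  show ‖(UU : ℂ) * ((lv t q : ℝ) : ℂ) - avg (wq wc t) (Fv n (repC n (l3 q.s q.t)))‖ ≤ _
  have e2 : (UU : ℂ) * ((lv t q : ℝ) : ℂ) =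
      2 * ∑ i, (wc i : ℂ) * ((1 - t) * (8388608 * (q.s : ℂ)) + t * (8388608 * (q.t : ℂ))) := by
    rw [← Finset.sum_mul, ← Complex.ofReal_sum, hw.sum]
    unfold lv UU
    push_cast
    ring
  rw [e, e2, sub_self, norm_zero]
  exact Nat.cast_nonneg _

/-! ### weighted radii -/

theorem wr_ge (r d d' : ℕ) (hd' : 0 < d') : (r : ℝ) * d / d' ≤ wr r d d' := by
  have h := div_ub (Nat.mul r d) hd'
  unfold wr
  rw [c_add]
  rw [c_mul] at h
  norm_num at h ⊢
  exact h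

theorem two_re_w {p q z : ℂ} {r : ℝ} {d e : ℕ} (hd : 0 < d) (he : 0 < e) (h : ‖z‖ ≤ r) :
    -(r * (d / e) * normSq p + r * (e / d) * normSq q) ≤ 2 * (conj p * z * q).re := by
  have h1 : |(conj p * z * q).re| ≤ ‖p‖ * r * ‖q‖ := by
    refine (Complex.abs_re_le_norm _).trans ?_
    rw [norm_mul, norm_mul, RCLike.norm_conj]
    gcongr
  have h2 := neg_le_of_abs_le h1
  have hr : 0 ≤ r := (norm_nonneg _).trans h
  have hd' : (0 : ℝ) < d := by exact_mod_cast hd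
  have he' : (0 : ℝ) < e := by exact_mod_cast he
  have h3 : 2 * (‖p‖ * ‖q‖) ≤ (d / e) * ‖p‖ ^ 2 + (e / d) * ‖q‖ ^ 2 := by
    have h4 : 0 ≤ (d * ‖p‖ - e * ‖q‖) ^ 2 / (d * e) := by positivity
    have e4 : (d * ‖p‖ - e * ‖q‖) ^ 2 / (d * e) =
        (d / e) * ‖p‖ ^ 2 + (e / d) * ‖q‖ ^ 2 - 2 * (‖p‖ * ‖q‖) := by
      field_simp
      ring
    rw [e4] at h4
    linarith
  rw [Complex.normSq_eq_norm_sq, Complex.normSq_eq_norm_sq]
  nlinarith [mul_le_mul_of_nonneg_left h3 hr]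

/-- from the controls to the point, weighted radii -/
theorem POK.gew {a b c x y w : ℂ} {P : M6} (h : POK n wc t a b c x y w P) {q : QT}
    (d0 : 0 < q.d0) (d1 : 0 < q.d1) (d2 : 0 < q.d2) (v : Fin 3 → ℂ) :
    (∑ u, wq wc t u * ev (cfv n P u) v) - rf (radw P q) v ≤
      UU * ev (mkH a.re b.re c.re x y w) v := by
  rw [← ev_avf]
  unfold avf
  simp only [ev_mkH]
  have m1 := one_re (p := v 0) h.a.mod
  have m2 := one_re (p := v 1) h.b.mod
  have m3 := one_re (p := v 2) h.c.mod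
  have m4 := two_re_w (p := v 0) (q := v 1) d0 d1 h.x.mod
  have m5 := two_re_w (p := v 0) (q := v 2) d0 d2 h.y.mod
  have m6 := two_re_w (p := v 1) (q := v 2) d1 d2 h.w.mod
  have e1 : ∀ (z A : ℂ) (s : ℝ), ((UU : ℂ) * z - A).re * s = UU * (z.re * s) - A.re * s := by
    intro z A s
    rw [Complex.sub_re, Complex.re_ofReal_mul]
    ring
  have e2 : ∀ (z A p q : ℂ), 2 * (conj p * ((UU : ℂ) * z - A) * q).re =
      UU * (2 * (conj p * z * q).re) - 2 * (conj p * A * q).re := by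
    intro z A p q
    have e : conj p * ((UU : ℂ) * z - A) * q = (UU : ℂ) * (conj p * z * q) - conj p * A * q := by
      ring
    rw [e, Complex.sub_re, Complex.re_ofReal_mul]
    ring
  rw [e1] at m1 m2 m3
  rw [e2] at m4 m5 m6
  have k : ∀ r d e : ℕ, 0 < e → (r : ℝ) * (d / e) ≤ wr r d e := fun r d e he => by
    have := wr_ge r d e he
    rwa [mul_div_assoc] at this
  have n0 := normSq_nonneg (v 0)
  have n1 := normSq_nonneg (v 1)
  have n2 := normSq_nonneg (v 2)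
  have k1 := mul_le_mul_of_nonneg_right (k P.x.r q.d0 q.d1 d1) n0
  have k2 := mul_le_mul_of_nonneg_right (k P.x.r q.d1 q.d0 d0) n1
  have k3 := mul_le_mul_of_nonneg_right (k P.y.r q.d0 q.d2 d2) n0
  have k4 := mul_le_mul_of_nonneg_right (k P.y.r q.d2 q.d0 d0) n2
  have k5 := mul_le_mul_of_nonneg_right (k P.w.r q.d1 q.d2 d2) n1
  have k6 := mul_le_mul_of_nonneg_right (k P.w.r q.d2 q.d1 d1) n2
  have er : rf (radw P q) v =
      (P.a.r * normSq (v 0) + P.b.r * normSq (v 1) + P.c.r * normSq (v 2)) +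
      (wr P.x.r q.d0 q.d1 * normSq (v 0) + wr P.x.r q.d1 q.d0 * normSq (v 1)) +
      (wr P.y.r q.d0 q.d2 * normSq (v 0) + wr P.y.r q.d2 q.d0 * normSq (v 2)) +
      (wr P.w.r q.d1 q.d2 * normSq (v 1) + wr P.w.r q.d2 q.d1 * normSq (v 2)) := by
    unfold rf radw
    simp only [c_add]
    ring
  rw [er]
  linarith

/-! ### lists -/

theorem tnL_at {R : E3} : ∀ {la lb lc lx ly lw : List C3},
    tnL R la lb lc lx ly lw = true → ∀ {i : ℕ}, i < la.length →
    tn3 (gv la i) (gv lb i) (gv lc i) (gv lx i) (gv ly i) (gv lw i) R = true := by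
  intro la
  induction la with
  | nil => intro _ _ _ _ _ _ i h; exact absurd h (Nat.not_lt_zero _)
  | cons a la ih =>
    intro lb lc lx ly lw h i hi
    rcases lb with _ | ⟨b, lb⟩
    · cases h
    rcases lc with _ | ⟨c, lc⟩
    · cases h
    rcases lx with _ | ⟨x, lx⟩
    · cases h
    rcases ly with _ | ⟨y, ly⟩
    · cases h
    rcases lw with _ | ⟨w, lw⟩
    · cases h
    have h2 : andB (tn3 a b c x y w R) (tnL R la lb lc lx ly lw) = true := h
    obtain ⟨h3, h4⟩ := andB_t h2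
    rcases i with _ | i
    · exact h3
    · have hi' : i < la.length := by simpa using hi
      exact ih h4 hi'

theorem tn1_ev {a b c x y w : Cx} {R : E3} (hB : Cb a b c x y w (2 ^ 200))
    (hx : (R.x : ℤ) ≤ 2 ^ 200) (hy : (R.y : ℤ) ≤ 2 ^ 200) (hz : (R.z : ℤ) ≤ 2 ^ 200)
    (h : tn1 a b c x y w R = true) (v : Fin 3 → ℂ) :
    rf R v ≤ ev (cf a b c x y w) v := by
  have k1 : ∀ (z : Z) (r k : ℕ), PAK.Rep M2 (Nat.add (tN z) (Nat.mul N2 r))
      (zv z - (r + ((0 : ℕ) : ℤ) * sl 0 k + ((0 : ℕ) : ℤ) * sl 0 k)) := by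
    intro z r k
    have h := rep_sub (rep_tN z) (PAK.Rep.nat M2 r)
    have e : (r : ℤ) = r + ((0 : ℕ) : ℤ) * sl 0 k + ((0 : ℕ) : ℤ) * sl 0 k := by
      push_cast; ring
    rw [e] at h
    exact h
  have k2 : ∀ (z : Z) (k : ℕ), PAK.Rep M2 (tN z)
      (zv z - (0 + ((0 : ℕ) : ℤ) * sl 0 k + ((0 : ℕ) : ℤ) * sl 0 k)) := by
    intro z k
    have h := rep_tN z
    have e : zv z = zv z - (0 + ((0 : ℕ) : ℤ) * sl 0 k + ((0 : ℕ) : ℤ) * sl 0 k) := by
      push_cast; ring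
    rw [e] at h
    exact h
  have h2 := tst_gen (l := 0) (m := 0) (E := 0) (F := 0) hB hx hy hz (by positivity)
    (by positivity) (k1 _ _ _) (k1 _ _ _)
    (k1 _ _ _) (k2 _ _) (k2 _ _) (k2 _ _) (k2 _ _) (k2 _ _) (k2 _ _) h v
  rw [Nat.cast_zero, zero_mul, zero_add, zero_add] at h2
  exact h2

/-- SOUNDNESS OF `tnP` -/
theorem tnP_sound (hw : Wts wc) (h0 : 0 ≤ t) (h1 : t ≤ 1) {a b c x y w : ℂ} {P : M6}
    (hP : POK n wc t a b c x y w P) {q : QT} (h : tnP P q = true) :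
    (∀ v : Fin 3 → ℂ, 0 ≤ ev (mkH a.re b.re c.re x y w) v) ∧ 0 < lv t q := by
  unfold tnP tnP1 at h
  obtain ⟨hb, h⟩ := andB_t h
  unfold nok at hb
  obtain ⟨hb, hb2⟩ := andB_t hb
  obtain ⟨hl1, hb2⟩ := andB_t hb2
  obtain ⟨hl2, hb2⟩ := andB_t hb2
  obtain ⟨hd0, hb2⟩ := andB_t hb2
  obtain ⟨hd1, hd2⟩ := andB_t hb2
  have hb' : P.a.B + P.b.B + P.c.B + P.x.B + P.y.B + P.w.B + (radw P q).x + (radw P q).y +
      (radw P q).z ≤ 2 ^ 200 := Nat.le_of_ble_eq_true hb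
  have hl1' : 1 ≤ q.s := Nat.le_of_ble_eq_true hl1
  have hl2' : 1 ≤ q.t := Nat.le_of_ble_eq_true hl2
  have hd0' : 1 ≤ q.d0 := Nat.le_of_ble_eq_true hd0
  have hd1' : 1 ≤ q.d1 := Nat.le_of_ble_eq_true hd1
  have hd2' : 1 ≤ q.d2 := Nat.le_of_ble_eq_true hd2
  have hb3 : (P.a.B : ℤ) ≤ 2 ^ 200 ∧ (P.b.B : ℤ) ≤ 2 ^ 200 ∧ (P.c.B : ℤ) ≤ 2 ^ 200 ∧
      (P.x.B : ℤ) ≤ 2 ^ 200 ∧ (P.y.B : ℤ) ≤ 2 ^ 200 ∧ (P.w.B : ℤ) ≤ 2 ^ 200 ∧
      ((radw P q).x : ℤ) ≤ 2 ^ 200 ∧ ((radw P q).y : ℤ) ≤ 2 ^ 200 ∧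
      ((radw P q).z : ℤ) ≤ 2 ^ 200 := by
    refine ⟨?_, ?_, ?_, ?_, ?_, ?_, ?_, ?_, ?_⟩ <;>
      (have h5 : ∀ k : ℕ, k ≤ 2 ^ 200 → (k : ℤ) ≤ 2 ^ 200 := fun k hk => by exact_mod_cast hk
       apply h5
       omega)
  obtain ⟨b1, b2, b3, b4, b5, b6, b7, b8, b9⟩ := hb3
  constructor
  · intro v
    have key : ∀ u : Fin n × Fin 3, rf (radw P q) v ≤ ev (cfv n P u) v := by
      rintro ⟨i, j⟩
      have ht := tnL_at h (i := i) (by rw [hP.a.val.len]; exact i.2)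
      unfold tn3 at ht
      obtain ⟨t1, ht⟩ := andB_t ht
      obtain ⟨t2, t3⟩ := andB_t ht
      have za := zv_le (i := i) hP.a.val.bd
      have zb := zv_le (i := i) hP.b.val.bd
      have zc := zv_le (i := i) hP.c.val.bd
      have zx := zv_le (i := i) hP.x.val.bd
      have zy := zv_le (i := i) hP.y.val.bd
      have zw := zv_le (i := i) hP.w.val.bd
      have r1 := tn1_ev ⟨za.1.trans b1, zb.1.trans b2, zc.1.trans b3, zx.1.trans b4,
        zx.2.1.trans b4, zy.1.trans b5, zy.2.1.trans b5, zw.1.trans b6, zw.2.1.trans b6⟩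
        b7 b8 b9 t1 v
      have r2 := tn1_ev ⟨za.2.2.2.2.1.trans b1, zb.2.2.2.2.1.trans b2, zc.2.2.2.2.1.trans b3,
        zx.2.2.2.2.1.trans b4, zx.2.2.2.2.2.trans b4, zy.2.2.2.2.1.trans b5,
        zy.2.2.2.2.2.trans b5, zw.2.2.2.2.1.trans b6, zw.2.2.2.2.2.trans b6⟩ b7 b8 b9 t2 v
      have r3 := tn1_ev ⟨za.2.2.1.trans b1, zb.2.2.1.trans b2, zc.2.2.1.trans b3,
        zx.2.2.1.trans b4, zx.2.2.2.1.trans b4, zy.2.2.1.trans b5,
        zy.2.2.2.1.trans b5, zw.2.2.1.trans b6, zw.2.2.2.1.trans b6⟩ b7 b8 b9 t3 v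
      fin_cases j
      · exact r1
      · exact r3
      · exact r2
    have hge := hP.gew hd0' hd1' hd2' v
    have h3 : rf (radw P q) v ≤ ∑ u, wq wc t u * ev (cfv n P u) v := by
      have hq := hw.q h0 h1
      calc rf (radw P q) v = ∑ u, wq wc t u * rf (radw P q) v := by
            rw [← Finset.sum_mul, hq.sum, one_mul]
        _ ≤ _ := Finset.sum_le_sum fun u _ => mul_le_mul_of_nonneg_left (key u) (hq.nonneg u)
    have hU := UU_pos
    have h4 : 0 ≤ UU * ev (mkH a.re b.re c.re x y w) v := by linarith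
    exact nonneg_of_mul_nonneg_right h4 hU
  · have p1 : (1 : ℝ) ≤ q.s := by exact_mod_cast hl1'
    have p2 : (1 : ℝ) ≤ q.t := by exact_mod_cast hl2'
    unfold lv
    apply div_pos _ (by positivity)
    nlinarith

end Pool.Agent.Helper39.KNF
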