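import Pool.Agent.Helper39.CX.CER

/-!
Row RCP: a certificate for the automaton of single runs (with memory) gives one for the automaton
with superblocks; slit conditions for superblocks from slit conditions of single runs; positivity of
3 x 3 matrices and inclusion of regions.
-/

set_option autoImplicit false
noncomputable section
namespace Pool.Agent.Helper39.C75

open Pool.Agent.Helper6.MONO

/-- the vector after a list of blocks -/
def runV {B : Type} (M : B → ℂ → Matrix (Fin 3) (Fin 3) ℂ) (w : ℂ) (bs : List B)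
    (v : Fin 3 → ℂ) : Fin 3 → ℂ := bs.foldl (fun u b => (M b w).mulVec u) v

theorem runV_mem {S B : Type} {src tgt : B → S} {M : B → ℂ → Matrix (Fin 3) (Fin 3) ℂ}
    {Start : S → (ℂ → Fin 3 → ℂ) → Prop} {w : ℂ} {R : S → Set (Fin 3 → ℂ)}
    (h : RCert src tgt M Start w R) {s s' : S} {bs : List B} (hp : BPath src tgt s bs s') :
    ∀ v ∈ R s, runV M w bs v ∈ R s' := by
  induction hp with
  | nil s => exact fun v hv => hv
  | cons b hp ih => exact fun v hv => ih _ (h.block b v hv)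

/-- A certificate for single blocks `(S1, B1)` gives one for superblocks `(S, B)`. -/
theorem RCert.of_path {S B S1 B1 : Type} {src tgt : B → S}
    {M : B → ℂ → Matrix (Fin 3) (Fin 3) ℂ} {Start : S → (ℂ → Fin 3 → ℂ) → Prop}
    {src1 tgt1 : B1 → S1} {M1 : B1 → ℂ → Matrix (Fin 3) (Fin 3) ℂ}
    {Start1 : S1 → (ℂ → Fin 3 → ℂ) → Prop} (π : S → S1) {w : ℂ} {R1 : S1 → Set (Fin 3 → ℂ)}
    (h1 : RCert src1 tgt1 M1 Start1 w R1)
    (hb : ∀ b, ∃ (bs : List B1) (g : ℂ), g ≠ 0 ∧ BPath src1 tgt1 (π (src b)) bs (π (tgt b)) ∧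
      ∀ v, (M b w).mulVec v = g • runV M1 w bs v)
    (hs : ∀ s v, Start s v → v w ∈ R1 (π s)) :
    RCert src tgt M Start w (fun s => R1 (π s)) := by
  refine ⟨fun s => h1.reg (π s), fun b v hv => ?_, hs⟩
  obtain ⟨bs, g, hg, hp, hv'⟩ := hb b
  rw [hv']
  exact (h1.reg (π (tgt b))).smul g _ hg (runV_mem h1 hp v hv)

/-- Slit condition of a superblock against the previous one. -/
theorem slit_comp_of_path {S1 B1 : Type}
    {src1 tgt1 : B1 → S1} {M1 : B1 → ℂ → Matrix (Fin 3) (Fin 3) ℂ}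
    {Start1 : S1 → (ℂ → Fin 3 → ℂ) → Prop} {w : ℂ} {R1 : S1 → Set (Fin 3 → ℂ)}
    (h1 : RCert src1 tgt1 M1 Start1 w R1) {s : S1} {bs : List B1} {b1 : B1}
    (hp : BPath src1 tgt1 s bs (src1 b1)) (g f f' : ℂ)
    (hslit : ∀ u ∈ R1 (src1 b1), f * ((M1 b1 w).mulVec u 0) / (g * f' * u 0) ∈ Complex.slitPlane)
    (v : Fin 3 → ℂ) (hv : v ∈ R1 s) :
    f * runV M1 w (bs ++ [b1]) v 0 / (g * (f' * runV M1 w bs v 0)) ∈ Complex.slitPlane := by
  have h2 := hslit _ (runV_mem h1 hp v hv)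
  have h3 : runV M1 w (bs ++ [b1]) v = (M1 b1 w).mulVec (runV M1 w bs v) := by
    simp [runV, List.foldl_append]
  rw [h3, ← mul_assoc g f']
  exact h2

/-! ### positive semidefinite matrices -/

/-- `qf H (A v) = qf (Aᴴ H A) v` -/
theorem qf_mulVec (H A : Matrix (Fin 3) (Fin 3) ℂ) (v : Fin 3 → ℂ) :
    qf H (A.mulVec v) = qf (A.conjTranspose * H * A) v := by
  unfold qf
  congr 1
  simp only [Matrix.mulVec, dotProduct, Matrix.mul_apply, Matrix.conjTranspose_apply,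
    Fin.sum_univ_three, map_add, map_mul, RCLike.star_def]
  ring

theorem qf_sub (H K : Matrix (Fin 3) (Fin 3) ℂ) (v : Fin 3 → ℂ) :
    qf (H - K) v = qf H v - qf K v := by
  unfold qf
  rw [← Complex.sub_re]
  congr 1
  simp only [Matrix.sub_apply, Fin.sum_univ_three]
  ring

theorem qf_smul (c : ℝ) (H : Matrix (Fin 3) (Fin 3) ℂ) (v : Fin 3 → ℂ) :
    qf ((c : ℂ) • H) v = c * qf H v := by
  unfold qf
  rw [← Complex.re_ofReal_mul]
  congr 1
  simp only [Matrix.smul_apply, smul_eq_mul, Fin.sum_univ_three]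
  ring

/-- the block inequality `Aᴴ H' A - lam H ≥ 0` gives the inclusion of the regions -/
theorem block_of_psd {H H' A : Matrix (Fin 3) (Fin 3) ℂ} {lam : ℝ} (hl : 0 < lam)
    (hp : ∀ v, 0 ≤ qf (A.conjTranspose * H' * A - (lam : ℂ) • H) v) {v : Fin 3 → ℂ}
    (hv : 0 < qf H v) : 0 < qf H' (A.mulVec v) := by
  have h1 := hp v
  rw [qf_sub, qf_smul] at h1
  rw [qf_mulVec]
  nlinarith [mul_pos hl hv]

/-- two forms: `Aᴴ F' A - l1 F1 - l2 F2 ≥ 0` -/
theorem block_of_psd2 {F1 F2 F' A : Matrix (Fin 3) (Fin 3) ℂ} {l1 l2 : ℝ} (h1 : 0 ≤ l1)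
    (h2 : 0 ≤ l2) (h12 : 0 < l1 + l2)
    (hp : ∀ v, 0 ≤ qf (A.conjTranspose * F' * A - (l1 : ℂ) • F1 - (l2 : ℂ) • F2) v)
    {v : Fin 3 → ℂ} (hv1 : 0 < qf F1 v) (hv2 : 0 < qf F2 v) : 0 < qf F' (A.mulVec v) := by
  have h3 := hp v
  rw [qf_sub, qf_sub, qf_smul, qf_smul] at h3
  rw [qf_mulVec]
  rcases h1.lt_or_eq with h | h
  · nlinarith [mul_pos h hv1, mul_nonneg h2 hv2.le]
  · rw [← h] at h12 h3
    have h4 : 0 < l2 := by linarith
    nlinarith [mul_pos h4 hv2]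

/-- slit condition: `Re (γ D v conj (v 0)) > 0` with `Re γ ≥ 0` -/
theorem slit_of_gamma {γ D u : ℂ} (hγ : 0 ≤ γ.re) (hu : u ≠ 0)
    (h : 0 < (γ * (D * starRingEnd ℂ u)).re) : D / u ∈ Complex.slitPlane := by
  by_contra hcon
  rw [Complex.mem_slitPlane_iff] at hcon
  push Not at hcon
  have h1 : D = (D / u) * u := (div_mul_cancel₀ D hu).symm
  have h2 : (D / u) = (((D / u).re : ℝ) : ℂ) := by
    apply Complex.ext <;> simp [hcon.2]
  have h3 : γ * (D * starRingEnd ℂ u) = (((D / u).re * ‖u‖ ^ 2 : ℝ) : ℂ) * γ := by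
    have h4 : u * starRingEnd ℂ u = ((‖u‖ ^ 2 : ℝ) : ℂ) := by
      rw [Complex.mul_conj, Complex.normSq_eq_norm_sq]
    calc γ * (D * starRingEnd ℂ u) = γ * (D / u * (u * starRingEnd ℂ u)) := by
          conv_lhs => rw [h1]
          ring
      _ = γ * ((((D / u).re : ℝ) : ℂ) * ((‖u‖ ^ 2 : ℝ) : ℂ)) := by
          rw [h4]
          conv_lhs => rw [h2]
      _ = (((D / u).re * ‖u‖ ^ 2 : ℝ) : ℂ) * γ := by
          push_cast
          ring
  rw [h3, Complex.re_ofReal_mul] at h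
  have h5 : (D / u).re * ‖u‖ ^ 2 * γ.re ≤ 0 :=
    mul_nonpos_of_nonpos_of_nonneg (mul_nonpos_of_nonpos_of_nonneg hcon.1 (sq_nonneg _)) hγ
  linarith

end Pool.Agent.Helper39.C75
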