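import Pool.Agent.Helper21.CX.CLS
import Pool.Agent.Helper21.CX.PAR
import Pool.Agent.Helper39.CX.RCP

/-!
Row SLT: the pointwise certificate `PTr` of the superblock automaton from a certificate of the
single runs, with slit conditions of single runs only.
-/

set_option autoImplicit false
noncomputable section
namespace Pool.Agent.Helper39.SLT

open Pool.Agent.Helper6.MONO (nxD sD okD mm)
open Pool.Agent.Helper21.SUP
open Pool.Agent.Helper21.MIR
open Pool.Agent.Helper39.C75

variable {τ : Type}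

/-- an initial part of an open block -/
theorem seg_append (Z : Sch τ) : ∀ (l l' : List ℕ) (t : τ) (s : GS) (t' : τ),
    Z.seg t s (l ++ l') = some t' →
    ∃ t₁, Z.seg t s l = some t₁ ∧ Z.seg t₁ (sD s l) l' = some t' := by
  intro l
  induction l with
  | nil =>
    intro l' t s t' h
    exact ⟨t, rfl, by rw [sD_nil]; exact h⟩
  | cons m l ih =>
    intro l' t s t' h
    obtain ⟨t₁, h1, h2⟩ := seg_cons Z t s m (l ++ l') t' h
    obtain ⟨t₂, h3, h4⟩ := ih l' t₁ (nx s m) t' h2
    refine ⟨t₂, ?_, ?_⟩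
    · show (match Z.cont t s m with
          | none => none
          | some t' => Z.seg t' (nx s m) l) = some t₂
      rw [h1]
      exact h3
    · rw [sD_cons]
      exact h4

theorem blk_pre (Z : Sch τ) (p q r : ℕ) {o : Option τ} {f : Bool} {s : GS} {m : ℕ}
    {l l' : List ℕ} {t : τ} (h : Z.Blk p q r o f s m (l ++ l') t) :
    ∃ t₁, Z.Blk p q r o f s m l t₁ ∧ Z.seg t₁ (sD s (m :: l)) l' = some t := by
  obtain ⟨t₁, h1, h2⟩ := seg_append Z l l' _ _ _ h.seg
  have hok : okD p q r f s ((m :: l) ++ l') := h.ok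
  rw [okD_append] at hok
  exact ⟨t₁, ⟨h.new, hok.1, h1⟩, by rw [sD_cons]; exact h2⟩

variable {Z : Sch τ} {p q r : ℕ}

theorem drop_ex (j : ℕ) (b : SBlk Z p q r) :
    ∃ t₁, Z.Blk p q r b.o b.f b.s b.m (b.ms.take (b.ms.length - j)) t₁ ∧
      Z.seg t₁ (sD b.s (b.m :: b.ms.take (b.ms.length - j))) (b.ms.drop (b.ms.length - j)) =
        some b.t := by
  apply blk_pre
  rw [List.take_append_drop]
  exact b.hb

/-- the block without its last `j` runs -/
def drop (j : ℕ) (b : SBlk Z p q r) : SBlk Z p q r :=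
  ⟨b.o, b.f, b.s, b.m, b.ms.take (b.ms.length - j), Classical.choose (drop_ex j b), b.hs,
    (Classical.choose_spec (drop_ex j b)).1⟩

/-- the last `j` runs -/
def last (j : ℕ) (b : SBlk Z p q r) : List ℕ := b.ms.drop (b.ms.length - j)

theorem drop_src (j : ℕ) (b : SBlk Z p q r) : (drop j b).src = b.src := rfl

theorem drop_ms (j : ℕ) (b : SBlk Z p q r) : (drop j b).ms = b.ms.take (b.ms.length - j) := rfl

theorem drop_rank {j : ℕ} {b : SBlk Z p q r} (h0 : 0 < j) (h1 : j ≤ b.ms.length) :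
    (drop j b).ms.length < b.ms.length := by
  rw [drop_ms, List.length_take]
  omega

theorem last_length {j : ℕ} {b : SBlk Z p q r} (h1 : j ≤ b.ms.length) :
    (last j b).length = j := by
  unfold last
  rw [List.length_drop]
  omega

theorem drop_runs (j : ℕ) (b : SBlk Z p q r) : b.runs = (drop j b).runs ++ last j b := by
  show b.m :: b.ms = (b.m :: b.ms.take (b.ms.length - j)) ++ b.ms.drop (b.ms.length - j)
  rw [List.cons_append, List.take_append_drop]

theorem drop_seg (j : ℕ) (b : SBlk Z p q r) :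
    Z.seg (drop j b).t (sD b.s (drop j b).runs) (last j b) = some b.t :=
  (Classical.choose_spec (drop_ex j b)).2

theorem drop_mat (j : ℕ) (b : SBlk Z p q r)
    (RM : GS → ℕ → ℂ → Matrix (Fin 3) (Fin 3) ℂ) (w : ℂ) :
    gM RM b.s b.runs w =
      gM RM (sD b.s (drop j b).runs) (last j b) w * gM RM b.s (drop j b).runs w := by
  rw [drop_runs j b, gM_append]

/-! ### certificates of single runs -/

/-- the type after one run -/
def nt (Z : Sch τ) (o : Option τ) (s : GS) (m : ℕ) : τ :=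
  match o with
  | none => Z.start s m
  | some t =>
    match Z.cont t s m with
    | some t' => t'
    | none => Z.start s m

theorem nt_new {o : Option τ} {s : GS} {m : ℕ} (h : Z.new o s m) : nt Z o s m = Z.start s m := by
  cases o with
  | none => rfl
  | some t =>
    have h1 : Z.cont t s m = none := h t rfl
    simp only [nt, h1]

theorem nt_cont {t t' : τ} {s : GS} {m : ℕ} (h : Z.cont t s m = some t') :
    nt Z (some t) s m = t' := by
  unfold nt
  simp only [h]

/-- regions which are respected by every single run -/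
structure RunCert (Z : Sch τ) (p q r : ℕ) (RM : GS → ℕ → ℂ → Matrix (Fin 3) (Fin 3) ℂ) (w : ℂ)
    (R : SSt τ → Set (Fin 3 → ℂ)) : Prop where
  reg : ∀ σ, IsRegion (R σ)
  run : ∀ (s : GS) (f : Bool) (o : Option τ) (m : ℕ), DG s → ok1 p q r f s m →
    ∀ v ∈ R (s, f, o), (RM s m w).mulVec v ∈
      R (nx s m, decide (m = mm p q r s.1 s.2.1), some (nt Z o s m))

theorem RunCert.seg {RM : GS → ℕ → ℂ → Matrix (Fin 3) (Fin 3) ℂ} {w : ℂ}
    {R : SSt τ → Set (Fin 3 → ℂ)} (h : RunCert Z p q r RM w R) :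
    ∀ (ms : List ℕ) (t : τ) (s : GS) (f : Bool) (t' : τ), DG s → okD p q r f s ms →
      Z.seg t s ms = some t' → ∀ v ∈ R (s, f, some t),
        (gM RM s ms w).mulVec v ∈ R (sD s ms, fD p q r f s ms, some t') := by
  intro ms
  induction ms with
  | nil =>
    intro t s f t' _ _ hs v hv
    have : t = t' := by
      have h1 : some t = some t' := hs
      exact Option.some.inj h1
    subst this
    rw [sD_nil]
    simp only [gM, Matrix.one_mulVec]
    exact hv
  | cons m ms ih =>
    intro t s f t' hD hok hs v hv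
    obtain ⟨t₁, h1, h2⟩ := seg_cons Z t s m ms t' hs
    rw [okD_cons] at hok
    have h3 := h.run s f (some t) m hD hok.1 v hv
    rw [nt_cont h1] at h3
    have h4 := ih t₁ (nx s m) _ t' (DG_nx s m hD) hok.2 h2 _ h3
    rw [sD_cons]
    simp only [gM]
    rw [← Matrix.mulVec_mulVec]
    exact h4

theorem RunCert.blk {RM : GS → ℕ → ℂ → Matrix (Fin 3) (Fin 3) ℂ} {w : ℂ}
    {R : SSt τ → Set (Fin 3 → ℂ)} (h : RunCert Z p q r RM w R) (b : SBlk Z p q r) :
    ∀ v ∈ R b.src, (gM RM b.s b.runs w).mulVec v ∈ R b.tgt := by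
  intro v hv
  obtain ⟨hn, hok, hs⟩ := b.hb
  rw [okD_cons] at hok
  have h3 := h.run b.s b.f b.o b.m b.hs hok.1 v hv
  rw [nt_new hn] at h3
  have h4 := h.seg b.ms _ (nx b.s b.m) _ b.t (DG_nx b.s b.m b.hs) hok.2 hs _ h3
  show (gM RM b.s (b.m :: b.ms) w).mulVec v ∈
    R (sD b.s (b.m :: b.ms), fD p q r b.f b.s (b.m :: b.ms), some b.t)
  rw [sD_cons]
  simp only [gM]
  rw [← Matrix.mulVec_mulVec]
  exact h4

/-- the treatments at the point `w`; a block may only be compared with one of its initial parts,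
and then the slit condition is one for the last runs, on the region before them -/
def SlitOK (RM : GS → ℕ → ℂ → Matrix (Fin 3) (Fin 3) ℂ) (w : ℂ)
    (R : SSt τ → Set (Fin 3 → ℂ)) (b : SBlk Z p q r) : TR (SBlk Z p q r) → Prop
  | TR.ref r => r w ∈ R b.src
  | TR.self g => ∀ v ∈ R b.src, (gM RM b.s b.runs w).mulVec v 0 / (g w * v 0) ∈ Complex.slitPlane
  | TR.comp b' g => ∃ j : ℕ, b' = drop j b ∧ ∀ u ∈ R b'.tgt,
      (gM RM (sD b.s b'.runs) (last j b) w).mulVec u 0 / (g w * u 0) ∈ Complex.slitPlane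

/-- SINGLE RUNS GIVE THE SUPERBLOCK CERTIFICATE -/
theorem ptr_of_runs {RM : GS → ℕ → ℂ → Matrix (Fin 3) (Fin 3) ℂ} {w : ℂ}
    {R : SSt τ → Set (Fin 3 → ℂ)} (h : RunCert Z p q r RM w R)
    (Start : SSt τ → (ℂ → Fin 3 → ℂ) → Prop) (hst : ∀ σ v, Start σ v → v w ∈ R σ)
    (K : SBlk Z p q r → TR (SBlk Z p q r)) (hK : ∀ b, SlitOK RM w R b (K b)) (C : ℝ)
    (hbd : ∀ σ v j, v ∈ R σ → ‖v j‖ ≤ C * ‖v 0‖) :
    PTr SBlk.src SBlk.tgt (fun b w => gM RM b.s b.runs w) Start K C w R := by
  refine ⟨⟨h.reg, fun b v hv => h.blk b v hv, hst⟩, fun b => ?_, hbd⟩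
  have hb := hK b
  revert hb
  cases K b with
  | ref r => exact fun hb => hb
  | self g => exact fun hb => hb
  | comp b' g =>
    rintro ⟨j, rfl, hj⟩ v hv
    have h1 := hj _ (h.blk (drop j b) v hv)
    rw [Matrix.mulVec_mulVec] at h1
    show (gM RM b.s b.runs w).mulVec v 0 /
      (g w * (gM RM b.s (drop j b).runs w).mulVec v 0) ∈ Complex.slitPlane
    rw [drop_mat j b RM w]
    exact h1

end Pool.Agent.Helper39.SLT
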