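import Pool.Agent.Helper6.CX.LNI
import Pool.Agent.Helper39.CX.SLT

/-!
The pivot of a run of three letters, and the one of two runs of two letters: the same functional.
-/

set_option autoImplicit false
noncomputable section
namespace Pool.Agent.Helper6.MONO

open Pool.Agent.Helper21.SUP (GS DG DG_nx)


/-- the functional of three letters -/
def DTH (k : ℝ) (v : V3) : ℂ := v 0 + 2 * v 1 + (1 - (SbP k : ℂ)) * v 2

theorem dth_f {M : ℕ} (hM : 3 ≤ M) : 0 < Real.sin (Real.pi / M) ∧ 0 < Real.cos (Real.pi / M) ∧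
    0 < Real.sin (Real.pi / M / 2) ∧ 0 < Real.cos (Real.pi / M / 2) := by
  have h : (3 : ℝ) ≤ M := by exact_mod_cast hM
  have hpos : 0 < Real.pi / M := by positivity
  have hlt : Real.pi / M < Real.pi / 2 := by
    apply div_lt_div_of_pos_left Real.pi_pos (by norm_num) (by linarith)
  have hp := Real.pi_pos
  refine ⟨Real.sin_pos_of_pos_of_lt_pi hpos (by linarith),
    Real.cos_pos_of_mem_Ioo ⟨by linarith, hlt⟩,
    Real.sin_pos_of_pos_of_lt_pi (by linarith) (by linarith),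
    Real.cos_pos_of_mem_Ioo ⟨by linarith, by linarith⟩⟩

theorem dth_Rb_two {M : ℕ} (hM : 3 ≤ M) : Rb M 2 = 1 := by
  obtain ⟨h1, h2, -, -⟩ := dth_f hM
  have e : ((2 : ℕ) : ℝ) * (Real.pi / M) / 2 = Real.pi / M := by push_cast; ring
  rw [Rb, e, Real.tan_eq_sin_div_cos]
  field_simp

theorem dth_Rb_one {M : ℕ} (hM : 3 ≤ M) : Rb M 1 = 1 + 2 / Kp M := by
  obtain ⟨h1, h2, h3, h4⟩ := dth_f hM
  have e : ((1 : ℕ) : ℝ) * (Real.pi / M) / 2 = Real.pi / M / 2 := by push_cast; ring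
  rw [Rb, e, Kp, Real.tan_eq_sin_div_cos]
  have hs : Real.sin (Real.pi / M) = 2 * Real.sin (Real.pi / M / 2) * Real.cos (Real.pi / M / 2) := by
    rw [← Real.sin_two_mul]
    congr 1
    ring
  have hc : Real.cos (Real.pi / M) = 2 * Real.cos (Real.pi / M / 2) ^ 2 - 1 := by
    rw [← Real.cos_two_mul]
    congr 1
    ring
  generalize Real.sin (Real.pi / M / 2) = a at *
  generalize Real.cos (Real.pi / M / 2) = b at *
  generalize Real.cos (Real.pi / M) = c at *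
  rw [hs]
  field_simp
  linear_combination -hc

theorem SbP_c {k : ℝ} (hk : k ≠ 0) : (SbP k : ℂ) = 4 / (k : ℂ) ^ 2 - 1 := by
  have h : (k : ℂ) ≠ 0 := by exact_mod_cast hk
  unfold SbP
  push_cast
  field_simp
  ring

variable {p q r : ℕ}

/-- the pivot after a run of three letters -/
theorem RMb3_zero (hp : 3 ≤ p) (hq : 3 ≤ q) (hr : 3 ≤ r) {s : GS} (hs : DG s) (w : ℂ) (v : V3) :
    (RMb p q r s 3 w).mulVec v 0 = DTH (kk p q r s.1 s.2.1) v := by
  have h2 : Rb (mm p q r s.1 s.2.1) 2 = 1 := dth_Rb_two (LNI_mm hp hq hr _ _ hs.1)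
  unfold RMb DTH
  rw [← Matrix.mulVec_mulVec]
  have h3 : (3 : ℕ) - 1 = 2 := rfl
  rw [h3, h2]
  simp [Cm, Bm, Matrix.mulVec, dotProduct, Fin.sum_univ_three]

/-- the pivot after two runs of two letters -/
theorem RMb22_zero (hp : 3 ≤ p) (hq : 3 ≤ q) (hr : 3 ≤ r) {s : GS} (hs : DG s) (w : ℂ) (v : V3) :
    (RMb p q r (Pool.Agent.Helper21.SUP.nx s 2) 2 w * RMb p q r s 2 w).mulVec v 0 =
      4 * (1 + 2 / (kk p q r s.1 s.2.1 : ℂ)) * (1 + 2 / (kk p q r (Pool.Agent.Helper21.SUP.nx s 2).1 (Pool.Agent.Helper21.SUP.nx s 2).2.1 : ℂ)) *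
        omS p q r (Pool.Agent.Helper21.SUP.nx s 2) w * DTH (kk p q r s.1 s.2.1) v := by
  have hs' := DG_nx s 2 hs
  have h1 : Rb (mm p q r s.1 s.2.1) 1 = 1 + 2 / kk p q r s.1 s.2.1 :=
    dth_Rb_one (LNI_mm hp hq hr _ _ hs.1)
  have h2 : Rb (mm p q r (Pool.Agent.Helper21.SUP.nx s 2).1 (Pool.Agent.Helper21.SUP.nx s 2).2.1) 1 =
      1 + 2 / kk p q r (Pool.Agent.Helper21.SUP.nx s 2).1 (Pool.Agent.Helper21.SUP.nx s 2).2.1 := dth_Rb_one (LNI_mm hp hq hr _ _ hs'.1)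
  have k1 := (LNI_kk hp hq hr _ _ hs.1).1
  have k2 := (LNI_kk hp hq hr _ _ hs'.1).1
  unfold RMb DTH
  have h3 : (2 : ℕ) - 1 = 1 := rfl
  have h4 : decide ((2 : ℕ) % 2 = 1) = false := rfl
  rw [h3, h4, h1, h2, ← Matrix.mulVec_mulVec, ← Matrix.mulVec_mulVec, ← Matrix.mulVec_mulVec]
  generalize omS p q r s w = o at *
  generalize omS p q r (Pool.Agent.Helper21.SUP.nx s 2) w = o' at *
  generalize omS p q r (Pool.Agent.Helper21.SUP.nx (Pool.Agent.Helper21.SUP.nx s 2) 2) w = o'' at *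
  generalize kk p q r s.1 s.2.1 = k at *
  generalize kk p q r (Pool.Agent.Helper21.SUP.nx s 2).1 (Pool.Agent.Helper21.SUP.nx s 2).2.1 = k' at *
  have c1 : (k : ℂ) ≠ 0 := by exact_mod_cast k1.ne'
  have c2 : (k' : ℂ) ≠ 0 := by exact_mod_cast k2.ne'
  have c3 : (2 : ℂ) + k ≠ 0 := by
    have : (0 : ℝ) < 2 + k := by linarith
    exact_mod_cast this.ne'
  have c4 : (2 : ℂ) + k' ≠ 0 := by
    have : (0 : ℝ) < 2 + k' := by linarith
    exact_mod_cast this.ne'
  simp only [Cm, Bm, Matrix.mulVec, dotProduct, Fin.sum_univ_three, Bool.false_eq_true, if_false,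
    Matrix.cons_val_zero, Matrix.cons_val_one, Matrix.cons_val_two, Matrix.head_cons,
    Matrix.tail_cons, Matrix.of_apply, Matrix.cons_val', Matrix.empty_val',
    Matrix.cons_val_fin_one, Matrix.head_fin_const, SbP_c k1.ne', SbP_c k2.ne']
  push_cast
  field_simp
  ring

end Pool.Agent.Helper6.MONO
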