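import Pool.Agent.Helper39.CX.DTH
import Pool.Agent.Helper42.CH.Pow
import Pool.Agent.Helper90.C75.Cub

/-!
Row NRA: all powers of the A cycle at a frontier point, in the chart of `RMb`.
-/

set_option autoImplicit false
noncomputable section
namespace Pool.Agent.Helper6.MONO

open Pool.Agent.Helper21.SUP (GS DG DG_nx gM alL gM_alL gM_alL_odd nx_odd)
open Pool.Agent.Helper90.C75 (e2 cay3)


/-- the matrix of a run of three letters -/
def Um (k : ℝ) (o' P : ℂ) : Matrix (Fin 3) (Fin 3) ℂ :=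
  !![1, 2, 1 - (SbP k : ℂ); o', o' * (1 - (SbP k : ℂ)), -2 * (SbP k : ℂ) * o';
    P * (1 + (SbP k : ℂ)), 0, 0]

variable {p q r : ℕ}

theorem RMb_three (hp : 3 ≤ p) (hq : 3 ≤ q) (hr : 3 ≤ r) {s : GS} (hs : DG s) (w : ℂ) :
    RMb p q r s 3 w = Um (kk p q r s.1 s.2.1) (omS p q r (Pool.Agent.Helper21.SUP.nx s 3) w)
      (omS p q r s w * omS p q r (Pool.Agent.Helper21.SUP.nx s 3) w) := by
  have h2 : Rb (mm p q r s.1 s.2.1) 2 = 1 := dth_Rb_two (LNI_mm hp hq hr _ _ hs.1)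
  unfold RMb Um
  have h3 : (3 : ℕ) - 1 = 2 := rfl
  rw [h3, h2]
  ext i j
  fin_cases i <;> fin_cases j <;>
    (simp [Cm, Bm, Matrix.mul_apply, Fin.sum_univ_three]; try ring)

/-- the scalar of the cycle -/
def nuA (k k' : ℝ) (P : ℂ) : ℂ := P * (1 + (SbP k : ℂ)) * (1 + (SbP k' : ℂ))

theorem Um_trace (k k' : ℝ) (o o' : ℂ) :
    (Um k' o (o * o') * Um k o' (o * o')).trace =
      1 + 2 * (o + o') + 4 * (o * o') - nuA k k' (o * o') := by
  simp [Um, nuA, Matrix.trace, Fin.sum_univ_three]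
  ring

theorem Um_e2 (k k' : ℝ) (o o' : ℂ) :
    e2 (Um k' o (o * o') * Um k o' (o * o')) =
      nuA k k' (o * o') * (Um k' o (o * o') * Um k o' (o * o')).trace := by
  rw [Um_trace]
  simp [e2, Um, nuA, Matrix.mul_apply, Fin.sum_univ_three]
  ring

theorem Um_det1 (k : ℝ) (o' P : ℂ) : (Um k o' P).det = -(o' * P) * (1 + (SbP k : ℂ)) ^ 3 := by
  simp [Um, Matrix.det_fin_three]
  ring

theorem Um_det (k k' : ℝ) (o o' : ℂ) :
    (Um k' o (o * o') * Um k o' (o * o')).det = nuA k k' (o * o') ^ 3 := by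
  rw [Matrix.det_mul, Um_det1, Um_det1]
  unfold nuA
  ring

/-- the normalised cycle -/
def WA (k k' : ℝ) (o o' : ℂ) : Matrix (Fin 3) (Fin 3) ℂ :=
  (nuA k k' (o * o'))⁻¹ • (Um k' o (o * o') * Um k o' (o * o'))

/-- `tr = 2κ + 1` -/
def kapA (k k' : ℝ) (o o' : ℂ) : ℂ :=
  ((1 + 2 * (o + o') + 4 * (o * o')) / nuA k k' (o * o') - 2) / 2

/-- the inverse of the normalised cycle -/
def WAi (k k' : ℝ) (o o' : ℂ) : Matrix (Fin 3) (Fin 3) ℂ :=
  WA k k' o o' * WA k k' o o' - (2 * kapA k k' o o' + 1) • WA k k' o o' +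
    (2 * kapA k k' o o' + 1) • (1 : Matrix (Fin 3) (Fin 3) ℂ)

theorem WA_cay {k k' : ℝ} {o o' : ℂ} (hn : nuA k k' (o * o') ≠ 0) :
    WA k k' o o' * WA k k' o o' * WA k k' o o' -
      (2 * kapA k k' o o' + 1) • (WA k k' o o' * WA k k' o o') +
      (2 * kapA k k' o o' + 1) • WA k k' o o' - (1 : Matrix (Fin 3) (Fin 3) ℂ) = 0 := by
  have h := cay3 (Um k' o (o * o') * Um k o' (o * o'))
  have hd := Um_det k k' o o'
  have he := Um_e2 k k' o o'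
  have ht := Um_trace k k' o o'
  rw [hd, he, ht] at h
  unfold WA kapA
  generalize nuA k k' (o * o') = ν at *
  generalize Um k' o (o * o') * Um k o' (o * o') = W at *
  generalize hT : 1 + 2 * (o + o') + 4 * (o * o') = T at *
  have e1 : 2 * ((T / ν - 2) / 2) + 1 = (T - ν) / ν := by
    field_simp
    ring
  rw [e1]
  have h2 : (ν ^ 3)⁻¹ • (W * W * W - (T - ν) • (W * W) + (ν * (T - ν)) • W -
      ν ^ 3 • (1 : Matrix (Fin 3) (Fin 3) ℂ)) = 0 := by rw [h, smul_zero]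
  rw [← h2]
  simp only [smul_mul_assoc, mul_smul_comm, smul_smul, smul_sub, smul_add]
  have a1 : ν⁻¹ * (ν⁻¹ * ν⁻¹) = (ν ^ 3)⁻¹ := by
    field_simp
  have a2 : (T - ν) / ν * (ν⁻¹ * ν⁻¹) = (ν ^ 3)⁻¹ * (T - ν) := by
    field_simp
  have a3 : (T - ν) / ν * ν⁻¹ = (ν ^ 3)⁻¹ * (ν * (T - ν)) := by
    field_simp
  have a4 : (ν ^ 3)⁻¹ * ν ^ 3 = 1 := by
    field_simp
  rw [a1, a2, a3, a4, one_smul]

theorem WA_inv {k k' : ℝ} {o o' : ℂ} (hn : nuA k k' (o * o') ≠ 0) :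
    WA k k' o o' * WAi k k' o o' = 1 := by
  have h := WA_cay hn
  unfold WAi
  rw [mul_add, mul_sub, mul_smul_comm, mul_smul_comm, mul_one, ← mul_assoc]
  exact sub_eq_zero.1 h

theorem WA_min {k k' : ℝ} {o o' : ℂ} (hn : nuA k k' (o * o') ≠ 0) :
    (WA k k' o o' - 1) * (WA k k' o o' + WAi k k' o o' -
      (2 * kapA k k' o o') • (1 : Matrix (Fin 3) (Fin 3) ℂ)) = 0 := by
  have h := WA_cay hn
  unfold WAi
  generalize WA k k' o o' = W at *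
  generalize 2 * kapA k k' o o' = c at *
  have e : (W - 1) * (W + (W * W - (c + 1) • W + (c + 1) • (1 : Matrix (Fin 3) (Fin 3) ℂ)) -
      c • (1 : Matrix (Fin 3) (Fin 3) ℂ)) =
      W * W * W - (c + 1) • (W * W) + (c + 1) • W - (1 : Matrix (Fin 3) (Fin 3) ℂ) := by
    have e0 : W + (W * W - (c + 1) • W + (c + 1) • (1 : Matrix (Fin 3) (Fin 3) ℂ)) -
        c • (1 : Matrix (Fin 3) (Fin 3) ℂ) = W * W - c • W + 1 := by module
    rw [e0]
    rw [sub_mul, one_mul, mul_add, mul_sub, mul_smul_comm, mul_one, ← mul_assoc]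
    module
  rw [e, h]

/-- the family which contains all powers of the cycle -/
def TA (k k' : ℝ) (o o' A : ℂ) : Matrix (Fin 3) (Fin 3) ℂ :=
  Pool.Agent.Helper42.CH.Z2 (WA k k' o o') (WAi k k' o o') +
    A • Pool.Agent.Helper42.CH.Z1 (WA k k' o o') (WAi k k' o o') +
    Pool.Agent.Helper42.CH.powB (kapA k k' o o') A • (1 : Matrix (Fin 3) (Fin 3) ℂ)

/-- the parameter of the recursion -/
def tauA (k k' : ℝ) (o o' : ℂ) : ℂ := (kapA k k' o o' - 1) / (kapA k k' o o' + 1)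

/-- ALL POWERS OF THE CYCLE -/
theorem WA_pow {k k' : ℝ} {o o' : ℂ} (hn : nuA k k' (o * o') ≠ 0)
    (hk : 1 ≤ (kapA k k' o o').re) (m : ℕ) :
    ∃ c : ℂ, c ≠ 0 ∧ (Um k' o (o * o') * Um k o' (o * o')) ^ (m + 1) =
      c • TA k k' o o' (Pool.Agent.Helper42.CH.powA (tauA k k' o o') m) := by
  obtain ⟨h1, h2⟩ := Pool.Agent.Helper42.CH.pow_eq' (WA_inv hn) (WA_min hn) hk m
  have e : Um k' o (o * o') * Um k o' (o * o') = nuA k k' (o * o') • WA k k' o o' := by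
    unfold WA
    rw [smul_smul, mul_inv_cancel₀ hn, one_smul]
  refine ⟨nuA k k' (o * o') ^ (m + 1) * _, mul_ne_zero (pow_ne_zero _ hn) h1, ?_⟩
  rw [e, smul_pow, h2, smul_smul]
  rfl

theorem nuA_ne {k k' : ℝ} (hk : 0 < k) (hk' : 0 < k') {o o' : ℂ} (ho : o ≠ 0) (ho' : o' ≠ 0) :
    nuA k k' (o * o') ≠ 0 := by
  have c1 : (k : ℂ) ≠ 0 := by exact_mod_cast hk.ne'
  have c2 : (k' : ℂ) ≠ 0 := by exact_mod_cast hk'.ne'
  unfold nuA
  rw [SbP_c hk.ne', SbP_c hk'.ne']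
  refine mul_ne_zero (mul_ne_zero (mul_ne_zero ho ho') ?_) ?_
  · have : 1 + (4 / (k : ℂ) ^ 2 - 1) = 4 / (k : ℂ) ^ 2 := by ring
    rw [this]
    exact div_ne_zero (by norm_num) (pow_ne_zero 2 c1)
  · have : 1 + (4 / (k' : ℂ) ^ 2 - 1) = 4 / (k' : ℂ) ^ 2 := by ring
    rw [this]
    exact div_ne_zero (by norm_num) (pow_ne_zero 2 c2)

/-- `2κ + 2 = k²k'² + h² + k k' h x` -/
theorem kapA_eq {k k' h : ℝ} (hk : 0 < k) (hk' : 0 < k') {z : ℂ} (hz : z ≠ 0)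
    {lam : ℝ} (hl : lam = 2 * h / (k * k')) (h1 : 1 + (lam : ℂ) * z ≠ 0)
    (h2 : 1 + (lam : ℂ) / z ≠ 0) :
    kapA k k' (1 / (2 * (1 + (lam : ℂ) * z))) (1 / (2 * (1 + (lam : ℂ) / z))) =
      ((k : ℂ) ^ 2 * (k' : ℂ) ^ 2 + (h : ℂ) ^ 2 + (k : ℂ) * k' * h * (z + 1 / z) - 2) / 2 := by
  have c1 : (k : ℂ) ≠ 0 := by exact_mod_cast hk.ne'
  have c2 : (k' : ℂ) ≠ 0 := by exact_mod_cast hk'.ne'
  have hl' : (lam : ℂ) = 2 * h / (k * k') := by
    rw [hl]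
    push_cast
    ring
  have h3 : z + (lam : ℂ) ≠ 0 := by
    intro h0
    apply h2
    have e : 1 + (lam : ℂ) / z = (z + lam) / z := by
      field_simp
    rw [e, h0, zero_div]
  have hh : (h : ℂ) = lam * (k * k') / 2 := by
    rw [hl']
    field_simp
  unfold kapA nuA
  rw [SbP_c hk.ne', SbP_c hk'.ne', hh]
  have e1 : 1 + (4 / (k : ℂ) ^ 2 - 1) = 4 / (k : ℂ) ^ 2 := by ring
  have e2 : 1 + (4 / (k' : ℂ) ^ 2 - 1) = 4 / (k' : ℂ) ^ 2 := by ring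
  have e3 : 1 + (lam : ℂ) / z = (z + lam) / z := by
    field_simp
  rw [e1, e2, e3]
  field_simp
  ring

end Pool.Agent.Helper6.MONO
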