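import Pool.Agent.Helper39.CX.SUB
import Pool.Agent.Helper39.CX.NRA

/-!
The schemes in which only the superblocks of type A, or only those of type B, or both are glued,
and their block certificates. The A family at a frontier point.
-/

set_option autoImplicit false
noncomputable section
namespace Pool.Agent.Helper39.SLT

open Pool.Agent.Helper6.MONO (nxD sD okD mm RMb RMb_three Um WA_pow TA tauA nuA kapA omS kk LNI_kk
  LNI_mm nuA_ne)
open Pool.Agent.Helper21.SUP
open Pool.Agent.Helper21.MIR
open Pool.Agent.Helper39.C75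

/-- the standard scheme with the gluings of type A (`ga`) and of type B (`gb`) switched on or off -/
def glue (Y : Modes) (ga gb : Bool) : Sch Ty where
  start := (std Y).start
  cont t s m :=
    match t with
    | Ty.A => if ga then (std Y).cont Ty.A s m else none
    | Ty.B => if gb then (std Y).cont Ty.B s m else none
    | t => (std Y).cont t s m

theorem glue_sub {Y : Modes} (hA : ∀ s, Y.A s = true) (hB : ∀ s, Y.B s = true) (ga gb : Bool) :
    Sub (glue Y ga gb) (std Y) := by
  refine ⟨fun _ _ => rfl, fun t s m => ?_⟩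
  cases t with
  | o => exact Or.inl rfl
  | P k => exact Or.inl rfl
  | Q k => exact Or.inl rfl
  | A =>
    cases ga with
    | true => exact Or.inl rfl
    | false =>
      refine Or.inr ⟨rfl, fun t' h => ?_⟩
      have h' : (if m = 3 then some Ty.A else none) = some t' := h
      by_cases hm : m = 3
      · rw [if_pos hm] at h'
        have h2 : Ty.A = t' := Option.some.inj h'
        show (if m = 3 ∧ Y.A s = true then Ty.A
          else if m = 2 ∧ Y.B s = true then Ty.B
          else if Y.C s m = true then Ty.P m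
          else Ty.o) = t'
        rw [if_pos ⟨hm, hA s⟩, h2]
      · rw [if_neg hm] at h'
        cases h'
  | B =>
    cases gb with
    | true => exact Or.inl rfl
    | false =>
      refine Or.inr ⟨rfl, fun t' h => ?_⟩
      have h' : (if m = 2 then some Ty.B else none) = some t' := h
      by_cases hm : m = 2
      · rw [if_pos hm] at h'
        have h2 : Ty.B = t' := Option.some.inj h'
        show (if m = 3 ∧ Y.A s = true then Ty.A
          else if m = 2 ∧ Y.B s = true then Ty.B
          else if Y.C s m = true then Ty.P m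
          else Ty.o) = t'
        rw [if_neg (by omega), if_pos ⟨hm, hB s⟩, h2]
      · rw [if_neg hm] at h'
        cases h'

/-- a list of runs respects the regions -/
def Resp (p q r : ℕ) (RM : GS → ℕ → ℂ → Matrix (Fin 3) (Fin 3) ℂ) (w : ℂ)
    (R : SSt Ty → Set (Fin 3 → ℂ)) (s : GS) (f : Bool) (o : Option Ty) (l : List ℕ) (t : Ty) :
    Prop :=
  ∀ v ∈ R (s, f, o), (gM RM s l w).mulVec v ∈ R (sD s l, fD p q r f s l, some t)

/-- BLOCK CERTIFICATES of the glued schemes without blocks of type C -/
theorem glue_cert {Y : Modes} (hA : ∀ s, Y.A s = true) (hB : ∀ s, Y.B s = true)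
    (hC : ∀ s m, Y.C s m = false) {ga gb : Bool} {p q r : ℕ}
    {RM : GS → ℕ → ℂ → Matrix (Fin 3) (Fin 3) ℂ} {w : ℂ} {R : SSt Ty → Set (Fin 3 → ℂ)}
    (h1 : ∀ s f o m, DG s → ok1 p q r f s m → m ≠ 2 → m ≠ 3 → Resp p q r RM w R s f o [m] Ty.o)
    (hA0 : ga = false → ∀ s f o, DG s → ok1 p q r f s 3 → Resp p q r RM w R s f o [3] Ty.A)
    (hA1 : ga = true → ∀ s f o k, DG s → ok1 p q r f s 3 → o ≠ some Ty.A →
      Resp p q r RM w R s f o (alL 3 3 (k + 1)) Ty.A)
    (hB0 : gb = false → ∀ s f o, DG s → ok1 p q r f s 2 → Resp p q r RM w R s f o [2] Ty.B)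
    (hB1 : gb = true → ∀ s f o k, DG s → ok1 p q r f s 2 → o ≠ some Ty.B →
      Resp p q r RM w R s f o (alL 2 2 (k + 1)) Ty.B) :
    BlkCert (glue Y ga gb) p q r RM w R := by
  intro o f s m ms t hD hb v hv
  obtain ⟨hn, hok, hs⟩ := hb
  have hok1 : ok1 p q r f s m := ((okD_cons p q r f s m ms).1 hok).1
  have hst : (glue Y ga gb).start s m = if m = 3 then Ty.A else if m = 2 then Ty.B else Ty.o := by
    show (if m = 3 ∧ Y.A s = true then Ty.A
          else if m = 2 ∧ Y.B s = true then Ty.B
          else if Y.C s m = true then Ty.P m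
          else Ty.o) = _
    rw [hA, hB, hC]
    simp
  rw [hst] at hs
  -- the rest of a block of type `A` or `B`
  have segA : ∀ (l : List ℕ) (s : GS) (t : Ty), (glue Y ga gb).seg Ty.A s l = some t →
      (l = [] ∨ ga = true) ∧ l = alL 3 3 l.length ∧ t = Ty.A := by
    intro l
    induction l with
    | nil =>
      intro s t h
      exact ⟨Or.inl rfl, rfl, (Option.some.inj h).symm⟩
    | cons m l ih =>
      intro s t h
      obtain ⟨t₁, e1, e2⟩ := seg_cons (glue Y ga gb) Ty.A s m l t h
      have e1' : (if ga then (if m = 3 then some Ty.A else none) else none) = some t₁ := e1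
      cases hga : ga with
      | false =>
        rw [hga] at e1'
        cases e1'
      | true =>
        rw [hga] at e1'
        by_cases hm : m = 3
        · have e3 : (if m = 3 then some Ty.A else none) = some t₁ := e1'
          rw [if_pos hm] at e3
          have e4 : Ty.A = t₁ := Option.some.inj e3
          rw [← e4] at e2
          obtain ⟨-, i2, i3⟩ := ih _ t e2
          refine ⟨Or.inr rfl, ?_, i3⟩
          rw [List.length_cons, alL, ← i2, hm]
        · have e3 : (if m = 3 then some Ty.A else none) = some t₁ := e1'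
          rw [if_neg hm] at e3
          cases e3
  have segB : ∀ (l : List ℕ) (s : GS) (t : Ty), (glue Y ga gb).seg Ty.B s l = some t →
      (l = [] ∨ gb = true) ∧ l = alL 2 2 l.length ∧ t = Ty.B := by
    intro l
    induction l with
    | nil =>
      intro s t h
      exact ⟨Or.inl rfl, rfl, (Option.some.inj h).symm⟩
    | cons m l ih =>
      intro s t h
      obtain ⟨t₁, e1, e2⟩ := seg_cons (glue Y ga gb) Ty.B s m l t h
      have e1' : (if gb then (if m = 2 then some Ty.B else none) else none) = some t₁ := e1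
      cases hgb : gb with
      | false =>
        rw [hgb] at e1'
        cases e1'
      | true =>
        rw [hgb] at e1'
        by_cases hm : m = 2
        · have e3 : (if m = 2 then some Ty.B else none) = some t₁ := e1'
          rw [if_pos hm] at e3
          have e4 : Ty.B = t₁ := Option.some.inj e3
          rw [← e4] at e2
          obtain ⟨-, i2, i3⟩ := ih _ t e2
          refine ⟨Or.inr rfl, ?_, i3⟩
          rw [List.length_cons, alL, ← i2, hm]
        · have e3 : (if m = 2 then some Ty.B else none) = some t₁ := e1'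
          rw [if_neg hm] at e3
          cases e3
  by_cases m3 : m = 3
  · rw [if_pos m3] at hs
    obtain ⟨i1, i2, i3⟩ := segA ms _ t hs
    subst m3
    subst i3
    cases hga : ga with
    | true =>
      have hne : o ≠ some Ty.A := by
        intro ho
        have h2 := hn Ty.A ho
        have h3 : (if ga then (if 3 = 3 then some Ty.A else none) else none) = none := h2
        rw [hga] at h3
        cases h3
      have h4 := hA1 hga s f o ms.length hD hok1 hne v hv
      have e : alL 3 3 (ms.length + 1) = 3 :: ms := by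
        rw [alL, ← i2]
      rw [e] at h4
      exact h4
    | false =>
      rcases i1 with h5 | h5
      · subst h5
        exact hA0 hga s f o hD hok1 v hv
      · rw [hga] at h5
        cases h5
  · rw [if_neg m3] at hs
    by_cases m2 : m = 2
    · rw [if_pos m2] at hs
      obtain ⟨i1, i2, i3⟩ := segB ms _ t hs
      subst m2
      subst i3
      cases hgb : gb with
      | true =>
        have hne : o ≠ some Ty.B := by
          intro ho
          have h2 := hn Ty.B ho
          have h3 : (if gb then (if 2 = 2 then some Ty.B else none) else none) = none := h2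
          rw [hgb] at h3
          cases h3
        have h4 := hB1 hgb s f o ms.length hD hok1 hne v hv
        have e : alL 2 2 (ms.length + 1) = 2 :: ms := by
          rw [alL, ← i2]
        rw [e] at h4
        exact h4
      | false =>
        rcases i1 with h5 | h5
        · subst h5
          exact hB0 hgb s f o hD hok1 v hv
        · rw [hgb] at h5
          cases h5
    · rw [if_neg m2] at hs
      match ms, hs with
      | [], hs =>
        have h6 : Ty.o = t := Option.some.inj hs
        subst h6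
        exact h1 s f o m hD hok1 m2 m3 v hv
      | m' :: ms', hs =>
        obtain ⟨t₁, e1, -⟩ := seg_cons (glue Y ga gb) Ty.o _ m' ms' t hs
        have e1' : (none : Option Ty) = some t₁ := e1
        cases e1'

/-! ### the A family -/

theorem fD_alL3 (p q r : ℕ) (s : GS) (f : Bool) (k : ℕ) :
    fD p q r f s (alL 3 3 (2 * k + 1)) = decide (3 = mm p q r s.1 s.2.1) ∧
    fD p q r f s (alL 3 3 (2 * k + 2)) = decide (3 = mm p q r s.1 s.2.2) := by
  induction k generalizing f with
  | zero =>
    refine ⟨rfl, ?_⟩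
    show decide (3 = mm p q r (nx s 3).1 (nx s 3).2.1) = _
    rw [nx_odd s 3 rfl]
  | succ k ih =>
    have e : nx (nx s 3) 3 = s := nx_odd_odd s 3 3 rfl rfl
    constructor
    · have h := (ih (decide (3 = mm p q r (nx s 3).1 (nx s 3).2.1))).1
      show fD p q r (decide (3 = mm p q r (nx s 3).1 (nx s 3).2.1)) (nx (nx s 3) 3)
        (alL 3 3 (2 * k + 1)) = _
      rw [e]
      exact h
    · have h := (ih (decide (3 = mm p q r (nx s 3).1 (nx s 3).2.1))).2
      show fD p q r (decide (3 = mm p q r (nx s 3).1 (nx s 3).2.1)) (nx (nx s 3) 3)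
        (alL 3 3 (2 * k + 2)) = _
      rw [e]
      exact h

/-- THE A FAMILY at the point `w`: `A¹`, and the family `T(A)`, `U T(A)` for the parameters of the
powers, trapped in the sets `D 0, …, D J`. -/
theorem resp_A {p q r : ℕ} (hp : 3 ≤ p) (hq : 3 ≤ q) (hr : 3 ≤ r) {w : ℂ}
    {R : SSt Ty → Set (Fin 3 → ℂ)} (hreg : ∀ σ, IsRegion (R σ)) {s : GS} (hs : DG s)
    (ho : omS p q r s w ≠ 0) (ho' : omS p q r (nx s 3) w ≠ 0)
    (hk : 1 ≤ (kapA (kk p q r s.1 s.2.1) (kk p q r s.1 s.2.2) (omS p q r s w)
      (omS p q r (nx s 3) w)).re)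
    {J : ℕ} (D : ℕ → Set ℂ)
    (hD : ∀ m, Pool.Agent.Helper42.CH.powA (tauA (kk p q r s.1 s.2.1) (kk p q r s.1 s.2.2)
      (omS p q r s w) (omS p q r (nx s 3) w)) m ∈ D (min m J))
    {f : Bool} {o : Option Ty}
    (t1 : ∀ v ∈ R (s, f, o), (RMb p q r s 3 w).mulVec v ∈
      R (nx s 3, decide (3 = mm p q r s.1 s.2.1), some Ty.A))
    (tE : ∀ i ≤ J, ∀ A ∈ D i, ∀ v ∈ R (s, f, o),
      (TA (kk p q r s.1 s.2.1) (kk p q r s.1 s.2.2) (omS p q r s w) (omS p q r (nx s 3) w)
        A).mulVec v ∈ R (s, decide (3 = mm p q r s.1 s.2.2), some Ty.A))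
    (tO : ∀ i ≤ J, ∀ A ∈ D i, ∀ v ∈ R (s, f, o),
      (RMb p q r s 3 w).mulVec ((TA (kk p q r s.1 s.2.1) (kk p q r s.1 s.2.2) (omS p q r s w)
        (omS p q r (nx s 3) w) A).mulVec v) ∈
        R (nx s 3, decide (3 = mm p q r s.1 s.2.1), some Ty.A)) (k : ℕ) :
    Resp p q r (RMb p q r) w R s f o (alL 3 3 (k + 1)) Ty.A := by
  have k1 := (LNI_kk hp hq hr _ _ hs.1).1
  have hs' := DG_nx s 3 hs
  have e0 : nx s 3 = (s.1, s.2.2, s.2.1) := nx_odd s 3 rfl
  have e00 : nx (nx s 3) 3 = s := nx_odd_odd s 3 3 rfl rfl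
  have k2 : 0 < kk p q r s.1 s.2.2 := by
    have := (LNI_kk hp hq hr _ _ hs'.1).1
    rw [e0] at this
    exact this
  have hn := nuA_ne k1 k2 ho ho'
  have eV : RMb p q r (nx s 3) 3 w = Um (kk p q r s.1 s.2.2) (omS p q r s w)
      (omS p q r s w * omS p q r (nx s 3) w) := by
    rw [RMb_three hp hq hr hs', e00, mul_comm (omS p q r (nx s 3) w)]
    rw [e0]
  have eU : RMb p q r s 3 w = Um (kk p q r s.1 s.2.1) (omS p q r (nx s 3) w)
      (omS p q r s w * omS p q r (nx s 3) w) := RMb_three hp hq hr hs w
  have hpow : ∀ j : ℕ, ∃ c : ℂ, c ≠ 0 ∧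
      (RMb p q r (nx s 3) 3 w * RMb p q r s 3 w) ^ (j + 1) =
        c • TA (kk p q r s.1 s.2.1) (kk p q r s.1 s.2.2) (omS p q r s w)
          (omS p q r (nx s 3) w) (Pool.Agent.Helper42.CH.powA (tauA (kk p q r s.1 s.2.1)
            (kk p q r s.1 s.2.2) (omS p q r s w) (omS p q r (nx s 3) w)) j) := by
    intro j
    rw [eV, eU]
    exact WA_pow hn hk j
  intro v hv
  rcases Nat.even_or_odd' (k + 1) with ⟨j, hj | hj⟩
  · -- even
    obtain ⟨j', rfl⟩ : ∃ j', j = j' + 1 := ⟨j - 1, by omega⟩
    obtain ⟨c, hc, e1⟩ := hpow j'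
    rw [hj, gM_alL _ _ _ _ rfl rfl, e1, sD_alL s 3 3 rfl rfl, Matrix.smul_mulVec]
    have e2 : 2 * (j' + 1) = 2 * j' + 2 := by ring
    rw [e2, (fD_alL3 p q r s f j').2]
    exact (hreg _).smul c _ hc (tE _ (min_le_right _ _) _ (hD j') v hv)
  · rcases Nat.eq_zero_or_pos j with hj0 | hj0
    · subst hj0
      have hk0 : k = 0 := by omega
      subst hk0
      have h1 := t1 v hv
      show (gM (RMb p q r) s [3] w).mulVec v ∈ R (sD s [3], fD p q r f s [3], some Ty.A)
      rw [sD_cons, sD_nil]
      simp only [gM, one_mul]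
      exact h1
    · obtain ⟨j', rfl⟩ : ∃ j', j = j' + 1 := ⟨j - 1, by omega⟩
      obtain ⟨c, hc, e1⟩ := hpow j'
      rw [hj, gM_alL_odd _ _ _ _ rfl rfl, e1, sD_alL_odd s 3 3 rfl rfl]
      have e2 : 2 * (j' + 1) + 1 = 2 * (j' + 1) + 1 := rfl
      rw [(fD_alL3 p q r s f (j' + 1)).1, ← Matrix.mulVec_mulVec, Matrix.smul_mulVec,
        Matrix.mulVec_smul]
      exact (hreg _).smul c _ hc (tO _ (min_le_right _ _) _ (hD j') v hv)

end Pool.Agent.Helper39.SLT
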