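import Pool.Agent.Helper39.CX.KNG

/-!
Row KNF: the family tests of a near cell of an exact class (three walls).
-/

set_option autoImplicit false
noncomputable section
namespace Pool.Agent.Helper39.KNF

open Pool.Agent.Helper86.C75 (Z)
open Pool.Agent.Helper86.C75.Z (opp add sub mul)
open Pool.Agent.Helper86.CX


/-- data of the family of one wall: numbers of the forms `X`, `E` in the table, basis, tests
`q = 1, 2, ..`, polygons with their tests, control points of `tau` (unit `2 ^ (-24)`), radius -/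
structure FD where
  kx : Nat
  ke : Nat
  B : C9
  L : List QT
  Vs : List (List (Nat × Nat))
  lV : List QT
  Ta : Nat × Nat
  Tc : Nat × Nat
  Tb : Nat × Nat
  rho : Nat

/-- `S = 4 / k² - 1` -/
def sMo (n : Nat) (K : Mo) : Mo := subM (mulM n (qd (one n)) (invM n (mulM n K K))) (one n)

def pc (p : Nat × Nat) : Cx := ⟨Z.p (Nat.mul (nat_lit 16777216) p.1), Z.p (Nat.mul (nat_lit 16777216) p.2)⟩
/-- a control value of `tau = 1 - c` against a point of unit `2 ^ (-24)` -/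
def segT (r : Nat) (x : Cx) (T : Nat × Nat) (rho : Nat) : Bool :=
  Nat.ble (Nat.add r (nb (csub (csub one1 x) (pc T)))) (Nat.mul (nat_lit 16777216) rho)
/-- the three control values of `tau = 1 - c` -/
def segOK (c : Mo) (Ta Tc Tb : Nat × Nat) (rho : Nat) : Bool :=
  andB (segT c.r (hd3 c.v).a Ta rho) (andB (segT c.r (hd3 c.v).c Tc rho) (segT c.r (hd3 c.v).b Tb rho))

def fT (_ : Mo) : Bool := true

def famW6 (D : FD) (C : FC) (d : Mo) (H : HC) (c : Mo) : Bool :=
  andB (segOK c D.Ta D.Tc D.Tb D.rho) (andB (tnQ (nat_lit 1) C.h d H c fT D.L (one (nat_lit 1)))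
    (tnVs C.h d H D.Vs D.lV))
def famW5 (KTs : List K2) (D : FD) (C : FC) (d c : Mo) : Bool :=
  famW6 D C d (mkHA (nat_lit 1) C d (mkX (nat_lit 1) (kfs KTs D.kx)) (mkX (nat_lit 1) (kfs KTs D.ke)) (mkS (nat_lit 1) D.B)) c
def famW4 (KTs : List K2) (D : FD) (S S' g g' EE' : Mo) : Bool :=
  andB (invOK (nat_lit 1) EE') (famW5 KTs D (mkFC (nat_lit 1) S S' g g' (invM (nat_lit 1) g))
    (dbl (mulM (nat_lit 1) (addM (one (nat_lit 1)) S) (addM (one (nat_lit 1)) S')))
    (mulM (nat_lit 1) (qd (mulM (nat_lit 1) (addM (one (nat_lit 1)) S) (addM (one (nat_lit 1)) S'))) (invM (nat_lit 1) EE')))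
def famW3 (KTs : List K2) (D : FD) (S S' g g' : Mo) : Bool :=
  andB (invOK (nat_lit 1) g) (andB (nz (det9 D.B)) (famW4 KTs D S S' g g'
    (mulM (nat_lit 1) (addM g (two (nat_lit 1))) (addM g' (two (nat_lit 1))))))
/-- one wall: `l = lambda`, `k`, `k'` the weights of the bonds `(n, n+1)`, `(n, n+2)` -/
def famW (KTs : List K2) (D : FD) (l k k' u z : Mo) : Bool :=
  andB (invOK (nat_lit 1) (mulM (nat_lit 1) k k)) (andB (invOK (nat_lit 1) (mulM (nat_lit 1) k' k'))
    (famW3 KTs D (sMo (nat_lit 1) k) (sMo (nat_lit 1) k') (gM (nat_lit 1) l u) (gM (nat_lit 1) l z)))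

/-- the three walls -/
def fam3 (k0 k1 k2 : Mo) (C : Cls) (KTs : List K2) (D0 D1 D2 : FD) (u z : Mo) : Bool :=
  andB (famW KTs D0 C.l0 k0 k2 u z) (andB (famW KTs D1 C.l1 k1 k0 u z)
    (famW KTs D2 C.l2 k2 k1 u z))
def famX (k0 k1 k2 : Mo) (C : Cls) (KTs : List K2) (D0 D1 D2 : FD) (m : Nat) (x u z : Mo) : Bool :=
  andB (mOK m x.v u.v) (fam3 k0 k1 k2 C KTs D0 D1 D2 (uM m x u z) (zM x (uM m x u z) z))
/-- THE FAMILY TESTS OF A CELL -/
def famCell (k0 k1 k2 : Mo) (C : Cls) (D0 D1 D2 : FD) (xs : List C3) (rx m : Nat) (us : List C3)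
    (KTs : List K2) : Bool :=
  famX k0 k1 k2 C KTs D0 D1 D2 m (mk (nat_lit 1) xs rx) (mk (nat_lit 1) us (nat_lit 0)) (mk (nat_lit 1) (zipL sub3 xs us) (nat_lit 0))

end Pool.Agent.Helper39.KNF
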