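import Pool.Agent.Helper86.CX.Ker

/-!
Row KNF: kernel test of the family of the powers of the A cycle (near zone), on top of the models
of `Helper86/CX/Ker.lean`. The matrix is `N₂ + A N₁ + h (A² - 1) / 2` (see `NFM.lean`).
-/

set_option autoImplicit false
noncomputable section
namespace Pool.Agent.Helper39.KNF

open Pool.Agent.Helper86.C75 (Z)
open Pool.Agent.Helper86.C75.Z (opp add sub mul)
open Pool.Agent.Helper86.CX


/-! ### models -/

def dbl (f : Mo) : Mo := addM f f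
def qd (f : Mo) : Mo := dbl (dbl f)
def one (n : Nat) : Mo := cstM n (nat_lit 281474976710656) (nat_lit 0)
def two (n : Nat) : Mo := cstM n (nat_lit 562949953421312) (nat_lit 0)
def hlf (n : Nat) : Mo := cstM n (nat_lit 140737488355328) (nat_lit 0)
/-- recomputed bounds -/
def re (n : Nat) (f : Mo) : Mo := mk n f.v f.r

/-- nine models, rows `00 01 02 10 11 12 20 21 22` -/
structure M9 where
  a : Mo
  b : Mo
  c : Mo
  d : Mo
  e : Mo
  f : Mo
  g : Mo
  h : Mo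
  i : Mo

/-- six models of a Hermitian matrix, `00 11 22 01 02 12` -/
structure M6 where
  a : Mo
  b : Mo
  c : Mo
  x : Mo
  y : Mo
  w : Mo

/-- constants of a family: `N₂`, `N₁` (entries `02`, `22` with the opposite sign), `h` -/
structure FC where
  n2 : M9
  n1 : M9
  h : Mo

/-- `e0 = g E'`, `e1 = g' E`, `ss = S S'`, `so = S' o`, `o2 = 1 + 2 o` -/
def mkFC3 (n : Nat) (S S' g g' E E' e0 e1 e2 so o2 h : Mo) : FC :=
  ⟨⟨addM e0 (dbl (mulM n (addM (one n) S) (subM (one n) S'))),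
    dbl (mulM n g (subM g' (dbl S))), dbl (mulM n g (subM g' (dbl S))),
    subM g' (qd (mulM n S so)),
    addM (dbl (addM g g')) (dbl (mulM n (subM (one n) S) (subM (one n) S'))),
    subM (qd (mulM n S S')) e2,
    subM (two n) (qd so), subM (qd S') (dbl g),
    addM (dbl (mulM n (subM (one n) S) (addM (one n) S'))) e1⟩,
   ⟨e0, dbl e0, dbl (mulM n S e0),
    subM E' (dbl (mulM n S' o2)), dbl (subM g' g), subM e1 (dbl (mulM n S E')),
    dbl (mulM n S' o2), dbl E, e1⟩, mulM n (hlf n) h⟩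

def mkFC2 (n : Nat) (S S' g g' o E E' : Mo) : FC :=
  mkFC3 n S S' g g' E E' (mulM n g E') (mulM n g' E) (mulM n g g') (mulM n S' o)
    (addM (one n) (dbl o)) (mulM n E E')

def mkFC (n : Nat) (S S' g g' o : Mo) : FC :=
  mkFC2 n S S' g g' o (addM g (two n)) (addM g' (two n))

/-- the matrix of the family; `be = h (A² - 1)` -/
def famM2 (n : Nat) (C : FC) (A be : Mo) : M9 :=
  ⟨re n (addM (addM C.n2.a (mulM n A C.n1.a)) be),
    re n (addM C.n2.b (mulM n A C.n1.b)), re n (subM C.n2.c (mulM n A C.n1.c)),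
    re n (addM C.n2.d (mulM n A C.n1.d)),
    re n (addM (addM C.n2.e (mulM n A C.n1.e)) be),
    re n (addM C.n2.f (mulM n A C.n1.f)),
    re n (addM C.n2.g (mulM n A C.n1.g)), re n (addM C.n2.h (mulM n A C.n1.h)),
    re n (addM (subM C.n2.i (mulM n A C.n1.i)) be)⟩
def famM (n : Nat) (C : FC) (A : Mo) : M9 :=
  famM2 n C A (mulM n C.h (subM (mulM n A A) (one n)))

/-! ### forms as models -/

def sg (x : Nat) : Z := sub (Z.p x) (Z.p (nat_lit 2147483648))
def s28 (x : Z) : Z := mul (Z.p (nat_lit 268435456)) x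
def s27 (x : Z) : Z := mul (Z.p (nat_lit 134217728)) x
def z0 : Z := Z.p (nat_lit 0)
/-- real entry -/
def kR3 (k : Nat) (x : K2) : C3 :=
  ⟨⟨s28 (sg (u32 x.s k)), z0⟩, ⟨s27 (add (sg (u32 x.s k)) (sg (u32 x.t k))), z0⟩,
    ⟨s28 (sg (u32 x.t k)), z0⟩⟩
/-- complex entry -/
def kC3 (k k' : Nat) (x : K2) : C3 :=
  ⟨⟨s28 (sg (u32 x.s k)), s28 (sg (u32 x.s k'))⟩,
    ⟨s27 (add (sg (u32 x.s k)) (sg (u32 x.t k))), s27 (add (sg (u32 x.s k')) (sg (u32 x.t k')))⟩,
    ⟨s28 (sg (u32 x.t k)), s28 (sg (u32 x.t k'))⟩⟩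
def mapK (f : K2 → C3) (l : List K2) : List C3 :=
  List.rec (motive := fun _ => List C3) [] (fun x _ ih => f x :: ih) l
def kR (n k : Nat) (l : List K2) : Mo := mk n (mapK (kR3 k) l) (nat_lit 0)
def kC (n k k' : Nat) (l : List K2) : Mo := mk n (mapK (kC3 k k') l) (nat_lit 0)
def mkX (n : Nat) (l : List K2) : M6 :=
  ⟨kR n (nat_lit 0) l, kR n (nat_lit 32) l, kR n (nat_lit 64) l,
    kC n (nat_lit 96) (nat_lit 128) l, kC n (nat_lit 160) (nat_lit 192) l, kC n (nat_lit 224) (nat_lit 256) l⟩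

/-! ### the congruence -/

def dot3 (n : Nat) (x y z a b c : Mo) : Mo :=
  addM (mulM n x a) (addM (mulM n y b) (mulM n z c))
def rdot3 (n : Nat) (x y z a b c : Mo) : Mo := re n (dot3 n x y z a b c)
/-- `X F` -/
def XF' (n : Nat) (X : M6) (cx cy cw : Mo) (F : M9) : M9 :=
  ⟨rdot3 n X.a X.x X.y F.a F.d F.g, rdot3 n X.a X.x X.y F.b F.e F.h, rdot3 n X.a X.x X.y F.c F.f F.i,
    rdot3 n cx X.b X.w F.a F.d F.g, rdot3 n cx X.b X.w F.b F.e F.h, rdot3 n cx X.b X.w F.c F.f F.i,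
    rdot3 n cy cw X.c F.a F.d F.g, rdot3 n cy cw X.c F.b F.e F.h, rdot3 n cy cw X.c F.c F.f F.i⟩
def XF (n : Nat) (X : M6) (F : M9) : M9 := XF' n X (conjM X.x) (conjM X.y) (conjM X.w) F
/-- `Fᴴ Y`, upper part -/
def FY (n : Nat) (F Y : M9) : M6 :=
  ⟨dot3 n (conjM F.a) (conjM F.d) (conjM F.g) Y.a Y.d Y.g,
    dot3 n (conjM F.b) (conjM F.e) (conjM F.h) Y.b Y.e Y.h,
    dot3 n (conjM F.c) (conjM F.f) (conjM F.i) Y.c Y.f Y.i,
    dot3 n (conjM F.a) (conjM F.d) (conjM F.g) Y.b Y.e Y.h,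
    dot3 n (conjM F.a) (conjM F.d) (conjM F.g) Y.c Y.f Y.i,
    dot3 n (conjM F.b) (conjM F.e) (conjM F.h) Y.c Y.f Y.i⟩
def cong (n : Nat) (F : M9) (X : M6) : M6 := FY n F (XF n X F)

/-! ### the test -/

/-- modulo `2 ^ 1152` -/
def tNP (n : Nat) : Nat := n
def tNM (n : Nat) : Nat := Nat.mul N2 n
def tN (x : Z) : Nat := Z.rec (motive := fun _ => Nat) tNP tNM x

/-- `P - R - 16 l E > 0`; slots of `E` -/
def tst1 (a b c x y w : Cx) (R : E3) (l E : Nat) : Bool :=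
  psd1 (Nat.add (tN a.re) (Nat.mul N2 (Nat.add R.x (Nat.mul l (v32 E (nat_lit 0)))))) (Nat.add (tN b.re) (Nat.mul N2 (Nat.add R.y (Nat.mul l (v32 E (nat_lit 32))))))
    (Nat.add (tN c.re) (Nat.mul N2 (Nat.add R.z (Nat.mul l (v32 E (nat_lit 64))))))
    (Nat.add (tN x.re) (Nat.mul N2 (Nat.mul l (v32 E (nat_lit 96))))) (Nat.add (tN x.im) (Nat.mul N2 (Nat.mul l (v32 E (nat_lit 128)))))
    (Nat.add (tN y.re) (Nat.mul N2 (Nat.mul l (v32 E (nat_lit 160))))) (Nat.add (tN y.im) (Nat.mul N2 (Nat.mul l (v32 E (nat_lit 192)))))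
    (Nat.add (tN w.re) (Nat.mul N2 (Nat.mul l (v32 E (nat_lit 224))))) (Nat.add (tN w.im) (Nat.mul N2 (Nat.mul l (v32 E (nat_lit 256)))))
/-- the middle control: `P - R - 8 (l0 E1 + l1 E0) > 0` -/
def tstc (a b c x y w : Cx) (R : E3) (l m E F : Nat) : Bool :=
  psd1 (Nat.add (tN a.re) (Nat.mul N2 (Nat.add (Nat.add R.x (Nat.mul l (v32 F (nat_lit 0)))) (Nat.mul m (v32 E (nat_lit 0))))))
    (Nat.add (tN b.re) (Nat.mul N2 (Nat.add (Nat.add R.y (Nat.mul l (v32 F (nat_lit 32)))) (Nat.mul m (v32 E (nat_lit 32))))))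
    (Nat.add (tN c.re) (Nat.mul N2 (Nat.add (Nat.add R.z (Nat.mul l (v32 F (nat_lit 64)))) (Nat.mul m (v32 E (nat_lit 64))))))
    (Nat.add (tN x.re) (Nat.mul N2 (Nat.add (Nat.mul l (v32 F (nat_lit 96))) (Nat.mul m (v32 E (nat_lit 96))))))
    (Nat.add (tN x.im) (Nat.mul N2 (Nat.add (Nat.mul l (v32 F (nat_lit 128))) (Nat.mul m (v32 E (nat_lit 128))))))
    (Nat.add (tN y.re) (Nat.mul N2 (Nat.add (Nat.mul l (v32 F (nat_lit 160))) (Nat.mul m (v32 E (nat_lit 160))))))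
    (Nat.add (tN y.im) (Nat.mul N2 (Nat.add (Nat.mul l (v32 F (nat_lit 192))) (Nat.mul m (v32 E (nat_lit 192))))))
    (Nat.add (tN w.re) (Nat.mul N2 (Nat.add (Nat.mul l (v32 F (nat_lit 224))) (Nat.mul m (v32 E (nat_lit 224))))))
    (Nat.add (tN w.im) (Nat.mul N2 (Nat.add (Nat.mul l (v32 F (nat_lit 256))) (Nat.mul m (v32 E (nat_lit 256))))))

/-- the two ends of a multiplier -/
structure L2 where
  s : Nat
  t : Nat

def tst3 (a b c x y w : C3) (R : E3) (l : L2) (E : K2) : Bool :=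
  andB (tst1 a.a b.a c.a x.a y.a w.a R (Nat.mul (nat_lit 16) l.s) E.s)
  (andB (tst1 a.b b.b c.b x.b y.b w.b R (Nat.mul (nat_lit 16) l.t) E.t)
  (tstc a.c b.c c.c x.c y.c w.c R (Nat.mul (nat_lit 8) l.s) (Nat.mul (nat_lit 8) l.t) E.s E.t))

/-- all corners -/
def tstL (R : E3) (l : L2) (a : List C3) : List C3 → List C3 → List C3 → List C3 → List C3 →
    List K2 → Bool :=
  List.rec (motive := fun _ => List C3 → List C3 → List C3 → List C3 → List C3 → List K2 → Bool)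
    (fun _ _ _ _ _ _ => true)
    (fun a _ ih lb lc lx ly lw lE =>
      List.rec (motive := fun _ => Bool) false (fun b tb _ =>
      List.rec (motive := fun _ => Bool) false (fun c tc _ =>
      List.rec (motive := fun _ => Bool) false (fun x tx _ =>
      List.rec (motive := fun _ => Bool) false (fun y ty _ =>
      List.rec (motive := fun _ => Bool) false (fun w tw _ =>
      List.rec (motive := fun _ => Bool) false (fun E tE _ =>
        andB (tst3 a b c x y w R l E) (ih tb tc tx ty tw tE)) lE) lw) ly) lx) lc) lb) a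

/-- radii of the diagonal -/
def rad (P : M6) : E3 :=
  ⟨Nat.add (Nat.add P.a.r P.x.r) P.y.r, Nat.add (Nat.add P.x.r P.b.r) P.w.r, Nat.add (Nat.add P.y.r P.w.r) P.c.r⟩

/-- all numbers are small -/
def bok (P : M6) (R : E3) (l : L2) : Bool :=
  Nat.ble (Nat.add (Nat.add (Nat.add (Nat.add (Nat.add (Nat.add (Nat.add (Nat.add (Nat.add (Nat.add P.a.B P.b.B) P.c.B) P.x.B) P.y.B) P.w.B) R.x) R.y) R.z) l.s) l.t)
    (nat_lit 1606938044258990275541962092341162602522202993782792835301376)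

def tstP1 (P : M6) (R : E3) (l : L2) (E : List K2) : Bool :=
  andB (bok P R l) (andB (Nat.ble (nat_lit 1) l.s) (andB (Nat.ble (nat_lit 1) l.t)
    (tstL R l P.a.v P.b.v P.c.v P.x.v P.y.v P.w.v E)))
def tstP (P : M6) (l : L2) (E : List K2) : Bool := tstP1 P (rad P) l E

/-- the family test for one model of `A` -/
def tstA (n : Nat) (C : FC) (X : M6) (E : List K2) (A : Mo) (l : L2) : Bool :=
  tstP (cong n (famM n C A) X) l E

/-- the recursion `A' = 1 - c / (1 + A)` -/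
def nxA (n : Nat) (c A : Mo) : Mo := subM (one n) (mulM n c (invM n (addM (one n) A)))

/-- `q = 1, 2, ..`, terminal test `T` -/
def tstQ (n : Nat) (C : FC) (X : M6) (E : List K2) (c : Mo) (T : Mo → Bool) (L : List L2) :
    Mo → Bool :=
  List.rec (motive := fun _ => Mo → Bool) T
    (fun l _ ih A => andB (tstA n C X E A l)
      (andB (invOK n (addM (one n) A)) (ih (nxA n c A)))) L

end Pool.Agent.Helper39.KNF
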