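import Pool.Agent.Helper39.CX.KNF

/-!
Row KNF, version 2: the family test in a constant basis `S`, with the matrices
`H1 = U2ᴴ X U2`, `H2 = U2ᴴ X U1`, `H3 = U2ᴴ X U0`, `H4 = U1ᴴ X U1`, `H5 = U1ᴴ X U0`,
`H6 = U0ᴴ X U0`, `E' = Sᴴ E S`, for the family `T = T2 + A T1 + B T0`, `Ui = Ti S`; the radii are
weighted by the numbers `d0 d1 d2` of the test.
-/

set_option autoImplicit false
noncomputable section
namespace Pool.Agent.Helper39.KNF

open Pool.Agent.Helper86.C75 (Z)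
open Pool.Agent.Helper86.C75.Z (opp add sub mul)
open Pool.Agent.Helper86.CX


/-! ### the basis -/

/-- nine complex numbers, unit `2 ^ (-48)` -/
structure C9 where
  a : Cx
  b : Cx
  c : Cx
  d : Cx
  e : Cx
  f : Cx
  g : Cx
  h : Cx
  i : Cx

def xmul (x y : Cx) : Cx :=
  ⟨sub (mul x.re y.re) (mul x.im y.im), add (mul x.re y.im) (mul x.im y.re)⟩
/-- the determinant, exact -/
def det9 (S : C9) : Cx :=
  cadd (xmul S.a (csub (xmul S.e S.i) (xmul S.f S.h)))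
    (cadd (xmul S.b (csub (xmul S.f S.g) (xmul S.d S.i)))
      (xmul S.c (csub (xmul S.d S.h) (xmul S.e S.g))))
def nz (x : Cx) : Bool := Nat.ble (nat_lit 1) (Nat.add (ab x.re) (ab x.im))

def cM (n : Nat) (x : Cx) : Mo := mk n (repL n x) (nat_lit 0)
def mkS (n : Nat) (S : C9) : M9 :=
  ⟨cM n S.a, cM n S.b, cM n S.c, cM n S.d, cM n S.e, cM n S.f, cM n S.g, cM n S.h, cM n S.i⟩

/-- `F S` -/
def mul9 (n : Nat) (F S : M9) : M9 :=
  ⟨rdot3 n F.a F.b F.c S.a S.d S.g, rdot3 n F.a F.b F.c S.b S.e S.h, rdot3 n F.a F.b F.c S.c S.f S.i,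
    rdot3 n F.d F.e F.f S.a S.d S.g, rdot3 n F.d F.e F.f S.b S.e S.h, rdot3 n F.d F.e F.f S.c S.f S.i,
    rdot3 n F.g F.h F.i S.a S.d S.g, rdot3 n F.g F.h F.i S.b S.e S.h, rdot3 n F.g F.h F.i S.c S.f S.i⟩

/-- `Fᴴ Y`, upper part, recomputed bounds -/
def FY6 (n : Nat) (F Y : M9) : M6 :=
  ⟨rdot3 n (conjM F.a) (conjM F.d) (conjM F.g) Y.a Y.d Y.g,
    rdot3 n (conjM F.b) (conjM F.e) (conjM F.h) Y.b Y.e Y.h,
    rdot3 n (conjM F.c) (conjM F.f) (conjM F.i) Y.c Y.f Y.i,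
    rdot3 n (conjM F.a) (conjM F.d) (conjM F.g) Y.b Y.e Y.h,
    rdot3 n (conjM F.a) (conjM F.d) (conjM F.g) Y.c Y.f Y.i,
    rdot3 n (conjM F.b) (conjM F.e) (conjM F.h) Y.c Y.f Y.i⟩
/-- `Fᴴ Y` -/
def FY9 (n : Nat) (F Y : M9) : M9 :=
  ⟨rdot3 n (conjM F.a) (conjM F.d) (conjM F.g) Y.a Y.d Y.g,
    rdot3 n (conjM F.a) (conjM F.d) (conjM F.g) Y.b Y.e Y.h,
    rdot3 n (conjM F.a) (conjM F.d) (conjM F.g) Y.c Y.f Y.i,
    rdot3 n (conjM F.b) (conjM F.e) (conjM F.h) Y.a Y.d Y.g,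
    rdot3 n (conjM F.b) (conjM F.e) (conjM F.h) Y.b Y.e Y.h,
    rdot3 n (conjM F.b) (conjM F.e) (conjM F.h) Y.c Y.f Y.i,
    rdot3 n (conjM F.c) (conjM F.f) (conjM F.i) Y.a Y.d Y.g,
    rdot3 n (conjM F.c) (conjM F.f) (conjM F.i) Y.b Y.e Y.h,
    rdot3 n (conjM F.c) (conjM F.f) (conjM F.i) Y.c Y.f Y.i⟩

/-- the matrices of a family -/
structure HC where
  h1 : M6
  h2 : M9
  h3 : M9
  h4 : M6
  h5 : M9
  h6 : M6
  e : M6

def mkHC2 (n : Nat) (U2 U1 U0 Y2 Y1 Y0 : M9) (E' : M6) : HC :=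
  ⟨FY6 n U2 Y2, FY9 n U2 Y1, FY9 n U2 Y0, FY6 n U1 Y1, FY9 n U1 Y0, FY6 n U0 Y0, E'⟩
def mkHC1 (n : Nat) (X : M6) (U2 U1 U0 : M9) (E' : M6) : HC :=
  mkHC2 n U2 U1 U0 (XF n X U2) (XF n X U1) (XF n X U0) E'
/-- the family `T2 + A T1 + B T0` in the basis `S` -/
def mkHC (n : Nat) (X E : M6) (T2 T1 T0 S : M9) : HC :=
  mkHC1 n X (mul9 n T2 S) (mul9 n T1 S) (mul9 n T0 S) (FY6 n S (XF n E S))
/-- the case `T0 = 1` -/
def mkHI (n : Nat) (X E : M6) (T2 T1 S : M9) : HC :=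
  mkHC1 n X (mul9 n T2 S) (mul9 n T1 S) S (FY6 n S (XF n E S))

def negM (n : Nat) (f : Mo) : Mo := subM (cstM n (nat_lit 0) (nat_lit 0)) f
/-- the odd part of an `A` cycle -/
def t1M (n : Nat) (C : FC) : M9 :=
  ⟨C.n1.a, C.n1.b, negM n C.n1.c, C.n1.d, C.n1.e, C.n1.f, C.n1.g, C.n1.h, negM n C.n1.i⟩
/-- the even part minus the constant `D` (cancellation near the critical point) -/
def t2M (C : FC) (D : Mo) : M9 :=
  ⟨subM C.n2.a D, C.n2.b, C.n2.c, C.n2.d, subM C.n2.e D, C.n2.f, C.n2.g, C.n2.h, subM C.n2.i D⟩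
/-- the matrices of an `A` cycle -/
def mkHA (n : Nat) (C : FC) (D : Mo) (X E : M6) (S : M9) : HC := mkHI n X E (t2M C D) (t1M n C) S

/-! ### one test -/

/-- multipliers at the two ends, weights of the radii -/
structure QT where
  s : Nat
  t : Nat
  d0 : Nat
  d1 : Nat
  d2 : Nat

/-- `lam` as a model; unit `2 ^ (-24)` -/
def l3 (s t : Nat) : C3 :=
  ⟨⟨Z.p (Nat.mul (nat_lit 16777216) s), z0⟩, ⟨Z.p (Nat.mul (nat_lit 8388608) (Nat.add s t)), z0⟩, ⟨Z.p (Nat.mul (nat_lit 16777216) t), z0⟩⟩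
def repC (n : Nat) (x : C3) : List C3 :=
  Nat.rec (motive := fun _ => List C3) [] (fun _ ih => x :: ih) n
def lM (n s t : Nat) : Mo := mk n (repC n (l3 s t)) (nat_lit 0)

/-- `A H2 + B H3 + conj A B H5` -/
def tE (n : Nat) (A B C h2 h3 h5 : Mo) : Mo :=
  addM (mulM n A h2) (addM (mulM n B h3) (mulM n C h5))
/-- `H1 + a H4 + b H6 - l E + (t + t')` -/
def nE (n : Nat) (a b l h1 h4 h6 e t : Mo) : Mo :=
  addM (subM (addM h1 (addM (mulM n a h4) (mulM n b h6))) (mulM n l e)) t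
/-- `A, B, C = conj A B, a = |A|², b = |B|²`, `l = lam` -/
def nM (n : Nat) (H : HC) (A B C a b l : Mo) : M6 :=
  ⟨nE n a b l H.h1.a H.h4.a H.h6.a H.e.a (addM (tE n A B C H.h2.a H.h3.a H.h5.a)
      (conjM (tE n A B C H.h2.a H.h3.a H.h5.a))),
    nE n a b l H.h1.b H.h4.b H.h6.b H.e.b (addM (tE n A B C H.h2.e H.h3.e H.h5.e)
      (conjM (tE n A B C H.h2.e H.h3.e H.h5.e))),
    nE n a b l H.h1.c H.h4.c H.h6.c H.e.c (addM (tE n A B C H.h2.i H.h3.i H.h5.i)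
      (conjM (tE n A B C H.h2.i H.h3.i H.h5.i))),
    nE n a b l H.h1.x H.h4.x H.h6.x H.e.x (addM (tE n A B C H.h2.b H.h3.b H.h5.b)
      (conjM (tE n A B C H.h2.d H.h3.d H.h5.d))),
    nE n a b l H.h1.y H.h4.y H.h6.y H.e.y (addM (tE n A B C H.h2.c H.h3.c H.h5.c)
      (conjM (tE n A B C H.h2.g H.h3.g H.h5.g))),
    nE n a b l H.h1.w H.h4.w H.h6.w H.e.w (addM (tE n A B C H.h2.f H.h3.f H.h5.f)
      (conjM (tE n A B C H.h2.h H.h3.h H.h5.h)))⟩

/-- `r d / d'` rounded up -/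
def wr (r d d' : Nat) : Nat := Nat.add (Nat.div (Nat.mul r d) d') (nat_lit 1)
/-- weighted radii -/
def radw (P : M6) (q : QT) : E3 :=
  ⟨Nat.add (Nat.add P.a.r (wr P.x.r q.d0 q.d1)) (wr P.y.r q.d0 q.d2), Nat.add (Nat.add P.b.r (wr P.x.r q.d1 q.d0)) (wr P.w.r q.d1 q.d2),
    Nat.add (Nat.add P.c.r (wr P.y.r q.d2 q.d0)) (wr P.w.r q.d2 q.d1)⟩

def tn1 (a b c x y w : Cx) (R : E3) : Bool :=
  psd1 (Nat.add (tN a.re) (Nat.mul N2 R.x)) (Nat.add (tN b.re) (Nat.mul N2 R.y)) (Nat.add (tN c.re) (Nat.mul N2 R.z))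
    (tN x.re) (tN x.im) (tN y.re) (tN y.im) (tN w.re) (tN w.im)
def tn3 (a b c x y w : C3) (R : E3) : Bool :=
  andB (tn1 a.a b.a c.a x.a y.a w.a R) (andB (tn1 a.b b.b c.b x.b y.b w.b R)
    (tn1 a.c b.c c.c x.c y.c w.c R))
/-- all corners -/
def tnL (R : E3) (a : List C3) : List C3 → List C3 → List C3 → List C3 → List C3 → Bool :=
  List.rec (motive := fun _ => List C3 → List C3 → List C3 → List C3 → List C3 → Bool)
    (fun _ _ _ _ _ => true)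
    (fun a _ ih lb lc lx ly lw =>
      List.rec (motive := fun _ => Bool) false (fun b tb _ =>
      List.rec (motive := fun _ => Bool) false (fun c tc _ =>
      List.rec (motive := fun _ => Bool) false (fun x tx _ =>
      List.rec (motive := fun _ => Bool) false (fun y ty _ =>
      List.rec (motive := fun _ => Bool) false (fun w tw _ =>
        andB (tn3 a b c x y w R) (ih tb tc tx ty tw)) lw) ly) lx) lc) lb) a

def nok (P : M6) (R : E3) (q : QT) : Bool :=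
  andB (Nat.ble (Nat.add (Nat.add (Nat.add (Nat.add (Nat.add (Nat.add (Nat.add (Nat.add P.a.B P.b.B) P.c.B) P.x.B) P.y.B) P.w.B) R.x) R.y) R.z)
    (nat_lit 1606938044258990275541962092341162602522202993782792835301376))
  (andB (Nat.ble (nat_lit 1) q.s) (andB (Nat.ble (nat_lit 1) q.t)
  (andB (Nat.ble (nat_lit 1) q.d0) (andB (Nat.ble (nat_lit 1) q.d1) (Nat.ble (nat_lit 1) q.d2)))))

/-- positivity of a matrix of models -/
def tnP1 (P : M6) (R : E3) (q : QT) : Bool :=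
  andB (nok P R q) (tnL R P.a.v P.b.v P.c.v P.x.v P.y.v P.w.v)
def tnP (P : M6) (q : QT) : Bool := tnP1 P (radw P q) q

/-- the test at `A`, `B` -/
def tnAB (n : Nat) (H : HC) (A B : Mo) (q : QT) : Bool :=
  tnP (nM n H A B (mulM n (conjM A) B) (mulM n (conjM A) A) (mulM n (conjM B) B) (lM n q.s q.t)) q

/-- the test of the family of an `A` cycle: `B = h (A² - 1) + D` -/
def tnA (n : Nat) (h D : Mo) (H : HC) (A : Mo) (q : QT) : Bool :=
  tnAB n H A (re n (addM (mulM n h (subM (mulM n A A) (one n))) D)) q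

/-- `q = 1, 2, ..`, terminal test `T` -/
def tnQ (n : Nat) (h D : Mo) (H : HC) (c : Mo) (T : Mo → Bool) (L : List QT) : Mo → Bool :=
  List.rec (motive := fun _ => Mo → Bool) T
    (fun q _ ih A => andB (tnA n h D H A q)
      (andB (invOK n (addM (one n) A)) (ih (nxA n c A)))) L

/-! ### polygons (one corner in `kappa`) -/

def hd3 (l : List C3) : C3 := List.rec (motive := fun _ => C3) zero3 (fun x _ _ => x) l
/-- the model on `K` corners -/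
def lif (K : Nat) (M : Mo) : Mo := ⟨repC K (hd3 M.v), M.r, M.B, (nat_lit 0), M.d, M.f⟩
def lif6 (K : Nat) (M : M6) : M6 :=
  ⟨lif K M.a, lif K M.b, lif K M.c, lif K M.x, lif K M.y, lif K M.w⟩
def lif9 (K : Nat) (M : M9) : M9 :=
  ⟨lif K M.a, lif K M.b, lif K M.c, lif K M.d, lif K M.e, lif K M.f, lif K M.g, lif K M.h, lif K M.i⟩
def lifH (K : Nat) (H : HC) : HC :=
  ⟨lif6 K H.h1, lif9 K H.h2, lif9 K H.h3, lif6 K H.h4, lif9 K H.h5, lif6 K H.h6, lif6 K H.e⟩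

/-- a vertex, unit `2 ^ (-24)` -/
def vx (p : Nat × Nat) : C3 :=
  ⟨⟨Z.p (Nat.mul (nat_lit 16777216) p.1), Z.p (Nat.mul (nat_lit 16777216) p.2)⟩,
    ⟨Z.p (Nat.mul (nat_lit 16777216) p.1), Z.p (Nat.mul (nat_lit 16777216) p.2)⟩,
    ⟨Z.p (Nat.mul (nat_lit 16777216) p.1), Z.p (Nat.mul (nat_lit 16777216) p.2)⟩⟩
def vxL (V : List (Nat × Nat)) : List C3 :=
  List.rec (motive := fun _ => List C3) [] (fun x _ ih => vx x :: ih) V
def lenV (V : List (Nat × Nat)) : Nat :=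
  List.rec (motive := fun _ => Nat) (nat_lit 0) (fun _ _ ih => Nat.add ih (nat_lit 1)) V
def tnV1 (K : Nat) (h D : Mo) (H : HC) (V : List (Nat × Nat)) (q : QT) : Bool :=
  andB (Nat.ble (nat_lit 1) K) (tnA K (lif K h) (lif K D) (lifH K H) (mk K (vxL V) (nat_lit 0)) q)
/-- the test for all `A` in a polygon -/
def tnV (h D : Mo) (H : HC) (V : List (Nat × Nat)) (q : QT) : Bool := tnV1 (lenV V) h D H V q
def tnVs (h D : Mo) (H : HC) (Vs : List (List (Nat × Nat))) : List QT → Bool :=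
  List.rec (motive := fun _ => List QT → Bool) (fun _ => true)
    (fun V _ ih l => List.rec (motive := fun _ => Bool) false
      (fun q t _ => andB (tnV h D H V q) (ih t)) l) Vs

end Pool.Agent.Helper39.KNF
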