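import Pool.Agent.Helper39.CX.NRA

/-!
Row KNF: closed form of the family of the powers of the A cycle, without denominators:
`2 D T(A) = N₂ + A N₁ + (E E' / 2) (A² - 1)` with `D = (1 + S) (1 + S')`, `g = 1 / om`,
`E = g + 2`.
-/

set_option autoImplicit false
noncomputable section
namespace Pool.Agent.Helper6.MONO

open Pool.Agent.Helper42.CH (Z1 Z2 powA powB)

/-- entries of the family; `g = 1 / o`, `g' = 1 / o'`, `b = (g + 2) (g' + 2) (A ^ 2 - 1) / 2` -/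
def FNm (S S' : ℂ) (g g' o A : ℂ) : Matrix (Fin 3) (Fin 3) ℂ :=
  !![g * (g' + 2) + 2 * ((1 + S) * (1 - S')) + A * (g * (g' + 2)) +
        (g + 2) * (g' + 2) * (A * A - 1) / 2,
      2 * (g * (g' - 2 * S)) + 2 * (A * (g * (g' + 2))),
      2 * (g * (g' - 2 * S)) - 2 * (S * (A * (g * (g' + 2))));
    g' - 4 * (S * S' * o) + A * (g' + 2 - 2 * (S' * (1 + 2 * o))),
      2 * (g + g') + 2 * ((1 - S) * (1 - S')) + 2 * (A * (g' - g)) +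
        (g + 2) * (g' + 2) * (A * A - 1) / 2,
      4 * (S * S') - g * g' + A * (g' * (g + 2) - 2 * (S * (g' + 2)));
    2 - 4 * (S' * o) + 2 * (A * (S' * (1 + 2 * o))),
      4 * S' - 2 * g + 2 * (A * (g + 2)),
      2 * ((1 - S) * (1 + S')) + g' * (g + 2) - A * (g' * (g + 2)) +
        (g + 2) * (g' + 2) * (A * A - 1) / 2]

/-- the normalised cycle -/
def WNm (S S' : ℂ) (g g' o : ℂ) : Matrix (Fin 3) (Fin 3) ℂ :=
  !![g * g' + 2 * g + (1 - S') * (1 + S), 2 * g * g' + 2 * (1 - S) * g,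
      (1 - S) * g * g' - 4 * S * g;
    g' + (1 - S') - 2 * S' * (1 + S) * o, 2 * g' + (1 - S') * (1 - S),
      (1 - S) * g' - 2 * S * (1 - S');
    1 + S', 2 * (1 + S'), (1 - S) * (1 + S')]

/-- its inverse -/
def WNi (S S' : ℂ) (g g' o : ℂ) : Matrix (Fin 3) (Fin 3) ℂ :=
  !![(1 + S) * (1 - S'), -(2 * (1 + S) * g), (1 + S) * g * g';
    2 * S' * (1 - S) * o - (1 - S'), (1 - S) * (1 - S') + 2 * g,
      2 * S * (1 + S') - (1 - S) * g' - g * g';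
    1 - S' - 4 * S' * o, -(2 * (1 - S')) - 2 * g, (1 - S) * (1 + S') + 2 * g' + g * g']

theorem nfm_W {k k' : ℝ} {o o' : ℂ} (ho : o ≠ 0) (ho' : o' ≠ 0)
    (hS : (1 + (SbP k : ℂ)) ≠ 0) (hS' : (1 + (SbP k' : ℂ)) ≠ 0) :
    ((1 + (SbP k : ℂ)) * (1 + (SbP k' : ℂ))) • WA k k' o o' =
      WNm (SbP k) (SbP k') o⁻¹ o'⁻¹ o := by
  unfold WA nuA Um WNm
  generalize (SbP k : ℂ) = S at *
  generalize (SbP k' : ℂ) = S' at *
  ext i j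
  fin_cases i <;> fin_cases j <;> (simp; field_simp; try ring)

theorem nfm_kap {k k' : ℝ} {o o' : ℂ} (ho : o ≠ 0) (ho' : o' ≠ 0)
    (hS : (1 + (SbP k : ℂ)) ≠ 0) (hS' : (1 + (SbP k' : ℂ)) ≠ 0) :
    kapA k k' o o' + 1 =
      (o⁻¹ + 2) * (o'⁻¹ + 2) / (2 * ((1 + (SbP k : ℂ)) * (1 + (SbP k' : ℂ)))) := by
  unfold kapA nuA
  generalize (SbP k : ℂ) = S at *
  generalize (SbP k' : ℂ) = S' at *
  field_simp
  ring

theorem nfm_tau {k k' : ℝ} {o o' : ℂ} (ho : o ≠ 0) (ho' : o' ≠ 0)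
    (hS : (1 + (SbP k : ℂ)) ≠ 0) (hS' : (1 + (SbP k' : ℂ)) ≠ 0)
    (hE : o⁻¹ + 2 ≠ 0) (hE' : o'⁻¹ + 2 ≠ 0) :
    tauA k k' o o' =
      1 - 4 * ((1 + (SbP k : ℂ)) * (1 + (SbP k' : ℂ))) / ((o⁻¹ + 2) * (o'⁻¹ + 2)) := by
  have h := nfm_kap ho ho' hS hS'
  have hne : kapA k k' o o' + 1 ≠ 0 := by
    rw [h]
    exact div_ne_zero (mul_ne_zero hE hE') (mul_ne_zero two_ne_zero (mul_ne_zero hS hS'))
  have e : tauA k k' o o' = 1 - 2 / (kapA k k' o o' + 1) := by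
    unfold tauA
    field_simp
    ring
  rw [e, h]
  field_simp
  ring

theorem nfm_inv {S S' o o' : ℂ} (ho : o ≠ 0) (ho' : o' ≠ 0) :
    WNm S S' o⁻¹ o'⁻¹ o * WNi S S' o⁻¹ o'⁻¹ o =
      ((1 + S) * (1 + S') * ((1 + S) * (1 + S'))) • (1 : Matrix (Fin 3) (Fin 3) ℂ) := by
  unfold WNm WNi
  ext i j
  fin_cases i <;> fin_cases j <;>
    (simp [Matrix.mul_apply, Fin.sum_univ_three]; field_simp; try ring)

theorem nfm_Wi {k k' : ℝ} {o o' : ℂ} (ho : o ≠ 0) (ho' : o' ≠ 0)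
    (hS : (1 + (SbP k : ℂ)) ≠ 0) (hS' : (1 + (SbP k' : ℂ)) ≠ 0) :
    ((1 + (SbP k : ℂ)) * (1 + (SbP k' : ℂ))) • WAi k k' o o' =
      WNi (SbP k) (SbP k') o⁻¹ o'⁻¹ o := by
  have hn : nuA k k' (o * o') ≠ 0 := by
    unfold nuA
    exact mul_ne_zero (mul_ne_zero (mul_ne_zero ho ho') hS) hS'
  have h1 := WA_inv hn
  have h2 := mul_eq_one_comm.1 h1
  have hW := nfm_W ho ho' hS hS'
  have h3 := nfm_inv (S := (SbP k : ℂ)) (S' := (SbP k' : ℂ)) ho ho'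
  rw [← hW] at h3
  have hD : (1 + (SbP k : ℂ)) * (1 + (SbP k' : ℂ)) ≠ 0 := mul_ne_zero hS hS'
  generalize (1 + (SbP k : ℂ)) * (1 + (SbP k' : ℂ)) = D at *
  have h4 : WA k k' o o' * WNi (SbP k) (SbP k') o⁻¹ o'⁻¹ o =
      D • (1 : Matrix (Fin 3) (Fin 3) ℂ) := by
    have h5 := congrArg (fun M => D⁻¹ • M) h3
    simp only [smul_mul_assoc, smul_smul] at h5
    rw [inv_mul_cancel₀ hD, one_smul, ← mul_assoc, inv_mul_cancel₀ hD, one_mul] at h5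
    exact h5
  have h6 : WAi k k' o o' * (WA k k' o o' * WNi (SbP k) (SbP k') o⁻¹ o'⁻¹ o) =
      WAi k k' o o' * (D • (1 : Matrix (Fin 3) (Fin 3) ℂ)) := by rw [h4]
  rw [← mul_assoc, h2, one_mul, mul_smul_comm, mul_one] at h6
  exact h6.symm

/-- CLOSED FORM OF THE FAMILY -/
theorem nfm_TA {k k' : ℝ} {o o' : ℂ} (ho : o ≠ 0) (ho' : o' ≠ 0)
    (hS : (1 + (SbP k : ℂ)) ≠ 0) (hS' : (1 + (SbP k' : ℂ)) ≠ 0) (A : ℂ) :
    (2 * ((1 + (SbP k : ℂ)) * (1 + (SbP k' : ℂ)))) • TA k k' o o' A =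
      FNm (SbP k) (SbP k') o⁻¹ o'⁻¹ o A := by
  have hW := nfm_W ho ho' hS hS'
  have hWi := nfm_Wi ho ho' hS hS'
  have hk := nfm_kap ho ho' hS hS'
  unfold TA Z2 Z1 powB
  have e : (2 * ((1 + (SbP k : ℂ)) * (1 + (SbP k' : ℂ)))) •
      ((1 / 2 : ℂ) • (WA k k' o o' + WAi k k' o o') - 1 +
        A • ((1 / 2 : ℂ) • (WA k k' o o' - WAi k k' o o')) +
        (((kapA k k' o o' + 1) * A ^ 2 - (kapA k k' o o' - 1)) / 2) •
          (1 : Matrix (Fin 3) (Fin 3) ℂ)) =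
      (1 + A) • (((1 + (SbP k : ℂ)) * (1 + (SbP k' : ℂ))) • WA k k' o o') +
      (1 - A) • (((1 + (SbP k : ℂ)) * (1 + (SbP k' : ℂ))) • WAi k k' o o') +
      (((1 + (SbP k : ℂ)) * (1 + (SbP k' : ℂ))) * (kapA k k' o o' + 1) * (A ^ 2 - 1)) •
          (1 : Matrix (Fin 3) (Fin 3) ℂ) := by
    module
  rw [e, hW, hWi, hk]
  have hD : (1 + (SbP k : ℂ)) * (1 + (SbP k' : ℂ)) ≠ 0 := mul_ne_zero hS hS'
  have e2 : ((1 + (SbP k : ℂ)) * (1 + (SbP k' : ℂ))) *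
      ((o⁻¹ + 2) * (o'⁻¹ + 2) / (2 * ((1 + (SbP k : ℂ)) * (1 + (SbP k' : ℂ))))) =
      (o⁻¹ + 2) * (o'⁻¹ + 2) / 2 := by
    field_simp
  rw [e2]
  clear hW hWi hk e e2 hD
  unfold FNm WNm WNi
  generalize (SbP k : ℂ) = S at *
  generalize (SbP k' : ℂ) = S' at *
  have h1 : o⁻¹ * o = 1 := inv_mul_cancel₀ ho
  have h2 : o'⁻¹ * o' = 1 := inv_mul_cancel₀ ho'
  generalize o⁻¹ = g at *
  generalize o'⁻¹ = g' at *
  ext i j
  fin_cases i <;> fin_cases j <;>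
    (simp; try ring)

end Pool.Agent.Helper6.MONO
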