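import Pool.Agent.Helper39.CX.KNS3
import Pool.Agent.Helper39.CX.NFM

/-!
Row KNF, soundness, part 4: the family and the recursion.
-/

set_option autoImplicit false
noncomputable section
namespace Pool.Agent.Helper39.KNF

open Pool.Agent.Helper86.C75 (Z)
open Pool.Agent.Helper86.CX
open Pool.Agent.Helper90.C75
open Pool.Agent.Helper90.KMO
open Pool.Agent.Helper17
open Pool.Agent.Helper17.PAK
open Pool.Agent.Helper6.MONO (FNm)
open Pool.Agent.Helper42.CH (powA)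
open Complex ComplexConjugate Finset

variable {n : ℕ} {wc : Fin n → ℝ} {t : ℝ}

theorem MOK.val_eq {f g : ℂ} {M : Mo} (h : MOK n wc t f M) (e : f = g) : MOK n wc t g M := e ▸ h

theorem MOK.dbl {f : ℂ} {M : Mo} (h : MOK n wc t f M) : MOK n wc t (2 * f) (dbl M) :=
  MOK.val_eq (h.add h) (by ring)

theorem MOK.qd {f : ℂ} {M : Mo} (h : MOK n wc t f M) : MOK n wc t (4 * f) (qd M) :=
  MOK.val_eq (MOK.dbl (MOK.dbl h)) (by ring)

theorem MOK.one (hn : 0 < n) (hw : Wts wc) (h0 : 0 ≤ t) (h1 : t ≤ 1) :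
    MOK n wc t 1 (one n) := MOK.cst' hn hw h0 h1 (by unfold UU; norm_num)

theorem MOK.two (hn : 0 < n) (hw : Wts wc) (h0 : 0 ≤ t) (h1 : t ≤ 1) :
    MOK n wc t 2 (two n) := MOK.cst' hn hw h0 h1 (by unfold UU; norm_num)

theorem MOK.hlf (hn : 0 < n) (hw : Wts wc) (h0 : 0 ≤ t) (h1 : t ≤ 1) :
    MOK n wc t (1 / 2) (hlf n) := MOK.cst' hn hw h0 h1 (by unfold UU; norm_num)

/-- even part -/
def N2m (S S' g g' o : ℂ) : Matrix (Fin 3) (Fin 3) ℂ :=
  !![g * (g' + 2) + 2 * ((1 + S) * (1 - S')), 2 * (g * (g' - 2 * S)), 2 * (g * (g' - 2 * S));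
    g' - 4 * (S * (S' * o)), 2 * (g + g') + 2 * ((1 - S) * (1 - S')), 4 * (S * S') - g * g';
    2 - 4 * (S' * o), 4 * S' - 2 * g, 2 * ((1 - S) * (1 + S')) + g' * (g + 2)]

/-- odd part, opposite sign of `02`, `22` -/
def N1m (S S' g g' o : ℂ) : Matrix (Fin 3) (Fin 3) ℂ :=
  !![g * (g' + 2), 2 * (g * (g' + 2)), 2 * (S * (g * (g' + 2)));
    g' + 2 - 2 * (S' * (1 + 2 * o)), 2 * (g' - g), g' * (g + 2) - 2 * (S * (g' + 2));
    2 * (S' * (1 + 2 * o)), 2 * (g + 2), g' * (g + 2)]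

/-- models of the constants of a family -/
structure FCK (n : ℕ) (wc : Fin n → ℝ) (t : ℝ) (S S' g g' o : ℂ) (C : FC) : Prop where
  n2 : FOK n wc t (N2m S S' g g' o) C.n2
  n1 : FOK n wc t (N1m S S' g g' o) C.n1
  h : MOK n wc t (1 / 2 * ((g + 2) * (g' + 2))) C.h

theorem FCK.mk' (hn : 0 < n) (hw : Wts wc) (h0 : 0 ≤ t) (h1 : t ≤ 1) {S S' g g' o : ℂ}
    {MS MS' Mg Mg' Mo' : Mo} (hS : MOK n wc t S MS) (hS' : MOK n wc t S' MS')
    (hg : MOK n wc t g Mg) (hg' : MOK n wc t g' Mg') (ho : MOK n wc t o Mo') :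
    FCK n wc t S S' g g' o (mkFC n MS MS' Mg Mg' Mo') := by
  have p1 := MOK.one (n := n) hn hw h0 h1
  have p2 := MOK.two (n := n) hn hw h0 h1
  have pE := hg.add p2
  have pE' := hg'.add p2
  have m : ∀ {f k : ℂ} {F G : Mo}, MOK n wc t f F → MOK n wc t k G →
      MOK n wc t (f * k) (mulM n F G) := fun hf hk => hf.mul hn hw h0 h1 hk
  have e0 := m hg pE'
  have e1 := m hg' pE
  have e2 := m hg hg'
  have so := m hS' ho
  have o2 := p1.add (MOK.dbl ho)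
  have hh := m (MOK.hlf (n := n) hn hw h0 h1) (m pE pE')
  refine ⟨⟨?_, ?_, ?_, ?_, ?_, ?_, ?_, ?_, ?_⟩, ⟨?_, ?_, ?_, ?_, ?_, ?_, ?_, ?_, ?_⟩, ?_⟩
  · exact MOK.val_eq (e0.add (MOK.dbl (m (p1.add hS) (p1.sub hS')))) rfl
  · exact MOK.dbl (m hg (hg'.sub (MOK.dbl hS)))
  · exact MOK.dbl (m hg (hg'.sub (MOK.dbl hS)))
  · exact hg'.sub (MOK.qd (m hS so))
  · exact (MOK.dbl (hg.add hg')).add (MOK.dbl (m (p1.sub hS) (p1.sub hS')))
  · exact (MOK.qd (m hS hS')).sub e2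
  · exact p2.sub (MOK.qd so)
  · exact (MOK.qd hS').sub (MOK.dbl hg)
  · exact (MOK.dbl (m (p1.sub hS) (p1.add hS'))).add e1
  · exact e0
  · exact MOK.dbl e0
  · exact MOK.dbl (m hS e0)
  · exact pE'.sub (MOK.dbl (m hS' o2))
  · exact MOK.dbl (hg'.sub hg)
  · exact e1.sub (MOK.dbl (m hS pE'))
  · exact MOK.dbl (m hS' o2)
  · exact MOK.dbl pE
  · exact e1
  · exact hh

theorem FOK.famM (hn : 0 < n) (hw : Wts wc) (h0 : 0 ≤ t) (h1 : t ≤ 1) {S S' g g' o A : ℂ}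
    {C : FC} {MA : Mo} (hC : FCK n wc t S S' g g' o C) (hA : MOK n wc t A MA) :
    FOK n wc t (FNm S S' g g' o A) (famM n C MA) := by
  have p1 := MOK.one (n := n) hn hw h0 h1
  have m : ∀ {f k : ℂ} {F G : Mo}, MOK n wc t f F → MOK n wc t k G →
      MOK n wc t (f * k) (mulM n F G) := fun hf hk => hf.mul hn hw h0 h1 hk
  have be := m hC.h ((m hA hA).sub p1)
  refine ⟨?_, ?_, ?_, ?_, ?_, ?_, ?_, ?_, ?_⟩
  · refine MOK.val_eq (MOK.re hn ((hC.n2.a.add (m hA hC.n1.a)).add be)) ?_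
    simp [N2m, N1m, FNm]; ring
  · refine MOK.val_eq (MOK.re hn (hC.n2.b.add (m hA hC.n1.b))) ?_
    simp [N2m, N1m, FNm]; ring
  · refine MOK.val_eq (MOK.re hn (hC.n2.c.sub (m hA hC.n1.c))) ?_
    simp [N2m, N1m, FNm]; ring
  · refine MOK.val_eq (MOK.re hn (hC.n2.d.add (m hA hC.n1.d))) ?_
    simp [N2m, N1m, FNm]; ring
  · refine MOK.val_eq (MOK.re hn ((hC.n2.e.add (m hA hC.n1.e)).add be)) ?_
    simp [N2m, N1m, FNm]; ring
  · refine MOK.val_eq (MOK.re hn (hC.n2.f.add (m hA hC.n1.f))) ?_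
    simp [N2m, N1m, FNm]
  · refine MOK.val_eq (MOK.re hn (hC.n2.g.add (m hA hC.n1.g))) ?_
    simp [N2m, N1m, FNm]; ring
  · refine MOK.val_eq (MOK.re hn (hC.n2.h.add (m hA hC.n1.h))) ?_
    simp [N2m, N1m, FNm]; ring
  · refine MOK.val_eq (MOK.re hn ((hC.n2.i.sub (m hA hC.n1.i)).add be)) ?_
    simp [N2m, N1m, FNm]; ring

theorem POK.mkX (hn : 0 < n) {X : List K2} (hX : X.length = n) :
    POK n wc t (enI n wc t X 0 : ℝ) (enI n wc t X 32 : ℝ) (enI n wc t X 64 : ℝ)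
      (KIh n wc t X).x (KIh n wc t X).y (KIh n wc t X).w (mkX n X) where
  a := MOK.kR hn hX 0
  b := MOK.kR hn hX 32
  c := MOK.kR hn hX 64
  x := MOK.kC hn hX 96 128
  y := MOK.kC hn hX 160 192
  w := MOK.kC hn hX 224 256

theorem mkH_KIh (X : List K2) : mkH (enI n wc t X 0) (enI n wc t X 32) (enI n wc t X 64)
    (KIh n wc t X).x (KIh n wc t X).y (KIh n wc t X).w = KIh n wc t X := by
  unfold mkH Hm.x Hm.y Hm.w
  simp [KIh]

/-- the block inequality of the family at one parameter `A` -/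
def FamIneq (n : ℕ) (wc : Fin n → ℝ) (t : ℝ) (S S' g g' o : ℂ) (X E : List K2) (A : ℂ) : Prop :=
  ∃ l : ℝ, 0 < l ∧ ∀ v : Fin 3 → ℂ, l * ev (KIh n wc t E) v ≤
    ev (KIh n wc t X) ((FNm S S' g g' o A).mulVec v)

theorem tstA_sound (hn : 0 < n) (hw : Wts wc) (h0 : 0 ≤ t) (h1 : t ≤ 1) {S S' g g' o A : ℂ}
    {C : FC} {MA : Mo} (hC : FCK n wc t S S' g g' o C) (hA : MOK n wc t A MA)
    {X E : List K2} (hX : X.length = n) {l : L2} (h : tstA n C (mkX n X) E MA l = true) :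
    FamIneq n wc t S S' g g' o X E A := by
  have hF := FOK.famM hn hw h0 h1 hC hA
  have hXX := POK.mkX (wc := wc) (t := t) hn hX
  have hP := FOK.FY hn hw h0 h1 hF (FOK.XF hn hw h0 h1 hXX hF)
  refine ⟨((1 - t) * (l.s : ℝ) + t * l.t) / 2 ^ 24, ?_, fun v => ?_⟩
  · exact div_pos (tstP_sound hw h0 h1 hP h 0).2 (by positivity)
  · have h2 := (tstP_sound hw h0 h1 hP h v).1
    rw [ev_cong, mkH_KIh] at h2
    rw [ev_KIh]
    have hU : UU = 2 ^ 48 := by unfold UU; norm_num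
    rw [hU] at h2
    generalize ev (KIh n wc t X) ((FNm S S' g g' o A).mulVec v) = a at *
    generalize EIv n wc t E v = b at *
    generalize (1 - t) * (l.s : ℝ) + t * l.t = c at *
    have e : c / 2 ^ 24 * (b / 2 ^ 20) = (16 * c * b) / 2 ^ 48 := by ring
    rw [e, div_le_iff₀ (by positivity)]
    linarith

theorem MOK.nxA (hn : 0 < n) (hw : Wts wc) (h0 : 0 ≤ t) (h1 : t ≤ 1) {c A : ℂ} {Mc MA : Mo}
    (hc : MOK n wc t c Mc) (hA : MOK n wc t A MA) (hok : invOK n (addM (KNF.one n) MA) = true) :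
    MOK n wc t (1 - c / (1 + A)) (nxA n Mc MA) ∧ 1 + A ≠ 0 := by
  have p1 := MOK.one (n := n) hn hw h0 h1
  obtain ⟨h2, h3⟩ := (p1.add hA).invM hn hw h0 h1 hok
  refine ⟨MOK.val_eq (p1.sub (hc.mul hn hw h0 h1 h2)) ?_, h3⟩
  rw [div_eq_mul_inv]

/-- SOUNDNESS OF `tstQ` -/
theorem tstQ_sound (hn : 0 < n) (hw : Wts wc) (h0 : 0 ≤ t) (h1 : t ≤ 1) {S S' g g' o c : ℂ}
    {C : FC} {Mc : Mo} (hC : FCK n wc t S S' g g' o C) (hc : MOK n wc t c Mc)
    {X E : List K2} (hX : X.length = n) {T : Mo → Bool} :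
    ∀ (L : List L2) (m : ℕ) (MA : Mo), MOK n wc t (powA (1 - c) m) MA →
      tstQ n C (mkX n X) E Mc T L MA = true →
      (∀ j < L.length, FamIneq n wc t S S' g g' o X E (powA (1 - c) (m + j))) ∧
      ∃ MB : Mo, MOK n wc t (powA (1 - c) (m + L.length)) MB ∧ T MB = true := by
  intro L
  induction L with
  | nil =>
    intro m MA hA h
    exact ⟨fun j hj => absurd hj (Nat.not_lt_zero _), MA, hA, h⟩
  | cons l L ih =>
    intro m MA hA h
    have h2 : andB (tstA n C (mkX n X) E MA l) (andB (invOK n (addM (one n) MA))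
      (tstQ n C (mkX n X) E Mc T L (nxA n Mc MA))) = true := h
    obtain ⟨h3, h4⟩ := andB_t h2
    obtain ⟨h5, h6⟩ := andB_t h4
    obtain ⟨h7, h8⟩ := MOK.nxA hn hw h0 h1 hc hA h5
    have e : 1 - c / (1 + powA (1 - c) m) = powA (1 - c) (m + 1) := by
      show _ = (powA (1 - c) m + (1 - c)) / (1 + powA (1 - c) m)
      field_simp
      ring
    rw [e] at h7
    obtain ⟨h9, MB, h10, h11⟩ := ih (m + 1) _ h7 h6
    refine ⟨fun j hj => ?_, MB, ?_, h11⟩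
    · rcases j with _ | j
      · exact tstA_sound hn hw h0 h1 hC hA hX h3
      · have h12 := h9 j (by simpa using hj)
        have e2 : m + (j + 1) = m + 1 + j := by ring
        rw [e2]
        exact h12
    · have e2 : m + (l :: L).length = m + 1 + L.length := by
        rw [List.length_cons]; ring
      rw [e2]
      exact h10

end Pool.Agent.Helper39.KNF
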