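import Pool.Agent.Helper39.CX.KNG
import Pool.Agent.Helper39.CX.KNS4

/-!
Row KNF, version 2, soundness, part 1: the matrices `H`.
-/

set_option autoImplicit false
noncomputable section
namespace Pool.Agent.Helper39.KNF

open Pool.Agent.Helper86.C75 (Z)
open Pool.Agent.Helper86.CX
open Pool.Agent.Helper90.C75
open Pool.Agent.Helper90.KMO
open Pool.Agent.Helper17
open Pool.Agent.Helper17.PAK
open Complex ComplexConjugate Finset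

variable {n : ℕ} {wc : Fin n → ℝ} {t : ℝ}

theorem MOK.cM (hn : 0 < n) (hw : Wts wc) (h0 : 0 ≤ t) (h1 : t ≤ 1) (x : Cx) :
    MOK n wc t (cz x / UU) (cM n x) := by
  refine ⟨vok_mk hn (len_rep _ _) _, ?_⟩
  show ‖(UU : ℂ) * (cz x / UU) - avg (wq wc t) (Fv n (repL n x))‖ ≤ _
  have e : Fv n (repL n x) = fun _ => cz x := by
    funext v
    exact Fv_rep _ _
  have e2 : (UU : ℂ) * (cz x / UU) = cz x := by
    rw [← mul_div_assoc, mul_div_cancel_left₀ _ UUc_ne]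
  rw [e, avg_const (hw.q h0 h1), e2, sub_self, norm_zero]
  exact Nat.cast_nonneg _

/-- the basis -/
def Sm (S : C9) : Matrix (Fin 3) (Fin 3) ℂ :=
  !![cz S.a / UU, cz S.b / UU, cz S.c / UU; cz S.d / UU, cz S.e / UU, cz S.f / UU;
    cz S.g / UU, cz S.h / UU, cz S.i / UU]

theorem FOK.mkS (hn : 0 < n) (hw : Wts wc) (h0 : 0 ≤ t) (h1 : t ≤ 1) (S : C9) :
    FOK n wc t (Sm S) (mkS n S) where
  a := MOK.cM hn hw h0 h1 _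
  b := MOK.cM hn hw h0 h1 _
  c := MOK.cM hn hw h0 h1 _
  d := MOK.cM hn hw h0 h1 _
  e := MOK.cM hn hw h0 h1 _
  f := MOK.cM hn hw h0 h1 _
  g := MOK.cM hn hw h0 h1 _
  h := MOK.cM hn hw h0 h1 _
  i := MOK.cM hn hw h0 h1 _

theorem mul_cd3 (F S : Matrix (Fin 3) (Fin 3) ℂ) (i j : Fin 3) :
    cd3 (F i 0) (F i 1) (F i 2) (S 0 j) (S 1 j) (S 2 j) = (F * S) i j := by
  rw [Matrix.mul_apply, Fin.sum_univ_three, cd3]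
  ring

theorem FOK.mul9 (hn : 0 < n) (hw : Wts wc) (h0 : 0 ≤ t) (h1 : t ≤ 1)
    {F S : Matrix (Fin 3) (Fin 3) ℂ} {M N : M9} (hF : FOK n wc t F M) (hS : FOK n wc t S N) :
    FOK n wc t (F * S) (KNF.mul9 n M N) where
  a := MOK.val_eq (MOK.rdot3 hn hw h0 h1 hF.a hF.b hF.c hS.a hS.d hS.g) (mul_cd3 F S 0 0)
  b := MOK.val_eq (MOK.rdot3 hn hw h0 h1 hF.a hF.b hF.c hS.b hS.e hS.h) (mul_cd3 F S 0 1)
  c := MOK.val_eq (MOK.rdot3 hn hw h0 h1 hF.a hF.b hF.c hS.c hS.f hS.i) (mul_cd3 F S 0 2)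
  d := MOK.val_eq (MOK.rdot3 hn hw h0 h1 hF.d hF.e hF.f hS.a hS.d hS.g) (mul_cd3 F S 1 0)
  e := MOK.val_eq (MOK.rdot3 hn hw h0 h1 hF.d hF.e hF.f hS.b hS.e hS.h) (mul_cd3 F S 1 1)
  f := MOK.val_eq (MOK.rdot3 hn hw h0 h1 hF.d hF.e hF.f hS.c hS.f hS.i) (mul_cd3 F S 1 2)
  g := MOK.val_eq (MOK.rdot3 hn hw h0 h1 hF.g hF.h hF.i hS.a hS.d hS.g) (mul_cd3 F S 2 0)
  h := MOK.val_eq (MOK.rdot3 hn hw h0 h1 hF.g hF.h hF.i hS.b hS.e hS.h) (mul_cd3 F S 2 1)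
  i := MOK.val_eq (MOK.rdot3 hn hw h0 h1 hF.g hF.h hF.i hS.c hS.f hS.i) (mul_cd3 F S 2 2)

/-- the Hermitian matrix `Fᴴ Y` -/
structure PFK (n : ℕ) (wc : Fin n → ℝ) (t : ℝ) (F Y : Matrix (Fin 3) (Fin 3) ℂ) (P : M6) :
    Prop where
  a : MOK n wc t (FYc F Y 0 0) P.a
  b : MOK n wc t (FYc F Y 1 1) P.b
  c : MOK n wc t (FYc F Y 2 2) P.c
  x : MOK n wc t (FYc F Y 0 1) P.x
  y : MOK n wc t (FYc F Y 0 2) P.y
  w : MOK n wc t (FYc F Y 1 2) P.w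

/-- the matrix `Fᴴ Y` -/
def FYm (F Y : Matrix (Fin 3) (Fin 3) ℂ) : Matrix (Fin 3) (Fin 3) ℂ := fun i j => FYc F Y i j

theorem PFK.FY6 (hn : 0 < n) (hw : Wts wc) (h0 : 0 ≤ t) (h1 : t ≤ 1)
    {F Y : Matrix (Fin 3) (Fin 3) ℂ} {M N : M9} (hF : FOK n wc t F M) (hY : FOK n wc t Y N) :
    PFK n wc t F Y (KNF.FY6 n M N) where
  a := MOK.rdot3 hn hw h0 h1 hF.a.conj hF.d.conj hF.g.conj hY.a hY.d hY.g
  b := MOK.rdot3 hn hw h0 h1 hF.b.conj hF.e.conj hF.h.conj hY.b hY.e hY.h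
  c := MOK.rdot3 hn hw h0 h1 hF.c.conj hF.f.conj hF.i.conj hY.c hY.f hY.i
  x := MOK.rdot3 hn hw h0 h1 hF.a.conj hF.d.conj hF.g.conj hY.b hY.e hY.h
  y := MOK.rdot3 hn hw h0 h1 hF.a.conj hF.d.conj hF.g.conj hY.c hY.f hY.i
  w := MOK.rdot3 hn hw h0 h1 hF.b.conj hF.e.conj hF.h.conj hY.c hY.f hY.i

theorem FOK.FY9 (hn : 0 < n) (hw : Wts wc) (h0 : 0 ≤ t) (h1 : t ≤ 1)
    {F Y : Matrix (Fin 3) (Fin 3) ℂ} {M N : M9} (hF : FOK n wc t F M) (hY : FOK n wc t Y N) :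
    FOK n wc t (FYm F Y) (KNF.FY9 n M N) where
  a := MOK.rdot3 hn hw h0 h1 hF.a.conj hF.d.conj hF.g.conj hY.a hY.d hY.g
  b := MOK.rdot3 hn hw h0 h1 hF.a.conj hF.d.conj hF.g.conj hY.b hY.e hY.h
  c := MOK.rdot3 hn hw h0 h1 hF.a.conj hF.d.conj hF.g.conj hY.c hY.f hY.i
  d := MOK.rdot3 hn hw h0 h1 hF.b.conj hF.e.conj hF.h.conj hY.a hY.d hY.g
  e := MOK.rdot3 hn hw h0 h1 hF.b.conj hF.e.conj hF.h.conj hY.b hY.e hY.h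
  f := MOK.rdot3 hn hw h0 h1 hF.b.conj hF.e.conj hF.h.conj hY.c hY.f hY.i
  g := MOK.rdot3 hn hw h0 h1 hF.c.conj hF.f.conj hF.i.conj hY.a hY.d hY.g
  h := MOK.rdot3 hn hw h0 h1 hF.c.conj hF.f.conj hF.i.conj hY.b hY.e hY.h
  i := MOK.rdot3 hn hw h0 h1 hF.c.conj hF.f.conj hF.i.conj hY.c hY.f hY.i

/-- `X F` for a form -/
def XK (K : Hm ℝ) (F : Matrix (Fin 3) (Fin 3) ℂ) : Matrix (Fin 3) (Fin 3) ℂ :=
  XFc (K.a : ℂ) (K.b : ℂ) (K.c : ℂ) K.x K.y K.w F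

/-- models of a form -/
def XOK (n : ℕ) (wc : Fin n → ℝ) (t : ℝ) (K : Hm ℝ) (P : M6) : Prop :=
  POK n wc t (K.a : ℂ) (K.b : ℂ) (K.c : ℂ) K.x K.y K.w P

theorem XOK.XF (hn : 0 < n) (hw : Wts wc) (h0 : 0 ≤ t) (h1 : t ≤ 1) {K : Hm ℝ} {X : M6}
    (hX : XOK n wc t K X) {F : Matrix (Fin 3) (Fin 3) ℂ} {M : M9} (hF : FOK n wc t F M) :
    FOK n wc t (XK K F) (KNF.XF n X M) := FOK.XF hn hw h0 h1 hX hF

theorem XOK.mkX (hn : 0 < n) {X : List K2} (hX : X.length = n) :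
    XOK n wc t (KIh n wc t X) (mkX n X) := POK.mkX hn hX

/-- the matrices of a family, `U_i = T_i S` -/
structure HCK (n : ℕ) (wc : Fin n → ℝ) (t : ℝ) (X E : Hm ℝ)
    (U2 U1 U0 S : Matrix (Fin 3) (Fin 3) ℂ) (H : HC) : Prop where
  h1 : PFK n wc t U2 (XK X U2) H.h1
  h2 : FOK n wc t (FYm U2 (XK X U1)) H.h2
  h3 : FOK n wc t (FYm U2 (XK X U0)) H.h3
  h4 : PFK n wc t U1 (XK X U1) H.h4
  h5 : FOK n wc t (FYm U1 (XK X U0)) H.h5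
  h6 : PFK n wc t U0 (XK X U0) H.h6
  e : PFK n wc t S (XK E S) H.e

theorem HCK.mk1 (hn : 0 < n) (hw : Wts wc) (h0 : 0 ≤ t) (h1 : t ≤ 1) {X E : Hm ℝ}
    {U2 U1 U0 S : Matrix (Fin 3) (Fin 3) ℂ} {MX E' : M6} {M2 M1 M0 : M9}
    (hX : XOK n wc t X MX) (h2 : FOK n wc t U2 M2) (h3 : FOK n wc t U1 M1)
    (h4 : FOK n wc t U0 M0) (h5 : PFK n wc t S (XK E S) E') :
    HCK n wc t X E U2 U1 U0 S (mkHC1 n MX M2 M1 M0 E') where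
  h1 := PFK.FY6 hn hw h0 h1 h2 (hX.XF hn hw h0 h1 h2)
  h2 := FOK.FY9 hn hw h0 h1 h2 (hX.XF hn hw h0 h1 h3)
  h3 := FOK.FY9 hn hw h0 h1 h2 (hX.XF hn hw h0 h1 h4)
  h4 := PFK.FY6 hn hw h0 h1 h3 (hX.XF hn hw h0 h1 h3)
  h5 := FOK.FY9 hn hw h0 h1 h3 (hX.XF hn hw h0 h1 h4)
  h6 := PFK.FY6 hn hw h0 h1 h4 (hX.XF hn hw h0 h1 h4)
  e := h5

theorem HCK.mk' (hn : 0 < n) (hw : Wts wc) (h0 : 0 ≤ t) (h1 : t ≤ 1) {X E : Hm ℝ}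
    {T2 T1 T0 S : Matrix (Fin 3) (Fin 3) ℂ} {MX ME : M6} {M2 M1 M0 MS : M9}
    (hX : XOK n wc t X MX) (hE : XOK n wc t E ME) (h2 : FOK n wc t T2 M2)
    (h3 : FOK n wc t T1 M1) (h4 : FOK n wc t T0 M0) (hS : FOK n wc t S MS) :
    HCK n wc t X E (T2 * S) (T1 * S) (T0 * S) S (mkHC n MX ME M2 M1 M0 MS) :=
  HCK.mk1 hn hw h0 h1 hX (FOK.mul9 hn hw h0 h1 h2 hS) (FOK.mul9 hn hw h0 h1 h3 hS)
    (FOK.mul9 hn hw h0 h1 h4 hS) (PFK.FY6 hn hw h0 h1 hS (hE.XF hn hw h0 h1 hS))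

theorem HCK.mkI (hn : 0 < n) (hw : Wts wc) (h0 : 0 ≤ t) (h1 : t ≤ 1) {X E : Hm ℝ}
    {T2 T1 S : Matrix (Fin 3) (Fin 3) ℂ} {MX ME : M6} {M2 M1 MS : M9}
    (hX : XOK n wc t X MX) (hE : XOK n wc t E ME) (h2 : FOK n wc t T2 M2)
    (h3 : FOK n wc t T1 M1) (hS : FOK n wc t S MS) :
    HCK n wc t X E (T2 * S) (T1 * S) S S (mkHI n MX ME M2 M1 MS) :=
  HCK.mk1 hn hw h0 h1 hX (FOK.mul9 hn hw h0 h1 h2 hS) (FOK.mul9 hn hw h0 h1 h3 hS)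
    hS (PFK.FY6 hn hw h0 h1 hS (hE.XF hn hw h0 h1 hS))

/-! ### the identity -/

theorem XK_0 (K : Hm ℝ) (F : Matrix (Fin 3) (Fin 3) ℂ) (j : Fin 3) :
    XK K F 0 j = cd3 (K.a : ℂ) K.x K.y (F 0 j) (F 1 j) (F 2 j) := by
  fin_cases j <;> rfl

theorem XK_1 (K : Hm ℝ) (F : Matrix (Fin 3) (Fin 3) ℂ) (j : Fin 3) :
    XK K F 1 j = cd3 (star K.x) (K.b : ℂ) K.w (F 0 j) (F 1 j) (F 2 j) := by
  fin_cases j <;> rfl

theorem XK_2 (K : Hm ℝ) (F : Matrix (Fin 3) (Fin 3) ℂ) (j : Fin 3) :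
    XK K F 2 j = cd3 (star K.y) (star K.w) (K.c : ℂ) (F 0 j) (F 1 j) (F 2 j) := by
  fin_cases j <;> rfl

/-- entry of the sum -/
def Tij (X : Hm ℝ) (U2 U1 U0 : Matrix (Fin 3) (Fin 3) ℂ) (A B : ℂ) (i j : Fin 3) : ℂ :=
  A * FYc U2 (XK X U1) i j + (B * FYc U2 (XK X U0) i j + star A * B * FYc U1 (XK X U0) i j)

theorem cong_sum (X : Hm ℝ) (U2 U1 U0 U : Matrix (Fin 3) (Fin 3) ℂ) (A B : ℂ)
    (hU : ∀ i j, U i j = U2 i j + A * U1 i j + B * U0 i j) (i j : Fin 3) :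
    FYc U (XK X U) i j = FYc U2 (XK X U2) i j + (star A * A * FYc U1 (XK X U1) i j +
      star B * B * FYc U0 (XK X U0) i j) + (Tij X U2 U1 U0 A B i j +
        star (Tij X U2 U1 U0 A B j i)) := by
  unfold Tij FYc
  simp only [XK_0, XK_1, XK_2, cd3, hU, star_add, star_mul', star_star]
  have ea : star (X.a : ℂ) = X.a := Complex.conj_ofReal _
  have eb : star (X.b : ℂ) = X.b := Complex.conj_ofReal _
  have ec : star (X.c : ℂ) = X.c := Complex.conj_ofReal _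
  rw [ea, eb, ec]
  ring

theorem ev_XK (K : Hm ℝ) (F : Matrix (Fin 3) (Fin 3) ℂ) (v : Fin 3 → ℂ) :
    ev (mkH (FYc F (XK K F) 0 0).re (FYc F (XK K F) 1 1).re (FYc F (XK K F) 2 2).re
      (FYc F (XK K F) 0 1) (FYc F (XK K F) 0 2) (FYc F (XK K F) 1 2)) v =
      ev K (F.mulVec v) := by
  have h := ev_cong K.a K.b K.c K.x K.y K.w F v
  have e : mkH K.a K.b K.c K.x K.y K.w = K := by
    unfold mkH Hm.x Hm.y Hm.w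
    simp
  rw [e] at h
  exact h

theorem ev_mkH_sub (a b c a' b' c' l : ℝ) (x y w x' y' w' : ℂ) (v : Fin 3 → ℂ) :
    ev (mkH (a - l * a') (b - l * b') (c - l * c') (x - l * x') (y - l * y') (w - l * w')) v =
      ev (mkH a b c x y w) v - l * ev (mkH a' b' c' x' y' w') v := by
  rw [ev_mkH, ev_mkH, ev_mkH]
  have e : ∀ p q z z' : ℂ, (p * (z - (l : ℂ) * z') * q).re = (p * z * q).re -
      l * (p * z' * q).re := by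
    intro p q z z'
    have e1 : p * (z - (l : ℂ) * z') * q = p * z * q - (l : ℂ) * (p * z' * q) := by ring
    rw [e1, Complex.sub_re, Complex.re_ofReal_mul]
  rw [e, e, e]
  ring

end Pool.Agent.Helper39.KNF
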