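import Pool.Agent.Helper39.CX.KNH2

/-!
Row KNF, version 2, soundness, part 3: the family inequality.
-/

set_option autoImplicit false
noncomputable section
namespace Pool.Agent.Helper39.KNF

open Pool.Agent.Helper86.C75 (Z)
open Pool.Agent.Helper86.CX
open Pool.Agent.Helper90.C75
open Pool.Agent.Helper90.KMO
open Pool.Agent.Helper17
open Pool.Agent.Helper17.PAK
open Pool.Agent.Helper6.MONO (FNm)
open Pool.Agent.Helper42.CH (powA)
open Complex ComplexConjugate Finset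

variable {n : ℕ} {wc : Fin n → ℝ} {t : ℝ}

/-- entry of the matrix of the test -/
def Nij (X E : Hm ℝ) (U2 U1 U0 S : Matrix (Fin 3) (Fin 3) ℂ) (A B : ℂ) (l : ℝ) (i j : Fin 3) : ℂ :=
  (FYc U2 (XK X U2) i j + (star A * A * FYc U1 (XK X U1) i j +
    star B * B * FYc U0 (XK X U0) i j) - (l : ℂ) * FYc S (XK E S) i j) +
    (Tij X U2 U1 U0 A B i j + star (Tij X U2 U1 U0 A B j i))

theorem POK.nM (hn : 0 < n) (hw : Wts wc) (h0 : 0 ≤ t) (h1 : t ≤ 1) {X E : Hm ℝ}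
    {U2 U1 U0 S : Matrix (Fin 3) (Fin 3) ℂ} {H : HC} (hH : HCK n wc t X E U2 U1 U0 S H)
    {A B : ℂ} {MA MB : Mo} (hA : MOK n wc t A MA) (hB : MOK n wc t B MB) (q : QT) :
    POK n wc t (Nij X E U2 U1 U0 S A B (lv t q) 0 0) (Nij X E U2 U1 U0 S A B (lv t q) 1 1)
      (Nij X E U2 U1 U0 S A B (lv t q) 2 2) (Nij X E U2 U1 U0 S A B (lv t q) 0 1)
      (Nij X E U2 U1 U0 S A B (lv t q) 0 2) (Nij X E U2 U1 U0 S A B (lv t q) 1 2)
      (KNF.nM n H MA MB (mulM n (conjM MA) MB) (mulM n (conjM MA) MA) (mulM n (conjM MB) MB)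
        (lM n q.s q.t)) := by
  have m : ∀ {f k : ℂ} {F G : Mo}, MOK n wc t f F → MOK n wc t k G →
      MOK n wc t (f * k) (mulM n F G) := fun hf hk => hf.mul hn hw h0 h1 hk
  have hC := m hA.conj hB
  have ha := m hA.conj hA
  have hb := m hB.conj hB
  have hl := MOK.lM (t := t) hn hw q
  have tt : ∀ {x y z : ℂ} {Mx My Mz : Mo}, MOK n wc t x Mx → MOK n wc t y My →
      MOK n wc t z Mz → MOK n wc t (A * x + (B * y + star A * B * z))
        (tE n MA MB (mulM n (conjM MA) MB) Mx My Mz) :=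
    fun hx hy hz => (m hA hx).add ((m hB hy).add (m hC hz))
  have nn : ∀ {x y z e u : ℂ} {Mx My Mz Me Mu : Mo}, MOK n wc t x Mx → MOK n wc t y My →
      MOK n wc t z Mz → MOK n wc t e Me → MOK n wc t u Mu →
      MOK n wc t ((x + (star A * A * y + star B * B * z) - ((lv t q : ℝ) : ℂ) * e) + u)
        (nE n (mulM n (conjM MA) MA) (mulM n (conjM MB) MB) (lM n q.s q.t) Mx My Mz Me Mu) :=
    fun hx hy hz he hu => ((hx.add ((m ha hy).add (m hb hz))).sub (m hl he)).add hu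
  exact ⟨nn hH.h1.a hH.h4.a hH.h6.a hH.e.a ((tt hH.h2.a hH.h3.a hH.h5.a).add
      (tt hH.h2.a hH.h3.a hH.h5.a).conj),
    nn hH.h1.b hH.h4.b hH.h6.b hH.e.b ((tt hH.h2.e hH.h3.e hH.h5.e).add
      (tt hH.h2.e hH.h3.e hH.h5.e).conj),
    nn hH.h1.c hH.h4.c hH.h6.c hH.e.c ((tt hH.h2.i hH.h3.i hH.h5.i).add
      (tt hH.h2.i hH.h3.i hH.h5.i).conj),
    nn hH.h1.x hH.h4.x hH.h6.x hH.e.x ((tt hH.h2.b hH.h3.b hH.h5.b).add
      (tt hH.h2.d hH.h3.d hH.h5.d).conj),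
    nn hH.h1.y hH.h4.y hH.h6.y hH.e.y ((tt hH.h2.c hH.h3.c hH.h5.c).add
      (tt hH.h2.g hH.h3.g hH.h5.g).conj),
    nn hH.h1.w hH.h4.w hH.h6.w hH.e.w ((tt hH.h2.f hH.h3.f hH.h5.f).add
      (tt hH.h2.h hH.h3.h hH.h5.h).conj)⟩

/-- the test in the basis -/
theorem tnAB_sound (hn : 0 < n) (hw : Wts wc) (h0 : 0 ≤ t) (h1 : t ≤ 1) {X E : Hm ℝ}
    {T2 T1 T0 S : Matrix (Fin 3) (Fin 3) ℂ} {H : HC}
    (hH : HCK n wc t X E (T2 * S) (T1 * S) (T0 * S) S H)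
    {A B : ℂ} {MA MB : Mo} (hA : MOK n wc t A MA) (hB : MOK n wc t B MB) {q : QT}
    (h : tnAB n H MA MB q = true) :
    0 < lv t q ∧ ∀ x : Fin 3 → ℂ, lv t q * ev E (S.mulVec x) ≤
      ev X ((T2 + A • T1 + B • T0).mulVec (S.mulVec x)) := by
  obtain ⟨h2, h3⟩ := tnP_sound hw h0 h1 (POK.nM hn hw h0 h1 hH hA hB q) h
  refine ⟨h3, fun x => ?_⟩
  have h4 := h2 x
  have hU : ∀ i j, ((T2 + A • T1 + B • T0) * S) i j =
      (T2 * S) i j + A * (T1 * S) i j + B * (T0 * S) i j := by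
    intro i j
    rw [Matrix.add_mul, Matrix.add_mul, Matrix.smul_mul, Matrix.smul_mul]
    simp
  have hN : ∀ i j, Nij X E (T2 * S) (T1 * S) (T0 * S) S A B (lv t q) i j =
      FYc ((T2 + A • T1 + B • T0) * S) (XK X ((T2 + A • T1 + B • T0) * S)) i j -
        ((lv t q : ℝ) : ℂ) * FYc S (XK E S) i j := by
    intro i j
    rw [cong_sum X (T2 * S) (T1 * S) (T0 * S) ((T2 + A • T1 + B • T0) * S) A B hU i j]
    unfold Nij
    ring
  rw [hN, hN, hN, hN, hN, hN] at h4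
  have er : ∀ p r : ℂ, (p - ((lv t q : ℝ) : ℂ) * r).re = p.re - lv t q * r.re := by
    intro p r
    rw [Complex.sub_re, Complex.re_ofReal_mul]
  rw [er, er, er, ev_mkH_sub, ev_XK, ev_XK] at h4
  rw [Matrix.mulVec_mulVec]
  linarith

/-! ### the basis is regular -/

theorem cz_xmul (x y : Cx) : cz (xmul x y) = cz x * cz y := by
  apply Complex.ext
  · show ((zv (Z.sub (Z.mul x.re y.re) (Z.mul x.im y.im)) : ℤ) : ℝ) = _
    rw [zv_sub, zv_mul, zv_mul]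
    push_cast
    rfl
  · show ((zv (Z.add (Z.mul x.re y.im) (Z.mul x.im y.re)) : ℤ) : ℝ) = _
    rw [zv_add, zv_mul, zv_mul]
    push_cast
    rfl

theorem nz_sound {x : Cx} (h : nz x = true) : cz x ≠ 0 := by
  have h1 : 1 ≤ ab x.re + ab x.im := Nat.le_of_ble_eq_true h
  intro h2
  have e1 : ((zv x.re : ℤ) : ℝ) = 0 := congrArg Complex.re h2
  have e2 : ((zv x.im : ℤ) : ℝ) = 0 := congrArg Complex.im h2
  have a1 := ab_cast x.re
  have a2 := ab_cast x.im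
  rw [e1, abs_zero] at a1
  rw [e2, abs_zero] at a2
  have b1 : ab x.re = 0 := by exact_mod_cast a1
  have b2 : ab x.im = 0 := by exact_mod_cast a2
  omega

theorem Sm_det {S : C9} (h : nz (det9 S) = true) : (Sm S).det ≠ 0 := by
  have h1 := nz_sound h
  have e : cz (det9 S) = cz S.a * (cz S.e * cz S.i - cz S.f * cz S.h) +
      (cz S.b * (cz S.f * cz S.g - cz S.d * cz S.i) +
        cz S.c * (cz S.d * cz S.h - cz S.e * cz S.g)) := by
    unfold det9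
    simp only [cz_add, cz_sub, cz_xmul]
  have e2 : (Sm S).det = cz (det9 S) / (UU : ℂ) ^ 3 := by
    rw [e, Matrix.det_fin_three]
    unfold Sm
    simp
    ring
  rw [e2]
  exact div_ne_zero h1 (pow_ne_zero _ UUc_ne)

theorem Sm_surj {S : C9} (h : nz (det9 S) = true) (v : Fin 3 → ℂ) :
    ∃ x, (Sm S).mulVec x = v := by
  have h1 := Sm_det h
  refine ⟨((Sm S)⁻¹).mulVec v, ?_⟩
  rw [Matrix.mulVec_mulVec, Matrix.mul_nonsing_inv _ (isUnit_iff_ne_zero.2 h1),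
    Matrix.one_mulVec]

/-! ### the `A` cycle -/

theorem MOK.neg (hn : 0 < n) (hw : Wts wc) (h0 : 0 ≤ t) (h1 : t ≤ 1) {f : ℂ} {M : Mo}
    (h : MOK n wc t f M) : MOK n wc t (-f) (negM n M) := by
  have h2 : MOK n wc t 0 (cstM n (nat_lit 0) (nat_lit 0)) :=
    MOK.cst' hn hw h0 h1 (by simp)
  exact MOK.val_eq (h2.sub h) (by ring)

/-- odd part -/
def N1t (S S' g g' o : ℂ) : Matrix (Fin 3) (Fin 3) ℂ :=
  !![g * (g' + 2), 2 * (g * (g' + 2)), -(2 * (S * (g * (g' + 2))));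
    g' + 2 - 2 * (S' * (1 + 2 * o)), 2 * (g' - g), g' * (g + 2) - 2 * (S * (g' + 2));
    2 * (S' * (1 + 2 * o)), 2 * (g + 2), -(g' * (g + 2))]

theorem N1t_val (S S' g g' o : ℂ) :
    N1m S S' g g' o 0 0 = N1t S S' g g' o 0 0 ∧ N1m S S' g g' o 0 1 = N1t S S' g g' o 0 1 ∧
    -N1m S S' g g' o 0 2 = N1t S S' g g' o 0 2 ∧ N1m S S' g g' o 1 0 = N1t S S' g g' o 1 0 ∧
    N1m S S' g g' o 1 1 = N1t S S' g g' o 1 1 ∧ N1m S S' g g' o 1 2 = N1t S S' g g' o 1 2 ∧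
    N1m S S' g g' o 2 0 = N1t S S' g g' o 2 0 ∧ N1m S S' g g' o 2 1 = N1t S S' g g' o 2 1 ∧
    -N1m S S' g g' o 2 2 = N1t S S' g g' o 2 2 := by
  unfold N1m N1t
  refine ⟨?_, ?_, ?_, ?_, ?_, ?_, ?_, ?_, ?_⟩ <;> simp

theorem FOK.t1M (hn : 0 < n) (hw : Wts wc) (h0 : 0 ≤ t) (h1 : t ≤ 1) {S S' g g' o : ℂ} {C : FC}
    (hC : FCK n wc t S S' g g' o C) : FOK n wc t (N1t S S' g g' o) (KNF.t1M n C) := by
  obtain ⟨v1, v2, v3, v4, v5, v6, v7, v8, v9⟩ := N1t_val S S' g g' o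
  exact ⟨MOK.val_eq hC.n1.a v1, MOK.val_eq hC.n1.b v2,
    MOK.val_eq (MOK.neg hn hw h0 h1 hC.n1.c) v3, MOK.val_eq hC.n1.d v4,
    MOK.val_eq hC.n1.e v5, MOK.val_eq hC.n1.f v6, MOK.val_eq hC.n1.g v7,
    MOK.val_eq hC.n1.h v8, MOK.val_eq (MOK.neg hn hw h0 h1 hC.n1.i) v9⟩

/-- even part minus a constant -/
def T2d (S S' g g' o d : ℂ) : Matrix (Fin 3) (Fin 3) ℂ :=
  N2m S S' g g' o - d • (1 : Matrix (Fin 3) (Fin 3) ℂ)

theorem FOK.t2M {S S' g g' o d : ℂ} {C : FC} {D : Mo} (hC : FCK n wc t S S' g g' o C)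
    (hD : MOK n wc t d D) : FOK n wc t (T2d S S' g g' o d) (KNF.t2M C D) := by
  have e : ∀ i j, i ≠ j → N2m S S' g g' o i j = T2d S S' g g' o d i j := by
    intro i j hij
    unfold T2d
    rw [Matrix.sub_apply, Matrix.smul_apply, Matrix.one_apply_ne hij, smul_zero, sub_zero]
  have e' : ∀ i, N2m S S' g g' o i i - d = T2d S S' g g' o d i i := by
    intro i
    unfold T2d
    rw [Matrix.sub_apply, Matrix.smul_apply, Matrix.one_apply_eq, smul_eq_mul, mul_one]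
  exact ⟨MOK.val_eq (hC.n2.a.sub hD) (e' 0), MOK.val_eq hC.n2.b (e 0 1 (by decide)),
    MOK.val_eq hC.n2.c (e 0 2 (by decide)), MOK.val_eq hC.n2.d (e 1 0 (by decide)),
    MOK.val_eq (hC.n2.e.sub hD) (e' 1), MOK.val_eq hC.n2.f (e 1 2 (by decide)),
    MOK.val_eq hC.n2.g (e 2 0 (by decide)), MOK.val_eq hC.n2.h (e 2 1 (by decide)),
    MOK.val_eq (hC.n2.i.sub hD) (e' 2)⟩

theorem FNm_eq (S S' g g' o A d : ℂ) : T2d S S' g g' o d + A • N1t S S' g g' o +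
    (1 / 2 * ((g + 2) * (g' + 2)) * (A * A - 1) + d) • (1 : Matrix (Fin 3) (Fin 3) ℂ) =
    FNm S S' g g' o A := by
  unfold T2d N2m N1t FNm
  ext i j
  fin_cases i <;> fin_cases j <;> (simp; try ring)

theorem HCK.mkHA (hn : 0 < n) (hw : Wts wc) (h0 : 0 ≤ t) (h1 : t ≤ 1) {S S' g g' o d : ℂ} {C : FC}
    (hC : FCK n wc t S S' g g' o C) {D : Mo} (hD : MOK n wc t d D)
    {X E : List K2} (hX : X.length = n) (hE : E.length = n)
    (B : C9) : HCK n wc t (KIh n wc t X) (KIh n wc t E) (T2d S S' g g' o d * Sm B)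
      (N1t S S' g g' o * Sm B) ((1 : Matrix (Fin 3) (Fin 3) ℂ) * Sm B) (Sm B)
      (KNF.mkHA n C D (mkX n X) (mkX n E) (mkS n B)) := by
  rw [Matrix.one_mul]
  exact HCK.mkI hn hw h0 h1 (XOK.mkX hn hX) (XOK.mkX hn hE) (FOK.t2M hC hD) (FOK.t1M hn hw h0 h1 hC)
    (FOK.mkS hn hw h0 h1 B)

/-- the family inequality for two forms -/
def FamI (X E : Hm ℝ) (S S' g g' o A : ℂ) : Prop :=
  ∃ l : ℝ, 0 < l ∧ ∀ v : Fin 3 → ℂ, l * ev E v ≤ ev X ((FNm S S' g g' o A).mulVec v)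

theorem tnA_sound (hn : 0 < n) (hw : Wts wc) (h0 : 0 ≤ t) (h1 : t ≤ 1) {X E : Hm ℝ}
    {S S' g g' o d : ℂ} {h D : Mo} (hh : MOK n wc t (1 / 2 * ((g + 2) * (g' + 2))) h)
    (hD : MOK n wc t d D) {B : C9} (hB : nz (det9 B) = true) {H : HC}
    (hH : HCK n wc t X E (T2d S S' g g' o d * Sm B)
      (N1t S S' g g' o * Sm B) ((1 : Matrix (Fin 3) (Fin 3) ℂ) * Sm B) (Sm B) H)
    {A : ℂ} {MA : Mo} (hA : MOK n wc t A MA) {q : QT} (hq : tnA n h D H MA q = true) :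
    FamI X E S S' g g' o A := by
  have hBB := MOK.re hn ((hh.mul hn hw h0 h1 ((hA.mul hn hw h0 h1 hA).sub
    (MOK.one (n := n) hn hw h0 h1))).add hD)
  obtain ⟨h2, h3⟩ := tnAB_sound hn hw h0 h1 hH hA hBB hq
  refine ⟨lv t q, h2, fun v => ?_⟩
  obtain ⟨x, hx⟩ := Sm_surj hB v
  have h4 := h3 x
  rw [hx, FNm_eq] at h4
  exact h4

/-- SOUNDNESS OF `tnQ` -/
theorem tnQ_sound (hn : 0 < n) (hw : Wts wc) (h0 : 0 ≤ t) (h1 : t ≤ 1) {X E : Hm ℝ}
    {S S' g g' o c d : ℂ} {h D : Mo} (hh : MOK n wc t (1 / 2 * ((g + 2) * (g' + 2))) h)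
    (hD : MOK n wc t d D) {B : C9} (hB : nz (det9 B) = true) {H : HC}
    (hH : HCK n wc t X E (T2d S S' g g' o d * Sm B)
      (N1t S S' g g' o * Sm B) ((1 : Matrix (Fin 3) (Fin 3) ℂ) * Sm B) (Sm B) H)
    {Mc : Mo} (hc : MOK n wc t c Mc) {T : Mo → Bool} :
    ∀ (L : List QT) (m : ℕ) (MA : Mo), MOK n wc t (powA (1 - c) m) MA →
      tnQ n h D H Mc T L MA = true →
      (∀ j < L.length, FamI X E S S' g g' o (powA (1 - c) (m + j))) ∧
      ∃ MB : Mo, MOK n wc t (powA (1 - c) (m + L.length)) MB ∧ T MB = true := by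
  intro L
  induction L with
  | nil =>
    intro m MA hA h
    exact ⟨fun j hj => absurd hj (Nat.not_lt_zero _), MA, hA, h⟩
  | cons l L ih =>
    intro m MA hA h
    have h2 : andB (tnA n _ _ H MA l) (andB (invOK n (addM (one n) MA))
      (tnQ n _ _ H Mc T L (nxA n Mc MA))) = true := h
    obtain ⟨h3, h4⟩ := andB_t h2
    obtain ⟨h5, h6⟩ := andB_t h4
    obtain ⟨h7, h8⟩ := MOK.nxA hn hw h0 h1 hc hA h5
    have e : 1 - c / (1 + powA (1 - c) m) = powA (1 - c) (m + 1) := by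
      show _ = (powA (1 - c) m + (1 - c)) / (1 + powA (1 - c) m)
      field_simp
      ring
    rw [e] at h7
    obtain ⟨h9, MB, h10, h11⟩ := ih (m + 1) _ h7 h6
    refine ⟨fun j hj => ?_, MB, ?_, h11⟩
    · rcases j with _ | j
      · exact tnA_sound hn hw h0 h1 hh hD hB hH hA h3
      · have h12 := h9 j (by simpa using hj)
        have e2 : m + (j + 1) = m + 1 + j := by ring
        rw [e2]
        exact h12
    · have e2 : m + (l :: L).length = m + 1 + L.length := by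
        rw [List.length_cons]; ring
      rw [e2]
      exact h10

end Pool.Agent.Helper39.KNF
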