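import Pool.Agent.Helper39.CX.KNH3
import Pool.Agent.Helper32.C75.Tail3

/-!
Row KNF, version 2, soundness, part 4: polygons.
-/

set_option autoImplicit false
noncomputable section
namespace Pool.Agent.Helper39.KNF

open Pool.Agent.Helper86.C75 (Z)
open Pool.Agent.Helper86.CX
open Pool.Agent.Helper90.C75
open Pool.Agent.Helper90.KMO
open Pool.Agent.Helper17
open Pool.Agent.Helper17.PAK
open Pool.Agent.Helper42.CH (powA)
open Pool.Agent.Helper32.C75 (InHull pt)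
open Complex ComplexConjugate Finset

variable {t : ℝ}

theorem gv_hd (l : List C3) : gv l 0 = hd3 l := by
  cases l <;> rfl

theorem Fv_one (l : List C3) (j : Fin 3) : Fv 1 l (0, j) = ct (hd3 l) j := by
  show ct (gv l 0) j = _
  rw [gv_hd]

theorem avg_one {w1 : Fin 1 → ℝ} (hw : Wts w1) (F : Fin 1 × Fin 3 → ℂ) :
    avg (wq w1 t) F = avg (bt t) (fun j => F (0, j)) := by
  have h1 : w1 0 = 1 := by
    have h := hw.sum
    rwa [Fin.sum_univ_one] at h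
  rw [avg_wq]
  unfold avg
  rw [Fin.sum_univ_one, h1]
  simp

theorem avg_rep {K : ℕ} {wp : Fin K → ℝ} (hw : Wts wp) (f : Fin 3 → ℂ) :
    avg (wq wp t) (fun v => f v.2) = avg (bt t) f := by
  rw [avg_wq]
  have e : (fun c : Fin K => avg (bt t) (fun i => f (c, i).2)) = fun _ => avg (bt t) f := rfl
  rw [e, avg_const hw]

theorem MOK.lif {K : ℕ} {w1 : Fin 1 → ℝ} {wp : Fin K → ℝ} (h1 : Wts w1) (hp : Wts wp)
    {f : ℂ} {M : Mo} (h : MOK 1 w1 t f M) : MOK K wp t f (KNF.lif K M) := by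
  refine ⟨⟨len_repC _ _, fun v => ?_, ⟨ct (hd3 M.v), fun v => ?_⟩, fun c => ?_, fun c => ?_⟩, ?_⟩
  · show ‖Fv K (repC K (hd3 M.v)) v‖ ≤ M.B
    rw [Fv_repC, ← Fv_one]
    exact h.val.bd _
  · show ‖Fv K (repC K (hd3 M.v)) v - _‖ ≤ ((nat_lit 0 : ℕ) : ℝ)
    rw [Fv_repC, sub_self, norm_zero]
    exact Nat.cast_nonneg _
  · show ‖Fv K (repC K (hd3 M.v)) (c, 2) - Fv K (repC K (hd3 M.v)) (c, 0)‖ ≤ M.d
    rw [Fv_repC, Fv_repC, ← Fv_one, ← Fv_one]
    exact h.val.dif 0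
  · show ‖Fv K (repC K (hd3 M.v)) (c, 1) - (Fv K (repC K (hd3 M.v)) (c, 0) +
      Fv K (repC K (hd3 M.v)) (c, 2)) / 2‖ ≤ M.f
    rw [Fv_repC, Fv_repC, Fv_repC, ← Fv_one, ← Fv_one, ← Fv_one]
    exact h.val.sec 0
  · have h2 := h.mod
    unfold Pool.Agent.Helper90.C75.Mod at h2
    show ‖(UU : ℂ) * f - avg (wq wp t) (Fv K (repC K (hd3 M.v)))‖ ≤ M.r
    have e1 : Fv K (repC K (hd3 M.v)) = fun v => ct (hd3 M.v) v.2 := by
      funext v
      exact Fv_repC _ _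
    have e2 : avg (wq w1 t) (Fv 1 M.v) = avg (bt t) (ct (hd3 M.v)) := by
      rw [avg_one h1]
      congr 1
      funext j
      exact Fv_one _ _
    rw [e1, avg_rep hp, ← e2]
    exact h2

theorem PFK.lif {K : ℕ} {w1 : Fin 1 → ℝ} {wp : Fin K → ℝ} (h1 : Wts w1) (hp : Wts wp)
    {F Y : Matrix (Fin 3) (Fin 3) ℂ} {P : M6} (h : PFK 1 w1 t F Y P) :
    PFK K wp t F Y (lif6 K P) :=
  ⟨MOK.lif h1 hp h.a, MOK.lif h1 hp h.b, MOK.lif h1 hp h.c, MOK.lif h1 hp h.x,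
    MOK.lif h1 hp h.y, MOK.lif h1 hp h.w⟩

theorem FOK.lif {K : ℕ} {w1 : Fin 1 → ℝ} {wp : Fin K → ℝ} (h1 : Wts w1) (hp : Wts wp)
    {F : Matrix (Fin 3) (Fin 3) ℂ} {M : M9} (h : FOK 1 w1 t F M) : FOK K wp t F (lif9 K M) :=
  ⟨MOK.lif h1 hp h.a, MOK.lif h1 hp h.b, MOK.lif h1 hp h.c, MOK.lif h1 hp h.d,
    MOK.lif h1 hp h.e, MOK.lif h1 hp h.f, MOK.lif h1 hp h.g, MOK.lif h1 hp h.h,
    MOK.lif h1 hp h.i⟩

theorem HCK.lif {K : ℕ} {w1 : Fin 1 → ℝ} {wp : Fin K → ℝ} (h1 : Wts w1) (hp : Wts wp)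
    {X E : Hm ℝ} {U2 U1 U0 S : Matrix (Fin 3) (Fin 3) ℂ} {H : HC}
    (h : HCK 1 w1 t X E U2 U1 U0 S H) : HCK K wp t X E U2 U1 U0 S (lifH K H) :=
  ⟨PFK.lif h1 hp h.h1, FOK.lif h1 hp h.h2, FOK.lif h1 hp h.h3, PFK.lif h1 hp h.h4,
    FOK.lif h1 hp h.h5, PFK.lif h1 hp h.h6, PFK.lif h1 hp h.e⟩

/-! ### the polygon -/

theorem lenV_eq (V : List (ℕ × ℕ)) : lenV V = V.length := by
  induction V with
  | nil => rfl
  | cons x V ih =>
    show Nat.add (lenV V) (nat_lit 1) = _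
    rw [ih]
    rfl

theorem vxL_eq (V : List (ℕ × ℕ)) : vxL V = V.map vx := by
  induction V with
  | nil => rfl
  | cons x V ih => rw [List.map_cons, ← ih]; rfl

theorem cz_vx (p : ℕ × ℕ) (j : Fin 3) : ct (vx p) j = (UU : ℂ) * pt p.1 p.2 := by
  have e : (⟨((zv (Z.p (Nat.mul (nat_lit 16777216) p.1)) : ℤ) : ℝ),
      ((zv (Z.p (Nat.mul (nat_lit 16777216) p.2)) : ℤ) : ℝ)⟩ : ℂ) = (UU : ℂ) * pt p.1 p.2 := by
    rw [zv_p, zv_p]
    unfold pt Pool.Agent.Helper32.C75.UU Pool.Agent.Helper90.KMO.UU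
    apply Complex.ext
    · simp
      ring
    · simp
      ring
  fin_cases j <;> exact e

theorem MOK.vtx {V : List (ℕ × ℕ)} {a : ℂ} {w : Fin V.length → ℝ} (hw : Wts w)
    (hV : 0 < V.length) (h0 : 0 ≤ t) (h1 : t ≤ 1)
    (ha : a = ∑ i, (w i : ℂ) * pt (V.get i).1 (V.get i).2) :
    MOK V.length w t a (mk V.length (vxL V) (nat_lit 0)) := by
  have hl : (vxL V).length = V.length := by rw [vxL_eq, List.length_map]
  refine ⟨vok_mk hV hl _, ?_⟩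
  show ‖(UU : ℂ) * a - avg (wq w t) (Fv V.length (vxL V))‖ ≤ _
  have e1 : ∀ (i : Fin V.length) (j : Fin 3), Fv V.length (vxL V) (i, j) =
      (UU : ℂ) * pt (V.get i).1 (V.get i).2 := by
    intro i j
    show ct (gv (vxL V) i) j = _
    have e2 : gv (vxL V) i = vx (V.get i) := by
      unfold gv
      have h2 : (i : ℕ) < (V.map vx).length := by rw [List.length_map]; exact i.2
      rw [vxL_eq, List.getD_eq_getElem _ _ h2, List.getElem_map]
      rfl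
    rw [e2]
    exact cz_vx _ _
  have e3 : avg (wq w t) (Fv V.length (vxL V)) = (UU : ℂ) * a := by
    rw [avg_wq]
    have e4 : (fun c : Fin V.length => avg (bt t) (fun i => Fv V.length (vxL V) (c, i))) =
        fun c => (UU : ℂ) * pt (V.get c).1 (V.get c).2 := by
      funext c
      have e5 : (fun i => Fv V.length (vxL V) (c, i)) =
          fun _ => (UU : ℂ) * pt (V.get c).1 (V.get c).2 := by
        funext i
        exact e1 c i
      rw [e5, avg_const (Wts.bt h0 h1)]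
    rw [e4, ha]
    unfold avg
    rw [Finset.mul_sum]
    refine Finset.sum_congr rfl fun i _ => ?_
    ring
  rw [e3, sub_self, norm_zero]
  exact Nat.cast_nonneg _

/-- SOUNDNESS OF `tnV` -/
theorem tnV_sound {w1 : Fin 1 → ℝ} (hw : Wts w1) (h0 : 0 ≤ t) (h1 : t ≤ 1) {X E : Hm ℝ}
    {S S' g g' o d : ℂ} {h D : Mo} (hh : MOK 1 w1 t (1 / 2 * ((g + 2) * (g' + 2))) h)
    (hD : MOK 1 w1 t d D) {B : C9} (hB : nz (det9 B) = true) {H : HC}
    (hH : HCK 1 w1 t X E (T2d S S' g g' o d * Sm B)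
      (N1t S S' g g' o * Sm B) ((1 : Matrix (Fin 3) (Fin 3) ℂ) * Sm B) (Sm B) H)
    {V : List (ℕ × ℕ)} {q : QT} (hq : tnV h D H V q = true) {a : ℂ} (ha : InHull V a) :
    FamI X E S S' g g' o a := by
  unfold tnV tnV1 at hq
  rw [lenV_eq] at hq
  obtain ⟨hK, hq⟩ := andB_t hq
  have hK' : 0 < V.length := Nat.le_of_ble_eq_true hK
  obtain ⟨w, w0, w1', ha'⟩ := ha
  have hwp : Wts w := ⟨w0, w1'⟩
  exact tnA_sound hK' hwp h0 h1 (MOK.lif hw hwp hh) (MOK.lif hw hwp hD) hB (HCK.lif hw hwp hH)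
    (MOK.vtx hwp hK' h0 h1 ha') hq

theorem tnVs_at {h D : Mo} {H : HC} : ∀ {Vs : List (List (ℕ × ℕ))} {l : List QT},
    tnVs h D H Vs l = true → ∀ V ∈ Vs, ∃ q, tnV h D H V q = true := by
  intro Vs
  induction Vs with
  | nil => intro l _ V hV; cases hV
  | cons W Vs ih =>
    intro l hl V hV
    rcases l with _ | ⟨q, l⟩
    · cases hl
    · have h2 : andB (tnV h D H W q) (tnVs h D H Vs l) = true := hl
      obtain ⟨h3, h4⟩ := andB_t h2
      rcases List.mem_cons.1 hV with h5 | h5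
      · exact ⟨q, h5 ▸ h3⟩
      · exact ih h4 V h5

end Pool.Agent.Helper39.KNF
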