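import Pool.Agent.Helper39.CX.KNH4
import Pool.Agent.Helper39.CX.KNC
import Pool.Agent.Helper32.C75.Tail5

/-!
Row KNF, version 2, soundness, part 5: the family of one wall at a point of the cell.
-/

set_option autoImplicit false
noncomputable section
namespace Pool.Agent.Helper39.KNF

open Pool.Agent.Helper86.C75 (Z)
open Pool.Agent.Helper86.CX
open Pool.Agent.Helper90.C75
open Pool.Agent.Helper90.KMO
open Pool.Agent.Helper17
open Pool.Agent.Helper6.MONO (FNm SbP kapA tauA nuA nfm_kap nfm_tau nfm_TA TA)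
open Pool.Agent.Helper42.CH (powA)
open Pool.Agent.Helper32.C75 (pt InHull Near cell3 cell3_sound PK HP Tr)
open Complex ComplexConjugate Finset

/-! ### the condition of a wall -/

/-- weights `k`, `k'` of the two bonds at the wall, `c` opposite, `x0 ≥ xA` -/
structure WallC (k k' c x0 : ℝ) : Prop where
  hk : 0 < k
  hk' : 0 < k'
  hc : 0 < c
  hx : 4 - c ^ 2 - k ^ 2 * k' ^ 2 ≤ x0 * (k * k' * c)

theorem one_SbP {k : ℝ} (hk : k ≠ 0) : (1 + (SbP k : ℂ)) = ((4 / k ^ 2 : ℝ) : ℂ) := by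
  unfold SbP
  push_cast
  have : (k : ℂ) ≠ 0 := Complex.ofReal_ne_zero.2 hk
  field_simp
  ring

/-- `κ` at a wall -/
theorem wall_kap {k k' c x0 : ℝ} (h : WallC k k' c x0) {x z : ℂ} (hz : z ≠ 0)
    (hzx : z + z⁻¹ = x) (hre : x.re = x0) (him : 0 ≤ x.im) {o o' : ℂ} (ho : o ≠ 0) (ho' : o' ≠ 0)
    (hg : o⁻¹ = 2 * (1 + ((2 * c / (k * k') : ℝ) : ℂ) * z⁻¹))
    (hg' : o'⁻¹ = 2 * (1 + ((2 * c / (k * k') : ℝ) : ℂ) * z)) :
    1 ≤ (kapA k k' o o').re ∧ 0 ≤ (kapA k k' o o').im := by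
  have hk := h.hk
  have hk' := h.hk'
  have hc := h.hc
  have h1 := nfm_kap (k := k) (k' := k') ho ho'
    (by rw [one_SbP hk.ne']; exact Complex.ofReal_ne_zero.2 (by positivity))
    (by rw [one_SbP hk'.ne']; exact Complex.ofReal_ne_zero.2 (by positivity))
  rw [one_SbP hk.ne', one_SbP hk'.ne', hg, hg'] at h1
  have e1 : (2 * (1 + ((2 * c / (k * k') : ℝ) : ℂ) * z⁻¹) + 2) *
      (2 * (1 + ((2 * c / (k * k') : ℝ) : ℂ) * z) + 2) =
      ((16 + 4 * (2 * c / (k * k')) ^ 2 : ℝ) : ℂ) + ((8 * (2 * c / (k * k')) : ℝ) : ℂ) * x := by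
    rw [← hzx]
    have h2 : z⁻¹ * z = 1 := inv_mul_cancel₀ hz
    push_cast
    generalize z⁻¹ = y at *
    have : ∀ l : ℂ, (2 * (1 + l * y) + 2) * (2 * (1 + l * z) + 2) =
        16 + 4 * l ^ 2 * (y * z) + 8 * l * (z + y) := by
      intro l
      ring
    rw [this, h2]
    ring
  rw [e1] at h1
  have e2 : (2 * (((4 / k ^ 2 : ℝ) : ℂ) * ((4 / k' ^ 2 : ℝ) : ℂ))) =
      ((32 / (k * k') ^ 2 : ℝ) : ℂ) := by
    have : (2 : ℝ) * ((4 / k ^ 2) * (4 / k' ^ 2)) = 32 / (k * k') ^ 2 := by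
      field_simp
      ring
    rw [← this]
    push_cast
    ring
  rw [e2] at h1
  have e3 : ∀ (A B R : ℝ) (y : ℂ), y + 1 = ((A : ℂ) + (B : ℂ) * x) / (R : ℂ) →
      y = ((A * R⁻¹ - 1 : ℝ) : ℂ) + ((B * R⁻¹ : ℝ) : ℂ) * x := by
    intro A B R y h3
    have h4 : y = y + 1 - 1 := by ring
    rw [h4, h3, div_eq_mul_inv]
    push_cast
    ring
  have e3 := e3 _ _ _ _ h1
  rw [e3]
  constructor
  · rw [Complex.add_re, Complex.ofReal_re, Complex.re_ofReal_mul, hre]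
    have hh := h.hx
    have e4 : (16 + 4 * (2 * c / (k * k')) ^ 2) * (32 / (k * k') ^ 2)⁻¹ - 1 +
        8 * (2 * c / (k * k')) * (32 / (k * k') ^ 2)⁻¹ * x0 =
        ((k * k') ^ 2 + c ^ 2 + x0 * (k * k' * c)) / 2 - 1 := by
      field_simp
      ring
    rw [e4]
    nlinarith
  · rw [Complex.add_im, Complex.ofReal_im, Complex.im_ofReal_mul, zero_add]
    positivity

theorem tau_re_im {κ : ℂ} (h1 : 1 ≤ κ.re) (h2 : 0 ≤ κ.im) :
    0 ≤ ((κ - 1) / (κ + 1)).re ∧ 0 ≤ ((κ - 1) / (κ + 1)).im ∧ ((κ - 1) / (κ + 1)).re ≤ 1 := by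
  have hne : κ + 1 ≠ 0 := by
    intro h
    have := congrArg Complex.re h
    simp at this
    linarith
  have hpos : 0 < Complex.normSq (κ + 1) := Complex.normSq_pos.2 hne
  have hq : Complex.normSq (κ + 1) = (κ.re + 1) ^ 2 + κ.im ^ 2 := by
    rw [Complex.normSq_apply]
    simp
    ring
  rw [Complex.div_re, Complex.div_im]
  simp only [Complex.sub_re, Complex.sub_im, Complex.add_re, Complex.add_im, Complex.one_re,
    Complex.one_im, sub_zero, add_zero]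
  rw [← add_div, ← sub_div]
  refine ⟨div_nonneg ?_ hpos.le, div_nonneg ?_ hpos.le, ?_⟩
  · nlinarith [sq_nonneg κ.im]
  · nlinarith
  · rw [div_le_one hpos, hq]
    nlinarith

theorem tauA_eq (k k' : ℝ) (o o' : ℂ) :
    tauA k k' o o' = (kapA k k' o o' - 1) / (kapA k k' o o' + 1) := rfl

/-! ### the control points of `tau` -/

theorem cz_pc (p : ℕ × ℕ) : cz (pc p) = (UU : ℂ) * pt p.1 p.2 := by
  unfold pc
  show (⟨((zv (Z.p (Nat.mul (nat_lit 16777216) p.1)) : ℤ) : ℝ),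
      ((zv (Z.p (Nat.mul (nat_lit 16777216) p.2)) : ℤ) : ℝ)⟩ : ℂ) = _
  rw [zv_p, zv_p]
  unfold pt Pool.Agent.Helper32.C75.UU Pool.Agent.Helper90.KMO.UU
  apply Complex.ext
  · simp
    ring
  · simp
    ring

theorem segT_sound {r : ℕ} {x : Cx} {T : ℕ × ℕ} {rho : ℕ} (h : segT r x T rho = true) :
    ‖((UU : ℂ) - cz x) - (UU : ℂ) * pt T.1 T.2‖ + r ≤ 2 ^ 24 * rho := by
  have h1 : r + nb (csub (csub one1 x) (pc T)) ≤ 16777216 * rho := Nat.le_of_ble_eq_true h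
  have h2 := nb_le (csub (csub one1 x) (pc T))
  rw [cz_sub, cz_sub, cz_one1, cz_pc] at h2
  have h3 : (r : ℝ) + (nb (csub (csub one1 x) (pc T)) : ℝ) ≤ 16777216 * rho := by
    exact_mod_cast h1
  have e : (2 : ℝ) ^ 24 = 16777216 := by norm_num
  rw [e]
  linarith

variable {t : ℝ}

theorem near_seg {w1 : Fin 1 → ℝ} (hw : Wts w1) (h0 : 0 ≤ t) (h1 : t ≤ 1) {c : ℂ} {M : Mo}
    (hM : MOK 1 w1 t c M) {Ta Tc Tb : ℕ × ℕ} {rho : ℕ} (h : segOK M Ta Tc Tb rho = true) :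
    Near [Ta, Tc, Tb] rho (1 - c) := by
  obtain ⟨ha, h⟩ := andB_t h
  obtain ⟨hc, hb⟩ := andB_t h
  have sa := segT_sound ha
  have sc := segT_sound hc
  have sb := segT_sound hb
  have hm := hM.mod
  unfold Pool.Agent.Helper90.C75.Mod at hm
  have e1 : avg (wq w1 t) (Fv 1 M.v) = (1 - t) ^ 2 * cz (hd3 M.v).a +
      2 * t * (1 - t) * cz (hd3 M.v).c + t ^ 2 * cz (hd3 M.v).b := by
    rw [avg_one hw]
    unfold avg
    rw [Fin.sum_univ_three, bt0, bt1, bt2]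
    have f0 : Fv 1 M.v (0, 0) = cz (hd3 M.v).a := Fv_one _ _
    have f1 : Fv 1 M.v (0, 1) = cz (hd3 M.v).c := Fv_one _ _
    have f2 : Fv 1 M.v (0, 2) = cz (hd3 M.v).b := Fv_one _ _
    show ((((1 - t) ^ 2 : ℝ) : ℂ)) * Fv 1 M.v (0, 0) + ((2 * t * (1 - t) : ℝ) : ℂ) * Fv 1 M.v (0, 1) +
      ((t ^ 2 : ℝ) : ℂ) * Fv 1 M.v (0, 2) = _
    rw [f0, f1, f2]
    push_cast
    rfl
  rw [e1] at hm
  have hU := UU_pos
  have hUc := UUc_ne
  refine ⟨((1 - t) ^ 2 : ℝ) * pt Ta.1 Ta.2 + (2 * t * (1 - t) : ℝ) * pt Tc.1 Tc.2 +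
    (t ^ 2 : ℝ) * pt Tb.1 Tb.2, ?_, ?_⟩
  · refine ⟨![(1 - t) ^ 2, 2 * t * (1 - t), t ^ 2], ?_, ?_, ?_⟩
    · intro i
      fin_cases i
      · show 0 ≤ (1 - t) ^ 2
        positivity
      · show 0 ≤ 2 * t * (1 - t)
        exact mul_nonneg (by linarith) (by linarith)
      · show 0 ≤ t ^ 2
        positivity
    · rw [show ∑ i : Fin [Ta, Tc, Tb].length, (![(1 - t) ^ 2, 2 * t * (1 - t), t ^ 2] : Fin 3 → ℝ) i =
        (1 - t) ^ 2 + 2 * t * (1 - t) + t ^ 2 from Fin.sum_univ_three _]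
      ring
    · exact (Fin.sum_univ_three (fun i : Fin 3 =>
        ((![(1 - t) ^ 2, 2 * t * (1 - t), t ^ 2] i : ℝ) : ℂ) *
          pt ([Ta, Tc, Tb].get i).1 ([Ta, Tc, Tb].get i).2)).symm
  · have key : (UU : ℂ) * (1 - c - (((1 - t) ^ 2 : ℝ) * pt Ta.1 Ta.2 +
        (2 * t * (1 - t) : ℝ) * pt Tc.1 Tc.2 + (t ^ 2 : ℝ) * pt Tb.1 Tb.2)) =
        -((UU : ℂ) * c - ((1 - t) ^ 2 * cz (hd3 M.v).a +
          2 * t * (1 - t) * cz (hd3 M.v).c + t ^ 2 * cz (hd3 M.v).b)) +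
        (((1 - t) ^ 2 : ℝ) * (((UU : ℂ) - cz (hd3 M.v).a) - (UU : ℂ) * pt Ta.1 Ta.2) +
        (2 * t * (1 - t) : ℝ) * (((UU : ℂ) - cz (hd3 M.v).c) - (UU : ℂ) * pt Tc.1 Tc.2) +
        (t ^ 2 : ℝ) * (((UU : ℂ) - cz (hd3 M.v).b) - (UU : ℂ) * pt Tb.1 Tb.2)) := by
      push_cast
      ring
    have p0 : 0 ≤ (1 - t) ^ 2 := by positivity
    have p1 : 0 ≤ 2 * t * (1 - t) := mul_nonneg (by linarith) (by linarith)
    have p2 : 0 ≤ t ^ 2 := by positivity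
    have ps : (1 - t) ^ 2 + 2 * t * (1 - t) + t ^ 2 = 1 := by ring
    have nn : ∀ (a : ℝ) (z : ℂ), 0 ≤ a → ‖(a : ℂ) * z‖ = a * ‖z‖ := by
      intro a z ha
      rw [norm_mul, Complex.norm_real, Real.norm_eq_abs, abs_of_nonneg ha]
    have hb : ‖(UU : ℂ) * (1 - c - (((1 - t) ^ 2 : ℝ) * pt Ta.1 Ta.2 +
        (2 * t * (1 - t) : ℝ) * pt Tc.1 Tc.2 + (t ^ 2 : ℝ) * pt Tb.1 Tb.2))‖ ≤ 2 ^ 24 * rho := by
      rw [key]
      refine (norm_add_le _ _).trans ?_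
      rw [norm_neg]
      refine (add_le_add hm ((norm_add_le _ _).trans (add_le_add (norm_add_le _ _) le_rfl))).trans ?_
      rw [nn _ _ p0, nn _ _ p1, nn _ _ p2]
      have := mul_le_mul_of_nonneg_left sa p0
      have := mul_le_mul_of_nonneg_left sc p1
      have := mul_le_mul_of_nonneg_left sb p2
      generalize ‖(UU : ℂ) - cz (hd3 M.v).a - (UU : ℂ) * pt Ta.1 Ta.2‖ = na at *
      generalize ‖(UU : ℂ) - cz (hd3 M.v).c - (UU : ℂ) * pt Tc.1 Tc.2‖ = nc at *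
      generalize ‖(UU : ℂ) - cz (hd3 M.v).b - (UU : ℂ) * pt Tb.1 Tb.2‖ = nbb at *
      have e5 : (M.r : ℝ) = ((1 - t) ^ 2 + 2 * t * (1 - t) + t ^ 2) * M.r := by rw [ps, one_mul]
      have e6 : (2 : ℝ) ^ 24 * rho = ((1 - t) ^ 2 + 2 * t * (1 - t) + t ^ 2) * (2 ^ 24 * rho) := by
        rw [ps, one_mul]
      rw [e5, e6]
      linarith
    rw [norm_mul] at hb
    have hUn : ‖(UU : ℂ)‖ = 2 ^ 48 := by
      unfold UU
      simp
      norm_num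
    rw [hUn] at hb
    have hV : (Pool.Agent.Helper32.C75.UU : ℝ) = 2 ^ 24 := by
      unfold Pool.Agent.Helper32.C75.UU
      norm_num
    rw [hV, le_div_iff₀ (by positivity)]
    have e7 : (2 : ℝ) ^ 48 = 2 ^ 24 * 2 ^ 24 := by norm_num
    rw [e7] at hb
    have hp : (0 : ℝ) < 2 ^ 24 := by positivity
    nlinarith

/-! ### the class constants -/

theorem MOK.sMo {n : ℕ} {wc : Fin n → ℝ} (hn : 0 < n) (hw : Wts wc) (h0 : 0 ≤ t) (h1 : t ≤ 1)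
    {k : ℝ} (hk0 : k ≠ 0) {K : Mo} (hk : MOK n wc t k K)
    (hok : invOK n (Pool.Agent.Helper86.CX.mulM n K K) = true) :
    MOK n wc t (SbP k : ℝ) (KNF.sMo n K) := by
  have p1 := MOK.one (n := n) hn hw h0 h1
  have h2 := ((hk.mul hn hw h0 h1 hk).invM hn hw h0 h1 hok).1
  refine MOK.val_eq (((MOK.qd p1).mul hn hw h0 h1 h2).sub p1) ?_
  unfold SbP
  push_cast
  have : (k : ℂ) ≠ 0 := Complex.ofReal_ne_zero.2 hk0
  field_simp
  ring

end Pool.Agent.Helper39.KNF
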