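import Pool.Agent.Helper39.CX.KNF
import Pool.Agent.Helper90.CX.KM5
import Pool.Agent.Helper17.C75.Kp5

/-!
Row KNF, soundness, part 1: the positivity tests.
-/

set_option autoImplicit false
set_option exponentiation.threshold 4000
noncomputable section
namespace Pool.Agent.Helper39.KNF

open Pool.Agent.Helper86.C75 (Z)
open Pool.Agent.Helper86.CX
open Pool.Agent.Helper90.KMO
open Pool.Agent.Helper17
open Pool.Agent.Helper17.PAK
open Complex ComplexConjugate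


theorem rep_tN (x : Z) : PAK.Rep M2 (tN x) (zv x) := by
  cases x with
  | p n => exact PAK.Rep.nat M2 n
  | m n =>
    have h := rep_N2.mul (PAK.Rep.nat M2 n)
    have e : (-1 : ℤ) * n = zv (Z.m n) := by simp [zv]
    rw [e] at h
    exact h

/-- value of a slot -/
def sl (K k : ℕ) : ℤ := (u32 K k : ℤ) - 2 ^ 31

theorem rep_v32 (K k : ℕ) : PAK.Rep M2 (v32 K k) (sl K k) := by
  have h1 : PAK.Rep M2 (2 ^ 1152 - 2 ^ 31) (-2 ^ 31) := by
    unfold PAK.Rep Int.ModEq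
    decide +kernel
  have h := (PAK.Rep.nat M2 (u32 K k)).add h1
  have e : (u32 K k : ℤ) + -2 ^ 31 = sl K k := by unfold sl; ring
  rw [e] at h
  have e2 : v32 K k = u32 K k + (2 ^ 1152 - 2 ^ 31) := by
    unfold v32
    have : (nat_lit 61172327492847069472032393719205726809135813743440799050195397570919697796091958321786863938157971792315844506873509046544459008355036150650333616890210625686064472971480622053109783197015954399612052812141827922088117778074833698589048132156300022844899841969874763871624802603515651998113045708569927237462546233168834543264678118409414899662848) = 2 ^ 1152 - 2 ^ 31 := by decide +kernel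
    rw [this]
    rfl
  rw [e2]
  exact h

theorem sl_bd (K k : ℕ) : |sl K k| ≤ 2 ^ 31 := by
  have h := u32_lt K k
  have h1 : (u32 K k : ℤ) < 2 ^ 32 := by exact_mod_cast h
  have h2 : (0 : ℤ) ≤ u32 K k := by positivity
  unfold sl
  exact abs_le.2 ⟨by linarith, by linarith⟩

/-- bounds of the control values -/
def Cb (a b c x y w : Cx) (B : ℤ) : Prop :=
  |zv a.re| ≤ B ∧ |zv b.re| ≤ B ∧ |zv c.re| ≤ B ∧ |zv x.re| ≤ B ∧ |zv x.im| ≤ B ∧
    |zv y.re| ≤ B ∧ |zv y.im| ≤ B ∧ |zv w.re| ≤ B ∧ |zv w.im| ≤ B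

/-- the form with given control values -/
def cf (a b c x y w : Cx) : Hm ℝ := mkH (cz a).re (cz b).re (cz c).re (cz x) (cz y) (cz w)

/-- the radii -/
def rf (R : E3) (v : Fin 3 → ℂ) : ℝ :=
  R.x * normSq (v 0) + R.y * normSq (v 1) + R.z * normSq (v 2)

theorem rep_sub {x y : ℕ} {a b : ℤ} (hx : PAK.Rep M2 x a) (hy : PAK.Rep M2 y b) :
    PAK.Rep M2 (Nat.add x (Nat.mul N2 y)) (a - b) := by
  have h := hx.add (rep_N2.mul hy)
  have e : a + -1 * b = a - b := by ring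
  rw [e] at h
  exact h

theorem abs_l {l : ℕ} {s : ℤ} (hl : (l : ℤ) ≤ 2 ^ 204) (hs : |s| ≤ 2 ^ 31) :
    |(l : ℤ) * s| ≤ 2 ^ 235 := by
  have h : |(l : ℤ)| ≤ 2 ^ 204 := by rw [abs_of_nonneg (by positivity)]; exact hl
  have h2 := abs_mul_le h hs
  rw [← pow_add] at h2
  exact h2

theorem big1 {a R p q : ℤ} (ha : |a| ≤ 2 ^ 200) (hR0 : 0 ≤ R) (hR : R ≤ 2 ^ 200)
    (hp : |p| ≤ 2 ^ 235) (hq : |q| ≤ 2 ^ 235) : |a - (R + p + q)| ≤ 2 ^ 256 := by
  have h1 := abs_le.1 ha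
  have h3 := abs_le.1 hp
  have h4 := abs_le.1 hq
  have c : (2 : ℤ) ^ 200 + 2 ^ 200 + 2 ^ 235 + 2 ^ 235 ≤ 2 ^ 256 := by decide +kernel
  exact abs_le.2 ⟨by linarith, by linarith⟩

/-- general test: `P - R - (l E + m F)` -/
theorem tst_gen {a b c x y w : Cx} {R : E3} {l m E F : ℕ} (hB : Cb a b c x y w (2 ^ 200))
    (hx : (R.x : ℤ) ≤ 2 ^ 200) (hy : (R.y : ℤ) ≤ 2 ^ 200) (hz : (R.z : ℤ) ≤ 2 ^ 200)
    (hl : (l : ℤ) ≤ 2 ^ 204) (hm : (m : ℤ) ≤ 2 ^ 204)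
    {n0 n1 n2 n3 n4 n5 n6 n7 n8 : ℕ}
    (h0 : PAK.Rep M2 n0 (zv a.re - (R.x + l * sl E 0 + m * sl F 0)))
    (h1 : PAK.Rep M2 n1 (zv b.re - (R.y + l * sl E 32 + m * sl F 32)))
    (h2 : PAK.Rep M2 n2 (zv c.re - (R.z + l * sl E 64 + m * sl F 64)))
    (h3 : PAK.Rep M2 n3 (zv x.re - (0 + l * sl E 96 + m * sl F 96)))
    (h4 : PAK.Rep M2 n4 (zv x.im - (0 + l * sl E 128 + m * sl F 128)))
    (h5 : PAK.Rep M2 n5 (zv y.re - (0 + l * sl E 160 + m * sl F 160)))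
    (h6 : PAK.Rep M2 n6 (zv y.im - (0 + l * sl E 192 + m * sl F 192)))
    (h7 : PAK.Rep M2 n7 (zv w.re - (0 + l * sl E 224 + m * sl F 224)))
    (h8 : PAK.Rep M2 n8 (zv w.im - (0 + l * sl E 256 + m * sl F 256)))
    (h : psd1 n0 n1 n2 n3 n4 n5 n6 n7 n8 = true) (v : Fin 3 → ℂ) :
    (l : ℝ) * ev (sc 1 (kz E)) v + (m : ℝ) * ev (sc 1 (kz F)) v + rf R v ≤
      ev (cf a b c x y w) v := by
  obtain ⟨q1, q2, q3, q4, q5, q6, q7, q8, q9⟩ := hB
  have z0 : (0 : ℤ) ≤ 2 ^ 200 := by positivity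
  have hp := psd1_sound (N := ⟨zv a.re - (R.x + l * sl E 0 + m * sl F 0),
    zv b.re - (R.y + l * sl E 32 + m * sl F 32), zv c.re - (R.z + l * sl E 64 + m * sl F 64),
    zv x.re - (0 + l * sl E 96 + m * sl F 96), zv x.im - (0 + l * sl E 128 + m * sl F 128),
    zv y.re - (0 + l * sl E 160 + m * sl F 160), zv y.im - (0 + l * sl E 192 + m * sl F 192),
    zv w.re - (0 + l * sl E 224 + m * sl F 224), zv w.im - (0 + l * sl E 256 + m * sl F 256)⟩)
    h0 h1 h2 h3 h4 h5 h6 h7 h8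
    ⟨big1 q1 (by positivity) hx (abs_l hl (sl_bd _ _)) (abs_l hm (sl_bd _ _)),
     big1 q2 (by positivity) hy (abs_l hl (sl_bd _ _)) (abs_l hm (sl_bd _ _)),
     big1 q3 (by positivity) hz (abs_l hl (sl_bd _ _)) (abs_l hm (sl_bd _ _)),
     big1 q4 le_rfl z0 (abs_l hl (sl_bd _ _)) (abs_l hm (sl_bd _ _)),
     big1 q5 le_rfl z0 (abs_l hl (sl_bd _ _)) (abs_l hm (sl_bd _ _)),
     big1 q6 le_rfl z0 (abs_l hl (sl_bd _ _)) (abs_l hm (sl_bd _ _)),
     big1 q7 le_rfl z0 (abs_l hl (sl_bd _ _)) (abs_l hm (sl_bd _ _)),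
     big1 q8 le_rfl z0 (abs_l hl (sl_bd _ _)) (abs_l hm (sl_bd _ _)),
     big1 q9 le_rfl z0 (abs_l hl (sl_bd _ _)) (abs_l hm (sl_bd _ _))⟩ h
  have h9 := PDz_ev hp v
  have hE := ev_lin (sc 1 (kz E)) v
  have hF := ev_lin (sc 1 (kz F)) v
  have hC := ev_lin (cf a b c x y w) v
  rw [ev_lin] at h9
  rw [hE, hF, hC]
  simp only [sc, kz, sl, cf, mkH, rf, div_one, cz] at *
  push_cast at h9 ⊢
  linarith

theorem tst1_ev {a b c x y w : Cx} {R : E3} {l E : ℕ} (hB : Cb a b c x y w (2 ^ 200))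
    (hx : (R.x : ℤ) ≤ 2 ^ 200) (hy : (R.y : ℤ) ≤ 2 ^ 200) (hz : (R.z : ℤ) ≤ 2 ^ 200)
    (hl : (l : ℤ) ≤ 2 ^ 204) (h : tst1 a b c x y w R l E = true) (v : Fin 3 → ℂ) :
    (l : ℝ) * ev (sc 1 (kz E)) v + rf R v ≤ ev (cf a b c x y w) v := by
  have k1 : ∀ (z : Z) (r k : ℕ), PAK.Rep M2 (Nat.add (tN z) (Nat.mul N2 (Nat.add r
      (Nat.mul l (v32 E k))))) (zv z - (r + l * sl E k + ((0 : ℕ) : ℤ) * sl E k)) := by
    intro z r k
    have h := rep_sub (rep_tN z) ((PAK.Rep.nat M2 r).add ((PAK.Rep.nat M2 l).mul (rep_v32 E k)))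
    have e : (r : ℤ) + l * sl E k = r + l * sl E k + ((0 : ℕ) : ℤ) * sl E k := by
      push_cast; ring
    rw [e] at h
    exact h
  have k2 : ∀ (z : Z) (k : ℕ), PAK.Rep M2 (Nat.add (tN z) (Nat.mul N2
      (Nat.mul l (v32 E k)))) (zv z - (0 + l * sl E k + ((0 : ℕ) : ℤ) * sl E k)) := by
    intro z k
    have h := rep_sub (rep_tN z) ((PAK.Rep.nat M2 l).mul (rep_v32 E k))
    have e : (l : ℤ) * sl E k = 0 + l * sl E k + ((0 : ℕ) : ℤ) * sl E k := by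
      push_cast; ring
    rw [e] at h
    exact h
  have h2 := tst_gen (m := 0) (F := E) hB hx hy hz hl (by positivity) (k1 _ _ _) (k1 _ _ _)
    (k1 _ _ _) (k2 _ _) (k2 _ _) (k2 _ _) (k2 _ _) (k2 _ _) (k2 _ _) h v
  rw [Nat.cast_zero, zero_mul, add_zero] at h2
  exact h2

theorem tstc_ev {a b c x y w : Cx} {R : E3} {l m E F : ℕ} (hB : Cb a b c x y w (2 ^ 200))
    (hx : (R.x : ℤ) ≤ 2 ^ 200) (hy : (R.y : ℤ) ≤ 2 ^ 200) (hz : (R.z : ℤ) ≤ 2 ^ 200)
    (hl : (l : ℤ) ≤ 2 ^ 204) (hm : (m : ℤ) ≤ 2 ^ 204)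
    (h : tstc a b c x y w R l m E F = true) (v : Fin 3 → ℂ) :
    (l : ℝ) * ev (sc 1 (kz F)) v + (m : ℝ) * ev (sc 1 (kz E)) v + rf R v ≤
      ev (cf a b c x y w) v := by
  have k1 : ∀ (z : Z) (r k : ℕ), PAK.Rep M2 (Nat.add (tN z) (Nat.mul N2 (Nat.add (Nat.add r
      (Nat.mul l (v32 F k))) (Nat.mul m (v32 E k)))))
      (zv z - (r + l * sl F k + m * sl E k)) := by
    intro z r k
    exact rep_sub (rep_tN z) (((PAK.Rep.nat M2 r).add ((PAK.Rep.nat M2 l).mul (rep_v32 F k))).add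
      ((PAK.Rep.nat M2 m).mul (rep_v32 E k)))
  have k2 : ∀ (z : Z) (k : ℕ), PAK.Rep M2 (Nat.add (tN z) (Nat.mul N2
      (Nat.add (Nat.mul l (v32 F k)) (Nat.mul m (v32 E k)))))
      (zv z - (0 + l * sl F k + m * sl E k)) := by
    intro z k
    have h := rep_sub (rep_tN z) (((PAK.Rep.nat M2 l).mul (rep_v32 F k)).add
      ((PAK.Rep.nat M2 m).mul (rep_v32 E k)))
    have e : (l : ℤ) * sl F k + m * sl E k = 0 + l * sl F k + m * sl E k := by ring
    rw [e] at h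
    exact h
  exact tst_gen hB hx hy hz hl hm (k1 _ _ _) (k1 _ _ _) (k1 _ _ _) (k2 _ _) (k2 _ _)
    (k2 _ _) (k2 _ _) (k2 _ _) (k2 _ _) h v

/-! ### lists -/

/-- entry of a list of forms -/
def gk (l : List K2) (i : ℕ) : K2 := l.getD i ⟨0, 0⟩

theorem tstL_at {R : E3} {l : L2} : ∀ {la lb lc lx ly lw : List C3} {lE : List K2},
    tstL R l la lb lc lx ly lw lE = true → ∀ {i : ℕ}, i < la.length →
    tst3 (gv la i) (gv lb i) (gv lc i) (gv lx i) (gv ly i) (gv lw i) R l (gk lE i) = true := by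
  intro la
  induction la with
  | nil => intro _ _ _ _ _ _ _ i h; exact absurd h (Nat.not_lt_zero _)
  | cons a la ih =>
    intro lb lc lx ly lw lE h i hi
    rcases lb with _ | ⟨b, lb⟩
    · cases h
    rcases lc with _ | ⟨c, lc⟩
    · cases h
    rcases lx with _ | ⟨x, lx⟩
    · cases h
    rcases ly with _ | ⟨y, ly⟩
    · cases h
    rcases lw with _ | ⟨w, lw⟩
    · cases h
    rcases lE with _ | ⟨E, lE⟩
    · cases h
    have h2 : andB (tst3 a b c x y w R l E) (tstL R l la lb lc lx ly lw lE) = true := h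
    obtain ⟨h3, h4⟩ := andB_t h2
    rcases i with _ | i
    · exact h3
    · have hi' : i < la.length := by simpa using hi
      exact ih h4 hi'

end Pool.Agent.Helper39.KNF
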