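import Pool.Agent.Helper39.CX.KNS1

/-!
Row KNF, soundness, part 2: from the controls to the point.
-/

set_option autoImplicit false
noncomputable section
namespace Pool.Agent.Helper39.KNF

open Pool.Agent.Helper86.C75 (Z)
open Pool.Agent.Helper86.CX
open Pool.Agent.Helper90.C75
open Pool.Agent.Helper90.KMO
open Pool.Agent.Helper17
open Pool.Agent.Helper17.PAK
open Complex ComplexConjugate Finset

variable {n : ℕ} {wc : Fin n → ℝ} {t : ℝ}

theorem ev_mkH (a b c : ℝ) (x y w : ℂ) (v : Fin 3 → ℂ) :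
    ev (mkH a b c x y w) v = a * normSq (v 0) + b * normSq (v 1) + c * normSq (v 2) +
      2 * (conj (v 0) * x * v 1).re + 2 * (conj (v 0) * y * v 2).re +
      2 * (conj (v 1) * w * v 2).re := by
  have e : ∀ z : ℂ, (z.re : ℂ) + (z.im : ℂ) * I = z := Complex.re_add_im
  unfold ev mkH
  simp only [e]

/-- the form of the control values -/
def cfv (n : ℕ) (P : M6) (v : Fin n × Fin 3) : Hm ℝ :=
  mkH (Fv n P.a.v v).re (Fv n P.b.v v).re (Fv n P.c.v v).re (Fv n P.x.v v) (Fv n P.y.v v)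
    (Fv n P.w.v v)

theorem avg_lin {V : Type*} [Fintype V] (w : V → ℝ) (F : V → ℂ) (p q : ℂ) :
    (p * avg w F * q).re = ∑ v, w v * (p * F v * q).re := by
  unfold avg
  rw [Finset.mul_sum, Finset.sum_mul, Complex.re_sum]
  refine Finset.sum_congr rfl fun v _ => ?_
  have e : p * ((w v : ℂ) * F v) * q = (w v : ℂ) * (p * F v * q) := by ring
  rw [e, Complex.re_ofReal_mul]

/-- the form of the averages -/
def avf (n : ℕ) (w : Fin n × Fin 3 → ℝ) (P : M6) : Hm ℝ :=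
  mkH (avg w (Fv n P.a.v)).re (avg w (Fv n P.b.v)).re (avg w (Fv n P.c.v)).re
    (avg w (Fv n P.x.v)) (avg w (Fv n P.y.v)) (avg w (Fv n P.w.v))

theorem ev_avf (w : Fin n × Fin 3 → ℝ) (P : M6) (v : Fin 3 → ℂ) :
    ev (avf n w P) v = ∑ u, w u * ev (cfv n P u) v := by
  unfold avf cfv
  simp only [ev_mkH]
  rw [avg_lin, avg_lin, avg_lin, avg_re, avg_re, avg_re]
  simp only [Finset.sum_mul, Finset.mul_sum, ← Finset.sum_add_distrib]
  refine Finset.sum_congr rfl fun u _ => ?_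
  ring

theorem two_re {p q z : ℂ} {r : ℝ} (h : ‖z‖ ≤ r) :
    -(r * (normSq p + normSq q)) ≤ 2 * (conj p * z * q).re := by
  have h1 : |(conj p * z * q).re| ≤ ‖p‖ * r * ‖q‖ := by
    refine (Complex.abs_re_le_norm _).trans ?_
    rw [norm_mul, norm_mul, RCLike.norm_conj]
    gcongr
  have h2 := neg_le_of_abs_le h1
  have hr : 0 ≤ r := (norm_nonneg _).trans h
  rw [Complex.normSq_eq_norm_sq, Complex.normSq_eq_norm_sq]
  nlinarith [mul_nonneg hr (sq_nonneg (‖p‖ - ‖q‖))]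

theorem one_re {p z : ℂ} {r : ℝ} (h : ‖z‖ ≤ r) : -(r * normSq p) ≤ z.re * normSq p := by
  have h1 := neg_le_of_abs_le ((Complex.abs_re_le_norm z).trans h)
  nlinarith [normSq_nonneg p]

/-- models of a Hermitian matrix -/
structure POK (n : ℕ) (wc : Fin n → ℝ) (t : ℝ) (a b c x y w : ℂ) (P : M6) : Prop where
  a : MOK n wc t a P.a
  b : MOK n wc t b P.b
  c : MOK n wc t c P.c
  x : MOK n wc t x P.x
  y : MOK n wc t y P.y
  w : MOK n wc t w P.w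

theorem rad_eq (P : M6) (v : Fin 3 → ℂ) : rf (rad P) v =
    P.a.r * normSq (v 0) + P.b.r * normSq (v 1) + P.c.r * normSq (v 2) +
      P.x.r * (normSq (v 0) + normSq (v 1)) + P.y.r * (normSq (v 0) + normSq (v 2)) +
      P.w.r * (normSq (v 1) + normSq (v 2)) := by
  unfold rf rad
  simp only [c_add]
  ring

/-- from the controls to the point -/
theorem POK.ge {a b c x y w : ℂ} {P : M6} (h : POK n wc t a b c x y w P) (v : Fin 3 → ℂ) :
    (∑ u, wq wc t u * ev (cfv n P u) v) - rf (rad P) v ≤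
      UU * ev (mkH a.re b.re c.re x y w) v := by
  rw [← ev_avf, rad_eq]
  unfold avf
  simp only [ev_mkH]
  have m1 := one_re (p := v 0) h.a.mod
  have m2 := one_re (p := v 1) h.b.mod
  have m3 := one_re (p := v 2) h.c.mod
  have m4 := two_re (p := v 0) (q := v 1) h.x.mod
  have m5 := two_re (p := v 0) (q := v 2) h.y.mod
  have m6 := two_re (p := v 1) (q := v 2) h.w.mod
  have e1 : ∀ (z A : ℂ) (s : ℝ), ((UU : ℂ) * z - A).re * s = UU * (z.re * s) - A.re * s := by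
    intro z A s
    rw [Complex.sub_re, Complex.re_ofReal_mul]
    ring
  have e2 : ∀ (z A p q : ℂ), 2 * (conj p * ((UU : ℂ) * z - A) * q).re =
      UU * (2 * (conj p * z * q).re) - 2 * (conj p * A * q).re := by
    intro z A p q
    have e : conj p * ((UU : ℂ) * z - A) * q = (UU : ℂ) * (conj p * z * q) - conj p * A * q := by
      ring
    rw [e, Complex.sub_re, Complex.re_ofReal_mul]
    ring
  rw [e1] at m1 m2 m3
  rw [e2] at m4 m5 m6
  linarith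

/-! ### the test -/

theorem zv_le {l : List C3} {M : ℕ} {i : Fin n} (h : ∀ v, ‖Fv n l v‖ ≤ M) :
    |zv (gv l i).a.re| ≤ (M : ℤ) ∧ |zv (gv l i).a.im| ≤ (M : ℤ) ∧ |zv (gv l i).c.re| ≤ (M : ℤ) ∧
    |zv (gv l i).c.im| ≤ (M : ℤ) ∧ |zv (gv l i).b.re| ≤ (M : ℤ) ∧ |zv (gv l i).b.im| ≤ (M : ℤ) := by
  have k : ∀ x : Cx, ‖cz x‖ ≤ M → |zv x.re| ≤ (M : ℤ) ∧ |zv x.im| ≤ (M : ℤ) := by
    intro x hx
    have h1 := (Complex.abs_re_le_norm _).trans hx
    have h2 := (Complex.abs_im_le_norm _).trans hx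
    have e1 : |(cz x).re| = ((|zv x.re| : ℤ) : ℝ) := by rw [Int.cast_abs]; rfl
    have e2 : |(cz x).im| = ((|zv x.im| : ℤ) : ℝ) := by rw [Int.cast_abs]; rfl
    rw [e1] at h1
    rw [e2] at h2
    exact ⟨by exact_mod_cast h1, by exact_mod_cast h2⟩
  have a := k _ (h (i, 0))
  have b := k _ (h (i, 1))
  have c := k _ (h (i, 2))
  exact ⟨a.1, a.2, b.1, b.2, c.1, c.2⟩

/-- value of the interpolated form, unit `1` -/
def EIv (n : ℕ) (wc : Fin n → ℝ) (t : ℝ) (E : List K2) (v : Fin 3 → ℂ) : ℝ :=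
  ∑ i, wc i * ((1 - t) * ev (sc 1 (kz (gk E i).s)) v + t * ev (sc 1 (kz (gk E i).t)) v)

theorem bt0 (t : ℝ) : bt t 0 = (1 - t) ^ 2 := rfl
theorem bt1 (t : ℝ) : bt t 1 = 2 * t * (1 - t) := rfl
theorem bt2 (t : ℝ) : bt t 2 = t ^ 2 := rfl

/-- sum of the three controls at a corner -/
theorem three_sum {t A B l m p q a b c r : ℝ} (h0 : 0 ≤ t) (h1 : t ≤ 1)
    (ha : 16 * l * p + r ≤ a) (hc : 8 * l * q + 8 * m * p + r ≤ c) (hb : 16 * m * q + r ≤ b)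
    (hA : A = (1 - t) * l + t * m) (hB : B = (1 - t) * p + t * q) :
    16 * A * B + r ≤ (1 - t) ^ 2 * a + 2 * t * (1 - t) * c + t ^ 2 * b := by
  have k0 : 0 ≤ (1 - t) ^ 2 := sq_nonneg _
  have k1 : 0 ≤ 2 * t * (1 - t) := mul_nonneg (mul_nonneg two_pos.le h0) (by linarith)
  have k2 : 0 ≤ t ^ 2 := sq_nonneg _
  have m0 := mul_le_mul_of_nonneg_left ha k0
  have m1 := mul_le_mul_of_nonneg_left hc k1
  have m2 := mul_le_mul_of_nonneg_left hb k2
  rw [hA, hB]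
  nlinarith [m0, m1, m2]

/-- SOUNDNESS OF `tstP` -/
theorem tstP_sound (hw : Wts wc) (h0 : 0 ≤ t) (h1 : t ≤ 1) {a b c x y w : ℂ} {P : M6}
    (hP : POK n wc t a b c x y w P) {l : L2} {E : List K2} (h : tstP P l E = true)
    (v : Fin 3 → ℂ) :
    16 * ((1 - t) * l.s + t * l.t) * EIv n wc t E v ≤
      UU * ev (mkH a.re b.re c.re x y w) v ∧ 0 < (1 - t) * (l.s : ℝ) + t * l.t := by
  unfold tstP tstP1 at h
  obtain ⟨hb, h⟩ := andB_t h
  obtain ⟨hl1, h⟩ := andB_t h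
  obtain ⟨hl2, h⟩ := andB_t h
  have hb' : P.a.B + P.b.B + P.c.B + P.x.B + P.y.B + P.w.B + (rad P).x + (rad P).y + (rad P).z +
      l.s + l.t ≤ 2 ^ 200 := Nat.le_of_ble_eq_true hb
  have hl1' : 1 ≤ l.s := Nat.le_of_ble_eq_true hl1
  have hl2' : 1 ≤ l.t := Nat.le_of_ble_eq_true hl2
  have hb3 : (P.a.B : ℤ) ≤ 2 ^ 200 ∧ (P.b.B : ℤ) ≤ 2 ^ 200 ∧ (P.c.B : ℤ) ≤ 2 ^ 200 ∧
      (P.x.B : ℤ) ≤ 2 ^ 200 ∧ (P.y.B : ℤ) ≤ 2 ^ 200 ∧ (P.w.B : ℤ) ≤ 2 ^ 200 ∧
      ((rad P).x : ℤ) ≤ 2 ^ 200 ∧ ((rad P).y : ℤ) ≤ 2 ^ 200 ∧ ((rad P).z : ℤ) ≤ 2 ^ 200 ∧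
      (l.s : ℤ) ≤ 2 ^ 200 ∧ (l.t : ℤ) ≤ 2 ^ 200 := by
    refine ⟨?_, ?_, ?_, ?_, ?_, ?_, ?_, ?_, ?_, ?_, ?_⟩ <;>
      (have h5 : ∀ k : ℕ, k ≤ 2 ^ 200 → (k : ℤ) ≤ 2 ^ 200 := fun k hk => by exact_mod_cast hk
       apply h5
       omega)
  obtain ⟨b1, b2, b3, b4, b5, b6, b7, b8, b9, b10, b11⟩ := hb3
  have key : ∀ i : Fin n,
      16 * ((1 - t) * l.s + t * l.t) *
        ((1 - t) * ev (sc 1 (kz (gk E i).s)) v + t * ev (sc 1 (kz (gk E i).t)) v) +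
        rf (rad P) v ≤ (1 - t) ^ 2 * ev (cfv n P (i, 0)) v +
          2 * t * (1 - t) * ev (cfv n P (i, 1)) v + t ^ 2 * ev (cfv n P (i, 2)) v := by
    intro i
    have ht := tstL_at h (i := i) (by rw [hP.a.val.len]; exact i.2)
    unfold tst3 at ht
    obtain ⟨t1, ht⟩ := andB_t ht
    obtain ⟨t2, t3⟩ := andB_t ht
    have za := zv_le (i := i) hP.a.val.bd
    have zb := zv_le (i := i) hP.b.val.bd
    have zc := zv_le (i := i) hP.c.val.bd
    have zx := zv_le (i := i) hP.x.val.bd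
    have zy := zv_le (i := i) hP.y.val.bd
    have zw := zv_le (i := i) hP.w.val.bd
    have l16 : ∀ k : ℕ, (k : ℤ) ≤ 2 ^ 200 → ((Nat.mul 16 k : ℕ) : ℤ) ≤ 2 ^ 204 := by
      intro k hk
      have : ((Nat.mul 16 k : ℕ) : ℤ) = 16 * (k : ℤ) := by push_cast; rfl
      rw [this]
      have c : (16 : ℤ) * 2 ^ 200 ≤ 2 ^ 204 := by decide +kernel
      linarith
    have l8 : ∀ k : ℕ, (k : ℤ) ≤ 2 ^ 200 → ((Nat.mul 8 k : ℕ) : ℤ) ≤ 2 ^ 204 := by
      intro k hk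
      have : ((Nat.mul 8 k : ℕ) : ℤ) = 8 * (k : ℤ) := by push_cast; rfl
      rw [this]
      have c : (8 : ℤ) * 2 ^ 200 ≤ 2 ^ 204 := by decide +kernel
      have c2 : (0 : ℤ) ≤ 2 ^ 200 := by positivity
      linarith
    have r1 := tst1_ev ⟨za.1.trans b1, zb.1.trans b2, zc.1.trans b3, zx.1.trans b4,
      zx.2.1.trans b4, zy.1.trans b5, zy.2.1.trans b5, zw.1.trans b6, zw.2.1.trans b6⟩ b7 b8 b9
      (l16 _ b10) t1 v
    have r2 := tst1_ev ⟨za.2.2.2.2.1.trans b1, zb.2.2.2.2.1.trans b2, zc.2.2.2.2.1.trans b3,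
      zx.2.2.2.2.1.trans b4, zx.2.2.2.2.2.trans b4, zy.2.2.2.2.1.trans b5,
      zy.2.2.2.2.2.trans b5, zw.2.2.2.2.1.trans b6, zw.2.2.2.2.2.trans b6⟩ b7 b8 b9
      (l16 _ b11) t2 v
    have r3 := tstc_ev ⟨za.2.2.1.trans b1, zb.2.2.1.trans b2, zc.2.2.1.trans b3,
      zx.2.2.1.trans b4, zx.2.2.2.1.trans b4, zy.2.2.1.trans b5,
      zy.2.2.2.1.trans b5, zw.2.2.1.trans b6, zw.2.2.2.1.trans b6⟩ b7 b8 b9
      (l8 _ b10) (l8 _ b11) t3 v
    have c16 : ∀ k : ℕ, ((Nat.mul 16 k : ℕ) : ℝ) = 16 * (k : ℝ) := fun k => by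
      rw [c_mul]; norm_num
    have c8 : ∀ k : ℕ, ((Nat.mul 8 k : ℕ) : ℝ) = 8 * (k : ℝ) := fun k => by
      rw [c_mul]; norm_num
    rw [c16] at r1 r2
    rw [c8, c8] at r3
    exact three_sum h0 h1 r1 r3 r2 rfl rfl
  have hge := hP.ge v
  constructor
  · refine le_trans ?_ hge
    have e1 : (∑ u, wq wc t u * ev (cfv n P u) v) =
        ∑ i, wc i * ((1 - t) ^ 2 * ev (cfv n P (i, 0)) v +
          2 * t * (1 - t) * ev (cfv n P (i, 1)) v + t ^ 2 * ev (cfv n P (i, 2)) v) := by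
      rw [Fintype.sum_prod_type]
      refine Finset.sum_congr rfl fun i _ => ?_
      rw [Fin.sum_univ_three]
      simp only [wq, bt0, bt1, bt2]
      ring
    rw [e1]
    have e2 : 16 * ((1 - t) * (l.s : ℝ) + t * l.t) * EIv n wc t E v + rf (rad P) v =
        ∑ i, wc i * (16 * ((1 - t) * l.s + t * l.t) *
        ((1 - t) * ev (sc 1 (kz (gk E i).s)) v + t * ev (sc 1 (kz (gk E i).t)) v) +
        rf (rad P) v) := by
      unfold EIv
      generalize 16 * ((1 - t) * (l.s : ℝ) + t * l.t) = L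
      generalize rf (rad P) v = r
      have e3 : ∀ i, wc i * (L * ((1 - t) * ev (sc 1 (kz (gk E i).s)) v +
          t * ev (sc 1 (kz (gk E i).t)) v) + r) = L * (wc i *
          ((1 - t) * ev (sc 1 (kz (gk E i).s)) v + t * ev (sc 1 (kz (gk E i).t)) v)) +
          wc i * r := by
        intro i
        ring
      simp only [e3, Finset.sum_add_distrib, ← Finset.mul_sum, ← Finset.sum_mul, hw.sum, one_mul]
    have h3 : ∑ i, wc i * (16 * ((1 - t) * l.s + t * l.t) *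
        ((1 - t) * ev (sc 1 (kz (gk E i).s)) v + t * ev (sc 1 (kz (gk E i).t)) v) +
        rf (rad P) v) ≤ ∑ i, wc i * ((1 - t) ^ 2 * ev (cfv n P (i, 0)) v +
          2 * t * (1 - t) * ev (cfv n P (i, 1)) v + t ^ 2 * ev (cfv n P (i, 2)) v) :=
      Finset.sum_le_sum fun i _ => mul_le_mul_of_nonneg_left (key i) (hw.nonneg i)
    linarith
  · have p1 : (1 : ℝ) ≤ l.s := by exact_mod_cast hl1'
    have p2 : (1 : ℝ) ≤ l.t := by exact_mod_cast hl2'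
    nlinarith

end Pool.Agent.Helper39.KNF
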