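import Pool.Agent.Helper39.CX.KNS2

/-!
Row KNF, soundness, part 3: models of forms, the congruence.
-/

set_option autoImplicit false
noncomputable section
namespace Pool.Agent.Helper39.KNF

open Pool.Agent.Helper86.C75 (Z)
open Pool.Agent.Helper86.CX
open Pool.Agent.Helper90.C75
open Pool.Agent.Helper90.KMO
open Pool.Agent.Helper17
open Pool.Agent.Helper17.PAK
open Complex ComplexConjugate Finset

variable {n : ℕ} {wc : Fin n → ℝ} {t : ℝ}

theorem MOK.re {f : ℂ} {M : Mo} (hn : 0 < n) (h : MOK n wc t f M) : MOK n wc t f (re n M) :=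
  ⟨vok_mk hn h.val.len _, h.mod⟩

/-! ### forms -/

/-- an entry of the interpolated form -/
def enI (n : ℕ) (wc : Fin n → ℝ) (t : ℝ) (X : List K2) (k : ℕ) : ℝ :=
  (∑ i, wc i * ((1 - t) * (sl (gk X i).s k : ℝ) + t * (sl (gk X i).t k : ℝ))) / 2 ^ 20

/-- the interpolated form -/
def KIh (n : ℕ) (wc : Fin n → ℝ) (t : ℝ) (X : List K2) : Hm ℝ :=
  ⟨enI n wc t X 0, enI n wc t X 32, enI n wc t X 64, enI n wc t X 96, enI n wc t X 128,
    enI n wc t X 160, enI n wc t X 192, enI n wc t X 224, enI n wc t X 256⟩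

theorem ev_KIh (X : List K2) (v : Fin 3 → ℂ) :
    ev (KIh n wc t X) v = EIv n wc t X v / 2 ^ 20 := by
  unfold EIv
  rw [ev_lin]
  simp only [KIh, enI]
  simp only [ev_lin, sc, kz, sl, div_one]
  push_cast
  rw [Finset.sum_div, Finset.sum_div, Finset.sum_div, Finset.sum_div, Finset.sum_div,
    Finset.sum_div, Finset.sum_div, Finset.sum_div, Finset.sum_div, Finset.sum_div]
  simp only [Finset.sum_mul, ← Finset.sum_add_distrib, ← Finset.sum_sub_distrib]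
  refine Finset.sum_congr rfl fun i _ => ?_
  ring

theorem mapK_eq (f : K2 → C3) (l : List K2) : mapK f l = l.map f := by
  induction l with
  | nil => rfl
  | cons x l ih => rw [List.map_cons, ← ih]; rfl

theorem len_mapK (f : K2 → C3) {l : List K2} (h : l.length = n) : (mapK f l).length = n := by
  rw [mapK_eq, List.length_map, h]

theorem gv_mapK (f : K2 → C3) {l : List K2} {i : ℕ} (h : i < l.length) :
    gv (mapK f l) i = f (gk l i) := by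
  unfold gv gk
  have h2 : i < (l.map f).length := by rw [List.length_map]; exact h
  rw [mapK_eq, List.getD_eq_getElem _ _ h, List.getD_eq_getElem _ _ h2, List.getElem_map]

theorem zv_sg (x : ℕ) : zv (sg x) = (x : ℤ) - 2 ^ 31 := by
  unfold sg
  rw [zv_sub]
  rfl

theorem avg_three {F : Fin n × Fin 3 → ℂ} {G H : Fin n → ℂ} (h0 : ∀ i, F (i, 0) = 2 * G i)
    (h1 : ∀ i, F (i, 1) = G i + H i) (h2 : ∀ i, F (i, 2) = 2 * H i) :
    avg (wq wc t) F = 2 * ∑ i, (wc i : ℂ) * ((1 - t) * G i + t * H i) := by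
  rw [avg_wq]
  unfold avg
  rw [Finset.mul_sum]
  refine Finset.sum_congr rfl fun i _ => ?_
  show (wc i : ℂ) * (∑ v, ((bt t v : ℝ) : ℂ) * F (i, v)) = _
  rw [Fin.sum_univ_three, h0, h1, h2, bt0, bt1, bt2]
  push_cast
  ring

theorem MOK.kG (hn : 0 < n) {X : List K2} (hX : X.length = n) {F : K2 → C3} {G : ℕ → ℂ}
    (ha : ∀ x, cz (F x).a = 2 * G x.s) (hc : ∀ x, cz (F x).c = G x.s + G x.t)
    (hb : ∀ x, cz (F x).b = 2 * G x.t) {f : ℂ}
    (hf : (UU : ℂ) * f = 2 * ∑ i, (wc i : ℂ) * ((1 - t) * G (gk X i).s + t * G (gk X i).t)) :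
    MOK n wc t f (mk n (mapK F X) (nat_lit 0)) := by
  refine ⟨vok_mk hn (len_mapK _ hX) _, ?_⟩
  have e : avg (wq wc t) (Fv n (mapK F X)) =
      2 * ∑ i, (wc i : ℂ) * ((1 - t) * G (gk X i).s + t * G (gk X i).t) := by
    refine avg_three (fun i => ?_) (fun i => ?_) (fun i => ?_)
    · show cz (gv (mapK F X) i).a = _
      rw [gv_mapK _ (by rw [hX]; exact i.2)]
      exact ha _
    · show cz (gv (mapK F X) i).c = _
      rw [gv_mapK _ (by rw [hX]; exact i.2)]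
      exact hc _
    · show cz (gv (mapK F X) i).b = _
      rw [gv_mapK _ (by rw [hX]; exact i.2)]
      exact hb _
  show ‖(UU : ℂ) * f - avg (wq wc t) (Fv n (mapK F X))‖ ≤ _
  rw [e, hf, sub_self, norm_zero]
  exact Nat.cast_nonneg _

/-- value of a complex slot, unit `2 ^ (-47)` -/
def Gs (k k' : ℕ) (K : ℕ) : ℂ := ⟨2 ^ 27 * (sl K k : ℝ), 2 ^ 27 * (sl K k' : ℝ)⟩
def Gr (k : ℕ) (K : ℕ) : ℂ := ⟨2 ^ 27 * (sl K k : ℝ), 0⟩

theorem s28_v (K k : ℕ) : ((zv (s28 (sg (u32 K k))) : ℤ) : ℝ) = 2 * (2 ^ 27 * (sl K k : ℝ)) := by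
  unfold s28 sl
  rw [zv_mul, zv_sg, zv_p]
  push_cast
  ring

theorem s27_v (K L k : ℕ) : ((zv (s27 (Z.add (sg (u32 K k)) (sg (u32 L k)))) : ℤ) : ℝ) =
    2 ^ 27 * (sl K k : ℝ) + 2 ^ 27 * (sl L k : ℝ) := by
  unfold s27 sl
  rw [zv_mul, zv_add, zv_sg, zv_sg, zv_p]
  push_cast
  ring

theorem z0_v : ((zv z0 : ℤ) : ℝ) = 0 := by simp [z0, zv]

theorem two_mk (a b : ℝ) : (2 : ℂ) * ⟨a, b⟩ = ⟨2 * a, 2 * b⟩ := by
  apply Complex.ext <;> simp

theorem add_mk (a b c d : ℝ) : (⟨a, b⟩ : ℂ) + ⟨c, d⟩ = ⟨a + c, b + d⟩ := rfl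

theorem cz_mk (x y : Z) : cz ⟨x, y⟩ = ⟨((zv x : ℤ) : ℝ), ((zv y : ℤ) : ℝ)⟩ := rfl

theorem MOK.kR (hn : 0 < n) {X : List K2} (hX : X.length = n) (k : ℕ) :
    MOK n wc t ((enI n wc t X k : ℝ) : ℂ) (kR n k X) := by
  refine MOK.kG hn hX (G := Gr k) (fun x => ?_) (fun x => ?_) (fun x => ?_) ?_
  · unfold kR3 Gr
    rw [two_mk, cz_mk, s28_v, z0_v, mul_zero]
  · unfold kR3 Gr
    rw [add_mk, cz_mk, s27_v, z0_v, add_zero]
  · unfold kR3 Gr
    rw [two_mk, cz_mk, s28_v, z0_v, mul_zero]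
  · have eG : ∀ K, Gr k K = ((2 ^ 27 * (sl K k : ℝ) : ℝ) : ℂ) := fun K => rfl
    simp only [eG]
    unfold enI UU
    push_cast
    rw [Finset.sum_div, Finset.mul_sum, Finset.mul_sum]
    refine Finset.sum_congr rfl fun i _ => ?_
    ring

theorem MOK.kC (hn : 0 < n) {X : List K2} (hX : X.length = n) (k k' : ℕ) :
    MOK n wc t ((enI n wc t X k : ℝ) + (enI n wc t X k' : ℝ) * I) (kC n k k' X) := by
  refine MOK.kG hn hX (G := Gs k k') (fun x => ?_) (fun x => ?_) (fun x => ?_) ?_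
  · unfold kC3 Gs
    rw [two_mk, cz_mk, s28_v, s28_v]
  · unfold kC3 Gs
    rw [add_mk, cz_mk, s27_v, s27_v]
  · unfold kC3 Gs
    rw [two_mk, cz_mk, s28_v, s28_v]
  · have eG : ∀ K, Gs k k' K = ((2 ^ 27 * (sl K k : ℝ) : ℝ) : ℂ) +
        ((2 ^ 27 * (sl K k' : ℝ) : ℝ) : ℂ) * I := fun K => by
      unfold Gs
      rw [← Complex.mk_eq_add_mul_I]
    simp only [eG]
    unfold enI UU
    push_cast
    rw [Finset.sum_div, Finset.sum_div, Finset.mul_sum, Finset.sum_mul,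
      ← Finset.sum_add_distrib, Finset.mul_sum]
    refine Finset.sum_congr rfl fun i _ => ?_
    ring

/-! ### the congruence -/

/-- `x a + (y b + z c)` -/
def cd3 (x y z a b c : ℂ) : ℂ := x * a + (y * b + z * c)

theorem MOK.dot3 (hn : 0 < n) (hw : Wts wc) (h0 : 0 ≤ t) (h1 : t ≤ 1) {x y z a b c : ℂ}
    {X Y Z' A B C : Mo} (hx : MOK n wc t x X) (hy : MOK n wc t y Y) (hz : MOK n wc t z Z')
    (ha : MOK n wc t a A) (hb : MOK n wc t b B) (hc : MOK n wc t c C) :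
    MOK n wc t (cd3 x y z a b c) (dot3 n X Y Z' A B C) :=
  (hx.mul hn hw h0 h1 ha).add ((hy.mul hn hw h0 h1 hb).add (hz.mul hn hw h0 h1 hc))

theorem MOK.rdot3 (hn : 0 < n) (hw : Wts wc) (h0 : 0 ≤ t) (h1 : t ≤ 1) {x y z a b c : ℂ}
    {X Y Z' A B C : Mo} (hx : MOK n wc t x X) (hy : MOK n wc t y Y) (hz : MOK n wc t z Z')
    (ha : MOK n wc t a A) (hb : MOK n wc t b B) (hc : MOK n wc t c C) :
    MOK n wc t (cd3 x y z a b c) (rdot3 n X Y Z' A B C) :=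
  MOK.re hn (MOK.dot3 hn hw h0 h1 hx hy hz ha hb hc)

/-- models of a matrix -/
structure FOK (n : ℕ) (wc : Fin n → ℝ) (t : ℝ) (F : Matrix (Fin 3) (Fin 3) ℂ) (M : M9) : Prop where
  a : MOK n wc t (F 0 0) M.a
  b : MOK n wc t (F 0 1) M.b
  c : MOK n wc t (F 0 2) M.c
  d : MOK n wc t (F 1 0) M.d
  e : MOK n wc t (F 1 1) M.e
  f : MOK n wc t (F 1 2) M.f
  g : MOK n wc t (F 2 0) M.g
  h : MOK n wc t (F 2 1) M.h
  i : MOK n wc t (F 2 2) M.i

/-- `X F` -/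
def XFc (a b c x y w : ℂ) (F : Matrix (Fin 3) (Fin 3) ℂ) : Matrix (Fin 3) (Fin 3) ℂ :=
  !![cd3 a x y (F 0 0) (F 1 0) (F 2 0), cd3 a x y (F 0 1) (F 1 1) (F 2 1),
      cd3 a x y (F 0 2) (F 1 2) (F 2 2);
    cd3 (star x) b w (F 0 0) (F 1 0) (F 2 0), cd3 (star x) b w (F 0 1) (F 1 1) (F 2 1),
      cd3 (star x) b w (F 0 2) (F 1 2) (F 2 2);
    cd3 (star y) (star w) c (F 0 0) (F 1 0) (F 2 0), cd3 (star y) (star w) c (F 0 1) (F 1 1) (F 2 1),
      cd3 (star y) (star w) c (F 0 2) (F 1 2) (F 2 2)]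

theorem FOK.XF (hn : 0 < n) (hw : Wts wc) (h0 : 0 ≤ t) (h1 : t ≤ 1) {a b c x y w : ℂ} {X : M6}
    (hX : POK n wc t a b c x y w X) {F : Matrix (Fin 3) (Fin 3) ℂ} {M : M9}
    (hF : FOK n wc t F M) :
    FOK n wc t (XFc a b c x y w F) (KNF.XF n X M) where
  a := MOK.rdot3 hn hw h0 h1 hX.a hX.x hX.y hF.a hF.d hF.g
  b := MOK.rdot3 hn hw h0 h1 hX.a hX.x hX.y hF.b hF.e hF.h
  c := MOK.rdot3 hn hw h0 h1 hX.a hX.x hX.y hF.c hF.f hF.i
  d := MOK.rdot3 hn hw h0 h1 hX.x.conj hX.b hX.w hF.a hF.d hF.g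
  e := MOK.rdot3 hn hw h0 h1 hX.x.conj hX.b hX.w hF.b hF.e hF.h
  f := MOK.rdot3 hn hw h0 h1 hX.x.conj hX.b hX.w hF.c hF.f hF.i
  g := MOK.rdot3 hn hw h0 h1 hX.y.conj hX.w.conj hX.c hF.a hF.d hF.g
  h := MOK.rdot3 hn hw h0 h1 hX.y.conj hX.w.conj hX.c hF.b hF.e hF.h
  i := MOK.rdot3 hn hw h0 h1 hX.y.conj hX.w.conj hX.c hF.c hF.f hF.i

/-- entry of `Fᴴ Y` -/
def FYc (F Y : Matrix (Fin 3) (Fin 3) ℂ) (i j : Fin 3) : ℂ :=
  cd3 (star (F 0 i)) (star (F 1 i)) (star (F 2 i)) (Y 0 j) (Y 1 j) (Y 2 j)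

theorem FOK.FY (hn : 0 < n) (hw : Wts wc) (h0 : 0 ≤ t) (h1 : t ≤ 1)
    {F Y : Matrix (Fin 3) (Fin 3) ℂ} {M N : M9} (hF : FOK n wc t F M) (hY : FOK n wc t Y N) :
    POK n wc t (FYc F Y 0 0) (FYc F Y 1 1) (FYc F Y 2 2) (FYc F Y 0 1) (FYc F Y 0 2)
      (FYc F Y 1 2) (KNF.FY n M N) where
  a := MOK.dot3 hn hw h0 h1 hF.a.conj hF.d.conj hF.g.conj hY.a hY.d hY.g
  b := MOK.dot3 hn hw h0 h1 hF.b.conj hF.e.conj hF.h.conj hY.b hY.e hY.h
  c := MOK.dot3 hn hw h0 h1 hF.c.conj hF.f.conj hF.i.conj hY.c hY.f hY.i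
  x := MOK.dot3 hn hw h0 h1 hF.a.conj hF.d.conj hF.g.conj hY.b hY.e hY.h
  y := MOK.dot3 hn hw h0 h1 hF.a.conj hF.d.conj hF.g.conj hY.c hY.f hY.i
  w := MOK.dot3 hn hw h0 h1 hF.b.conj hF.e.conj hF.h.conj hY.c hY.f hY.i

theorem ev_full (a b c : ℝ) (x y w : ℂ) (u : Fin 3 → ℂ) :
    ev (mkH a b c x y w) u = (star (u 0) * (a * u 0 + (x * u 1 + y * u 2)) +
      star (u 1) * (star x * u 0 + (b * u 1 + w * u 2)) +
      star (u 2) * (star y * u 0 + (star w * u 1 + c * u 2))).re := by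
  rw [ev_mkH]
  simp [normSq_apply]
  ring

theorem re_diag (v P : ℂ) : (star v * (P * v)).re = P.re * normSq v := by
  simp [normSq_apply]
  ring

/-- THE CONGRUENCE -/
theorem ev_cong (a b c : ℝ) (x y w : ℂ) (F : Matrix (Fin 3) (Fin 3) ℂ) (v : Fin 3 → ℂ) :
    ev (mkH (FYc F (XFc a b c x y w F) 0 0).re (FYc F (XFc a b c x y w F) 1 1).re
      (FYc F (XFc a b c x y w F) 2 2).re (FYc F (XFc a b c x y w F) 0 1)
      (FYc F (XFc a b c x y w F) 0 2) (FYc F (XFc a b c x y w F) 1 2)) v =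
    ev (mkH a b c x y w) (F.mulVec v) := by
  have h10 : FYc F (XFc a b c x y w F) 1 0 = star (FYc F (XFc a b c x y w F) 0 1) := by
    simp only [FYc, XFc, cd3]
    simp
    ring
  have h20 : FYc F (XFc a b c x y w F) 2 0 = star (FYc F (XFc a b c x y w F) 0 2) := by
    simp only [FYc, XFc, cd3]
    simp
    ring
  have h21 : FYc F (XFc a b c x y w F) 2 1 = star (FYc F (XFc a b c x y w F) 1 2) := by
    simp only [FYc, XFc, cd3]
    simp
    ring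
  have hm : ∀ i, F.mulVec v i = F i 0 * v 0 + (F i 1 * v 1 + F i 2 * v 2) := by
    intro i
    simp only [Matrix.mulVec, dotProduct, Fin.sum_univ_three]
    ring
  have hs : ev (mkH a b c x y w) (F.mulVec v) =
      (star (v 0) * (FYc F (XFc a b c x y w F) 0 0 * v 0) +
       star (v 1) * (FYc F (XFc a b c x y w F) 1 1 * v 1) +
       star (v 2) * (FYc F (XFc a b c x y w F) 2 2 * v 2) +
       (star (v 0) * (FYc F (XFc a b c x y w F) 0 1 * v 1) +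
        star (v 1) * (FYc F (XFc a b c x y w F) 1 0 * v 0)) +
       (star (v 0) * (FYc F (XFc a b c x y w F) 0 2 * v 2) +
        star (v 2) * (FYc F (XFc a b c x y w F) 2 0 * v 0)) +
       (star (v 1) * (FYc F (XFc a b c x y w F) 1 2 * v 2) +
        star (v 2) * (FYc F (XFc a b c x y w F) 2 1 * v 1))).re := by
    rw [ev_full]
    congr 1
    simp only [hm, FYc, XFc, cd3, star_add, star_mul]
    simp
    ring
  rw [hs, h10, h20, h21, ev_mkH]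
  generalize FYc F (XFc a b c x y w F) 0 0 = p00
  generalize FYc F (XFc a b c x y w F) 1 1 = p11
  generalize FYc F (XFc a b c x y w F) 2 2 = p22
  generalize FYc F (XFc a b c x y w F) 0 1 = p01
  generalize FYc F (XFc a b c x y w F) 0 2 = p02
  generalize FYc F (XFc a b c x y w F) 1 2 = p12
  simp only [Complex.add_re, re_diag]
  simp
  ring

end Pool.Agent.Helper39.KNF
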