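import Pool.Agent.Helper39.CX.KNC
import Pool.Agent.Helper86.CX.Pc3
import Pool.Agent.Helper17.CX.KNI

/-!
Row NCELL: the kernel functions of a near cell of an exact class. The test of a family of type A
is a parameter `F` (`famW` or a faster test with the same soundness), as is the additional test
`B` of a cell (families of type B).
-/

set_option autoImplicit false
noncomputable section
namespace Pool.Agent.Helper39.NCL

open Pool.Agent.Helper86.C75 (Z)
open Pool.Agent.Helper86.CX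
open Pool.Agent.Helper17.KNI (IE chkI)
open Pool.Agent.Helper39.KNF (FD)

/-- a near cell -/
structure ND where
  c : CellD
  D0 : FD
  D1 : FD
  D2 : FD

/-- `f = true` implies `b` -/
def imB (f b : Bool) : Bool := Bool.rec (motive := fun _ => Bool) true b f

/-- the type of the test of a family: table of the forms, data, `lambda`, the two weights,
`1 / z`, `z` -/
abbrev FT := List K2 → FD → Mo → Mo → Mo → Mo → Mo → Bool

/-- the three walls -/
def fam3N (F : FT) (f0 f1 f2 : Bool) (k0 k1 k2 : Mo) (C : Cls) (KTs : List K2) (D0 D1 D2 : FD)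
    (u z : Mo) : Bool :=
  andB (imB f0 (F KTs D0 C.l0 k0 k2 u z)) (andB (imB f1 (F KTs D1 C.l1 k1 k0 u z))
    (imB f2 (F KTs D2 C.l2 k2 k1 u z)))
def famXN (F : FT) (f0 f1 f2 : Bool) (k0 k1 k2 : Mo) (C : Cls) (KTs : List K2) (D0 D1 D2 : FD)
    (m : Nat) (x u z : Mo) : Bool :=
  fam3N F f0 f1 f2 k0 k1 k2 C KTs D0 D1 D2 (uM m x u z) (zM x (uM m x u z) z)
/-- the families of a cell -/
def famCN (F : FT) (f0 f1 f2 : Bool) (k0 k1 k2 : Mo) (C : Cls) (D0 D1 D2 : FD) (xs : List C3)
    (rx m : Nat) (us : List C3) (KTs : List K2) : Bool :=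
  famXN F f0 f1 f2 k0 k1 k2 C KTs D0 D1 D2 m (mk (nat_lit 1) xs rx)
    (mk (nat_lit 1) us (nat_lit 0)) (mk (nat_lit 1) (zipL sub3 xs us) (nat_lit 0))

/-- the tests of a near cell besides those of a middle cell -/
def chkNE (F : FT) (f0 f1 f2 : Bool) (k0 k1 k2 : Mo) (C : Cls) (X : Z) (il : List IE) (d : ND) :
    Bool :=
  andB (chkI [d.c.K] d.c.L il) (famCN F f0 f1 f2 k0 k1 k2 C d.D0 d.D1 d.D2
    (xsC X d.c.ya d.c.yb) (nat_lit 32) d.c.m [d.c.u] [d.c.K])

/-- ALL TESTS OF A NEAR CELL -/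
def chkN (F : FT) (f0 f1 f2 : Bool) (k0 k1 k2 : Mo) (C : Cls) (G : Prog) (X : Z) (sl : List Nat)
    (le : List LE) (il : List IE) (d : ND) : Bool :=
  andB (chkD C G X sl le d.c) (chkNE F f0 f1 f2 k0 k1 k2 C X il d)
/-- the same for a class with a label `3` -/
def chkN3 (F : FT) (f0 f1 f2 : Bool) (k0 k1 k2 : Mo) (C : Cls) (G : Prog) (X : Z) (sl : List Nat)
    (le : List LE) (il : List IE) (d : ND) : Bool :=
  andB (chkD3 C G X sl le d.c) (chkNE F f0 f1 f2 k0 k1 k2 C X il d)

/-- a chain of cells from `y` to `e` with the test `f` -/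
def pcN (f : ND → Bool) (e : Nat) (l : List ND) : Nat → Bool :=
  List.rec (motive := fun _ => Nat → Bool) (fun y => Nat.beq y e)
    (fun c _ ih y => andB (Nat.beq y c.c.ya) (andB (Nat.ble c.c.ya c.c.yb) (andB (f c) (ih c.c.yb)))) l

/-- A LIST OF NEAR CELLS -/
def chkPN (F : FT) (f0 f1 f2 : Bool) (k0 k1 k2 : Mo) (C : Cls) (G : Prog) (X : Z) (sl : List Nat)
    (le : List LE) (il : List IE) (e : Nat) (l : List ND) : Nat → Bool :=
  pcN (chkN F f0 f1 f2 k0 k1 k2 C G X sl le il) e l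
/-- the same for a class with a label `3` -/
def chkPN3 (F : FT) (f0 f1 f2 : Bool) (k0 k1 k2 : Mo) (C : Cls) (G : Prog) (X : Z) (sl : List Nat)
    (le : List LE) (il : List IE) (e : Nat) (l : List ND) : Nat → Bool :=
  pcN (chkN3 F f0 f1 f2 k0 k1 k2 C G X sl le il) e l

end Pool.Agent.Helper39.NCL
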