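import Pool.Agent.Helper12.CX.Defs

/-!
The domain `Ω` in the `w = ι` plane: `z = (1 + w)/(1 - w)`, `Re (z + 1/z) > x0` becomes
`‖(x0 + 2) w² - x0‖ < 2`.
-/

set_option autoImplicit false
noncomputable section
namespace Pool.Agent.Helper6.MONO

open Set Filter Topology Complex

/-- the domain -/
def Omg (x0 : ℝ) : Set ℂ := {w | ‖((x0 + 2 : ℝ) : ℂ) * w ^ 2 - (x0 : ℂ)‖ < 2}

/-- `w = (z - 1)/(z + 1)` -/
def zw (z : ℂ) : ℂ := (z - 1) / (z + 1)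

/-- `z = (1 + w)/(1 - w)` -/
def wz (w : ℂ) : ℂ := (1 + w) / (1 - w)

theorem omg_open (x0 : ℝ) : IsOpen (Omg x0) :=
  isOpen_lt (by fun_prop) continuous_const

theorem omg_closure {x0 : ℝ} {w : ℂ} (hw : w ∈ closure (Omg x0)) :
    ‖((x0 + 2 : ℝ) : ℂ) * w ^ 2 - (x0 : ℂ)‖ ≤ 2 := by
  have hc : IsClosed {w : ℂ | ‖((x0 + 2 : ℝ) : ℂ) * w ^ 2 - (x0 : ℂ)‖ ≤ 2} :=
    isClosed_le (by fun_prop) continuous_const
  have hsub : Omg x0 ⊆ {w : ℂ | ‖((x0 + 2 : ℝ) : ℂ) * w ^ 2 - (x0 : ℂ)‖ ≤ 2} := by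
    intro v hv
    have hv' : ‖((x0 + 2 : ℝ) : ℂ) * v ^ 2 - (x0 : ℂ)‖ < 2 := hv
    exact hv'.le
  exact closure_minimal hsub hc hw

theorem omg_frontier {x0 : ℝ} {w : ℂ} (hw : w ∈ frontier (Omg x0)) :
    ‖((x0 + 2 : ℝ) : ℂ) * w ^ 2 - (x0 : ℂ)‖ = 2 := by
  refine le_antisymm (omg_closure hw.1) ?_
  by_contra h
  push Not at h
  apply hw.2
  rw [(omg_open x0).interior_eq]
  exact h

theorem omg_bounded {x0 : ℝ} (hx : -2 < x0) : Bornology.IsBounded (Omg x0) := by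
  rw [Metric.isBounded_iff_subset_closedBall 0]
  refine ⟨Real.sqrt ((2 + |x0|) / (x0 + 2)), fun w hw => ?_⟩
  have hw' : ‖((x0 + 2 : ℝ) : ℂ) * w ^ 2 - (x0 : ℂ)‖ < 2 := hw
  have h1 : ‖((x0 + 2 : ℝ) : ℂ) * w ^ 2‖ ≤ 2 + |x0| := by
    have h2 : ‖((x0 + 2 : ℝ) : ℂ) * w ^ 2‖ ≤ ‖((x0 + 2 : ℝ) : ℂ) * w ^ 2 - (x0 : ℂ)‖ + ‖(x0 : ℂ)‖ := by
      have := norm_add_le (((x0 + 2 : ℝ) : ℂ) * w ^ 2 - (x0 : ℂ)) (x0 : ℂ)
      rwa [sub_add_cancel] at this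
    rw [norm_real, Real.norm_eq_abs] at h2
    linarith
  rw [norm_mul, norm_pow, norm_real, Real.norm_eq_abs, abs_of_pos (by linarith)] at h1
  rw [mem_closedBall_zero_iff]
  apply Real.le_sqrt_of_sq_le
  rw [le_div_iff₀ (by linarith)]
  linarith

/-- `z + 1` is not zero on `InX` -/
theorem inX_ne {x0 : ℝ} (hx : -2 < x0) {z : ℂ} (hz : InX x0 z) : z + 1 ≠ 0 := by
  intro h
  have h1 : z = -1 := by linear_combination h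
  have h2 := hz.2
  rw [h1] at h2
  norm_num at h2
  linarith

theorem zw_ne_one {x0 : ℝ} (hx : -2 < x0) {z : ℂ} (hz : InX x0 z) : 1 - zw z ≠ 0 := by
  have h := inX_ne hx hz
  have h1 : 1 - zw z = 2 / (z + 1) := by
    rw [zw]
    field_simp
    ring
  rw [h1]
  exact div_ne_zero two_ne_zero h

theorem zw_ne_neg {x0 : ℝ} (hx : -2 < x0) {z : ℂ} (hz : InX x0 z) : 1 + zw z ≠ 0 := by
  have h := inX_ne hx hz
  have h1 : 1 + zw z = 2 * z / (z + 1) := by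
    rw [zw]
    field_simp
    ring
  rw [h1]
  exact div_ne_zero (mul_ne_zero two_ne_zero hz.1) h

theorem wz_zw {x0 : ℝ} (hx : -2 < x0) {z : ℂ} (hz : InX x0 z) : wz (zw z) = z := by
  have h := inX_ne hx hz
  have h1 := zw_ne_one hx hz
  rw [wz, div_eq_iff h1, zw]
  field_simp
  ring

/-- the identity behind the change of variables -/
theorem omg_id {x0 : ℝ} (hx : -2 < x0) {w : ℂ} (h1 : 1 - w ≠ 0) (h2 : 1 + w ≠ 0) :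
    wz w + (wz w)⁻¹ = (x0 : ℂ) + ((x0 + 2 : ℝ) : ℂ) *
      ((2 + (((x0 + 2 : ℝ) : ℂ) * w ^ 2 - (x0 : ℂ))) /
        (2 - (((x0 + 2 : ℝ) : ℂ) * w ^ 2 - (x0 : ℂ)))) := by
  have h3 : ((x0 + 2 : ℝ) : ℂ) ≠ 0 := by
    rw [Ne, ofReal_eq_zero]
    linarith
  have h4 : (2 - (((x0 + 2 : ℝ) : ℂ) * w ^ 2 - (x0 : ℂ))) = ((x0 + 2 : ℝ) : ℂ) * ((1 - w) * (1 + w)) := by
    push_cast
    ring
  have h5 : (2 - (((x0 + 2 : ℝ) : ℂ) * w ^ 2 - (x0 : ℂ))) ≠ 0 := by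
    rw [h4]
    exact mul_ne_zero h3 (mul_ne_zero h1 h2)
  have h6 : ((x0 + 2 : ℝ) : ℂ) *
      ((2 + (((x0 + 2 : ℝ) : ℂ) * w ^ 2 - (x0 : ℂ))) /
        (2 - (((x0 + 2 : ℝ) : ℂ) * w ^ 2 - (x0 : ℂ)))) =
      (2 + (((x0 + 2 : ℝ) : ℂ) * w ^ 2 - (x0 : ℂ))) / ((1 - w) * (1 + w)) := by
    rw [h4]
    field_simp
  rw [h6, wz, inv_div]
  field_simp
  push_cast
  ring

theorem omg_re {x0 : ℝ} (hx : -2 < x0) {w : ℂ} (h1 : 1 - w ≠ 0) (h2 : 1 + w ≠ 0) :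
    (wz w + (wz w)⁻¹).re - x0 = (x0 + 2) *
      ((4 - ‖((x0 + 2 : ℝ) : ℂ) * w ^ 2 - (x0 : ℂ)‖ ^ 2) /
        ‖2 - (((x0 + 2 : ℝ) : ℂ) * w ^ 2 - (x0 : ℂ))‖ ^ 2) := by
  rw [omg_id hx h1 h2]
  set y : ℂ := ((x0 + 2 : ℝ) : ℂ) * w ^ 2 - (x0 : ℂ) with hy
  have h3 : ((x0 : ℂ) + ((x0 + 2 : ℝ) : ℂ) * ((2 + y) / (2 - y))).re =
      x0 + (x0 + 2) * ((2 + y) / (2 - y)).re := by
    rw [add_re, ofReal_re, re_ofReal_mul]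
  rw [h3, add_sub_cancel_left]
  congr 1
  rw [div_re, ← Complex.normSq_eq_norm_sq, ← Complex.normSq_eq_norm_sq, ← add_div]
  congr 1
  rw [normSq_apply]
  simp
  ring

/-- `InX` is the domain `Omg` -/
theorem zw_mem {x0 : ℝ} (hx : -2 < x0) {z : ℂ} (hz : InX x0 z) : zw z ∈ Omg x0 := by
  have h1 := zw_ne_one hx hz
  have h2 := zw_ne_neg hx hz
  have h3 := omg_re hx h1 h2
  rw [wz_zw hx hz] at h3
  have h4 := hz.2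
  have h5 : 0 < (x0 + 2) *
      ((4 - ‖((x0 + 2 : ℝ) : ℂ) * zw z ^ 2 - (x0 : ℂ)‖ ^ 2) /
        ‖2 - (((x0 + 2 : ℝ) : ℂ) * zw z ^ 2 - (x0 : ℂ))‖ ^ 2) := by
    rw [← h3]
    linarith
  have h6 : 0 < (4 - ‖((x0 + 2 : ℝ) : ℂ) * zw z ^ 2 - (x0 : ℂ)‖ ^ 2) := by
    by_contra hcon
    push Not at hcon
    have := div_nonpos_of_nonpos_of_nonneg hcon
      (sq_nonneg ‖2 - (((x0 + 2 : ℝ) : ℂ) * zw z ^ 2 - (x0 : ℂ))‖)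
    nlinarith
  show ‖((x0 + 2 : ℝ) : ℂ) * zw z ^ 2 - (x0 : ℂ)‖ < 2
  nlinarith [norm_nonneg (((x0 + 2 : ℝ) : ℂ) * zw z ^ 2 - (x0 : ℂ))]

/-- the frontier: the two ends `w = 1`, `w = -1` and the line `Re (z + 1/z) = x0` -/
theorem omg_line {x0 : ℝ} (hx : -2 < x0) {w : ℂ} (hw : w ∈ frontier (Omg x0)) :
    w = 1 ∨ w = -1 ∨ (1 - w ≠ 0 ∧ 1 + w ≠ 0 ∧ wz w ≠ 0 ∧ (wz w + (wz w)⁻¹).re = x0) := by
  by_cases h1 : 1 - w = 0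
  · left
    linear_combination -h1
  by_cases h2 : 1 + w = 0
  · right; left
    linear_combination h2
  right; right
  refine ⟨h1, h2, div_ne_zero h2 h1, ?_⟩
  have h3 := omg_re hx h1 h2
  rw [omg_frontier hw, show (4 - (2 : ℝ) ^ 2) = 0 by norm_num, zero_div, mul_zero] at h3
  linarith

end Pool.Agent.Helper6.MONO
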