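import Pool.Agent.Helper39.CX.SLT

/-!
Certificates for a scheme with fewer gluings give certificates for a scheme with more gluings
(single runs, or superblocks of type A only, against superblocks of types A and B).
-/

set_option autoImplicit false
noncomputable section
namespace Pool.Agent.Helper39.SLT

open Pool.Agent.Helper6.MONO (nxD sD okD mm)
open Pool.Agent.Helper21.SUP
open Pool.Agent.Helper21.MIR
open Pool.Agent.Helper39.C75

variable {τ : Type}

/-- `Z'` glues less than `Z`, and the types agree -/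
structure Sub (Z' Z : Sch τ) : Prop where
  start : ∀ s m, Z'.start s m = Z.start s m
  cont : ∀ t s m, Z'.cont t s m = Z.cont t s m ∨
    (Z'.cont t s m = none ∧ ∀ t', Z.cont t s m = some t' → Z.start s m = t')

theorem Sub.refl (Z : Sch τ) : Sub Z Z := ⟨fun _ _ => rfl, fun _ _ _ => Or.inl rfl⟩

theorem Sub.seg {Z' Z : Sch τ} (h : Sub Z' Z) : ∀ (l : List ℕ) (t : τ) (s : GS) (t' : τ),
    Z'.seg t s l = some t' → Z.seg t s l = some t' := by
  intro l
  induction l with
  | nil => exact fun t s t' h1 => h1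
  | cons m l ih =>
    intro t s t' h1
    obtain ⟨t₁, h2, h3⟩ := seg_cons Z' t s m l t' h1
    have h4 : Z.cont t s m = some t₁ := by
      rcases h.cont t s m with h5 | ⟨h5, -⟩
      · rw [← h5]; exact h2
      · rw [h5] at h2; cases h2
    show (match Z.cont t s m with
          | none => none
          | some t' => Z.seg t' (nx s m) l) = some t'
    rw [h4]
    exact ih _ _ _ h3

/-- regions respected by the blocks of a scheme -/
def BlkCert (Z : Sch τ) (p q r : ℕ) (RM : GS → ℕ → ℂ → Matrix (Fin 3) (Fin 3) ℂ) (w : ℂ)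
    (R : SSt τ → Set (Fin 3 → ℂ)) : Prop :=
  ∀ (o : Option τ) (f : Bool) (s : GS) (m : ℕ) (ms : List ℕ) (t : τ), DG s →
    Z.Blk p q r o f s m ms t → ∀ v ∈ R (s, f, o),
      (gM RM s (m :: ms) w).mulVec v ∈ R (sD s (m :: ms), fD p q r f s (m :: ms), some t)

theorem DG_sD' : ∀ (l : List ℕ) (s : GS), DG s → DG (sD s l) := by
  intro l
  induction l with
  | nil => intro s h; rw [sD_nil]; exact h
  | cons m l ih => intro s h; rw [sD_cons]; exact ih _ (DG_nx s m h)

/-- FEWER GLUINGS ARE STRONGER -/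
theorem BlkCert.sub {Z' Z : Sch τ} {p q r : ℕ} {RM : GS → ℕ → ℂ → Matrix (Fin 3) (Fin 3) ℂ}
    {w : ℂ} {R : SSt τ → Set (Fin 3 → ℂ)} (hZ : Sub Z' Z) (h : BlkCert Z' p q r RM w R) :
    BlkCert Z p q r RM w R := by
  have key : ∀ (L : ℕ) (ms : List ℕ), ms.length ≤ L → ∀ (o : Option τ) (f : Bool) (s : GS)
      (m : ℕ) (t : τ), DG s → Z'.new o s m → okD p q r f s (m :: ms) →
      Z.seg (Z.start s m) (nx s m) ms = some t → ∀ v ∈ R (s, f, o),
      (gM RM s (m :: ms) w).mulVec v ∈ R (sD s (m :: ms), fD p q r f s (m :: ms), some t) := by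
    intro L
    induction L with
    | zero =>
      intro ms hL o f s m t hD hn hok hs v hv
      have hms : ms = [] := List.length_eq_zero_iff.1 (Nat.le_zero.1 hL)
      subst hms
      refine h o f s m [] t hD ⟨hn, hok, ?_⟩ v hv
      rw [hZ.start]
      exact hs
    | succ L ih =>
      intro ms hL o f s m t hD hn hok hs v hv
      obtain ⟨l, l', t₁, h1, h2, h3⟩ := Z'.split ms (Z'.start s m) (nx s m)
      subst h1
      have h4 := hZ.seg l _ _ _ h2
      rw [hZ.start] at h4
      obtain ⟨t₂, h5, h6⟩ := seg_append Z l l' _ _ _ hs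
      have h7 : t₂ = t₁ := by
        rw [h4] at h5
        exact (Option.some.inj h5).symm
      subst h7
      have hok2 : okD p q r f s ((m :: l) ++ l') := hok
      rw [okD_append] at hok2
      have h8 := h o f s m l t₂ hD ⟨hn, hok2.1, h2⟩ v hv
      match l', hL, hok2, h3, h6 with
      | [], _, _, _, h6 =>
        have h9 : t₂ = t := Option.some.inj h6
        subst h9
        rw [List.append_nil]
        exact h8
      | m' :: l'', hL, hok2, h3, h6 =>
        obtain ⟨t₃, h9, h10⟩ := seg_cons Z t₂ _ m' l'' t h6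
        have h11 := h3 m' l'' rfl
        have h12 : Z.start (sD (nx s m) l) m' = t₃ := by
          rcases hZ.cont t₂ (sD (nx s m) l) m' with h13 | ⟨-, h13⟩
          · rw [h13, h9] at h11; cases h11
          · exact h13 t₃ h9
        rw [← h12] at h10
        have e : sD s (m :: l) = sD (nx s m) l := sD_cons s m l
        have h14 := ih l'' (by
            simp only [List.length_cons, List.length_append] at hL
            omega) (some t₂) (fD p q r f s (m :: l)) (sD s (m :: l)) m' t
          (DG_sD' _ _ hD) (by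
            intro t' ht'
            cases ht'
            rw [e]
            exact h11) hok2.2 (by rw [e]; exact h10) _ h8
        have e1 : m :: (l ++ m' :: l'') = (m :: l) ++ (m' :: l'') := rfl
        rw [e1, gM_append, sD_append, fD_append, ← Matrix.mulVec_mulVec]
        exact h14
  intro o f s m ms t hD hb v hv
  obtain ⟨hn, hok, hs⟩ := hb
  refine key ms.length ms le_rfl o f s m t hD ?_ hok hs v hv
  intro t' ht'
  rcases hZ.cont t' s m with h1 | ⟨h1, -⟩
  · rw [h1]; exact hn t' ht'
  · exact h1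

/-- the scheme without any gluing -/
def none' (Z : Sch τ) : Sch τ := ⟨Z.start, fun _ _ _ => none⟩

/-- a single run certificate with the types of the last run -/
theorem BlkCert.of_single {Z : Sch τ} {p q r : ℕ} {RM : GS → ℕ → ℂ → Matrix (Fin 3) (Fin 3) ℂ}
    {w : ℂ} {R : SSt τ → Set (Fin 3 → ℂ)}
    (hZ : ∀ t s m t', Z.cont t s m = some t' → Z.start s m = t')
    (h : ∀ (s : GS) (f : Bool) (o : Option τ) (m : ℕ), DG s → ok1 p q r f s m →
      ∀ v ∈ R (s, f, o), (RM s m w).mulVec v ∈
        R (nx s m, decide (m = mm p q r s.1 s.2.1), some (Z.start s m))) :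
    BlkCert Z p q r RM w R := by
  have h0 : Sub (none' Z) Z := ⟨fun _ _ => rfl, fun t s m => Or.inr ⟨rfl, fun t' ht' =>
    hZ t s m t' ht'⟩⟩
  refine BlkCert.sub h0 ?_
  intro o f s m ms t hD hb v hv
  obtain ⟨hn, hok, hs⟩ := hb
  match ms, hok, hs with
  | [], hok, hs =>
    have h1 : Z.start s m = t := Option.some.inj hs
    subst h1
    rw [okD_cons] at hok
    have h2 := h s f o m hD hok.1 v hv
    rw [sD_cons, sD_nil]
    simp only [gM, one_mul]
    exact h2
  | m' :: ms', hok, hs =>
    have : (none : Option τ) = some t := hs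
    cases this

/-- THE POINTWISE CERTIFICATE from regions respected by the blocks -/
theorem ptr_of_blks {Z : Sch τ} {p q r : ℕ} {RM : GS → ℕ → ℂ → Matrix (Fin 3) (Fin 3) ℂ} {w : ℂ}
    {R : SSt τ → Set (Fin 3 → ℂ)} (hreg : ∀ σ, IsRegion (R σ)) (h : BlkCert Z p q r RM w R)
    (Start : SSt τ → (ℂ → Fin 3 → ℂ) → Prop) (hst : ∀ σ v, Start σ v → v w ∈ R σ)
    (K : SBlk Z p q r → TR (SBlk Z p q r)) (hK : ∀ b, SlitOK RM w R b (K b)) (C : ℝ)
    (hbd : ∀ σ v j, v ∈ R σ → ‖v j‖ ≤ C * ‖v 0‖) :
    PTr SBlk.src SBlk.tgt (fun b w => gM RM b.s b.runs w) Start K C w R := by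
  refine ⟨⟨hreg, fun b v hv => h b.o b.f b.s b.m b.ms b.t b.hs b.hb v hv, hst⟩, fun b => ?_, hbd⟩
  have hb := hK b
  revert hb
  cases K b with
  | ref r => exact fun hb => hb
  | self g => exact fun hb => hb
  | comp b' g =>
    rintro ⟨j, rfl, hj⟩ v hv
    have hd := (drop j b)
    have h1 := hj _ (h (drop j b).o (drop j b).f (drop j b).s (drop j b).m (drop j b).ms
      (drop j b).t (drop j b).hs (drop j b).hb v hv)
    show (gM RM b.s b.runs w).mulVec v 0 /
      (g w * (gM RM b.s (drop j b).runs w).mulVec v 0) ∈ Complex.slitPlane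
    rw [drop_mat j b RM w, ← Matrix.mulVec_mulVec]
    exact h1

end Pool.Agent.Helper39.SLT
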