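import Pool.Agent.Helper39.CX.GLU

/-!
The sandwich for superblocks of one kind: entry set `E` and exit set `X` at a base state, all powers
of the period from `E` to `X`.
-/

set_option autoImplicit false
noncomputable section
namespace Pool.Agent.Helper39.SLT

open Pool.Agent.Helper6.MONO (nxD sD okD mm RMb RMb_three Um WA_pow TA tauA nuA kapA omS kk LNI_kk
  LNI_mm nuA_ne)
open Pool.Agent.Helper21.SUP
open Pool.Agent.Helper21.MIR
open Pool.Agent.Helper39.C75

variable {p q r : ℕ} {RM : GS → ℕ → ℂ → Matrix (Fin 3) (Fin 3) ℂ} {w : ℂ}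

theorem fD_indep (p q r : ℕ) (f f' : Bool) (s : GS) {l : List ℕ} (h : l ≠ []) :
    fD p q r f s l = fD p q r f' s l := by
  cases l with
  | nil => exact absurd rfl h
  | cons m ms => rfl

/-- the period as a power -/
theorem sD_per {x P : ℕ} {s0 : GS} (hP : sD s0 (List.replicate P x) = s0) (k : ℕ) :
    sD s0 (List.replicate (P * k) x) = s0 := by
  induction k with
  | zero => exact sD_nil s0
  | succ k ih => rw [Nat.mul_succ, List.replicate_add, sD_append, ih, hP]

theorem gM_per {x P : ℕ} {s0 : GS} (hP : sD s0 (List.replicate P x) = s0) (k : ℕ) :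
    gM RM s0 (List.replicate (P * k) x) w = gM RM s0 (List.replicate P x) w ^ k := by
  induction k with
  | zero => simp [gM]
  | succ k ih =>
    rw [Nat.mul_succ, List.replicate_add, gM_append, ih, sD_per hP, pow_succ']

/-- THE SANDWICH. `b` runs from the source `s` to the base state `s0`, `P` runs for one period. -/
theorem resp_sw {R : SSt Ty → Set (Fin 3 → ℂ)} {x P b : ℕ} {s0 s : GS} {f : Bool}
    {o : Option Ty} {t : Ty} (hP0 : 0 < P) (hP : sD s0 (List.replicate P x) = s0)
    (hb : sD s (List.replicate b x) = s0) (E X : Set (Fin 3 → ℂ))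
    (hfam : ∀ n : ℕ, ∀ v ∈ E, (gM RM s0 (List.replicate P x) w ^ (n + 1)).mulVec v ∈ X)
    (hent : ∀ v ∈ R (s, f, o), (gM RM s (List.replicate b x) w).mulVec v ∈ E)
    (hex : ∀ j < P, ∀ v ∈ X, (gM RM s0 (List.replicate j x) w).mulVec v ∈
      R (sD s0 (List.replicate j x), fD p q r false s0 (List.replicate (P + j) x), some t))
    (hdir : ∀ k, 0 < k → k < b + P → Resp p q r RM w R s f o (List.replicate k x) t)
    (k : ℕ) : Resp p q r RM w R s f o (List.replicate (k + 1) x) t := by
  by_cases hk : k + 1 < b + P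
  · exact hdir (k + 1) (Nat.succ_pos k) hk
  · push Not at hk
    obtain ⟨n, j, hj, hkn⟩ : ∃ n j, j < P ∧ k + 1 = b + (P * (n + 1) + j) := by
      refine ⟨(k + 1 - b) / P - 1, (k + 1 - b) % P, Nat.mod_lt _ hP0, ?_⟩
      have h1 : 1 ≤ (k + 1 - b) / P := by
        rw [Nat.le_div_iff_mul_le hP0]
        omega
      have h2 : (k + 1 - b) / P - 1 + 1 = (k + 1 - b) / P := by omega
      rw [h2]
      have h3 := Nat.div_add_mod (k + 1 - b) P
      omega
    intro v hv
    have h1 := hex j hj _ (hfam n _ (hent v hv))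
    rw [hkn, List.replicate_add, gM_append, hb, List.replicate_add, gM_append, sD_per hP,
      gM_per hP, sD_append, hb, sD_append, sD_per hP, fD_append, hb]
    have e : P * (n + 1) + j = P * n + (P + j) := by ring
    have h2 : fD p q r (fD p q r f s (List.replicate b x)) s0
        (List.replicate (P * (n + 1)) x ++ List.replicate j x) =
        fD p q r false s0 (List.replicate (P + j) x) := by
      rw [← List.replicate_add, e, List.replicate_add, fD_append, sD_per hP]
      apply fD_indep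
      intro h0
      have h3 := congrArg List.length h0
      rw [List.length_replicate, List.length_nil] at h3
      omega
    rw [h2, ← Matrix.mulVec_mulVec, ← Matrix.mulVec_mulVec]
    exact h1

/-! ### type A -/

theorem sD_33 (s : GS) : sD s (List.replicate 2 3) = s := by
  have h : sD s [3, 3] = s := by
    rw [sD_cons, sD_cons, sD_nil]
    exact nx_odd_odd s 3 3 rfl rfl
  exact h

theorem sD_222 (s : GS) : sD s (List.replicate 3 2) = s := by
  have h : sD s [2, 2, 2] = s := by
    rw [sD_cons, sD_cons, sD_cons, sD_nil]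
    exact nx_even3 s 2 rfl
  exact h

/-- all powers of the A cycle at the base state `s`, from the family -/
theorem fam_A (hp : 3 ≤ p) (hq : 3 ≤ q) (hr : 3 ≤ r) {s : GS} (hs : DG s)
    (ho : omS p q r s w ≠ 0) (ho' : omS p q r (nx s 3) w ≠ 0)
    (hk : 1 ≤ (kapA (kk p q r s.1 s.2.1) (kk p q r s.1 s.2.2) (omS p q r s w)
      (omS p q r (nx s 3) w)).re)
    {J : ℕ} (D : ℕ → Set ℂ)
    (hD : ∀ m, Pool.Agent.Helper42.CH.powA (tauA (kk p q r s.1 s.2.1) (kk p q r s.1 s.2.2)
      (omS p q r s w) (omS p q r (nx s 3) w)) m ∈ D (min m J))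
    {E X : Set (Fin 3 → ℂ)} (hX : ∀ (c : ℂ) (v : Fin 3 → ℂ), c ≠ 0 → v ∈ X → c • v ∈ X)
    (hT : ∀ i ≤ J, ∀ A ∈ D i, ∀ v ∈ E,
      (TA (kk p q r s.1 s.2.1) (kk p q r s.1 s.2.2) (omS p q r s w) (omS p q r (nx s 3) w)
        A).mulVec v ∈ X) :
    ∀ n : ℕ, ∀ v ∈ E, (gM (RMb p q r) s (List.replicate 2 3) w ^ (n + 1)).mulVec v ∈ X := by
  have k1 := (LNI_kk hp hq hr _ _ hs.1).1
  have hs' := DG_nx s 3 hs
  have e0 : nx s 3 = (s.1, s.2.2, s.2.1) := nx_odd s 3 rfl
  have e00 : nx (nx s 3) 3 = s := nx_odd_odd s 3 3 rfl rfl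
  have k2 : 0 < kk p q r s.1 s.2.2 := by
    have := (LNI_kk hp hq hr _ _ hs'.1).1
    rw [e0] at this
    exact this
  have hn := nuA_ne k1 k2 ho ho'
  have eV : RMb p q r (nx s 3) 3 w = Um (kk p q r s.1 s.2.2) (omS p q r s w)
      (omS p q r s w * omS p q r (nx s 3) w) := by
    rw [RMb_three hp hq hr hs', e00, mul_comm (omS p q r (nx s 3) w)]
    rw [e0]
  have eU : RMb p q r s 3 w = Um (kk p q r s.1 s.2.1) (omS p q r (nx s 3) w)
      (omS p q r s w * omS p q r (nx s 3) w) := RMb_three hp hq hr hs w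
  intro n v hv
  obtain ⟨c, hc, e1⟩ := WA_pow hn hk n
  have e2 : gM (RMb p q r) s (List.replicate 2 3) w =
      RMb p q r (nx s 3) 3 w * RMb p q r s 3 w := by
    show gM (RMb p q r) s [3, 3] w = _
    simp only [gM, one_mul]
  rw [e2, eV, eU, e1, Matrix.smul_mulVec]
  exact hX c _ hc (hT _ (min_le_right _ _) _ (hD n) v hv)

theorem alL_rep (x k : ℕ) : alL x x k = List.replicate k x := alL_self x k

end Pool.Agent.Helper39.SLT
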